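import Mathlib

/-! Chevalley's extension theorem for homomorphisms to an algebraically closed field. -/

open Polynomial

namespace G1

namespace Chev

variable {Ω E : Type} [Field Ω] [Field E]

/-- The subring is the graph of a function. -/
def Fn (S : Subring (Ω × E)) : Prop := ∀ z ∈ S, z.1 = 0 → z.2 = 0

lemma exists_max {S₀ : Subring (Ω × E)} (h₀ : Fn S₀) :
    ∃ S, S₀ ≤ S ∧ Fn S ∧ ∀ S', Fn S' → S ≤ S' → S' ≤ S := by
  obtain ⟨S, h1, h2⟩ := zorn_le_nonempty₀ {S : Subring (Ω × E) | Fn S} (fun c hc hch y hy =>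
    ⟨sSup c, fun z hz => by
      obtain ⟨T, hT, hz⟩ := (Subring.mem_sSup_of_directedOn ⟨y, hy⟩ hch.directedOn).1 hz
      exact hc hT z hz, fun _ => le_sSup⟩) S₀ h₀
  exact ⟨S, h1, h2.1, fun S' h3 h4 => h2.2 h3 h4⟩

variable {S : Subring (Ω × E)}

lemma inv_mem (h : Fn S) (hm : ∀ S', Fn S' → S ≤ S' → S' ≤ S) {s : Ω × E} (hs : s ∈ S)
    (h2 : s.2 ≠ 0) : s * s⁻¹ = 1 ∧ s⁻¹ ∈ S := by
  have h1 : s.1 ≠ 0 := fun h1 => h2 (h s hs h1)
  have e : s * s⁻¹ = 1 := Prod.ext (mul_inv_cancel₀ h1) (mul_inv_cancel₀ h2)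
  let T : Subring (Ω × E) :=
    { carrier := {z | ∃ n : ℕ, z * s ^ n ∈ S}
      mul_mem' := fun {a b} ⟨m, ha⟩ ⟨n, hb⟩ => ⟨m + n, by
        convert mul_mem ha hb using 1; ring⟩
      one_mem' := ⟨0, by simp⟩
      add_mem' := fun {a b} ⟨m, ha⟩ ⟨n, hb⟩ => ⟨m + n, by
        convert add_mem (mul_mem ha (pow_mem hs n)) (mul_mem hb (pow_mem hs m)) using 1; ring⟩
      zero_mem' := ⟨0, by simp⟩
      neg_mem' := fun {a} ⟨m, ha⟩ => ⟨m, by simpa using ha⟩ }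
  refine ⟨e, hm T (fun z ⟨n, hz⟩ h0 => ?_) (fun z hz => ⟨0, by simpa using hz⟩)
    ⟨1, by rw [pow_one, mul_comm, e]; exact one_mem _⟩⟩
  simpa [h2] using h _ hz (by simp [h0])

lemma ext_mem (hm : ∀ S', Fn S' → S ≤ S' → S' ≤ S) {x : Ω} {e : E}
    (h : ∀ P : S[X], P.eval₂ ((RingHom.fst Ω E).comp S.subtype) x = 0 →
      P.eval₂ ((RingHom.snd Ω E).comp S.subtype) e = 0) : (x, e) ∈ S := by
  refine hm (eval₂RingHom S.subtype (x, e)).range ?_ (fun z hz => ⟨C ⟨z, hz⟩, by simp⟩)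
    ⟨X, by simp⟩
  rintro _ ⟨P, rfl⟩ h0
  exact (hom_eval₂ P S.subtype (RingHom.snd Ω E) (x, e)).trans
    (h P ((hom_eval₂ P S.subtype (RingHom.fst Ω E) (x, e)).symm.trans h0))

lemma exists_val [IsAlgClosed E] (h : Fn S) (hm : ∀ S', Fn S' → S ≤ S' → S' ≤ S) :
    ∃ O : ValuationSubring Ω, ∀ x, x ∈ O ↔ ∃ e, (x, e) ∈ S := by
  have hu : ∀ s : S, s.1.2 ≠ 0 → IsUnit s := fun s hs =>
    IsUnit.of_mul_eq_one ⟨_, (inv_mem h hm s.2 hs).2⟩ (Subtype.ext (inv_mem h hm s.2 hs).1)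
  have : IsLocalRing S := .of_isUnit_or_isUnit_one_sub_self fun s => by
    by_cases hs : s.1.2 = 0
    · exact Or.inr (hu _ (by simp [hs]))
    · exact Or.inl (hu _ hs)
  have : IsLocalHom ((RingHom.snd Ω E).comp S.subtype) := ⟨fun s hs => hu s hs.ne_zero⟩
  obtain ⟨O, hO, hl⟩ := IsLocalRing.exists_factor_valuationRing ((RingHom.fst Ω E).comp S.subtype)
  refine ⟨O, fun x => ⟨fun hx => ?_, fun ⟨e, he⟩ => hO ⟨_, he⟩⟩⟩
  let J := (RingHom.ker (eval₂RingHom ((RingHom.fst Ω E).comp S.subtype) x)).map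
    (mapRingHom (IsLocalRing.residue S))
  have hJ : J ≠ ⊤ := by
    intro hJ
    obtain ⟨P, hP, hP1⟩ := (Ideal.mem_map_iff_of_surjective _
      (map_surjective _ IsLocalRing.residue_surjective)).1 ((Ideal.eq_top_iff_one J).1 hJ)
    have h1 : (1 - P).eval₂ ((RingHom.fst Ω E).comp S.subtype) x = 1 := by
      rw [eval₂_sub, eval₂_one, show P.eval₂ _ x = 0 from hP, sub_zero]
    have h2 : (1 - P).map (IsLocalRing.residue S) = 0 := by
      rw [Polynomial.map_sub, Polynomial.map_one, show P.map _ = 1 from hP1, sub_self]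
    have h3 : O.valuation ((1 - P).eval₂ ((RingHom.fst Ω E).comp S.subtype) x) < 1 := by
      rw [eval₂_eq_sum_range]
      refine O.valuation.map_sum_lt one_ne_zero fun i _ => ?_
      have h4 : (1 - P).coeff i ∈ IsLocalRing.maximalIdeal S := by
        rw [← IsLocalRing.residue_eq_zero_iff, ← coeff_map, h2, coeff_zero]
      have h5 := (O.valuation_lt_one_iff ⟨_, hO ((1 - P).coeff i)⟩).1 fun h5 =>
        h4 (hl.1 _ h5)
      rw [map_mul, map_pow]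
      exact (mul_le_of_le_one_right' (pow_le_one' ((O.valuation_le_one_iff x).2 hx) i)).trans_lt h5
    simp [h1] at h3
  obtain ⟨g, hg⟩ := (IsPrincipalIdealRing.principal J).principal
  obtain ⟨e, he⟩ := IsAlgClosed.exists_eval₂_eq_zero
    (IsLocalRing.ResidueField.lift ((RingHom.snd Ω E).comp S.subtype)) g fun h0 => hJ (by
      rw [hg, Ideal.submodule_span_eq, Ideal.span_singleton_eq_top]
      exact isUnit_iff_degree_eq_zero.2 h0)
  refine ⟨e, ext_mem hm fun P hP => ?_⟩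
  have h1 : P.map (IsLocalRing.residue S) ∈ J := Ideal.mem_map_of_mem _ hP
  rw [hg, Ideal.submodule_span_eq, Ideal.mem_span_singleton] at h1
  obtain ⟨q, hq⟩ := h1
  rw [← IsLocalRing.ResidueField.lift_comp_residue ((RingHom.snd Ω E).comp S.subtype),
    ← eval₂_map, hq, eval₂_mul, he, zero_mul]

end Chev

open Chev in
theorem blockChev : ∀ (Ω E : Type) [Field Ω] [Field E] [IsAlgClosed E] (R : Subring Ω)
    (ψ : R →+* E), ∃ (O : ValuationSubring Ω) (ψ' : Ω → E), (∀ a ∈ R, a ∈ O) ∧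
    (∀ a : R, ψ' a = ψ a) ∧ (∀ a ∈ O, ∀ b ∈ O, ψ' (a + b) = ψ' a + ψ' b) ∧
    (∀ a ∈ O, ∀ b ∈ O, ψ' (a * b) = ψ' a * ψ' b) ∧ ∀ a ∈ O, ψ' a ≠ 0 → a⁻¹ ∈ O := by
  intro Ω E _ _ _ R ψ
  obtain ⟨S, h0, h, hm⟩ := exists_max (S₀ := (R.subtype.prod ψ).range) (by
    rintro _ ⟨a, rfl⟩ ha
    rw [show a = 0 from Subtype.ext ha, map_zero]; rfl)
  obtain ⟨O, hO⟩ := exists_val h hm
  have hf : ∀ x, ∃ e, x ∈ O → (x, e) ∈ S := fun x => by
    by_cases hx : x ∈ O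
    · exact ((hO x).1 hx).imp fun _ he _ => he
    · exact ⟨0, fun h => absurd h hx⟩
  choose f hf using hf
  have hu : ∀ x e, (x, e) ∈ S → f x = e := fun x e he =>
    sub_eq_zero.1 (h _ (sub_mem (hf x ((hO x).2 ⟨e, he⟩)) he) (sub_self x))
  exact ⟨O, f, fun a ha => (hO a).2 ⟨_, h0 ⟨⟨a, ha⟩, rfl⟩⟩, fun a => hu _ _ (h0 ⟨a, rfl⟩),
    fun a ha b hb => hu _ _ (add_mem (hf a ha) (hf b hb)),
    fun a ha b hb => hu _ _ (mul_mem (hf a ha) (hf b hb)),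
    fun a ha h1 => (hO _).2 ⟨_, (Chev.inv_mem h hm (hf a ha) h1).2⟩⟩

end G1
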