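import Pool.Agent.Lib.G1.Blue

/-! The adjunction inequality for plane curves. -/

open Finsupp MvPolynomial IntermediateField Module
open Pool.Agent.Lib.MP_cc3443_ag Pool.Agent.Lib.MP_3c72fe_ag

noncomputable section

namespace G1

namespace ADJ

lemma deg_pderiv (k : Fin 2) (f : P2) : (pderiv k f).totalDegree ≤ f.totalDegree - 1 := by
  rw [totalDegree, Finset.sup_le_iff]
  intro s hs
  have h1 : s + Finsupp.single k 1 ∈ f.support := mem_support_iff.2 fun h =>
    mem_support_iff.1 hs (by rw [coeff_pderiv, h, zero_mul])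
  have h2 := le_totalDegree h1
  rw [Finsupp.sum_add_index' (fun _ => rfl) (fun _ _ _ => rfl), Finsupp.sum_single_index rfl] at h2
  omega

lemma cast1 (m : ℕ) : ((m - 1 : ℕ) : ℤ) * m = m * (m - 1) := by
  cases m <;> simp [mul_comm]

lemma cast2 (m : ℕ) : (((m - 1) * (m - 1 + 1) : ℕ) : ℤ) = m * (m - 1) := by
  cases m <;> simp [mul_comm]

variable {K : Type} [Field K] [Algebra ℂ K] [IsFF K]

lemma el_le_of {E : Place K →₀ ℤ} {a b : ℤ} (ha : a ≤ degree E)
    (h : ∀ E' : Place K →₀ ℤ, degree E' = a → el E' ≤ b) : el E ≤ b + (degree E - a) := by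
  obtain ⟨P⟩ : Nonempty (Place K) := inferInstance
  have h1 : degree (E - Finsupp.single P (degree E - a)) = a := by
    rw [map_sub, degree_single]
    ring
  have h2 := el_le_add (E := E) (E' := E - Finsupp.single P (degree E - a))
    (sub_le_self _ (Finsupp.single_nonneg.2 (by omega)))
  have h3 := h _ h1
  omega

variable {ι : Type} [Fintype ι] {p : ι → Fin 2 → ℂ}

lemma key (hD : St_DIM) (hp : Function.Injective p) (c : Crv K) : ∃ E : Place K →₀ ℤ,
    degree E = (c.d - 1) * c.d - ∑ i, (c.m p i : ℤ) * (c.m p i - 1) ∧ 0 ≤ degree E ∧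
      (c.d : ℤ) * (c.d + 1) ≤ 2 * el E + ∑ i, (c.m p i : ℤ) * (c.m p i - 1) := by
  classical
  have h2 : 2 ≤ c.d := c.two
  have e1 : ((c.d - 1 : ℕ) : ℤ) = c.d - 1 := by omega
  have hE : degree (c.cls p (c.d - 1) fun i => c.m p i - 1) =
      (c.d - 1) * c.d - ∑ i, (c.m p i : ℤ) * (c.m p i - 1) := by
    rw [c.degree_cls, e1]
    exact congrArg₂ _ rfl (Finset.sum_congr rfl fun i _ => cast1 _)
  refine ⟨_, hE, ?_, ?_⟩
  · by_cases h : ∃ j, 1 ≤ c.m p j
    · obtain ⟨j, hj⟩ := h
      obtain ⟨k, hk⟩ := exists_not_dvd_pderiv c.prime.ne_zero (p := p j)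
        (by simpa using c.f_mem j hj)
      refine degree_nonneg_of_mem (c.ev_mem_LL hp (deg_pderiv k c.f) fun i => ?_)
        fun e => hk ((c.ker _).1 e)
      rcases Nat.eq_zero_or_pos (c.m p i) with h0 | h0
      · simp [h0]
      · exact dv_mem _ (c.f_mem i (by omega))
    · rw [hE, Finset.sum_eq_zero fun i _ => by
        rw [show c.m p i = 0 by have := not_exists.1 h i; omega]; simp]
      nlinarith
  · obtain ⟨N, g, g1, g2, g3⟩ := hD ι p (c.d - 1) fun i => c.m p i - 1
    have h3 : LinearIndependent ℂ fun j => aeval c.ξ (g j) := by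
      rw [Fintype.linearIndependent_iff] at g1 ⊢
      intro a ha
      refine g1 a (c.eq_zero_of_lt (by simpa [map_sum] using ha) ?_)
      refine lt_of_le_of_lt (totalDegree_finsetSum_le fun j _ =>
        (totalDegree_smul_le _ _).trans (g3 j).1) ?_
      change c.d - 1 < c.d
      omega
    have h4 := card_le_el h3 fun j => c.ev_mem_LL hp (g3 j).1 (g3 j).2
    rw [Fintype.card_fin] at h4
    have h5 : (((c.d - 1 + 1) * (c.d - 1 + 2) : ℕ) : ℤ) ≤ _ := Int.ofNat_le.2 g2
    rw [Nat.cast_add, Nat.cast_sum, Finset.sum_congr rfl fun i _ => cast2 (c.m p i)] at h5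
    push_cast at h5
    rw [e1] at h5
    nlinarith

end ADJ

theorem stADJ (hD : St_DIM) : St_ADJ := by
  intro ι _ p hp
  refine ⟨fun f hf => ?_, fun K _ _ _ c hK => ?_⟩
  · by_cases h2 : 2 ≤ f.totalDegree
    · obtain ⟨K, _, _, c, rfl⟩ := exists_crv_of_prime hf h2
      have := c.isFF
      obtain ⟨E, h1, h3, h4⟩ := ADJ.key hD hp c
      have h5 := ADJ.el_le_of (E := E) (a := -1) (b := 0) (by omega)
        fun E' h => (el_eq_zero (by omega)).le
      change ∑ i, (c.m p i : ℤ) * (c.m p i - 1) ≤ c.d * (c.d - 3) + 2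
      nlinarith
    · rw [Finset.sum_eq_zero fun i _ => ?_]
      · have : f.totalDegree = 0 ∨ f.totalDegree = 1 := by omega
        rcases this with h | h <;> simp [h]
      · have h1 := mult_le (p i) f
        have : mult (p i) f = 0 ∨ mult (p i) f = 1 := by omega
        rcases this with h | h <;> simp [h]
  · obtain ⟨E, h1, h3, h4⟩ := ADJ.key hD hp c
    have h2 : (2 : ℤ) ≤ c.d := Int.ofNat_le.2 c.two
    by_cases h5 : 1 ≤ degree E
    · have h6 := ADJ.el_le_of (b := 1) h5 fun E' h => hK.el_le_one h.le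
      nlinarith
    · have h6 := hK.el_le_one (E := E) (by omega)
      have h7 : degree E = 0 := by omega
      nlinarith

end G1
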