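import Pool.Agent.Lib.G1.Blue

open Finsupp MvPolynomial IntermediateField Module
open Pool.Agent.Lib.MP_cc3443_ag Pool.Agent.Lib.MP_3c72fe_ag

noncomputable section

namespace G1

namespace BEZ

variable {ι : Type} [Fintype ι] {p : ι → Fin 2 → ℂ}

lemma mult_mul (q : Fin 2 → ℂ) {f g : P2} (hf : f ≠ 0) (hg : g ≠ 0) :
    mult q (f * g) = mult q f + mult q g := by
  unfold mult
  rw [map_mul, Polynomial.natTrailingDegree_mul (io_ne_zero q hf) (io_ne_zero q hg)]

lemma big (hp : Function.Injective p) {f g : P2} (hf : Prime f) (h2 : 2 ≤ f.totalDegree)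
    (hfg : ¬ f ∣ g) : ∑ i, mult (p i) f * mult (p i) g ≤ f.totalDegree * g.totalDegree := by
  obtain ⟨K, _, _, c, rfl⟩ := exists_crv_of_prime hf h2
  have := c.isFF
  have hg : g ≠ 0 := by
    rintro rfl
    exact hfg (dvd_zero _)
  have := degree_nonneg_of_mem (c.ev_mem_LL hp (e := g.totalDegree)
    (n := fun i => mult (p i) g) le_rfl fun i => (mem_pow_iff hg).2 le_rfl)
    fun h0 => hfg ((c.ker g).1 h0)
  rw [c.degree_cls] at this
  have h3 : ((∑ i, mult (p i) c.f * mult (p i) g : ℕ) : ℤ) ≤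
      ((c.f.totalDegree * g.totalDegree : ℕ) : ℤ) := by
    push_cast
    simp only [mul_comm (mult (p _) c.f : ℤ)]
    linarith
  exact_mod_cast h3

lemma eval_zero {q : Fin 2 → ℂ} {f : P2} (hf : f ≠ 0) (h : mult q f ≠ 0) : eval q f = 0 :=
  mem_mi.1 (by simpa using (mem_pow_iff hf (n := 1)).2 (by omega))

lemma one_le {f : P2} (hf : Prime f) : 1 ≤ f.totalDegree := by
  by_contra h
  have h0 : f.totalDegree = 0 := by omega
  rw [totalDegree_eq_zero_iff_eq_C] at h0
  refine hf.not_isUnit ?_
  have h1 : coeff 0 f ≠ 0 := fun h1 => hf.ne_zero (by rw [h0, h1, map_zero])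
  rw [h0]
  exact (isUnit_iff_ne_zero.2 h1).map C

lemma lin_dvd {a b c a' b' c' : ℂ} {q q' : Fin 2 → ℂ} (hq : q ≠ q') (hab : a ≠ 0 ∨ b ≠ 0)
    (h1 : a * q 0 + b * q 1 + c = 0) (h2 : a * q' 0 + b * q' 1 + c = 0)
    (h3 : a' * q 0 + b' * q 1 + c' = 0) (h4 : a' * q' 0 + b' * q' 1 + c' = 0) :
    lin a b c ∣ lin a' b' c' := by
  have hd : a * b' - a' * b = 0 := by
    by_contra hd
    apply hq
    ext k
    fin_cases k
    · refine sub_eq_zero.1 ((mul_eq_zero.1 ?_).resolve_left hd)
      change _ * (q 0 - q' 0) = 0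
      linear_combination b' * (h1 - h2) - b * (h3 - h4)
    · refine sub_eq_zero.1 ((mul_eq_zero.1 ?_).resolve_left hd)
      change _ * (q 1 - q' 1) = 0
      linear_combination a * (h3 - h4) - a' * (h1 - h2)
  obtain ⟨l, ha, hb⟩ : ∃ l, a' = a * l ∧ b' = b * l := by
    rcases hab with h | h
    · exact ⟨a' / a, by field_simp, by field_simp; linear_combination hd⟩
    · exact ⟨b' / b, by field_simp; linear_combination -hd, by field_simp⟩
  have hc : c' = c * l := by
    rw [ha, hb] at h3
    linear_combination h3 - l * h1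
  refine ⟨C l, ?_⟩
  rw [ha, hb, hc]
  simp only [lin, map_mul]
  ring

lemma small (hp : Function.Injective p) {f g : P2} (hf : Prime f) (hg : Prime g)
    (h1 : f.totalDegree ≤ 1) (h2 : g.totalDegree ≤ 1) (hfg : ¬ f ∣ g) :
    ∑ i, mult (p i) f * mult (p i) g ≤ f.totalDegree * g.totalDegree := by
  by_cases h : ∃ j, mult (p j) f * mult (p j) g ≠ 0
  · obtain ⟨j, hj⟩ := h
    rw [Finset.sum_eq_single j _ (by simp)]
    · exact Nat.mul_le_mul (mult_le _ _) (mult_le _ _)
    intro i _ hij
    by_contra hi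
    obtain ⟨hi1, hi2⟩ := mul_ne_zero_iff.1 hi
    obtain ⟨hj1, hj2⟩ := mul_ne_zero_iff.1 hj
    have e1 := eval_zero hf.ne_zero hi1
    have e2 := eval_zero hf.ne_zero hj1
    have e3 := eval_zero hg.ne_zero hi2
    have e4 := eval_zero hg.ne_zero hj2
    have hab : coeff (single 0 1) f ≠ 0 ∨ coeff (single 1 1) f ≠ 0 := by
      by_contra h0
      push Not at h0
      have h3 := eq_lin h1
      rw [h0.1, h0.2] at h3
      have h4 := one_le hf
      rw [h3] at h4
      simp [lin] at h4
    rw [eq_lin h1, eval_lin] at e1 e2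
    rw [eq_lin h2, eval_lin] at e3 e4
    apply hfg
    rw [eq_lin h1, eq_lin h2]
    exact lin_dvd (fun h => hij (hp h)) hab e1 e2 e3 e4
  · push Not at h
    simp [h]

end BEZ

open BEZ in
theorem stBEZ : St_BEZ := by
  intro ι _ p hp f g hf hfg
  by_cases h2 : 2 ≤ f.totalDegree
  · exact big hp hf h2 hfg
  induction g using UniqueFactorizationMonoid.induction_on_prime with
  | h₁ => exact (hfg (dvd_zero _)).elim
  | h₂ u hu =>
    have h0 : u.totalDegree = 0 := by
      have := totalDegree_le_of_dvd_of_isDomain hu.dvd (one_ne_zero (α := P2))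
      simpa using this
    have h1 : ∀ i, mult (p i) u = 0 := fun i => by
      have := mult_le (p i) u
      omega
    simp [h1]
  | h₃ a q ha hq ih =>
    have h1 := ih fun h => hfg (h.mul_left _)
    have h3 : ¬ f ∣ q := fun h => hfg (h.mul_right _)
    have h4 : ∑ i, mult (p i) f * mult (p i) q ≤ f.totalDegree * q.totalDegree := by
      by_cases h5 : 2 ≤ q.totalDegree
      · have := big hp hq h5 (g := f) fun h => h3 (hq.irreducible.dvd_symm hf.irreducible h)
        simpa only [mul_comm] using this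
      · exact small hp hf hq (by omega) (by omega) h3
    rw [totalDegree_mul_of_isDomain hq.ne_zero ha]
    simp only [mult_mul _ hq.ne_zero ha, mul_add, Finset.sum_add_distrib]
    omega

end G1
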