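import Pool.Agent.Lib.G1.BasicA

open Finsupp MvPolynomial IntermediateField Module
open Pool.Agent.Lib.MP_cc3443_ag Pool.Agent.Lib.MP_3c72fe_ag

noncomputable section

namespace G1

open Rd

section ev
variable {K : Type} [Field K] [Algebra ℂ K] [IsFF K] {P : Place K} {g h : K} {c : ℂ}

lemma ev_sub_mem (hg : g ∈ P.O) : g - algebraMap ℂ K (ev P g) ∈ Ge P 1 := by
  have := (exists_ev P).choose_spec ⟨g, hg⟩
  rwa [ev, r_of_mem (R := rd P) hg]

lemma sp_ev (hg : g ∈ P.O) : (rd P).Sp g (ev P g) := sp_r hg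

lemma mem_of_sub_mem (hg : g - algebraMap ℂ K c ∈ Ge P 1) : g ∈ P.O :=
  P.mem_of_val_sub_lt (mem_Ge_one.1 hg)

lemma ev_eq (hg : g - algebraMap ℂ K c ∈ Ge P 1) : ev P g = c :=
  P.res_unique (mem_Ge_one.1 (ev_sub_mem (mem_of_sub_mem hg))) (mem_Ge_one.1 hg)

lemma sp_rd_iff : (rd P).Sp g c ↔ g - algebraMap ℂ K c ∈ Ge P 1 :=
  ⟨fun h => h.2 ▸ ev_sub_mem h.1, fun h => ⟨mem_of_sub_mem h, ev_eq h⟩⟩

lemma sp_const (c : ℂ) : (rd P).Sp (algebraMap ℂ K c) c := sp_rd_iff.2 (by simp)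

@[simp] lemma ev_const (c : ℂ) : ev P (algebraMap ℂ K c) = c := (sp_const c).2

@[simp] lemma ev_zero : ev P (0 : K) = 0 := r_zero

@[simp] lemma ev_one : ev P (1 : K) = 1 := r_one

lemma ev_add (hg : g ∈ P.O) (hh : h ∈ P.O) : ev P (g + h) = ev P g + ev P h :=
  ((sp_ev hg).add (sp_ev hh)).2

lemma ev_sub (hg : g ∈ P.O) (hh : h ∈ P.O) : ev P (g - h) = ev P g - ev P h :=
  ((sp_ev hg).sub (sp_ev hh)).2

lemma ev_mul (hg : g ∈ P.O) (hh : h ∈ P.O) : ev P (g * h) = ev P g * ev P h :=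
  ((sp_ev hg).mul (sp_ev hh)).2

lemma ev_pow (hg : g ∈ P.O) (n : ℕ) : ev P (g ^ n) = ev P g ^ n := ((sp_ev hg).pow n).2

lemma sp_smul (a : ℂ) (hg : (rd P).Sp g c) : (rd P).Sp (a • g) (a * c) := by
  simpa only [Algebra.smul_def] using (sp_const a).mul hg

lemma ev_smul (a : ℂ) (hg : g ∈ P.O) : ev P (a • g) = a * ev P g := (sp_smul a (sp_ev hg)).2

lemma sp_ev_aeval {ξ : Fin 2 → K} {q : Fin 2 → ℂ} (hξ : ∀ k, (rd P).Sp (ξ k) (q k)) (f : P2) :
    (rd P).Sp (aeval ξ f) (eval q f) := sp_aeval (fun _ => sp_const _) hξ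

lemma sp_ev_aeval₁ (hg : (rd P).Sp g c) (f : Polynomial ℂ) :
    (rd P).Sp (Polynomial.aeval g f) (f.eval c) := sp_aeval₁ (fun _ => sp_const _) hg

lemma ev_eq_zero_iff (hg : g ∈ P.O) : ev P g = 0 ↔ g ∈ Ge P 1 :=
  ⟨fun h => by simpa [h] using ev_sub_mem hg, fun h => ev_eq (by simpa using h)⟩

lemma rd_U_iff : (rd P).U g ↔ g ≠ 0 ∧ P.ord g = 0 := by
  rw [U_iff]
  refine and_congr_right fun h0 => ?_
  change g ∈ P.O ∧ g⁻¹ ∈ P.O ↔ _
  rw [P.mem_iff_ord h0, P.mem_iff_ord (inv_ne_zero h0), P.ord_inv]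
  omega

lemma ord_eq_zero_of_sp (hg : (rd P).Sp g c) (hc : c ≠ 0) : P.ord g = 0 :=
  (rd_U_iff.1 (hg.U hc)).2

lemma ev_ne_zero (h0 : g ≠ 0) (hg : P.ord g = 0) : ev P g ≠ 0 := (rd_U_iff.2 ⟨h0, hg⟩).2

lemma ord_nonneg (hg : g ∈ P.O) : 0 ≤ P.ord g := by
  by_cases h0 : g = 0
  · simp [h0]
  · exact (P.mem_iff_ord h0).1 hg

lemma mem_O_of_ord (hg : 0 ≤ P.ord g) : g ∈ P.O := mem_Ge_zero.1 (mem_Ge_of_le hg)

lemma lead_ne_zero {s : K} (hs : P.ord s = 1) (h0 : g ≠ 0) : lead P s g ≠ 0 := by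
  have h1 : s ≠ 0 := by rintro rfl; simp at hs
  refine ev_ne_zero (div_ne_zero h0 (zpow_ne_zero _ h1)) ?_
  rw [ord_div h0 (zpow_ne_zero _ h1), P.ord_zpow, hs]; ring

lemma divF_mul (hg : g ≠ 0) (hh : h ≠ 0) : divF (g * h) = divF g + divF h :=
  Finsupp.ext fun P => P.ord_mul hg hh

@[simp] lemma divF_one : divF (1 : K) = 0 := Finsupp.ext fun P => P.ord_one

@[simp] lemma divF_zero : divF (0 : K) = 0 := Finsupp.ext fun P => by simp

lemma divF_inv (g : K) : divF g⁻¹ = -divF g := Finsupp.ext fun P => P.ord_inv g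

lemma divF_div (hg : g ≠ 0) (hh : h ≠ 0) : divF (g / h) = divF g - divF h :=
  Finsupp.ext fun _ => ord_div hg hh

lemma divF_zpow (g : K) (n : ℤ) : divF (g ^ n) = n • divF g := Finsupp.ext fun P => P.ord_zpow g n

lemma divF_pow (g : K) (n : ℕ) : divF (g ^ n) = (n : ℤ) • divF g := by
  rw [← divF_zpow, zpow_natCast]

lemma divF_const (c : ℂ) : divF (algebraMap ℂ K c) = 0 := by
  by_cases hc : c = 0
  · simp [hc]
  · exact Finsupp.ext fun _ => ord_const hc

lemma divF_smul (hc : c ≠ 0) (g : K) : divF (c • g) = divF g := by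
  by_cases h0 : g = 0
  · simp [h0]
  · exact Finsupp.ext fun _ => ord_smul hc h0

lemma divF_prod {ι : Type*} {s : Finset ι} {f : ι → K} (hf : ∀ i ∈ s, f i ≠ 0) :
    divF (∏ i ∈ s, f i) = ∑ i ∈ s, divF (f i) := by
  classical
  induction s using Finset.induction_on with
  | empty => simp
  | insert i s hi ih =>
    rw [Finset.prod_insert hi, Finset.sum_insert hi, divF_mul (hf i (by simp))
      (Finset.prod_ne_zero_iff.2 fun j hj => hf j (by simp [hj])), ih fun j hj => hf j (by simp [hj])]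

lemma divF_mprod {ι : Type*} {s : Multiset ι} {f : ι → K} (hf : ∀ i ∈ s, f i ≠ 0) :
    divF (s.map f).prod = (s.map fun i => divF (f i)).sum := by
  induction s using Multiset.induction_on with
  | empty => simp
  | cons i s ih =>
    simp only [Multiset.map_cons, Multiset.prod_cons, Multiset.sum_cons]
    rw [divF_mul (hf i (by simp)) (Multiset.prod_ne_zero fun h => by
      obtain ⟨j, hj, h⟩ := Multiset.mem_map.1 h
      exact hf j (by simp [hj]) h), ih fun j hj => hf j (by simp [hj])]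

lemma eq_neg_of_mem {E : Place K →₀ ℤ} (hg : g ∈ LL E) (h0 : g ≠ 0) (hE : degree E = 0) :
    divF g = -E := by
  have h1 := nonneg_of_mem hg h0
  ext P
  have h2 := le_degree_of_nonneg h1 P
  have h3 := h1 P
  rw [map_add, degree_div, hE] at h2
  simp only [Finsupp.add_apply, Finsupp.zero_apply, Finsupp.neg_apply] at h2 h3 ⊢
  omega

lemma _root_.Pool.Agent.Lib.MP_3c72fe_ag.Crv.sp_of_D (c : Crv K) {q : Fin 2 → ℂ}
    (h : 0 < c.D q P) (k : Fin 2) : (rd P).Sp (c.ξ k) (q k) := by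
  have := c.H_eq_zero h
  exact sp_rd_iff.2 (Ge_mono (by omega) (c.sub_mem_Ge q P k))

lemma _root_.Pool.Agent.Lib.MP_3c72fe_ag.Crv.D_pos (c : Crv K) {q : Fin 2 → ℂ}
    (h : ∀ k, (rd P).Sp (c.ξ k) (q k)) : 0 < c.D q P := by
  have h0 := (mem_Ge_iff (c.sub_ne 0 _)).1 (sp_rd_iff.1 (h 0))
  have h1 := (mem_Ge_iff (c.sub_ne 1 _)).1 (sp_rd_iff.1 (h 1))
  rw [c.D_apply]; omega

lemma _root_.Pool.Agent.Lib.MP_3c72fe_ag.Crv.mem_of_H (c : Crv K) (h : c.H P = 0) (k : Fin 2) :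
    c.ξ k ∈ P.O := mem_Ge_zero.1 (by simpa [h] using c.mem_Ge_H P k)

lemma _root_.Pool.Agent.Lib.MP_3c72fe_ag.Crv.exists_place (c : Crv K) {q : Fin 2 → ℂ}
    (h : eval q c.f = 0) : ∃ P, 0 < c.D q P := by
  by_contra h1
  push Not at h1
  have h2 : c.D q = 0 := Finsupp.ext fun P => le_antisymm (h1 P) (c.D_nonneg q P)
  have h3 := c.degree_D q
  have h4 := (mem_pow_iff c.prime.ne_zero (n := 1)).1 (by simpa using mem_mi.2 h)
  rw [h2, map_zero] at h3
  omega

end ev

lemma mult_mul (q : Fin 2 → ℂ) {f g : P2} (hf : f ≠ 0) (hg : g ≠ 0) :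
    mult q (f * g) = mult q f + mult q g := by
  rw [mult, map_mul, Polynomial.natTrailingDegree_mul (io_ne_zero q hf) (io_ne_zero q hg)]
  rfl

lemma mem_pow_mult (q : Fin 2 → ℂ) (f : P2) : f ∈ mi q ^ mult q f := by
  by_cases h : f = 0
  · simp [h]
  · exact (mem_pow_iff h).2 le_rfl

section ms
variable {α β : Type} {E E' : α →₀ ℤ}

lemma count_ms [DecidableEq α] (E : α →₀ ℤ) (a : α) : (ms E).count a = (E a).toNat := by
  simp [ms]

lemma mem_ms {a : α} : a ∈ ms E ↔ 0 < E a := by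
  classical
  rw [← Multiset.count_pos, count_ms]; omega

lemma ms_mono (h : E ≤ E') : ms E ≤ ms E' := by
  classical
  refine Multiset.le_iff_count.2 fun a => ?_
  have := h a
  rw [count_ms, count_ms]; omega

lemma ms_add (h : 0 ≤ E) (h' : 0 ≤ E') : ms (E + E') = ms E + ms E' := by
  classical
  ext a
  have h1 : 0 ≤ E a := h a
  have h2 : 0 ≤ E' a := h' a
  rw [Multiset.count_add, count_ms, count_ms, count_ms, Finsupp.add_apply]; omega

lemma card_ms (h : 0 ≤ E) : ((ms E).card : ℤ) = degree E := by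
  rw [ms, Finsupp.card_toMultiset, Finsupp.sum_mapRange_index (by simp), Finsupp.sum]
  push_cast
  exact Finset.sum_congr rfl fun a _ => Int.toNat_of_nonneg (h a)

lemma sum_ms (h : 0 ≤ E) : ((ms E).map fun a => single a (1 : ℤ)).sum = E := by
  classical
  ext a
  have h1 : ∀ s : Multiset α, (s.map fun a => single a (1 : ℤ)).sum a = s.count a := fun s => by
    induction s using Multiset.induction_on with
    | empty => simp
    | cons b s ih =>
      simp only [Multiset.map_cons, Multiset.sum_cons, Finsupp.add_apply, ih, Multiset.count_cons,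
        single_apply, eq_comm (a := b)]
      split_ifs <;> simp [add_comm]
  rw [h1, count_ms, Int.toNat_of_nonneg (h a)]

lemma degree_mapDomain' (f : α → β) (E : α →₀ ℤ) : degree (E.mapDomain f) = degree E := by
  induction E using Finsupp.induction_linear with
  | zero => simp
  | add a b ha hb => rw [mapDomain_add, map_add, map_add, ha, hb]
  | single a n => simp

open Classical in
lemma mapDomain_apply' (f : α → β) (E : α →₀ ℤ) (b : β) :
    E.mapDomain f b = degree (E.filter fun a => f a = b) := by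
  induction E using Finsupp.induction_linear with
  | zero => simp [filter_zero]
  | add a b ha hb => rw [mapDomain_add, Finsupp.add_apply, filter_add, map_add, ha, hb]
  | single a n =>
    rw [mapDomain_single, single_apply]
    split_ifs with h
    · rw [filter_single_of_pos (fun a => f a = b) h]; simp
    · rw [filter_single_of_neg (fun a => f a = b) h]; simp

lemma mapDomain_nonneg_at (f : α → β) {b : β} (h : ∀ a, f a = b → 0 ≤ E a) :
    0 ≤ E.mapDomain f b := by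
  classical
  rw [mapDomain_apply']
  refine degree_nonneg fun a => ?_
  simp only [Finsupp.filter_apply, Finsupp.zero_apply]
  split_ifs with h1
  exacts [h a h1, le_rfl]

lemma le_mapDomain_at (f : α → β) {a : α} (h : ∀ a', f a' = f a → 0 ≤ E a') :
    E a ≤ E.mapDomain f (f a) := by
  classical
  rw [mapDomain_apply']
  refine le_trans (by simp) (le_degree_of_nonneg (fun a' => ?_) a)
  simp only [Finsupp.filter_apply, Finsupp.zero_apply]
  split_ifs with h1
  exacts [h a' h1, le_rfl]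

lemma mapDomain_congr_at (f : α → β) {b : β} (h : ∀ a, f a = b → E a = E' a) :
    E.mapDomain f b = E'.mapDomain f b := by
  classical
  rw [mapDomain_apply', mapDomain_apply']
  congr 1
  ext a
  simp only [Finsupp.filter_apply]
  split_ifs with h1
  exacts [h a h1, rfl]

lemma mapDomain_sub' (f : α → β) (E E' : α →₀ ℤ) :
    (E - E').mapDomain f = E.mapDomain f - E'.mapDomain f :=
  map_sub (Finsupp.mapDomain.addMonoidHom f) E E'

lemma mapDomain_sum' {ι : Type*} (f : α → β) (s : Finset ι) (E : ι → α →₀ ℤ) :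
    (∑ i ∈ s, E i).mapDomain f = ∑ i ∈ s, (E i).mapDomain f :=
  map_sum (Finsupp.mapDomain.addMonoidHom f) E s

end ms

namespace Mod
variable {F K : Type} [Field F] [Algebra ℂ F] [IsFF F] [Field K] [Algebra ℂ K] [IsFF K]
  (m : Mod F K) {z : Place K} {E E' : Place F →₀ ℤ} {P : Place F}

lemma count_Z [DecidableEq (Place F)] (h : m.sp P = z) : (m.Z z E).count P = (E P).toNat := by
  rw [Z, count_ms, Finsupp.filter_apply, if_pos h]

lemma mem_Z : P ∈ m.Z z E ↔ m.sp P = z ∧ 0 < E P := by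
  classical
  rw [Z, mem_ms, Finsupp.filter_apply]
  split_ifs with h <;> simp [h]

lemma Z_mono (h : ∀ P, m.sp P = z → E P ≤ E' P) : m.Z z E ≤ m.Z z E' := by
  refine ms_mono fun P => ?_
  simp only [Finsupp.filter_apply]
  split_ifs with h1
  exacts [h P h1, le_rfl]

lemma Z_congr (h : ∀ P, m.sp P = z → E P = E' P) : m.Z z E = m.Z z E' :=
  le_antisymm (m.Z_mono fun P hP => (h P hP).le) (m.Z_mono fun P hP => (h P hP).ge)

open Classical in
lemma filter_nonneg (h : ∀ P, m.sp P = z → 0 ≤ E P) : 0 ≤ E.filter fun P => m.sp P = z := fun P => by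
  simp only [Finsupp.filter_apply, Finsupp.zero_apply]
  split_ifs with h1
  exacts [h P h1, le_rfl]

lemma card_Z (h : ∀ P, m.sp P = z → 0 ≤ E P) : ((m.Z z E).card : ℤ) = E.mapDomain m.sp z := by
  rw [Z, card_ms (m.filter_nonneg h), mapDomain_apply']

lemma Z_add (h : ∀ P, m.sp P = z → 0 ≤ E P) (h' : ∀ P, m.sp P = z → 0 ≤ E' P) :
    m.Z z (E + E') = m.Z z E + m.Z z E' := by
  classical
  rw [Z, filter_add, ms_add (m.filter_nonneg h) (m.filter_nonneg h')]; rfl

lemma sum_Z (h : ∀ P, m.sp P = z → 0 ≤ E P) (hP : m.sp P = z) :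
    ((m.Z z E).map fun Q => single Q (1 : ℤ)).sum P = E P := by
  rw [Z, sum_ms (m.filter_nonneg h), Finsupp.filter_apply, if_pos hP]

lemma ord_r {g : F} (hg : m.R.U g) (z : Place K) :
    z.ord (m.R.r g) = (divF g).mapDomain m.sp z := DFunLike.congr_fun (m.red g hg) z

lemma card_Z_div {g : F} (hg : m.R.U g) (h : ∀ P, m.sp P = z → g ∈ P.O) :
    ((m.Z z (divF g)).card : ℤ) = z.ord (m.R.r g) := by
  rw [m.ord_r hg, m.card_Z fun P hP => ord_nonneg (h P hP)]

end Mod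

namespace Cov
variable {K E : Type} [Field K] [Algebra ℂ K] [IsFF K] [Field E] [Algebra ℂ E] [IsFF E]
  [Algebra E K] (C : Cov K E)

@[simp] lemma pb_apply (Δ : Place E →₀ ℤ) (z : Place K) : C.pb Δ z = Δ (C.res z) := rfl

lemma pb_add (Δ Δ' : Place E →₀ ℤ) : C.pb (Δ + Δ') = C.pb Δ + C.pb Δ' := Finsupp.ext fun _ => rfl

lemma pb_sub (Δ Δ' : Place E →₀ ℤ) : C.pb (Δ - Δ') = C.pb Δ - C.pb Δ' := Finsupp.ext fun _ => rfl

lemma divF_alg (g : E) : divF (algebraMap E K g) = C.pb (divF g) :=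
  Finsupp.ext fun z => C.ord_res z g

lemma res_act (a : K ≃ₐ[E] K) (z : Place K) : C.res (C.act a z) = C.res z :=
  ((C.fib _ _).2 ⟨a, rfl⟩).symm

lemma act_inj (z : Place K) : Function.Injective fun a => C.act a z := fun a b h => by
  have h1 : C.act (b⁻¹ * a) z = z := by
    rw [map_mul, map_inv, Equiv.Perm.mul_apply, show C.act a z = C.act b z from h]; simp
  exact (inv_mul_eq_one.1 (C.free _ _ h1)).symm

lemma alg_mem_Ge {z : Place K} {g : E} {n : ℤ} : algebraMap E K g ∈ Ge z n ↔ g ∈ Ge (C.res z) n := by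
  by_cases h : g = 0
  · simp [h]
  · rw [mem_Ge_iff h, mem_Ge_iff (by simpa using h), C.ord_res]

lemma act_mem_Ge {a : K ≃ₐ[E] K} {z : Place K} {g : K} {n : ℤ} :
    a g ∈ Ge (C.act a z) n ↔ g ∈ Ge z n := by
  by_cases h : g = 0
  · simp [h]
  · rw [mem_Ge_iff h, mem_Ge_iff (by simpa using h), C.ord_act]

lemma mapDomain_res [Fintype (K ≃ₐ[E] K)] (Δ : Place K →₀ ℤ) (z : Place K) :
    Δ.mapDomain C.res (C.res z) = ∑ a, Δ (C.act a z) := by
  classical
  induction Δ using Finsupp.induction_linear with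
  | zero => simp
  | add a b ha hb => simp only [mapDomain_add, Finsupp.add_apply, ha, hb, Finset.sum_add_distrib]
  | single z' n =>
    rw [mapDomain_single, single_apply]
    split_ifs with h
    · obtain ⟨a, rfl⟩ := (C.fib _ _).1 h.symm
      rw [Finset.sum_eq_single a (fun b _ hb => single_eq_of_ne fun h' => hb (C.act_inj z h'))
        (by simp), single_eq_same]
    · exact (Finset.sum_eq_zero fun a _ => single_eq_of_ne fun h' => h (by
        rw [← h', C.res_act])).symm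

lemma mapDomain_pb (Δ : Place E →₀ ℤ) :
    (C.pb Δ).mapDomain C.res = (Nat.card (K ≃ₐ[E] K) : ℤ) • Δ := by
  have := C.fin
  have := Fintype.ofFinite (K ≃ₐ[E] K)
  ext w
  obtain ⟨z, rfl⟩ := C.surj w
  simp [mapDomain_res, res_act]

lemma degree_pb (Δ : Place E →₀ ℤ) : degree (C.pb Δ) = Nat.card (K ≃ₐ[E] K) * degree Δ := by
  rw [← degree_mapDomain' C.res, mapDomain_pb, map_zsmul, smul_eq_mul]

include C in
lemma card_pos : 0 < Nat.card (K ≃ₐ[E] K) := by
  have := C.fin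
  exact Nat.card_pos

lemma norm {g : K} (hg : g ≠ 0) : ∃ h : E, h ≠ 0 ∧ divF h = (divF g).mapDomain C.res := by
  have := C.fin
  have := Fintype.ofFinite (K ≃ₐ[E] K)
  have h0 : ∀ a : K ≃ₐ[E] K, a g ≠ 0 := fun a => by simpa using hg
  obtain ⟨h, hh⟩ := C.fix (∏ a : K ≃ₐ[E] K, a g) fun b => by
    rw [map_prod]
    exact Fintype.prod_equiv (Equiv.mulLeft b) _ _ fun _ => rfl
  refine ⟨h, fun h1 => Finset.prod_ne_zero_iff.2 (fun a _ => h0 a) (by rw [← hh, h1, map_zero]),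
    Finsupp.ext fun w => ?_⟩
  obtain ⟨z, rfl⟩ := C.surj w
  rw [mapDomain_res, divF_apply, ← C.ord_res, hh, ← divF_apply, divF_prod fun a _ => h0 a,
    Finsupp.finsetSum_apply]
  refine Fintype.sum_equiv (Equiv.inv _) _ _ fun a => ?_
  rw [divF_apply, divF_apply, ← C.ord_act a (C.act (Equiv.inv _ a) z)]
  simp

end Cov

namespace Cub
variable {E : Type} [Field E] [Algebra ℂ E] [IsFF E] (D : Cub E)

lemma mult_le_one (q : Fin 2 → ℂ) : mult q D.c.f ≤ 1 := by
  have := D.c.add_two_le D.nr q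
  have := D.d3
  omega

lemma mult_eq_one {q : Fin 2 → ℂ} (h : eval q D.c.f = 0) : mult q D.c.f = 1 :=
  le_antisymm (D.mult_le_one q)
    ((mem_pow_iff D.c.prime.ne_zero (n := 1)).1 (by simpa using mem_mi.2 h))

lemma degree_D (i : Fin 10) : degree (D.c.D (D.y i)) = 1 := by
  rw [D.c.degree_D, D.mult_eq_one (D.on i)]; rfl

lemma D_le_one (q : Fin 2 → ℂ) (w : Place E) : D.c.D q w ≤ 1 := by
  have h1 := le_degree_of_nonneg (fun P => D.c.D_nonneg q P) w
  have h2 := D.mult_le_one q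
  rw [D.c.degree_D] at h1
  omega

lemma D_eq_zero {i j : Fin 10} {w : Place E} (hi : 0 < D.c.D (D.y i) w) (hj : j ≠ i) :
    D.c.D (D.y j) w = 0 :=
  le_antisymm (not_lt.1 fun h => hj (D.inj (D.c.eq_of_pos h hi))) (D.c.D_nonneg _ _)

lemma cl_apply (a : ℤ) (b : Fin 10 → ℤ) (w : Place E) :
    D.cl a b w = a * D.c.H w - ∑ i, b i * D.c.D (D.y i) w := by
  simp [cl, Finsupp.finsetSum_apply]

lemma cl_add (a a' : ℤ) (b b' : Fin 10 → ℤ) : D.cl (a + a') (b + b') = D.cl a b + D.cl a' b' := by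
  simp only [cl, Pi.add_apply, add_smul, Finset.sum_add_distrib]; abel

lemma cl_smul (n a : ℤ) (b : Fin 10 → ℤ) : D.cl (n * a) (n • b) = n • D.cl a b := by
  simp only [cl, Pi.smul_apply, smul_eq_mul, mul_smul, smul_sub, Finset.smul_sum]

@[simp] lemma cl_zero : D.cl 0 0 = 0 := by simp [cl]

lemma cl_eq_cls (e : ℕ) (μ : Fin 10 → ℕ) : D.cl e (fun i => μ i) = D.c.cls D.y e μ := rfl

lemma degree_cl (a : ℤ) (b : Fin 10 → ℤ) : degree (D.cl a b) = 3 * a - ∑ i, b i := by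
  have h : degree D.c.H = 3 := by rw [D.c.degree_H]; exact_mod_cast D.d3
  simp [cl, map_sum, h, degree_D, mul_comm]

lemma degree_B (a : ℤ) (b : Fin 10 → ℤ) (r : P2) : degree (D.B a b r) = 3 * a - ∑ i, b i := by
  rw [B, map_add, degree_div, degree_cl, zero_add]

lemma ev_ne {r : P2} (h : ¬ D.c.f ∣ r) : aeval D.c.ξ r ≠ 0 := fun h0 => h ((D.c.ker r).1 h0)

lemma pic' {g : E} {a : ℤ} {b : Fin 10 → ℤ} (hg : g ≠ 0) (h : divF g + D.cl a b = 0) :
    a = 0 ∧ b = 0 :=
  D.pic g⁻¹ a b (inv_ne_zero hg) (by rw [divF_inv, neg_eq_iff_add_eq_zero]; exact h)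

lemma B_nonneg {a : ℤ} {b : Fin 10 → ℤ} {r : P2} (h : D.Tail a b r) : 0 ≤ D.B a b r := fun w => by
  have h1 := nonneg_of_mem (D.c.ev_mem_LL D.inj (g := r) le_rfl fun i => mem_pow_mult (D.y i) r)
    (D.ev_ne h.1) w
  rw [← cl_eq_cls, Finsupp.add_apply, cl_apply] at h1
  have h2 := mul_le_mul_of_nonneg_right h.2.1 (D.c.H_nonneg w)
  have h3 := Finset.sum_le_sum (s := Finset.univ) fun i _ =>
    mul_le_mul_of_nonneg_right (h.2.2 i) (D.c.D_nonneg (D.y i) w)
  simp only [B, Finsupp.add_apply, cl_apply, Finsupp.zero_apply] at h1 ⊢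
  linarith

end Cub

end G1
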