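import Pool.Agent.Lib.G1.Blue

open Finsupp MvPolynomial IntermediateField Module
open Pool.Agent.Lib.MP_cc3443_ag Pool.Agent.Lib.MP_3c72fe_ag

noncomputable section

namespace G1

namespace Rd

variable {F K : Type} [Field F] [Field K] {R : Rd F K} {a a' : F} {b b' : K}

lemma r_of_mem (h : a ∈ R.O) : R.r a = R.ρ ⟨a, h⟩ := dif_pos h

lemma sp_iff : R.Sp a b ↔ ∃ h : a ∈ R.O, R.ρ ⟨a, h⟩ = b :=
  ⟨fun h => ⟨h.1, (r_of_mem h.1).symm.trans h.2⟩, fun ⟨h, h'⟩ => ⟨h, (r_of_mem h).trans h'⟩⟩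

lemma sp_coe (x : R.O) : R.Sp x (R.ρ x) := sp_iff.2 ⟨x.2, rfl⟩

lemma sp_r (h : a ∈ R.O) : R.Sp a (R.r a) := ⟨h, rfl⟩

lemma Sp.mem (h : R.Sp a b) : a ∈ R.O := h.1

lemma Sp.r_eq (h : R.Sp a b) : R.r a = b := h.2

lemma Sp.unique (h : R.Sp a b) (h' : R.Sp a b') : b = b' := h.2.symm.trans h'.2

lemma Sp.congr (h : R.Sp a b) (ha : a = a') (hb : b = b') : R.Sp a' b' := ha ▸ hb ▸ h

lemma sp_zero : R.Sp 0 0 := sp_iff.2 ⟨zero_mem _, map_zero R.ρ⟩

lemma sp_one : R.Sp 1 1 := sp_iff.2 ⟨one_mem _, map_one R.ρ⟩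

@[simp] lemma r_zero : R.r 0 = 0 := sp_zero.2

@[simp] lemma r_one : R.r 1 = 1 := sp_one.2

lemma Sp.add (h : R.Sp a b) (h' : R.Sp a' b') : R.Sp (a + a') (b + b') := by
  obtain ⟨h1, rfl⟩ := sp_iff.1 h
  obtain ⟨h2, rfl⟩ := sp_iff.1 h'
  exact sp_iff.2 ⟨add_mem h1 h2, map_add R.ρ ⟨a, h1⟩ ⟨a', h2⟩⟩

lemma Sp.mul (h : R.Sp a b) (h' : R.Sp a' b') : R.Sp (a * a') (b * b') := by
  obtain ⟨h1, rfl⟩ := sp_iff.1 h
  obtain ⟨h2, rfl⟩ := sp_iff.1 h'
  exact sp_iff.2 ⟨mul_mem h1 h2, map_mul R.ρ ⟨a, h1⟩ ⟨a', h2⟩⟩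

lemma Sp.neg (h : R.Sp a b) : R.Sp (-a) (-b) := by
  obtain ⟨h1, rfl⟩ := sp_iff.1 h
  exact sp_iff.2 ⟨neg_mem h1, map_neg R.ρ ⟨a, h1⟩⟩

lemma Sp.sub (h : R.Sp a b) (h' : R.Sp a' b') : R.Sp (a - a') (b - b') := by
  simpa only [sub_eq_add_neg] using h.add h'.neg

lemma Sp.pow (h : R.Sp a b) (n : ℕ) : R.Sp (a ^ n) (b ^ n) := by
  induction n with
  | zero => simpa using sp_one
  | succ n ih => simpa only [pow_succ] using ih.mul h

lemma Sp.ne_zero (h : R.Sp a b) (hb : b ≠ 0) : a ≠ 0 := by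
  rintro rfl
  exact hb (h.unique sp_zero)

lemma Sp.inv (h : R.Sp a b) (hb : b ≠ 0) : R.Sp a⁻¹ b⁻¹ := by
  have h0 := h.ne_zero hb
  obtain ⟨h1, rfl⟩ := sp_iff.1 h
  have h2 := (h.mul (sp_r (R.unit ⟨a, h1⟩ hb))).unique
    (sp_one.congr (mul_inv_cancel₀ h0).symm rfl)
  exact ⟨R.unit ⟨a, h1⟩ hb, eq_inv_of_mul_eq_one_right h2⟩

lemma Sp.div (h : R.Sp a b) (h' : R.Sp a' b') (hb : b' ≠ 0) : R.Sp (a / a') (b / b') := by
  simpa only [div_eq_mul_inv] using h.mul (h'.inv hb)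

lemma Sp.zpow (h : R.Sp a b) (hb : b ≠ 0) (n : ℤ) : R.Sp (a ^ n) (b ^ n) := by
  obtain ⟨n, rfl | rfl⟩ := n.eq_nat_or_neg
  · simpa using h.pow n
  · simpa using (h.pow n).inv (pow_ne_zero _ hb)

lemma Sp.sum {ι : Type*} {s : Finset ι} {f : ι → F} {g : ι → K} (h : ∀ i ∈ s, R.Sp (f i) (g i)) :
    R.Sp (∑ i ∈ s, f i) (∑ i ∈ s, g i) := by
  classical
  induction s using Finset.induction_on with
  | empty => simpa using sp_zero
  | insert i s hi ih =>
    rw [Finset.sum_insert hi, Finset.sum_insert hi]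
    exact (h i (by simp)).add (ih fun j hj => h j (by simp [hj]))

lemma Sp.prod {ι : Type*} {s : Finset ι} {f : ι → F} {g : ι → K} (h : ∀ i ∈ s, R.Sp (f i) (g i)) :
    R.Sp (∏ i ∈ s, f i) (∏ i ∈ s, g i) := by
  classical
  induction s using Finset.induction_on with
  | empty => simpa using sp_one
  | insert i s hi ih =>
    rw [Finset.prod_insert hi, Finset.prod_insert hi]
    exact (h i (by simp)).mul (ih fun j hj => h j (by simp [hj]))

lemma Sp.mprod {ι : Type*} {s : Multiset ι} {f : ι → F} {g : ι → K}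
    (h : ∀ i ∈ s, R.Sp (f i) (g i)) : R.Sp (s.map f).prod (s.map g).prod := by
  induction s using Multiset.induction_on with
  | empty => simpa using sp_one
  | cons i s ih =>
    simp only [Multiset.map_cons, Multiset.prod_cons]
    exact (h i (by simp)).mul (ih fun j hj => h j (by simp [hj]))

lemma sp_natCast (n : ℕ) : R.Sp n n := by
  induction n with
  | zero => simpa using sp_zero
  | succ n ih => simpa using ih.add sp_one

lemma sp_intCast (n : ℤ) : R.Sp n n := by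
  obtain ⟨n, rfl | rfl⟩ := n.eq_nat_or_neg
  · simpa using sp_natCast n
  · simpa using (sp_natCast n).neg

lemma sp_ofNat (n : ℕ) [n.AtLeastTwo] : R.Sp (OfNat.ofNat n) (OfNat.ofNat n) := sp_natCast n

variable (R) in
lemma exists_sp (b : K) : ∃ a, R.Sp a b := by
  obtain ⟨x, rfl⟩ := R.surj b
  exact ⟨x, sp_coe x⟩

lemma U.sp (h : R.U a) : R.Sp a (R.r a) := sp_r h.1

lemma Sp.U (h : R.Sp a b) (hb : b ≠ 0) : R.U a := ⟨h.1, h.2 ▸ hb⟩

lemma U.ne_zero (h : R.U a) : a ≠ 0 := h.sp.ne_zero h.2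

lemma U.inv (h : R.U a) : R.U a⁻¹ := (h.sp.inv h.2).U (inv_ne_zero h.2)

lemma U.mul (h : R.U a) (h' : R.U a') : R.U (a * a') := (h.sp.mul h'.sp).U (mul_ne_zero h.2 h'.2)

lemma U.pow (h : R.U a) (n : ℕ) : R.U (a ^ n) := (h.sp.pow n).U (pow_ne_zero _ h.2)

lemma U_iff : R.U a ↔ a ≠ 0 ∧ a ∈ R.O ∧ a⁻¹ ∈ R.O := by
  refine ⟨fun h => ⟨h.ne_zero, h.1, h.inv.1⟩, fun ⟨h0, h1, h2⟩ => ⟨h1, fun h => ?_⟩⟩
  have := ((sp_r h1).mul (sp_r h2)).unique (sp_one.congr (mul_inv_cancel₀ h0).symm rfl)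
  simp [h] at this

lemma sp_zero_of_not_U (h : a ∈ R.O) (h' : ¬ R.U a) : R.Sp a 0 :=
  ⟨h, by_contra fun h0 => h' ⟨h, h0⟩⟩

lemma sp_inv_of_not_mem (h : a ∉ R.O) : R.Sp a⁻¹ 0 :=
  sp_zero_of_not_U ((R.O.mem_or_inv_mem a).resolve_left h) fun h' => h (by simpa using h'.inv.1)

lemma sp_zero_iff : R.Sp a 0 ↔ a ∈ R.O.nonunits := by
  rw [← inv_inv a, ValuationSubring.inv_mem_nonunits_iff, inv_inv]
  refine ⟨fun h => or_iff_not_imp_left.2 fun h0 h1 => (U_iff.2 ⟨by simpa using h0, h.1, h1⟩).2 h.2,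
    fun h => h.elim (fun h => by rw [inv_eq_zero.1 h]; exact sp_zero) fun h => ?_⟩
  simpa using sp_inv_of_not_mem h

lemma mem_of_pow_mem {n : ℕ} (hn : n ≠ 0) (h : a ^ n ∈ R.O) : a ∈ R.O := by
  by_contra h1
  have h0 : a ≠ 0 := by rintro rfl; exact h1 (zero_mem _)
  have := (((sp_inv_of_not_mem h1).pow n).mul (sp_r h)).unique
    (by rw [← mul_pow, inv_mul_cancel₀ h0, one_pow]; exact sp_one)
  simp [hn] at this

variable (R) in
lemma exists_min {ι : Type*} (s : Finset ι) (f : ι → F) (h : ∃ i ∈ s, f i ≠ 0) :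
    ∃ i ∈ s, f i ≠ 0 ∧ ∀ j ∈ s, f j / f i ∈ R.O := by
  obtain ⟨i₀, hi₀, h0⟩ := h
  obtain ⟨i, hi, h1⟩ := s.exists_max_image (fun j => R.O.valuation (f j)) ⟨i₀, hi₀⟩
  have h2 : f i ≠ 0 := fun h2 => h0 (by simpa [h2] using h1 i₀ hi₀)
  refine ⟨i, hi, h2, fun j hj => ?_⟩
  rw [← R.O.valuation_le_one_iff, map_div₀]
  exact div_le_one_of_le₀ (h1 j hj) zero_le

end Rd

open Rd

lemma transc_of_ne {K : Type} [Field K] [Algebra ℂ K] {z : K} (h : ∀ c : ℂ, z ≠ algebraMap ℂ K c) :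
    Transcendental ℂ z := fun ha => by
  obtain ⟨c, hc⟩ : z ∈ (algebraMap ℂ K).range := minpoly.mem_range_of_degree_eq_one ℂ z
    (IsAlgClosed.degree_eq_one_of_irreducible ℂ (minpoly.irreducible ha.isIntegral))
  exact h c hc.symm

section
variable {F K : Type} [Field F] [Algebra ℂ F] [Field K] [Algebra ℂ K] {v : Rd ℂ ℂ} {R : Rd F K}

lemma Over.const (h : Over v R) {c b : ℂ} (hc : v.Sp c b) :
    R.Sp (algebraMap ℂ F c) (algebraMap ℂ K b) := h.2 c b hc

lemma Over.mem_iff (h : Over v R) {c : ℂ} : algebraMap ℂ F c ∈ R.O ↔ c ∈ v.O :=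
  ⟨h.1 c, fun hc => (h.const (sp_r hc)).1⟩

lemma Over.smul (h : Over v R) {c b : ℂ} (hc : v.Sp c b) {g : F} {gb : K} (hg : R.Sp g gb) :
    R.Sp (c • g) (b • gb) := by
  simpa only [Algebra.smul_def] using (h.const hc).mul hg

lemma over_self (v : Rd ℂ ℂ) : Over v v := ⟨fun _ h => h, fun _ _ h => h⟩

lemma sp_aeval {g gb : P2} {ξ : Fin 2 → F} {ξb : Fin 2 → K}
    (h : ∀ s, R.Sp (algebraMap ℂ F (coeff s g)) (algebraMap ℂ K (coeff s gb)))
    (hξ : ∀ k, R.Sp (ξ k) (ξb k)) : R.Sp (aeval ξ g) (aeval ξb gb) := by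
  have h1 : gb.support ⊆ g.support := fun s hs => by
    rw [MvPolynomial.mem_support_iff] at hs ⊢
    exact fun h0 => (h s).ne_zero (by simpa using hs) (by simp [h0])
  rw [aeval_def, aeval_def, eval₂_eq', eval₂_eq', Finset.sum_subset h1 fun s _ hs => by
    simp [MvPolynomial.notMem_support_iff.1 hs]]
  exact Sp.sum fun s _ => (h s).mul (Sp.prod fun k _ => (hξ k).pow _)

lemma sp_aeval₁ {q qb : Polynomial ℂ} {t : F} {tb : K}
    (h : ∀ n, R.Sp (algebraMap ℂ F (q.coeff n)) (algebraMap ℂ K (qb.coeff n)))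
    (ht : R.Sp t tb) : R.Sp (Polynomial.aeval t q) (Polynomial.aeval tb qb) := by
  rw [Polynomial.aeval_eq_sum_range' (n := max q.natDegree qb.natDegree + 1) (by omega),
    Polynomial.aeval_eq_sum_range' (n := max q.natDegree qb.natDegree + 1) (by omega)]
  exact Sp.sum fun n _ => by simpa only [Algebra.smul_def] using (h n).mul (ht.pow n)

end

namespace RP
variable {v : Rd ℂ ℂ} {g g' gb gb' : P2}

lemma unique (h : RP v g gb) (h' : RP v g gb') : gb = gb' :=
  MvPolynomial.ext _ _ fun s => (h s).unique (h' s)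

lemma add (h : RP v g gb) (h' : RP v g' gb') : RP v (g + g') (gb + gb') := fun s => by
  simpa only [coeff_add] using (h s).add (h' s)

lemma sub (h : RP v g gb) (h' : RP v g' gb') : RP v (g - g') (gb - gb') := fun s => by
  simpa only [coeff_sub] using (h s).sub (h' s)

lemma neg (h : RP v g gb) : RP v (-g) (-gb) := fun s => by simpa only [coeff_neg] using (h s).neg

lemma mul (h : RP v g gb) (h' : RP v g' gb') : RP v (g * g') (gb * gb') := fun s => by
  rw [coeff_mul, coeff_mul]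
  exact Sp.sum fun x _ => (h _).mul (h' _)

lemma smul {c cb : ℂ} (hc : v.Sp c cb) (h : RP v g gb) : RP v (c • g) (cb • gb) := fun s => by
  simpa only [coeff_smul, smul_eq_mul] using hc.mul (h s)

lemma monomial (s : Fin 2 →₀ ℕ) {c cb : ℂ} (hc : v.Sp c cb) :
    RP v (monomial s c) (monomial s cb) := fun s' => by
  rw [coeff_monomial, coeff_monomial]
  split_ifs
  exacts [hc, sp_zero]

lemma C {c cb : ℂ} (hc : v.Sp c cb) : RP v (C c) (C cb) := monomial 0 hc

lemma X (k : Fin 2) : RP v (X k) (X k) := monomial _ sp_one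

lemma zero : RP v 0 0 := fun _ => sp_zero

lemma one : RP v 1 1 := C sp_one

lemma pow (h : RP v g gb) (n : ℕ) : RP v (g ^ n) (gb ^ n) := by
  induction n with
  | zero => simpa using one
  | succ n ih => simpa only [pow_succ] using ih.mul h

lemma sum {ι : Type*} {s : Finset ι} {f fb : ι → P2} (h : ∀ i ∈ s, RP v (f i) (fb i)) :
    RP v (∑ i ∈ s, f i) (∑ i ∈ s, fb i) := fun s' => by
  rw [coeff_sum, coeff_sum]
  exact Sp.sum fun i hi => h i hi s'

lemma prod {ι : Type*} {s : Finset ι} {f fb : ι → P2} (h : ∀ i ∈ s, RP v (f i) (fb i)) :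
    RP v (∏ i ∈ s, f i) (∏ i ∈ s, fb i) := by
  classical
  induction s using Finset.induction_on with
  | empty => simpa using one
  | insert i s hi ih =>
    rw [Finset.prod_insert hi, Finset.prod_insert hi]
    exact (h i (by simp)).mul (ih fun j hj => h j (by simp [hj]))

lemma support_subset (h : RP v g gb) : gb.support ⊆ g.support := fun s hs => by
  rw [MvPolynomial.mem_support_iff] at hs ⊢
  exact (h s).ne_zero hs

lemma totalDegree_le (h : RP v g gb) : gb.totalDegree ≤ g.totalDegree :=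
  totalDegree_le_of_support_subset h.support_subset

lemma ne_zero (h : RP v g gb) (h0 : gb ≠ 0) : g ≠ 0 := by
  rintro rfl
  exact h0 (h.unique zero)

lemma aeval {F K : Type} [Field F] [Algebra ℂ F] [Field K] [Algebra ℂ K] {R : Rd F K}
    (h : RP v g gb) (ho : Over v R) {ξ : Fin 2 → F} {ξb : Fin 2 → K}
    (hξ : ∀ k, R.Sp (ξ k) (ξb k)) : R.Sp (aeval ξ g) (aeval ξb gb) :=
  sp_aeval (fun s => ho.const (h s)) hξ

lemma eval (h : RP v g gb) {q qb : Fin 2 → ℂ} (hq : ∀ k, v.Sp (q k) (qb k)) :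
    v.Sp (eval q g) (eval qb gb) := h.aeval (over_self v) hq

lemma ind {Q : P2 → P2 → Prop} (h : RP v g gb) (h0 : ∀ c cb, v.Sp c cb → Q (.C c) (.C cb))
    (h1 : ∀ k, Q (.X k) (.X k)) (h2 : ∀ a ab b bb, Q a ab → Q b bb → Q (a + b) (ab + bb))
    (h3 : ∀ a ab b bb, Q a ab → Q b bb → Q (a * b) (ab * bb)) : Q g gb := by
  have h4 : ∀ (k : Fin 2) (n : ℕ), Q (.X k ^ n) (.X k ^ n) := fun k n => by
    induction n with
    | zero => simpa using h0 1 1 sp_one
    | succ n ih => simpa only [pow_succ] using h3 _ _ _ _ ih (h1 k)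
  rw [g.as_sum, gb.as_sum, Finset.sum_subset h.support_subset fun s _ hs => by
    simp [MvPolynomial.notMem_support_iff.1 hs]]
  refine Finset.induction_on (motive := fun S => Q (∑ s ∈ S, MvPolynomial.monomial s (coeff s g))
    (∑ s ∈ S, MvPolynomial.monomial s (coeff s gb))) _ (by simpa using h0 0 0 sp_zero) ?_
  intro s S hs ih
  rw [Finset.sum_insert hs, Finset.sum_insert hs]
  refine h2 _ _ _ _ ?_ ih
  simp only [monomial_eq, Finsupp.prod_fintype _ _ fun i => pow_zero (MvPolynomial.X i : P2),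
    Fin.prod_univ_two]
  exact h3 _ _ _ _ (h0 _ _ (h s)) (h3 _ _ _ _ (h4 _ _) (h4 _ _))

lemma tr (h : RP v g gb) {q qb : Fin 2 → ℂ} (hq : ∀ k, v.Sp (q k) (qb k)) :
    RP v (tr q g) (tr qb gb) :=
  h.ind (Q := fun a ab => RP v (Pool.Agent.Lib.MP_3c72fe_ag.tr q a) (Pool.Agent.Lib.MP_3c72fe_ag.tr qb ab))
    (fun c cb hc => by simpa [Pool.Agent.Lib.MP_3c72fe_ag.tr] using C hc)
    (fun k => by simpa [Pool.Agent.Lib.MP_3c72fe_ag.tr] using (X k).add (C (hq k)))
    (fun _ _ _ _ ha hb => by simpa only [map_add] using ha.add hb)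
    fun _ _ _ _ ha hb => by simpa only [map_mul] using ha.mul hb

lemma mem_pow (h : RP v g gb) {q qb : Fin 2 → ℂ} (hq : ∀ k, v.Sp (q k) (qb k)) {n : ℕ}
    (hg : g ∈ mi q ^ n) : gb ∈ mi qb ^ n := by
  rw [mem_pow_iff_tr] at hg ⊢
  exact fun s hs => (h.tr hq s).unique (sp_zero.congr (hg s hs).symm rfl)

lemma pderiv (h : RP v g gb) (k : Fin 2) : RP v (pderiv k g) (pderiv k gb) := fun s => by
  rw [coeff_pderiv, coeff_pderiv]
  exact (h _).mul ((sp_natCast _).add sp_one)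

lemma of_mem (h : ∀ s, coeff s g ∈ v.O) : ∃ gb, RP v g gb :=
  ⟨∑ s ∈ g.support, MvPolynomial.monomial s (v.r (coeff s g)), by
    conv_lhs => rw [g.as_sum]
    exact sum fun s _ => monomial s (sp_r (h s))⟩

variable (v) in
lemma scale (h : g ≠ 0) : ∃ (η : ℂ) (gb : P2), η ≠ 0 ∧ gb ≠ 0 ∧ RP v (η • g) gb := by
  obtain ⟨s, hs, h0, h1⟩ := v.exists_min g.support (fun s => coeff s g) (by
    obtain ⟨s, hs⟩ := MvPolynomial.support_nonempty.2 h
    exact ⟨s, hs, MvPolynomial.mem_support_iff.1 hs⟩)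
  obtain ⟨gb, hg⟩ := of_mem (v := v) (g := (coeff s g)⁻¹ • g) fun s' => by
    by_cases h2 : s' ∈ g.support
    · simpa [div_eq_inv_mul] using h1 s' h2
    · simp [MvPolynomial.notMem_support_iff.1 h2]
  refine ⟨_, gb, inv_ne_zero h0, fun h2 => ?_, hg⟩
  have := (hg s).unique (by simpa [h0] using sp_one)
  simp [h2] at this

variable (v) in
lemma lift (gb : P2) : ∃ g, RP v g gb ∧ g.totalDegree ≤ gb.totalDegree := by
  choose f hf using v.exists_sp
  refine ⟨∑ s ∈ gb.support, MvPolynomial.monomial s (f (coeff s gb)), ?_,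
    totalDegree_finsetSum_le fun s hs => (totalDegree_monomial_le _ _).trans (le_totalDegree hs)⟩
  conv_rhs => rw [gb.as_sum]
  exact sum fun s _ => monomial s (hf _)

end RP

namespace RQ
open Polynomial
variable {v : Rd ℂ ℂ} {q q' qb qb' : Polynomial ℂ}

lemma unique (h : RQ v q qb) (h' : RQ v q qb') : qb = qb' :=
  Polynomial.ext fun n => (h n).unique (h' n)

lemma add (h : RQ v q qb) (h' : RQ v q' qb') : RQ v (q + q') (qb + qb') := fun n => by
  simpa only [Polynomial.coeff_add] using (h n).add (h' n)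

lemma sub (h : RQ v q qb) (h' : RQ v q' qb') : RQ v (q - q') (qb - qb') := fun n => by
  simpa only [Polynomial.coeff_sub] using (h n).sub (h' n)

lemma neg (h : RQ v q qb) : RQ v (-q) (-qb) := fun n => by
  simpa only [Polynomial.coeff_neg] using (h n).neg

lemma mul (h : RQ v q qb) (h' : RQ v q' qb') : RQ v (q * q') (qb * qb') := fun n => by
  rw [Polynomial.coeff_mul, Polynomial.coeff_mul]
  exact Sp.sum fun x _ => (h _).mul (h' _)

lemma smul {c cb : ℂ} (hc : v.Sp c cb) (h : RQ v q qb) : RQ v (c • q) (cb • qb) := fun n => by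
  simpa only [Polynomial.coeff_smul, smul_eq_mul] using hc.mul (h n)

lemma monomial (n : ℕ) {c cb : ℂ} (hc : v.Sp c cb) :
    RQ v (Polynomial.monomial n c) (Polynomial.monomial n cb) := fun n' => by
  rw [Polynomial.coeff_monomial, Polynomial.coeff_monomial]
  split_ifs
  exacts [hc, sp_zero]

lemma C {c cb : ℂ} (hc : v.Sp c cb) : RQ v (Polynomial.C c) (Polynomial.C cb) := monomial 0 hc

lemma X : RQ v Polynomial.X Polynomial.X := monomial 1 sp_one

lemma zero : RQ v 0 0 := fun _ => sp_zero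

lemma one : RQ v 1 1 := C sp_one

lemma pow (h : RQ v q qb) (n : ℕ) : RQ v (q ^ n) (qb ^ n) := by
  induction n with
  | zero => simpa using one
  | succ n ih => simpa only [pow_succ] using ih.mul h

lemma prod {ι : Type*} {s : Finset ι} {f fb : ι → Polynomial ℂ} (h : ∀ i ∈ s, RQ v (f i) (fb i)) :
    RQ v (∏ i ∈ s, f i) (∏ i ∈ s, fb i) := by
  classical
  induction s using Finset.induction_on with
  | empty => simpa using one
  | insert i s hi ih =>
    rw [Finset.prod_insert hi, Finset.prod_insert hi]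
    exact (h i (by simp)).mul (ih fun j hj => h j (by simp [hj]))

lemma ne_zero (h : RQ v q qb) (h0 : qb ≠ 0) : q ≠ 0 := by
  rintro rfl
  exact h0 (h.unique zero)

lemma natDegree_le (h : RQ v q qb) : qb.natDegree ≤ q.natDegree :=
  natDegree_le_iff_coeff_eq_zero.2 fun n hn =>
    (h n).unique (sp_zero.congr (coeff_eq_zero_of_natDegree_lt hn).symm rfl)

lemma aeval {F K : Type} [Field F] [Algebra ℂ F] [Field K] [Algebra ℂ K] {R : Rd F K}
    (h : RQ v q qb) (ho : Over v R) {t : F} {tb : K} (ht : R.Sp t tb) :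
    R.Sp (Polynomial.aeval t q) (Polynomial.aeval tb qb) :=
  sp_aeval₁ (fun n => ho.const (h n)) ht

lemma eval (h : RQ v q qb) {t tb : ℂ} (ht : v.Sp t tb) : v.Sp (q.eval t) (qb.eval tb) :=
  h.aeval (over_self v) ht

lemma derivative (h : RQ v q qb) : RQ v q.derivative qb.derivative := fun n => by
  rw [coeff_derivative, coeff_derivative]
  exact (h _).mul ((sp_natCast _).add sp_one)

lemma of_mem (h : ∀ n, q.coeff n ∈ v.O) : ∃ qb, RQ v q qb :=
  ⟨∑ n ∈ q.support, Polynomial.monomial n (v.r (q.coeff n)), fun n => by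
    simp only [finset_sum_coeff, Polynomial.coeff_monomial, Finset.sum_ite_eq']
    split_ifs with h1
    exacts [sp_r (h n), sp_zero.congr (Polynomial.notMem_support_iff.1 h1).symm rfl]⟩

variable (v) in
lemma scale (h : q ≠ 0) : ∃ (η : ℂ) (qb : Polynomial ℂ), η ≠ 0 ∧ qb ≠ 0 ∧ RQ v (η • q) qb := by
  obtain ⟨s, hs, h0, h1⟩ := v.exists_min q.support q.coeff (by
    obtain ⟨s, hs⟩ := Polynomial.support_nonempty.2 h
    exact ⟨s, hs, Polynomial.mem_support_iff.1 hs⟩)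
  obtain ⟨qb, hq⟩ := of_mem (v := v) (q := (q.coeff s)⁻¹ • q) fun s' => by
    by_cases h2 : s' ∈ q.support
    · simpa [div_eq_inv_mul] using h1 s' h2
    · simp [Polynomial.notMem_support_iff.1 h2]
  refine ⟨_, qb, inv_ne_zero h0, fun h2 => ?_, hq⟩
  have := (hq s).unique (by simpa [h0] using sp_one)
  simp [h2] at this

variable (v) in
lemma lift (qb : Polynomial ℂ) : ∃ q, RQ v q qb ∧ q.natDegree ≤ qb.natDegree := by
  choose f hf using v.exists_sp
  refine ⟨∑ n ∈ qb.support, Polynomial.monomial n (f (qb.coeff n)), fun n => ?_,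
    natDegree_sum_le_of_forall_le _ _ fun n hn =>
      (natDegree_monomial_le _).trans (le_natDegree_of_mem_supp n hn)⟩
  simp only [finset_sum_coeff, Polynomial.coeff_monomial, Finset.sum_ite_eq']
  split_ifs with h
  exacts [hf _, sp_zero.congr rfl (Polynomial.notMem_support_iff.1 h).symm]

/-- Cancelling an integral linear factor. -/
lemma of_mul {c cb : ℂ} (hc : v.Sp c cb) (h : RQ v ((Polynomial.X - Polynomial.C c) * q) qb) :
    ∃ qb', RQ v q qb' ∧ qb = (Polynomial.X - Polynomial.C cb) * qb' := by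
  by_cases h0 : q = 0
  · subst h0; exact ⟨0, zero, by simpa using h.unique (by simpa using zero)⟩
  obtain ⟨η, q₁, hη, h1, h2⟩ := scale v h0
  have h3 := (X.sub (C hc)).mul h2
  by_cases h4 : η⁻¹ ∈ v.O
  · have h5 := smul (sp_r h4) h2
    rw [inv_smul_smul₀ hη] at h5
    exact ⟨_, h5, h.unique ((X.sub (C hc)).mul h5)⟩
  · have h5 := smul (sp_inv_of_not_mem h4) h
    rw [inv_inv, zero_smul, ← mul_smul_comm] at h5
    exact absurd (h3.unique h5) (mul_ne_zero (X_sub_C_ne_zero cb) h1)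

/-- A root of the reduction lifts. -/
lemma root (h : RQ v q qb) (h0 : qb ≠ 0) {ab : ℂ} (ha : qb.eval ab = 0) :
    ∃ a, v.Sp a ab ∧ q.eval a = 0 := by
  induction hn : q.natDegree using Nat.strong_induction_on generalizing q qb with
  | _ n ih =>
  have h1 : q.degree ≠ 0 := fun h1 => by
    have h2 := h.natDegree_le
    rw [natDegree_eq_zero_iff_degree_le_zero.2 h1.le, Nat.le_zero, natDegree_eq_zero] at h2
    obtain ⟨c, rfl⟩ := h2
    exact h0 (by simpa using ha)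
  obtain ⟨c, hc⟩ := IsAlgClosed.exists_root q h1
  obtain ⟨q₁, rfl⟩ := dvd_iff_isRoot.2 hc
  have h2 : q₁ ≠ 0 := right_ne_zero_of_mul (h.ne_zero h0)
  have h3 : ∀ η : ℂ, (η • q₁).natDegree < n := fun η => (natDegree_smul_le _ _).trans_lt (by
    rw [← hn, natDegree_mul (X_sub_C_ne_zero c) h2, natDegree_X_sub_C]; omega)
  by_cases h4 : c ∈ v.O
  · obtain ⟨q₂, h5, rfl⟩ := of_mul (sp_r h4) h
    by_cases h6 : v.r c = ab
    · exact ⟨c, ⟨h4, h6⟩, by simp⟩
    obtain ⟨a, h7, h8⟩ := ih _ (by simpa using h3 1) h5 (right_ne_zero_of_mul h0)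
      (by simpa [sub_eq_zero, Ne.symm h6] using ha) rfl
    exact ⟨a, h7, by simp [h8]⟩
  · have hc0 : c ≠ 0 := by rintro rfl; exact h4 (zero_mem _)
    obtain ⟨η, q₂, hη, h5, h6⟩ := scale v h2
    have h7 := ((smul (sp_inv_of_not_mem h4) X).sub one).mul h6
    have h8 : (c⁻¹ • Polynomial.X - 1) * η • q₁ =
        (η * c⁻¹) • ((Polynomial.X - Polynomial.C c) * q₁) := by
      simp only [Polynomial.smul_eq_C_mul, map_mul]
      have : (Polynomial.C c⁻¹ * Polynomial.C c : ℂ[X]) = 1 := by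
        rw [← map_mul, inv_mul_cancel₀ hc0, map_one]
      linear_combination (Polynomial.C η * q₁) * this
    rw [h8, zero_smul, zero_sub, neg_one_mul] at h7
    have h9 : q₂.eval ab = 0 := by
      by_cases h10 : η * c⁻¹ ∈ v.O
      · have := congrArg (Polynomial.eval ab) (h7.unique (smul (sp_r h10) h))
        simpa [ha] using this
      · have h11 := smul (sp_inv_of_not_mem h10) h7
        rw [inv_smul_smul₀ (mul_ne_zero hη (inv_ne_zero hc0)), zero_smul] at h11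
        exact absurd (h.unique h11) h0
    obtain ⟨a, h10, h11⟩ := ih _ (h3 η) h6 h5 h9 rfl
    exact ⟨a, h10, by simpa [hη] using Or.inr (by simpa [hη] using h11)⟩

/-- A factorisation of the reduction in full degree lifts. -/
lemma factor {n : ℕ} {cb : ℂ} {Ab : Fin n → ℂ} (hc : cb ≠ 0) (hn : q.natDegree ≤ n)
    (h : RQ v q (Polynomial.C cb * ∏ j, (Polynomial.X - Polynomial.C (Ab j)))) :
    ∃ (c : ℂ) (A : Fin n → ℂ), v.Sp c cb ∧ (∀ j, v.Sp (A j) (Ab j)) ∧
      q = Polynomial.C c * ∏ j, (Polynomial.X - Polynomial.C (A j)) := by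
  induction n generalizing q with
  | zero =>
    obtain ⟨c, rfl⟩ := natDegree_eq_zero.1 (Nat.le_zero.1 hn)
    exact ⟨c, Ab, by simpa using h 0, fun j => j.elim0, by simp⟩
  | succ n ih =>
    have h0 : (Polynomial.C cb * ∏ j, (Polynomial.X - Polynomial.C (Ab j)) : ℂ[X]) ≠ 0 :=
      mul_ne_zero (by simpa using hc) (Finset.prod_ne_zero_iff.2 fun j _ => X_sub_C_ne_zero _)
    obtain ⟨a, ha, h1⟩ := h.root h0 (ab := Ab 0) (by simp [Fin.prod_univ_succ])
    obtain ⟨q₁, rfl⟩ := dvd_iff_isRoot.2 h1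
    obtain ⟨q₂, h2, h3⟩ := of_mul ha h
    rw [Fin.prod_univ_succ, mul_left_comm, mul_right_inj' (X_sub_C_ne_zero _)] at h3
    subst h3
    obtain ⟨c, A, h4, h5, rfl⟩ := ih (q := q₁) (by
      rw [natDegree_mul (X_sub_C_ne_zero a) (right_ne_zero_of_mul (h.ne_zero h0)),
        natDegree_X_sub_C] at hn
      omega) h2
    exact ⟨c, Fin.cons a A, h4, Fin.cases ha h5, by simp [Fin.prod_univ_succ, mul_left_comm]⟩

end RQ

lemma RP.onL {v : Rd ℂ ℂ} {g gb : P2} (h : RP v g gb) {t a tb ab : ℂ} (ht : v.Sp t tb)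
    (ha : v.Sp a ab) : RQ v (onL t a g) (onL tb ab gb) :=
  h.ind (Q := fun x xb => RQ v (G1.onL t a x) (G1.onL tb ab xb))
    (fun c cb hc => by simpa [G1.onL] using RQ.C hc)
    (fun k => by
      fin_cases k
      · simpa [G1.onL] using RQ.X
      · simpa [G1.onL] using ((RQ.C ht).mul RQ.X).add (RQ.C ha))
    (fun _ _ _ _ ha hb => by simpa only [map_add] using ha.add hb)
    fun _ _ _ _ ha hb => by simpa only [map_mul] using ha.mul hb

lemma eval_onL (t a x : ℂ) (g : P2) : (onL t a g).eval x = eval ![x, t * x + a] g := by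
  induction g using MvPolynomial.induction_on with
  | C c => simp [onL]
  | add p q hp hq => simp only [map_add, Polynomial.eval_add, hp, hq]
  | mul_X p k hp =>
    rw [map_mul, Polynomial.eval_mul, hp, map_mul]
    fin_cases k <;> simp [onL]

end G1
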