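import Pool.Agent.Lib.G1.Defs

open Finsupp MvPolynomial IntermediateField Module
open Pool.Agent.Lib.MP_cc3443_ag Pool.Agent.Lib.MP_3c72fe_ag

noncomputable section

namespace G1

/-! Weierstrass function fields. -/

def St_WM : Prop :=
  (∀ W : WeierstrassCurve ℂ, W.IsElliptic → Nonempty (WM W.toAffine.FunctionField)) ∧
  (∃ (E : Type) (_ : Field E) (_ : Algebra ℂ E) (M : WM E), M.e = ![0, 1, -1]) ∧
  ∀ (K : Type) [Field K] [Algebra ℂ K], WM K → IsFF K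

def St_WEI : Prop := ∀ (K : Type) [Field K] [Algebra ℂ K] [IsFF K] (M : WM K),
  chi K = 0 ∧
  (∃ δ : Derivation ℂ K K, δ ≠ 0 ∧ δ M.x = 2 * M.y ∧ ∀ P : Place K, P.ord (δ P.unif) = 0) ∧
  (∃ c : Crv K, c.ξ = ![M.x, M.y] ∧ c.d = 3 ∧
    ∀ q : Fin 2 → ℂ, eval q c.f = 0 ↔ q 1 ^ 2 = ∏ i, (q 0 - M.e i)) ∧
  (∃ O : Place K, O.ord M.x = -2 ∧ O.ord M.y = -3 ∧ ∀ P, P ≠ O → M.x ∈ P.O ∧ M.y ∈ P.O) ∧
  (∀ a b : ℂ, b ^ 2 = ∏ i, (a - M.e i) → ∃! P : Place K,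
    M.x - algebraMap ℂ K a ∈ Ge P 1 ∧ M.y - algebraMap ℂ K b ∈ Ge P 1) ∧
  ∀ (P : Place K) (a b : ℂ), M.x - algebraMap ℂ K a ∈ Ge P 1 → M.y - algebraMap ℂ K b ∈ Ge P 1 →
    (b ≠ 0 → P.ord (M.x - algebraMap ℂ K a) = 1) ∧ (b = 0 → P.ord M.y = 1)

def St_RHL : Prop := ∀ (K E : Type) [Field K] [Algebra ℂ K] [IsFF K] [Field E] [Algebra ℂ E]
  [IsFF E] [Algebra E K] [IsScalarTower ℂ E K] (δ₀ : Derivation ℂ E E), δ₀ ≠ 0 →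
  (∀ w : Place E, w.ord (δ₀ w.unif) = 0) → chi K ≤ 0 ∧ (chi K = 0 →
    ∃ (res : Place K → Place E) (δ : Derivation ℂ K K),
      (∀ g, δ (algebraMap E K g) = algebraMap E K (δ₀ g)) ∧
      (∀ z : Place K, z.ord (δ z.unif) = 0) ∧
      ∀ (z : Place K) (g : E), z.ord (algebraMap E K g) = (res z).ord g)

def St_NRE : Prop := ∀ (L E : Type) [Field L] [Algebra ℂ L] [Field E] [Algebra ℂ E] [IsFF E],
  Flat E → (E →ₐ[ℂ] L) → NR L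

def St_GAL : Prop := ∀ (K E : Type) [Field K] [Algebra ℂ K] [IsFF K] [Field E] [Algebra ℂ E]
  [IsFF E] [Algebra E K] [IsScalarTower ℂ E K], WM K → Flat E → Nonempty (Cov K E)

def St_PIC : Prop := ∀ (E : Type) [Field E] [Algebra ℂ E] [IsFF E] (M : WM E) (c : Crv E)
  (y : Fin 10 → Fin 2 → ℂ), M.e = ![0, 1, -1] → c.ξ = ![M.x, M.y] →
  (∀ i, y i 1 ^ 2 = y i 0 ^ 3 - y i 0) → AlgebraicIndependent ℚ (fun i => y i 0) →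
  ∀ (g : E) (a : ℤ) (b : Fin 10 → ℤ), g ≠ 0 →
    divF g = a • c.H - ∑ i, b i • c.D (y i) → a = 0 ∧ b = 0

/-! Valuations. -/

def St_PLACE : Prop := ∀ p : Fin 10 → Fin 2 → ℂ, VG p → ∃ (v : Rd ℂ ℂ) (y : Fin 10 → Fin 2 → ℂ),
  (∀ i k, v.Sp (p i k) (y i k)) ∧ (∀ i, y i 1 ^ 2 = y i 0 ^ 3 - y i 0) ∧
  AlgebraicIndependent ℚ fun i => y i 0

def St_MK : Prop := ∀ (F : Type) [Field F] [Algebra ℂ F] (v : Rd ℂ ℂ) (O : ValuationSubring F),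
  (∀ c : ℂ, algebraMap ℂ F c ∈ O ↔ c ∈ v.O) →
  ∃ (K : Type) (_ : Field K) (_ : Algebra ℂ K) (R : Rd F K), R.O = O ∧ Over v R

def St_EMB : Prop := ∀ (E L : Type) [Field E] [Algebra ℂ E] [Field L] [Algebra ℂ L] (c : Crv E)
  (ξ : Fin 2 → L) (k : Fin 2), aeval ξ c.f = 0 → Transcendental ℂ (ξ k) →
  ∃ φ : E →ₐ[ℂ] L, ∀ j, φ (c.ξ j) = ξ j

def St_EXV : Prop := ∀ (F E : Type) [Field F] [Algebra ℂ F] [Field E] [Algebra ℂ E] [IsFF E]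
  (v : Rd ℂ ℂ) (c : Crv F) (cD : Crv E) (η : ℂ) (fb : P2), RP v (η • c.f) fb → fb ≠ 0 →
  cD.f ∣ fb → ∃ (K : Type) (_ : Field K) (_ : Algebra ℂ K) (_ : Algebra E K)
    (_ : IsScalarTower ℂ E K) (R : Rd F K), Over v R ∧
      ∀ k, R.Sp (c.ξ k) (algebraMap E K (cD.ξ k))

def St_GR : Prop := ∀ (F K : Type) [Field F] [Algebra ℂ F] [Field K] [Algebra ℂ K] (v : Rd ℂ ℂ)
  (R : Rd F K) (M : WM F), Over v R → NR K → (∃ g : K, Transcendental ℂ g) →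
  ∃ (M' : WM F) (a r : ℂ), r ≠ 0 ∧ M.x = algebraMap ℂ F a + r • M'.x ∧
    (∀ i, M.e i = a + r * M'.e i) ∧ Good v R M'

def St_GM : Prop := ∀ (F K : Type) [Field F] [Algebra ℂ F] [Field K] [Algebra ℂ K] (v : Rd ℂ ℂ)
  (R : Rd F K) (M : WM F), Over v R → Good v R M →
  (∃ Mb : WM K, R.Sp M.x Mb.x ∧ R.Sp M.y Mb.y ∧ ∀ i, v.Sp (M.e i) (Mb.e i)) ∧
  (∀ g : F, g ≠ 0 → ∃ c : ℂ, R.U (c • g)) ∧
  (∀ g ∈ R.O, ∃ α β γ αb βb γb : Polynomial ℂ, RQ v α αb ∧ RQ v β βb ∧ RQ v γ γb ∧ γb ≠ 0 ∧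
    g * Polynomial.aeval M.x γ = Polynomial.aeval M.x α + Polynomial.aeval M.x β * M.y) ∧
  ∀ (L : Type) [Field L] [Algebra ℂ L] (R' : Rd F L), Over v R' → NR L →
    (∃ g : L, Transcendental ℂ g) → R'.O = R.O

def St_RED : Prop := ∀ (F K : Type) [Field F] [Algebra ℂ F] [IsFF F] [Field K] [Algebra ℂ K]
  [IsFF K] (v : Rd ℂ ℂ) (R : Rd F K) (M : WM F), Over v R → Good v R M →
  ∃ sp : Place F → Place K, (∀ g, R.U g → divF (R.r g) = (divF g).mapDomain sp) ∧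
    ∀ z : Place K, ∃ s, R.U s ∧ z.ord (R.r s) = 1 ∧ ∀ P, sp P = z → s ∈ P.O

def St_DISC : Prop := ∀ (F K : Type) [Field F] [Algebra ℂ F] [IsFF F] [Field K] [Algebra ℂ K]
  [IsFF K] (m : Mod F K) (z : Place K),
  (∀ g ∈ m.R.O, (∀ P, m.sp P = z → g ∈ P.O) →
    m.R.r g ∈ z.O ∧ ∀ P, m.sp P = z → m.v.Sp (ev P g) (ev z (m.R.r g))) ∧
  ∃ s, m.R.U s ∧ z.ord (m.R.r s) = 1 ∧ (∀ P, m.sp P = z → s ∈ P.O) ∧
    (∀ P, m.sp P = z → P.ord (s - algebraMap ℂ F (ev P s)) = 1) ∧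
    (∀ P Q, m.sp P = z → m.sp Q = z → P ≠ Q → P.ord (s - algebraMap ℂ F (ev Q s)) = 0) ∧
    ∀ (g h : F) (lg lh : ℂ), m.R.U g → m.R.U h → (∀ P, m.sp P = z → g ∈ P.O ∧ h ∈ P.O) →
      m.v.Sp lg (lead z (m.R.r s) (m.R.r g)) → m.v.Sp lh (lead z (m.R.r s) (m.R.r h)) →
      ∃ μ, m.v.Sp μ 1 ∧ m.pair z g h * lg ^ (m.Z z (divF h)).card =
        (-1) ^ ((m.Z z (divF g)).card * (m.Z z (divF h)).card) * m.pair z h g *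
          lh ^ (m.Z z (divF g)).card * μ

def St_NOT : Prop := ∀ (F K E : Type) [Field F] [Algebra ℂ F] [IsFF F] [Field K] [Algebra ℂ K]
  [IsFF K] [Field E] [Algebra ℂ E] [IsFF E] (m : Mod F K) (ξ : Fin 2 → F) (cD : Crv E), Flat E →
  ∀ (z : Place K) (k : Fin 2), {a : ℂ | ∃ (P : Place F) (q : Fin 2 → ℂ), m.sp P = z ∧
    (∀ j, ξ j ∈ P.O ∧ m.v.Sp (ev P (ξ j)) (q j)) ∧ eval q cD.f = 0 ∧ q k = a}.Finite

/-! Tails. -/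

def St_PT : Prop := ∀ (F : Type) [Field F] [Algebra ℂ F] [IsFF F] (v : Rd ℂ ℂ) (c : Crv F)
  (P : Place F), (∃ x, IsPt v c P x) ∧ ∀ x, IsPt v c P x →
    (x 2 ≠ 0 → ∀ k : Fin 2, c.ξ k ∈ P.O ∧ v.Sp (ev P (c.ξ k)) (x k.castSucc / x 2)) ∧
    (∀ q : Fin 2 → ℂ, (∀ k, c.ξ k ∈ P.O ∧ v.Sp (ev P (c.ξ k)) (q k)) →
      x 2 ≠ 0 ∧ x 0 = x 2 * q 0 ∧ x 1 = x 2 * q 1) ∧
    (∀ t a tb ab : ℂ, v.Sp t tb → v.Sp a ab →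
      0 < P.ord (c.ξ 1 - t • c.ξ 0 - algebraMap ℂ F a) + c.H P → x 1 = tb * x 0 + ab * x 2) ∧
    ∀ W : F, W ≠ 0 → P.ord W = c.H P → ∃ (γ : ℂ) (xh : Fin 3 → ℂ), γ ≠ 0 ∧ ∀ j,
      v.Sp (xh j) (x j) ∧ W * ![c.ξ 0, c.ξ 1, 1] j ∈ P.O ∧
        ev P (W * ![c.ξ 0, c.ξ 1, 1] j) = γ * xh j

def St_T1 : Prop := ∀ (F K : Type) [Field F] [Algebra ℂ F] [IsFF F] [Field K] [Algebra ℂ K]
  [IsFF K] (m : Mod F K) (c : Crv F) (ξb : Fin 2 → K) (z : Place K) (w : Fin 2 → ℂ)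
  (xb : Place F → Fin 3 → ℂ), (∀ k, m.R.Sp (c.ξ k) (ξb k)) →
  (∀ k, ξb k - algebraMap ℂ K (w k) ∈ Ge z 1) →
  (∀ a b e : ℂ, a • ξb 0 + b • ξb 1 + algebraMap ℂ K e = 0 → a = 0 ∧ b = 0) →
  (∀ P, IsPt m.v c P (xb P)) → ∃ r : P2, r ≠ 0 ∧
    (∀ t a tb ab : ℂ, m.v.Sp t tb → m.v.Sp a ab → (tb ≠ 0 ∨ ab ≠ w 1) → ∃ κ : ℂ,
      Polynomial.C κ * ((m.Z z (divF (c.ξ 1 - t • c.ξ 0 - algebraMap ℂ F a) + c.H)).map fun P =>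
          Polynomial.C (xb P 0) - Polynomial.C (xb P 2) * Polynomial.X).prod =
        onL tb ab r * (Polynomial.C (w 0) - Polynomial.X) ^
          (z.ord (ξb 1 - tb • ξb 0 - algebraMap ℂ K ab)).toNat) ∧
    ∀ (n : ℕ) (Γ Γb : P2) (η tb : ℂ), RP m.v Γ Γb → Γ.totalDegree ≤ n →
      m.R.U (η • aeval c.ξ Γ) →
      (∀ P ∈ m.Z z (divF (aeval c.ξ Γ) + (n : ℤ) • c.H), ¬ (xb P 1 = tb * xb P 0 ∧ xb P 2 = 0)) →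
      ∃ κ : ℂ, ∀ (ab cc : ℂ) (A : Fin n → ℂ), w 1 - tb * w 0 - ab ≠ 0 → cc ≠ 0 →
        onL tb ab Γb = Polynomial.C cc * ∏ j, (Polynomial.X - Polynomial.C (A j)) →
        κ * ((m.Z z (divF (aeval c.ξ Γ) + (n : ℤ) • c.H)).map fun P =>
            xb P 1 - tb * xb P 0 - ab * xb P 2).prod *
            (w 1 - tb * w 0 - ab) ^ (n * (m.Z z c.H).card) =
          cc ^ (m.Z z c.H).card *
            (w 1 - tb * w 0 - ab) ^ (m.Z z (divF (aeval c.ξ Γ) + (n : ℤ) • c.H)).card *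
            ∏ j, eval ![A j, tb * A j + ab] r

def St_T2 : Prop := ∀ r : P2,
  (∀ d : ℕ, {t : ℂ | ¬ (onL t 0 r).natDegree ≤ d}.Finite → r.totalDegree ≤ d) ∧
  (∀ (q : Fin 2 → ℂ) (n : ℕ), {t : ℂ | ¬ (Polynomial.X - Polynomial.C (q 0)) ^ n ∣
    onL t (q 1 - t * q 0) r}.Finite → r ∈ mi q ^ n) ∧
  (r ≠ 0 → {a : ℂ | onL 0 a r = 0}.Finite)

def St_T4 : Prop := ∀ (E : Type) [Field E] [Algebra ℂ E] [IsFF E] (c : Crv E), NR E → c.d = 3 →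
  ∀ (P : Place E) (w : Fin 2 → ℂ) (r : P2) (Z₁ Z₂ : Multiset (Fin 3 → ℂ)) (d : ℕ),
  0 < c.D w P → ¬ c.f ∣ r → (∀ x ∈ Z₁ + Z₂, x ≠ 0) →
  (∀ x ∈ Z₁, x 0 = x 2 * w 0 ∧ x 1 = x 2 * w 1) →
  (∀ t : ℂ, (∀ x ∈ Z₁ + Z₂, ¬ (x 1 = t * x 0 ∧ x 2 = 0)) → ∃ κ : ℂ,
    ∀ (a cc : ℂ) (A : Fin 3 → ℂ), w 1 - t * w 0 - a ≠ 0 → cc ≠ 0 →
      onL t a c.f = Polynomial.C cc * ∏ j, (Polynomial.X - Polynomial.C (A j)) →
      κ * ((Z₁ + Z₂).map fun x => x 1 - t * x 0 - a * x 2).prod * (w 1 - t * w 0 - a) ^ (3 * d) =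
        cc ^ d * (w 1 - t * w 0 - a) ^ (Z₁ + Z₂).card * ∏ j, eval ![A j, t * A j + a] r) →
  3 * (d : ℤ) - Z₂.card ≤ P.ord (aeval c.ξ r)

section
variable (F K E : Type) [Field F] [Algebra ℂ F] [IsFF F] [Field K] [Algebra ℂ K] [IsFF K]
  [Field E] [Algebra ℂ E] [IsFF E] [Algebra E K] [IsScalarTower ℂ E K]

def TAIL : Prop := ∀ (S : Setup F K E) (z : Place K), S.D.c.H (S.C.res z) = 0 →
  ∃ r : P2, S.D.Tail (S.dz z) (fun i => S.mz i z) r ∧ ∀ (Γ : P2) (η : ℂ) (u : K),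
    RP S.m.v Γ S.D.c.f → Γ.totalDegree ≤ 3 → S.m.R.Sp (η • aeval S.c.ξ Γ) u →
    (∀ i, 0 < S.D.c.D (S.D.y i) (S.C.res z) → eval (S.p i) Γ = 0) →
    u ∈ Ge z (-S.D.B (S.dz z) (fun i => S.mz i z) r (S.C.res z) - S.D.cl 3 1 (S.C.res z))

def POS : Prop := ∀ S : Setup F K E,
  degree S.dz = S.c.d - 3 * Nat.card (K ≃ₐ[E] K) ∧
  (∀ i, degree (S.mz i) = S.c.m S.p i - Nat.card (K ≃ₐ[E] K)) ∧ ∀ z : Place K,
    0 ≤ S.dz z ∧ S.D.Pos (S.dz z) (fun i => S.mz i z) (S.C.res z) ∧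
    ∀ (Φ : P2) (e : ℕ) (μ : Fin 10 → ℕ) (η : ℂ) (u : K), Φ.totalDegree ≤ e →
      (∀ i, Φ ∈ mi (S.p i) ^ μ i) → S.m.R.Sp (η • aeval S.c.ξ Φ) u →
      u ∈ Ge z (-(e * S.dz z - ∑ i, μ i * S.mz i z) - S.D.cl e (fun i => μ i) (S.C.res z))

def PROJ : Prop := ∀ (S : Setup F K E) (T : Finset (Place E)), ∃ S' : Setup F K E,
  S'.C = S.C ∧ S'.c.d = S.c.d ∧ S'.c.m S'.p = S.c.m S.p ∧ S'.dz = S.dz ∧ S'.mz = S.mz ∧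
    ∀ w ∈ T, S'.D.c.H w = 0

def CUB : Prop := ∀ S : Setup F K E, ∃ (G G' : P2) (η : ℂ) (u : K) (β : E),
  RP S.m.v G S.D.c.f ∧ RP S.m.v G' S.D.c.f ∧ G.totalDegree ≤ 3 ∧ G'.totalDegree ≤ 3 ∧
  (∀ i, i ≠ 9 → eval (S.p i) G = 0) ∧ (∀ i, i ≠ 0 → eval (S.p i) G' = 0) ∧
  S.m.R.Sp (η • aeval S.c.ξ G) u ∧ S.m.R.Sp (η • aeval S.c.ξ G') (u - algebraMap E K β) ∧
  ((β = 0 ∧ u ≠ 0) ∨ (β ≠ 0 ∧ ∀ w, 0 < S.D.c.D (S.D.y 9) w → w.ord β = 0))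

def ENDB : Prop := ∀ (C : Cov K E) (D : Cub E) (L : Lim C D) [Fintype (K ≃ₐ[E] K)],
  ∃ (n : Place K →₀ ℤ) (e : ℕ), (∀ z, 0 ≤ n z ∧ n z ≤ L.B z (C.res z)) ∧ 1 ≤ e ∧
    (((e : ℤ) ≤ degree n ∧ ∑ a : K ≃ₐ[E] K, ∑ z ∈ n.support, min (n z) (n (C.act a z)) ≤
        e * degree n + (Nat.card (K ≃ₐ[E] K) - e) * (2 * degree n - Nat.card (K ≃ₐ[E] K) - e)) ∨
      (∑ a : K ≃ₐ[E] K, ∑ z ∈ n.support, min (n z) (n (C.act a z)) ≤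
        e * degree n + (Nat.card (K ≃ₐ[E] K) - e) * (2 * degree n - Nat.card (K ≃ₐ[E] K)) ∧
        ∃ T : Finset (Place K), T.card = e ∧ ∀ z ∈ T, 1 ≤ n z ∧ n z < degree (L.B z)))

def END : Prop := ∀ (C : Cov K E) (D : Cub E) (L : Lim C D),
  ∑ i, (Nat.card (K ≃ₐ[E] K) + degree (L.mz i)) ^ 2 ≤ (3 * Nat.card (K ≃ₐ[E] K) + degree L.dz) ^ 2

end

/-- A statement about all triples of function fields. -/
def All (Q : ∀ (F K E : Type) [Field F] [Algebra ℂ F] [IsFF F] [Field K] [Algebra ℂ K] [IsFF K]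
    [Field E] [Algebra ℂ E] [IsFF E] [Algebra E K] [IsScalarTower ℂ E K], Prop) : Prop :=
  ∀ (F K E : Type) [Field F] [Algebra ℂ F] [IsFF F] [Field K] [Algebra ℂ K] [IsFF K]
    [Field E] [Algebra ℂ E] [IsFF E] [Algebra E K] [IsScalarTower ℂ E K], Q F K E

/-- A statement about all pairs of function fields. -/
def All₂ (Q : ∀ (K E : Type) [Field K] [Algebra ℂ K] [IsFF K]
    [Field E] [Algebra ℂ E] [IsFF E] [Algebra E K] [IsScalarTower ℂ E K], Prop) : Prop :=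
  ∀ (K E : Type) [Field K] [Algebra ℂ K] [IsFF K]
    [Field E] [Algebra ℂ E] [IsFF E] [Algebra E K] [IsScalarTower ℂ E K], Q K E

def St_TAIL : Prop := All fun F K E => TAIL F K E
def St_POS : Prop := All fun F K E => POS F K E
def St_PROJ : Prop := All fun F K E => PROJ F K E
def St_CUB : Prop := All fun F K E => CUB F K E
def St_ENDB : Prop := All₂ fun K E => ENDB K E
def St_END : Prop := All₂ fun K E => END K E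

/-! Plane curves. -/

def St_DIM : Prop := ∀ (ι : Type) [Fintype ι] (p : ι → Fin 2 → ℂ) (e : ℕ) (μ : ι → ℕ),
  ∃ (N : ℕ) (g : Fin N → P2), LinearIndependent ℂ g ∧
    (e + 1) * (e + 2) ≤ 2 * N + ∑ i, μ i * (μ i + 1) ∧
    ∀ j, (g j).totalDegree ≤ e ∧ ∀ i, g j ∈ mi (p i) ^ μ i

def St_ADJ : Prop := ∀ (ι : Type) [Fintype ι] (p : ι → Fin 2 → ℂ), Function.Injective p →
  (∀ f : P2, Prime f → ∑ i, (mult (p i) f : ℤ) * (mult (p i) f - 1) ≤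
    f.totalDegree * (f.totalDegree - 3) + 2) ∧
  ∀ (K : Type) [Field K] [Algebra ℂ K] [IsFF K] (c : Crv K), NR K →
    ∑ i, (c.m p i : ℤ) * (c.m p i - 1) ≤ c.d * (c.d - 3)

def St_BEZ : Prop := ∀ (ι : Type) [Fintype ι] (p : ι → Fin 2 → ℂ), Function.Injective p →
  ∀ f g : P2, Prime f → ¬ f ∣ g →
    ∑ i, mult (p i) f * mult (p i) g ≤ f.totalDegree * g.totalDegree

def St_G3 : Prop := ∀ (E : Type) [Field E] [Algebra ℂ E] [IsFF E] (D : Cub E) (a a' : ℤ)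
  (b b' : Fin 10 → ℤ) (r r' : P2) (w : Place E), D.Tail a b r → D.Tail a' b' r' → D.Pos a' b' w →
  -D.B a b r w ≤ a * a' - ∑ i, b i * b' i

/-! Assembly. -/

def St_SET : Prop := ∀ (F : Type) [Field F] [Algebra ℂ F] [IsFF F] (c : Crv F)
  (p : Fin 10 → Fin 2 → ℂ), WM F → VG p → 3 * c.d < ∑ i, c.m p i →
  ∃ (K E : Type) (_ : Field K) (_ : Algebra ℂ K) (_ : IsFF K) (_ : Field E) (_ : Algebra ℂ E)
    (_ : IsFF E) (_ : Algebra E K) (_ : IsScalarTower ℂ E K) (S : Setup F K E),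
    S.c = c ∧ S.p = p

def St_M10 : Prop := ∀ (F : Type) [Field F] [Algebra ℂ F] [IsFF F] (c : Crv F)
  (p : Fin 10 → Fin 2 → ℂ), WM F → VG p → ∑ i, c.m p i ^ 2 ≤ c.d ^ 2

def St_R10 : Prop := ∀ (F : Type) [Field F] [Algebra ℂ F] [IsFF F] (r : ℕ) (c : Crv F)
  (p : Fin r → Fin 2 → ℂ), 10 ≤ r → WM F → VG p → ∑ i, c.m p i ^ 2 ≤ c.d ^ 2

def St_FIN : Prop := ∀ (r : ℕ) (p : Fin r → Fin 2 → ℂ), 10 ≤ r → VG p →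
  ∀ (F : P3) (d : ℕ), F.IsHomogeneous d → Irreducible F →
  (∃ W : WeierstrassCurve ℂ, W.IsElliptic ∧ ∃ a b c : W.toAffine.FunctionField,
    aeval ![a, b, c] F = 0 ∧ IntermediateField.adjoin ℂ {a / c, b / c} = ⊤) →
  ∀ m : Fin r → ℕ, (∀ i, F ∈ hi (p i) ^ m i) → ∑ i, m i ^ 2 ≤ d ^ 2

end G1
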