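import Pool.Agent.Lib.G1.Blue

open Finsupp MvPolynomial IntermediateField Module
open Pool.Agent.Lib.MP_cc3443_ag Pool.Agent.Lib.MP_3c72fe_ag

noncomputable section

namespace G1

namespace CUBa

section
variable {F K : Type} [Field F] [Field K] {R : Rd F K} {a a' : F} {b b' : K}

lemma sp_mk (a : R.O) : R.Sp a (R.ρ a) := ⟨a.2, dif_pos a.2⟩

lemma sp_ex (h : R.Sp a b) : ∃ x : R.O, a = x ∧ b = R.ρ x :=
  ⟨⟨a, h.1⟩, rfl, h.2.symm.trans (dif_pos h.1)⟩

lemma sp_zero : R.Sp 0 0 := by simpa using sp_mk (0 : R.O)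

lemma sp_one : R.Sp 1 1 := by simpa using sp_mk (1 : R.O)

lemma sp_nat (n : ℕ) : R.Sp n n := by simpa using sp_mk (n : R.O)

lemma sp_uniq (h : R.Sp a b) (h' : R.Sp a b') : b = b' := h.2.symm.trans h'.2

lemma sp_add (h : R.Sp a b) (h' : R.Sp a' b') : R.Sp (a + a') (b + b') := by
  obtain ⟨x, rfl, rfl⟩ := sp_ex h
  obtain ⟨y, rfl, rfl⟩ := sp_ex h'
  simpa using sp_mk (x + y)

lemma sp_sub (h : R.Sp a b) (h' : R.Sp a' b') : R.Sp (a - a') (b - b') := by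
  obtain ⟨x, rfl, rfl⟩ := sp_ex h
  obtain ⟨y, rfl, rfl⟩ := sp_ex h'
  simpa using sp_mk (x - y)

lemma sp_mul (h : R.Sp a b) (h' : R.Sp a' b') : R.Sp (a * a') (b * b') := by
  obtain ⟨x, rfl, rfl⟩ := sp_ex h
  obtain ⟨y, rfl, rfl⟩ := sp_ex h'
  simpa using sp_mk (x * y)

lemma sp_pow (h : R.Sp a b) (n : ℕ) : R.Sp (a ^ n) (b ^ n) := by
  obtain ⟨x, rfl, rfl⟩ := sp_ex h
  simpa using sp_mk (x ^ n)

lemma sp_sum {ι : Type} (s : Finset ι) {f : ι → F} {g : ι → K} (h : ∀ i, R.Sp (f i) (g i)) :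
    R.Sp (∑ i ∈ s, f i) (∑ i ∈ s, g i) := by
  classical
  induction s using Finset.induction_on with
  | empty => simpa using sp_zero
  | insert i s hi ih => rw [Finset.sum_insert hi, Finset.sum_insert hi]; exact sp_add (h i) ih

lemma sp_ne (h : R.Sp a b) (hb : b ≠ 0) : a ≠ 0 := by
  rintro rfl
  exact hb (sp_uniq h sp_zero)

lemma sp_inv (h : R.Sp a b) (hb : b ≠ 0) : R.Sp a⁻¹ b⁻¹ := by
  have ha := sp_ne h hb
  obtain ⟨x, rfl, rfl⟩ := sp_ex h
  have h1 : R.Sp (x : F)⁻¹ (R.r (x : F)⁻¹) := ⟨R.unit x hb, rfl⟩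
  have h2 := sp_mul (sp_mk x) h1
  rw [mul_inv_cancel₀ ha] at h2
  rwa [eq_inv_of_mul_eq_one_right (sp_uniq h2 sp_one)] at h1

lemma sp_out (h : a ∉ R.O) : R.Sp a⁻¹ 0 := by
  have h1 : R.Sp a⁻¹ (R.r a⁻¹) := ⟨(R.O.mem_or_inv_mem a).resolve_left h, rfl⟩
  by_contra h2
  exact h (by simpa using (sp_inv h1 fun e => h2 (e ▸ h1)).1)

end

variable {v : Rd ℂ ℂ} {g g' gb gb' : P2}

lemma rp_sub (h : RP v g gb) (h' : RP v g' gb') : RP v (g - g') (gb - gb') := fun s => by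
  rw [coeff_sub, coeff_sub]; exact sp_sub (h s) (h' s)

lemma rp_smul {c b : ℂ} (hc : v.Sp c b) (h : RP v g gb) : RP v (c • g) (b • gb) := fun s => by
  rw [coeff_smul, coeff_smul]; exact sp_mul hc (h s)

lemma rp_supp (h : RP v g gb) : gb.support ⊆ g.support := fun s hs =>
  MvPolynomial.mem_support_iff.2 (sp_ne (h s) (MvPolynomial.mem_support_iff.1 hs))

lemma rp_pderiv (h : RP v g gb) (k : Fin 2) : RP v (pderiv k g) (pderiv k gb) := fun s => by
  rw [coeff_pderiv, coeff_pderiv]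
  exact sp_mul (h _) (sp_add (sp_nat _) sp_one)

lemma rp_aeval {F K : Type} [Field F] [Algebra ℂ F] [Field K] [Algebra ℂ K] {R : Rd F K}
    (ov : Over v R) (h : RP v g gb) {ξ : Fin 2 → F} {ξb : Fin 2 → K} (hξ : ∀ k, R.Sp (ξ k) (ξb k)) :
    R.Sp (aeval ξ g) (aeval ξb gb) := by
  have e : gb = ∑ s ∈ g.support, monomial s (coeff s gb) := by
    conv_lhs => rw [gb.as_sum]
    exact Finset.sum_subset (rp_supp h) fun s _ hs => by rw [MvPolynomial.notMem_support_iff.1 hs, map_zero]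
  rw [e, map_sum]
  conv => enter [2]; rw [g.as_sum, map_sum]
  refine sp_sum _ fun s => ?_
  rw [aeval_monomial, aeval_monomial, Finsupp.prod_fintype _ _ (by simp),
    Finsupp.prod_fintype _ _ (by simp), Fin.prod_univ_two, Fin.prod_univ_two]
  exact sp_mul (ov.2 _ _ (h s)) (sp_mul (sp_pow (hξ 0) _) (sp_pow (hξ 1) _))

lemma rp_eval (h : RP v g gb) {p y : Fin 2 → ℂ} (hp : ∀ k, v.Sp (p k) (y k)) :
    v.Sp (eval p g) (eval y gb) := by
  simpa only [aeval_eq_eval] using rp_aeval (R := v) ⟨fun _ h => h, fun _ _ h => h⟩ h hp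

lemma rp_scale (v : Rd ℂ ℂ) (hg : g ≠ 0) : ∃ (c : ℂ) (gb : P2), gb ≠ 0 ∧ RP v (c • g) gb := by
  obtain ⟨s₀, h0, h1⟩ := g.support.exists_max_image (fun s => v.O.valuation (coeff s g))
    (support_nonempty.2 hg)
  have h2 := MvPolynomial.mem_support_iff.1 h0
  have h3 : RP v ((coeff s₀ g)⁻¹ • g)
      (∑ s ∈ g.support, monomial s (v.r ((coeff s₀ g)⁻¹ * coeff s g))) := fun s => by
    rw [coeff_smul, smul_eq_mul, coeff_sum]
    simp only [coeff_monomial, Finset.sum_ite_eq']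
    split_ifs with hs
    · refine ⟨(v.O.valuation_le_one_iff _).1 ?_, rfl⟩
      rw [map_mul, map_inv₀]
      exact inv_mul_le_one_of_le₀ (h1 s hs) zero_le
    · rw [MvPolynomial.notMem_support_iff.1 hs, mul_zero]; exact sp_zero
  refine ⟨_, _, fun e => ?_, h3⟩
  have h4 := h3 s₀
  rw [e, coeff_smul, smul_eq_mul, inv_mul_cancel₀ h2] at h4
  exact one_ne_zero (sp_uniq sp_one h4)

variable {E : Type} [Field E] [Algebra ℂ E] [IsFF E] (D : Cub E)

lemma mult_one (i : Fin 10) : mult (D.y i) D.c.f = 1 := by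
  have h1 := D.c.add_two_le D.nr (D.y i)
  have h2 := (mem_pow_iff (n := 1) D.c.prime.ne_zero).1 (by simpa using mem_mi.2 (D.on i))
  have h3 := D.d3
  omega

lemma U0 {Φ : P2} (hd : Φ.totalDegree ≤ 3) (j : Fin 10) (h : ∀ i, i ≠ j → eval (D.y i) Φ = 0) :
    ∃ c : ℂ, Φ = c • D.c.f := by
  have h3 : D.c.f.totalDegree = 3 := D.d3
  by_cases h0 : aeval D.c.ξ Φ = 0
  · obtain ⟨q, rfl⟩ := (D.c.ker _).1 h0
    by_cases hq : q = 0
    · exact ⟨0, by simp [hq]⟩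
    · rw [totalDegree_mul_of_isDomain D.c.prime.ne_zero hq] at hd
      refine ⟨coeff 0 q, ?_⟩
      rw [smul_eq_C_mul, mul_comm, ← totalDegree_eq_zero_iff_eq_C.1 (by omega)]
  have h1 := D.c.ev_mem_LL D.inj hd (n := fun i => if i = j then 0 else 1) fun i => by
    split_ifs with hi
    · simp
    · simpa using mem_mi.2 (h i hi)
  have h2 : ∀ j : Fin 10, ∑ i, ((if i = j then 0 else 1 : ℕ) : ℤ) = 9 := by decide
  have h4 : degree (D.c.cls D.y 3 (fun i => if i = j then 0 else 1) + divF (aeval D.c.ξ Φ)) = 0 := by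
    rw [map_add, degree_div, D.c.degree_cls, h3]
    simp only [mult_one, Nat.cast_one, mul_one, h2]
    rfl
  have h5 := nonneg_of_mem h1 h0
  have h6 := (D.pic _ (-3) (fun i => -((if i = j then 0 else 1 : ℕ) : ℤ)) h0 (by
    have := le_antisymm (Finsupp.le_def.2 fun P => (le_degree_of_nonneg h5 P).trans_eq h4) h5
    rw [eq_neg_of_add_eq_zero_right this, Crv.cls]
    simp only [neg_smul, Finset.sum_neg_distrib]
    abel)).1
  omega

end CUBa

open CUBa in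
theorem stCUB : St_CUB := by
  intro F K E _ _ _ _ _ _ _ _ _ _ _ S
  obtain ⟨s₀, hs⟩ := support_nonempty.2 S.D.c.prime.ne_zero
  rw [MvPolynomial.mem_support_iff] at hs
  obtain ⟨a, ha⟩ := S.m.v.surj (coeff s₀ S.D.c.f)
  have ha1 := ha ▸ sp_mk a
  have red : ∀ {g gb : P2} {i}, RP S.m.v g gb → eval (S.p i) g = 0 → eval (S.D.y i) gb = 0 :=
    fun h e => sp_uniq (e ▸ rp_eval h (S.sp_p _)) sp_zero
  have key : ∀ {g gb : P2} {c : ℂ} (j : Fin 10), RP S.m.v (c • g) gb → g.totalDegree ≤ 3 →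
      (∀ i, i ≠ j → eval (S.D.y i) gb = 0) → ∃ e : ℂ, gb = e • S.D.c.f := fun j h hd h' =>
    U0 S.D (((totalDegree_le_of_support_subset (rp_supp h)).trans (totalDegree_smul_le _ _)).trans
      hd) j h'
  have ex : ∀ j : Fin 10, ∃ G : P2, RP S.m.v G S.D.c.f ∧ G.totalDegree ≤ 3 ∧
      (∀ i, i ≠ j → eval (S.p i) G = 0) ∧ coeff s₀ G = a := fun j => by
    obtain ⟨G, g0, g1, g2⟩ := exists_cubic S.p (T := Finset.univ.erase j) (by simp)
    obtain ⟨c, gb, b0, b1⟩ := rp_scale S.m.v g0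
    obtain ⟨e, rfl⟩ := key j b1 g1 fun i hi => red b1 (by simp [g2 i (by simpa using hi)])
    have e0 : e ≠ 0 := by rintro rfl; simp at b0
    have e1 : coeff s₀ (e • S.D.c.f) ≠ 0 := by simpa using ⟨e0, hs⟩
    refine ⟨(a * (coeff s₀ (c • G))⁻¹) • c • G, ?_,
      ((totalDegree_smul_le _ _).trans (totalDegree_smul_le _ _)).trans g1,
      fun i hi => by simp [g2 i (by simpa using hi)], ?_⟩
    · convert rp_smul (sp_mul ha1 (sp_inv (b1 s₀) e1)) b1 using 1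
      rw [smul_smul, coeff_smul, smul_eq_mul, show coeff s₀ S.D.c.f *
        (e * coeff s₀ S.D.c.f)⁻¹ * e = 1 by field_simp, one_smul]
    · rw [coeff_smul, smul_eq_mul, mul_assoc, inv_mul_cancel₀ (sp_ne (b1 s₀) e1), mul_one]
  have U1 : ∀ {g gb : P2} {c : ℂ} (j : Fin 10), RP S.m.v (c • g) gb → g.totalDegree ≤ 3 →
      (∀ i, i ≠ j → eval (S.D.y i) gb = 0) → coeff s₀ g = 0 → gb = 0 := fun j h hd h' h0 => by
    obtain ⟨e, rfl⟩ := key j h hd h'
    have := h s₀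
    rw [coeff_smul, h0, smul_zero, coeff_smul, smul_eq_mul] at this
    rw [(mul_eq_zero.1 (sp_uniq this sp_zero)).resolve_right hs, zero_smul]
  obtain ⟨G, g1, g2, g3, g4⟩ := ex 9
  obtain ⟨G', g1', g2', g3', g4'⟩ := ex 0
  have eps : eval (S.p 9) G ≠ 0 := fun h0 => by
    have h1 : ∀ k, eval (S.p 9) (pderiv k G) = 0 := fun k => by
      obtain ⟨δ, d1, d2⟩ := S.vg.single 9 (Pi.single k 1)
      have h2 : cd δ G - (δ a / a) • G = 0 := by
        by_contra h3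
        obtain ⟨c, gb, b0, b1⟩ := rp_scale S.m.v h3
        refine b0 (U1 9 b1 ((totalDegree_sub _ _).trans (max_le ((totalDegree_cd δ G).trans g2)
          ((totalDegree_smul_le _ _).trans g2))) (fun i hi => red b1 ?_) ?_)
        · have := cd_mem_of_fix (d2 i hi) (n := 1) (g := G) (by simpa using mem_mi.2 (g3 i hi))
          simp [g3 i hi, mem_mi.1 (by simpa using this)]
        · rw [coeff_sub, coeff_cd, coeff_smul, g4, smul_eq_mul, div_mul_cancel₀ _ (sp_ne ha1 hs),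
            sub_self]
      have h3 := eval_cd δ (S.p 9) G
      rw [sub_eq_zero.1 h2, h0, map_zero, dv_apply] at h3
      fin_cases k <;> simpa [h0, d1] using h3.symm
    have h2 := mem_pow_succ (n := 1) (mem_mi.2 (S.D.on 9)) fun k => by
      simpa using mem_mi.2 (red (rp_pderiv g1 k) (h1 k))
    have h3 := (mem_pow_iff S.D.c.prime.ne_zero).1 h2
    rw [mult_one] at h3
    omega
  have e9 : eval (S.p 9) (G - G') = eval (S.p 9) G := by rw [map_sub, g3' 9 (by decide), sub_zero]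
  obtain ⟨c, gb, b0, b1⟩ := rp_scale S.m.v (g := G - G') fun h => eps (by rw [← e9, h, map_zero])
  have b2 : eval (S.D.y 9) gb ≠ 0 := fun h => b0 (U1 0 b1
    ((totalDegree_sub _ _).trans (max_le g2 g2')) (fun i hi => by
      by_cases h9 : i = 9
      · exact h9 ▸ h
      · exact red b1 (by simp [g3 i h9, g3' i hi])) (by rw [coeff_sub, g4, g4', sub_self]))
  have b3 := rp_eval b1 (S.sp_p 9)
  rw [smul_eval, e9] at b3
  have b4 := rp_aeval S.m.ov (rp_smul (sp_inv b3 b2) b1) S.sp_ξ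
  have c0 : c ≠ 0 := left_ne_zero_of_mul (sp_ne b3 b2)
  rw [smul_smul, show (c * eval (S.p 9) G)⁻¹ * c = (eval (S.p 9) G)⁻¹ by field_simp, map_smul,
    map_sub, smul_sub] at b4
  replace b4 := (aeval_algebraMap_apply K S.D.c.ξ _).subst (motive := S.m.R.Sp _) b4
  generalize hH : (eval (S.D.y 9) gb)⁻¹ • gb = H at b4
  have hH1 : eval (S.D.y 9) H ≠ 0 := by rw [← hH, smul_eval, inv_mul_cancel₀ b2]; exact one_ne_zero
  by_cases hx : (eval (S.p 9) G)⁻¹ • aeval S.c.ξ G ∈ S.m.R.O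
  · have β0 : aeval S.D.c.ξ H ≠ 0 := fun h => by
      obtain ⟨q, rfl⟩ := (S.D.c.ker _).1 h
      exact hH1 (by rw [map_mul, S.D.on, zero_mul])
    refine ⟨G, G', _, _, aeval S.D.c.ξ H, g1, g1', g2, g2', g3, g3', ⟨hx, rfl⟩, ?_,
      .inr ⟨β0, fun w hw => ?_⟩⟩
    · simpa using sp_sub ⟨hx, rfl⟩ b4
    · have h1 := (mem_Ge_iff β0).1 (S.D.c.ev_mem_zero (S.D.c.H_eq_zero hw) H)
      have h2 : ¬ 1 ≤ w.ord (aeval S.D.c.ξ H) := fun h =>
        hH1 (S.D.c.eval_eq_zero hw (mem_Ge_of_le h))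
      omega
  · have x0 : (eval (S.p 9) G)⁻¹ • aeval S.c.ξ G ≠ 0 := fun h => hx (h ▸ zero_mem _)
    obtain ⟨d, d1, d2⟩ := S.m.scale _ x0
    have d3 := sp_mul ⟨d1, rfl⟩ (sp_out hx)
    rw [Algebra.smul_def d, mul_inv_cancel_right₀ x0, mul_zero] at d3
    refine ⟨G, G', d * (eval (S.p 9) G)⁻¹, _, 0, g1, g1', g2, g2', g3, g3', ?_, ?_,
      .inl ⟨rfl, d2⟩⟩
    · rw [mul_smul]; exact ⟨d1, rfl⟩
    · convert sp_sub ⟨d1, rfl⟩ (sp_mul d3 b4) using 1
      · rw [← Algebra.smul_def, smul_sub, sub_sub_cancel, mul_smul]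
      · rw [zero_mul, map_zero]

end G1
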