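import Pool.Agent.Lib.G1.Blue

open Finsupp MvPolynomial IntermediateField Module
open Pool.Agent.Lib.MP_cc3443_ag Pool.Agent.Lib.MP_3c72fe_ag

noncomputable section

namespace G1

namespace DIM

/-- Exponents of degree less than `n`. -/
abbrev T (n : ℕ) : Type := Σ k : Fin n, Fin (k + 1)

lemma card_T (n : ℕ) : 2 * Fintype.card (T n) = n * (n + 1) := by
  have h : Fintype.card (T n) = ∑ k ∈ Finset.range n, (k + 1) := by
    rw [Fintype.card_sigma, ← Fin.sum_univ_eq_sum_range (fun k => k + 1) n]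
    simp
  rw [h]
  clear h
  induction n with
  | zero => simp
  | succ n ih => rw [Finset.sum_range_succ, mul_add, ih]; ring

/-- The exponent attached to an index. -/
def ex {n : ℕ} (t : T n) : Fin 2 →₀ ℕ := single 0 (t.2 : ℕ) + single 1 (t.1 - t.2 : ℕ)

lemma ex0 {n : ℕ} (t : T n) : ex t 0 = t.2 := by simp [ex]

lemma ex1 {n : ℕ} (t : T n) : ex t 1 = t.1 - t.2 := by simp [ex]

lemma deg2 (s : Fin 2 →₀ ℕ) : s.degree = s 0 + s 1 := by
  rw [Finsupp.degree_eq_sum, Fin.sum_univ_two]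

lemma ex_deg {n : ℕ} (t : T n) : (ex t).degree = t.1 := by
  have := t.2.2
  rw [deg2, ex0, ex1]
  omega

lemma ex_inj {n : ℕ} : Function.Injective (ex (n := n)) := by
  rintro ⟨a, b⟩ ⟨c, d⟩ h
  have h1 : a = c := Fin.ext (by
    have := congrArg Finsupp.degree h
    rwa [ex_deg, ex_deg] at this)
  subst h1
  have h2 : b = d := Fin.ext (by
    have := congrArg (fun s => s 0) h
    simpa only [ex0] using this)
  rw [h2]

lemma ex_surj {n : ℕ} {s : Fin 2 →₀ ℕ} (h : s.degree < n) : ∃ t : T n, ex t = s := by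
  rw [deg2] at h
  refine ⟨⟨⟨s 0 + s 1, h⟩, ⟨s 0, by dsimp only; omega⟩⟩, ?_⟩
  ext k
  fin_cases k
  · exact ex0 _
  · exact (ex1 _).trans (by simp)

/-- The polynomial with given coefficients. -/
def emb (n : ℕ) : (T n → ℂ) →ₗ[ℂ] P2 := ∑ t, (monomial (ex t)).comp (LinearMap.proj t)

lemma emb_apply {n : ℕ} (c : T n → ℂ) : emb n c = ∑ t, monomial (ex t) (c t) := by
  simp [emb]

lemma emb_inj (n : ℕ) : LinearMap.ker (emb n) = ⊥ := by
  classical
  refine LinearMap.ker_eq_bot'.2 fun c hc => funext fun t => ?_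
  have h := congrArg (coeff (ex t)) hc
  rw [emb_apply, coeff_sum, Finset.sum_eq_single t (fun u _ hu => by
    rw [coeff_monomial, if_neg fun e => hu (ex_inj e)]) (by simp), coeff_monomial, if_pos rfl] at h
  exact h

lemma emb_deg (e : ℕ) (c : T (e + 1) → ℂ) : (emb (e + 1) c).totalDegree ≤ e := by
  rw [emb_apply]
  refine totalDegree_finsetSum_le fun t _ => (totalDegree_monomial_le _ _).trans ?_
  have h1 := ex_deg t
  have h2 := t.1.2
  have h3 : (ex t).sum (fun _ => id) = (ex t).degree := rfl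
  omega

end DIM

open DIM in
theorem stDIM : St_DIM := by
  intro ι _ p e μ
  let L : (T (e + 1) → ℂ) →ₗ[ℂ] ((Σ i, T (μ i)) → ℂ) := LinearMap.pi fun u =>
    (lcoeff ℂ (ex u.2)).comp ((tr (p u.1)).toLinearMap.comp (emb (e + 1)))
  let b := Module.finBasis ℂ (LinearMap.ker L)
  refine ⟨_, fun j => emb (e + 1) (b j), ?_, ?_, fun j => ⟨emb_deg e _, fun i => ?_⟩⟩
  · exact (b.linearIndependent.map' _ (Submodule.ker_subtype _)).map' _ (emb_inj _)
  · have h1 := L.finrank_range_add_finrank_ker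
    have h2 := (LinearMap.range L).finrank_le
    rw [finrank_fintype_fun_eq_card] at h1 h2
    rw [Fintype.card_sigma] at h2
    have h3 : ∑ i, μ i * (μ i + 1) = 2 * ∑ i, Fintype.card (T (μ i)) := by
      rw [Finset.mul_sum]
      exact Finset.sum_congr rfl fun i _ => (card_T _).symm
    have h4 := card_T (e + 1)
    rw [h3, ← h4]
    omega
  · refine mem_pow_iff_tr.2 fun s hs => ?_
    obtain ⟨t, rfl⟩ := ex_surj hs
    exact congrFun (LinearMap.mem_ker.1 (b j).2) ⟨i, t⟩

end G1
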