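import Pool.Agent.Lib.G1.Blue

/-! Residue discs: values, parameters and the local reciprocity law. -/

open Finsupp
open Pool.Agent.Lib.MP_cc3443_ag Pool.Agent.Lib.MP_3c72fe_ag

noncomputable section

namespace G1

namespace DISC

section
variable {F K : Type} [Field F] [Field K] {R : Rd F K} {a a' : F} {b b' : K}

lemma sp_iff : R.Sp a b ↔ ∃ h : a ∈ R.O, R.ρ ⟨a, h⟩ = b :=
  ⟨fun ⟨h, e⟩ => ⟨h, by rw [← e, Rd.r, dif_pos h]⟩,
    fun ⟨h, e⟩ => ⟨h, by rw [Rd.r, dif_pos h, e]⟩⟩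

lemma sp_mul (h : R.Sp a b) (h' : R.Sp a' b') : R.Sp (a * a') (b * b') := by
  obtain ⟨t, rfl⟩ := sp_iff.1 h
  obtain ⟨t', rfl⟩ := sp_iff.1 h'
  exact sp_iff.2 ⟨mul_mem t t', map_mul R.ρ ⟨a, t⟩ ⟨a', t'⟩⟩

lemma sp_sub (h : R.Sp a b) (h' : R.Sp a' b') : R.Sp (a - a') (b - b') := by
  obtain ⟨t, rfl⟩ := sp_iff.1 h
  obtain ⟨t', rfl⟩ := sp_iff.1 h'
  exact sp_iff.2 ⟨sub_mem t t', map_sub R.ρ ⟨a, t⟩ ⟨a', t'⟩⟩

lemma sp_one : R.Sp 1 1 := sp_iff.2 ⟨one_mem _, map_one R.ρ⟩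

lemma sp_zero : R.Sp 0 0 := sp_iff.2 ⟨zero_mem _, map_zero R.ρ⟩

lemma sp_ne (h : R.Sp a b) (hb : b ≠ 0) : a ≠ 0 := fun e =>
  hb (h.2.symm.trans (e ▸ sp_zero.2))

lemma sp_inv (h : R.Sp a b) (hb : b ≠ 0) : R.Sp a⁻¹ b⁻¹ := by
  have a0 := sp_ne h hb
  obtain ⟨h1, e⟩ := sp_iff.1 h
  have h2 : R.Sp a⁻¹ _ := ⟨R.unit ⟨a, h1⟩ (e ▸ hb), rfl⟩
  have h3 := (sp_mul h h2).2
  rw [mul_inv_cancel₀ a0, sp_one.2] at h3
  rwa [eq_inv_of_mul_eq_one_right h3.symm] at h2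

lemma sp_small (h : a ∉ R.O) : R.Sp a⁻¹ 0 := by
  have h1 := (R.O.mem_or_inv_mem a).resolve_left h
  refine sp_iff.2 ⟨h1, by_contra fun t => h ?_⟩
  simpa using R.unit _ t

lemma sp_prod {ι : Type} (s : Multiset ι) {f : ι → F} {g : ι → K} (h : ∀ i ∈ s, R.Sp (f i) (g i)) :
    R.Sp (s.map f).prod (s.map g).prod := by
  induction s using Multiset.induction_on with
  | empty => simpa using sp_one
  | cons i s ih =>
    simp only [Multiset.map_cons, Multiset.prod_cons]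
    exact sp_mul (h i (by simp)) (ih fun j hj => h j (by simp [hj]))

lemma sp_u (h : R.Sp a b) (hb : b ≠ 0) : R.U a := ⟨h.1, h.2.symm ▸ hb⟩

end

variable {F K : Type} [Field F] [Algebra ℂ F] [IsFF F] [Field K] [Algebra ℂ K] [IsFF K]

lemma sp_rd {P : Place K} {g : K} {c : ℂ} : (rd P).Sp g c ↔ g - algebraMap ℂ K c ∈ Ge P 1 := by
  refine ⟨fun h => ?_, fun h => ?_⟩
  · obtain ⟨t, rfl⟩ := sp_iff.1 h
    exact (exists_ev P).choose_spec ⟨g, t⟩
  · have h1 : g ∈ P.O := by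
      simpa [mem_Ge_zero] using add_mem (Ge_mono (by norm_num) h) (const_mem_Ge (P := P) c)
    exact sp_iff.2 ⟨h1, P.res_unique (mem_Ge_one.1 ((exists_ev P).choose_spec ⟨g, h1⟩))
      (mem_Ge_one.1 h)⟩

lemma sp_const (P : Place K) (c : ℂ) : (rd P).Sp (algebraMap ℂ K c) c := sp_rd.2 (by simp)

lemma sp_ev {P : Place K} {g : K} (h : g ∈ P.O) : (rd P).Sp g (ev P g) := ⟨h, rfl⟩

lemma sp_zero_iff {P : Place K} {g : K} (h : g ≠ 0) : (rd P).Sp g 0 ↔ 0 < P.ord g := by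
  rw [sp_rd, map_zero, sub_zero, mem_Ge_iff h]
  rfl

open Classical in
lemma ord_prod (P : Place K) {ι : Type} (s : Multiset ι) {f : ι → K} (i : ι)
    (h : ∀ j ∈ s, f j ≠ 0 ∧ P.ord (f j) = if i = j then 1 else 0) :
    P.ord (s.map f).prod = s.count i := by
  induction s using Multiset.induction_on with
  | empty => simp
  | cons j s ih =>
    have h1 : ∀ l ∈ s, f l ≠ 0 ∧ P.ord (f l) = if i = l then 1 else 0 := fun l hl =>
      h l (by simp [hl])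
    rw [Multiset.map_cons, Multiset.prod_cons, P.ord_mul (h j (by simp)).1
      (Multiset.prod_ne_zero (by simpa using fun l hl => (h1 l hl).1)), ih h1, (h j (by simp)).2,
      Multiset.count_cons]
    split_ifs <;> simp [add_comm]

variable (m : Mod F K) {z : Place K} {g : F}

open Classical in
lemma count_Z (E : Place F →₀ ℤ) (P : Place F) :
    (m.Z z E).count P = if m.sp P = z then (E P).toNat else 0 := by
  rw [Mod.Z, ms, count_toMultiset, mapRange_apply, filter_apply]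
  split_ifs <;> rfl

lemma mem_Z {E : Place F →₀ ℤ} {P : Place F} : P ∈ m.Z z E ↔ m.sp P = z ∧ 0 < E P := by
  classical
  rw [← Multiset.one_le_count_iff_mem, count_Z]
  split_ifs with h <;> simp [h]
  omega

/-- The order of the reduction is the number of zeros in the disc. -/
lemma card_Z (hg : m.R.U g) (hr : ∀ P, m.sp P = z → g ∈ P.O) :
    z.ord (m.R.r g) = (m.Z z (divF g)).card := by
  classical
  have g0 := sp_ne (R := m.R) ⟨hg.1, rfl⟩ hg.2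
  rw [← divF_apply, m.red g hg, ← Multiset.sum_count_eq_card (s := (divF g).support)
    fun P hP => mem_support_iff.2 ((mem_Z m).1 hP).2.ne', mapDomain, Finsupp.sum_apply, Finsupp.sum,
    Nat.cast_sum]
  refine Finset.sum_congr rfl fun P _ => ?_
  rw [count_Z, single_apply]
  split_ifs with h
  · exact (Int.toNat_of_nonneg ((P.mem_iff_ord g0).1 (hr P h))).symm
  · rfl

lemma pos_of {b : K} (hg : m.R.Sp g b) (hb : b ≠ 0) (hr : ∀ P, m.sp P = z → g ∈ P.O) {P : Place F}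
    (hP : m.sp P = z) (h0 : (rd P).Sp g 0) : 0 < z.ord b := by
  rw [← hg.2, card_Z m (sp_u hg hb) hr]
  exact_mod_cast Multiset.card_pos_iff_exists_mem.2
    ⟨P, (mem_Z m).2 ⟨hP, (sp_zero_iff (sp_ne hg hb)).1 h0⟩⟩

lemma val (hg : g ∈ m.R.O) (hr : ∀ P, m.sp P = z → g ∈ P.O) :
    m.R.r g ∈ z.O ∧ ∀ P, m.sp P = z → m.v.Sp (ev P g) (ev z (m.R.r g)) := by
  have h1 : m.R.Sp g _ := ⟨hg, rfl⟩
  refine ⟨?_, fun P hP => ?_⟩
  · by_cases h : m.R.r g = 0
    · exact h ▸ zero_mem _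
    · rw [z.mem_iff_ord h, card_Z m ⟨hg, h⟩ hr]
      exact Int.natCast_nonneg _
  have h2 := sp_ev (hr P hP)
  by_cases h : ev P g ∈ m.v.O
  · refine ⟨h, Eq.symm (And.right (?_ : (rd z).Sp _ _))⟩
    by_cases h3 : m.R.r g - algebraMap ℂ K (m.v.r (ev P g)) = 0
    · exact sp_rd.2 (h3 ▸ zero_mem _)
    · exact sp_rd.2 (mem_Ge_of_le (pos_of m (sp_sub h1 (m.ov.2 _ _ ⟨h, rfl⟩)) h3
        (fun Q hQ => sub_mem (hr Q hQ) (Q.const _)) hP
        (sub_self (ev P g) ▸ sp_sub h2 (sp_const P _))))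
  · have h3 := sp_sub sp_one (sp_mul (m.ov.2 _ _ (sp_small h)) h1)
    have h4 := sp_sub sp_one (sp_mul (sp_const P (ev P g)⁻¹) h2)
    rw [inv_mul_cancel₀ fun e : ev P g = 0 => h (e ▸ zero_mem _), sub_self] at h4
    rw [map_zero, zero_mul, sub_zero] at h3
    simpa using pos_of m h3 one_ne_zero
      (fun Q hQ => sub_mem (one_mem _) (mul_mem (Q.const _) (hr Q hQ))) hP h4

variable {s : F} (hs : m.R.U s) (h1 : z.ord (m.R.r s) = 1) (hr : ∀ P, m.sp P = z → s ∈ P.O)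
include hs h1 hr

lemma sp_par {P : Place F} (hP : m.sp P = z) :
    m.R.Sp (s - algebraMap ℂ F (ev P s)) (m.R.r s) := by
  have h := (val m hs.1 hr).2 P hP
  rw [show ev z (m.R.r s) = 0 from ((sp_zero_iff hs.2).2 (by omega)).2] at h
  simpa using sp_sub ⟨hs.1, rfl⟩ (m.ov.2 _ _ h)

open Classical in
lemma ord_par {P Q : Place F} (hP : m.sp P = z) (hQ : m.sp Q = z) :
    P.ord (s - algebraMap ℂ F (ev Q s)) = if P = Q then 1 else 0 := by
  have h := sp_par m hs h1 hr hQ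
  have h0 := sp_ne h hs.2
  have h2 : ∀ P, m.sp P = z → s - algebraMap ℂ F (ev Q s) ∈ P.O := fun P hP =>
    sub_mem (hr P hP) (P.const _)
  have h3 := card_Z m (sp_u h hs.2) h2
  rw [h.2, h1] at h3
  obtain ⟨a, ha⟩ := Multiset.card_eq_one.1 (by exact_mod_cast h3.symm)
  have h4 := (mem_Z m (E := divF _)).2 ⟨hQ, (sp_zero_iff h0).1
    (sub_self (ev Q s) ▸ sp_sub (sp_ev (hr Q hQ)) (sp_const Q _))⟩
  have h5 := count_Z m (z := z) (divF (s - algebraMap ℂ F (ev Q s))) P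
  rw [ha] at h4 h5
  rw [← Multiset.mem_singleton.1 h4, Multiset.count_singleton, if_pos hP, divF_apply] at h5
  have h6 := (P.mem_iff_ord h0).1 (h2 P hP)
  split_ifs at h5 ⊢ <;> omega

/-- Weierstrass factorisation in the disc. -/
lemma fact (hg : m.R.U g) (hg' : ∀ P, m.sp P = z → g ∈ P.O) {l : ℂ}
    (hl : m.v.Sp l (lead z (m.R.r s) (m.R.r g))) : ∃ u : Place F → ℂ, ∀ Q, m.sp Q = z →
      m.v.Sp (u Q) 1 ∧ ev Q g = l * ((m.Z z (divF g)).map fun P => ev Q s - ev P s).prod * u Q := by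
  classical
  have g0 := sp_ne (R := m.R) ⟨hg.1, rfl⟩ hg.2
  have p0 : m.R.r s ^ z.ord (m.R.r g) ≠ 0 := zpow_ne_zero _ hs.2
  have q0 := div_ne_zero hg.2 p0
  have o0 : z.ord (m.R.r g / m.R.r s ^ z.ord (m.R.r g)) = 0 := by
    rw [ord_div hg.2 p0, z.ord_zpow, h1, mul_one, sub_self]
  have e0 : (rd z).Sp _ (lead z (m.R.r s) (m.R.r g)) := sp_ev ((z.mem_iff_ord q0).2 o0.ge)
  have l0 : lead z (m.R.r s) (m.R.r g) ≠ 0 := fun e => ((sp_zero_iff q0).1 (e ▸ e0)).ne' o0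
  have l1 : algebraMap ℂ K (lead z (m.R.r s) (m.R.r g)) ≠ 0 := by simpa using l0
  have hW := sp_prod (m.Z z (divF g)) fun P hP => sp_par m hs h1 hr ((mem_Z m).1 hP).1
  rw [Multiset.map_const', Multiset.prod_replicate, ← zpow_natCast, ← card_Z m hg hg'] at hW
  set W := ((m.Z z (divF g)).map fun P => s - algebraMap ℂ F (ev P s)).prod with eW
  have W0 := sp_ne hW p0
  have l2 := sp_ne hl l0
  have l3 : algebraMap ℂ F l ≠ 0 := by simpa using l2
  have hu := sp_mul (sp_mul ⟨hg.1, rfl⟩ (sp_inv hW p0)) (sp_inv (m.ov.2 _ _ hl) l1)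
  have hm : ∀ Q, m.sp Q = z → g * W⁻¹ * (algebraMap ℂ F l)⁻¹ ∈ Q.O := fun Q hQ => by
    refine mul_mem ?_ (map_inv₀ (algebraMap ℂ F) l ▸ Q.const _)
    rw [Q.mem_iff_ord (mul_ne_zero g0 (inv_ne_zero W0)), Q.ord_mul g0 (inv_ne_zero W0), Q.ord_inv,
      ord_prod Q _ Q fun P hP => ⟨sp_ne (sp_par m hs h1 hr ((mem_Z m).1 hP).1) hs.2,
        ord_par m hs h1 hr hQ ((mem_Z m).1 hP).1⟩, count_Z, if_pos hQ, divF_apply,
      Int.toNat_of_nonneg ((Q.mem_iff_ord g0).1 (hg' Q hQ)), add_neg_cancel]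
  refine ⟨fun Q => ev Q (g * W⁻¹ * (algebraMap ℂ F l)⁻¹), fun Q hQ => ⟨?_, ?_⟩⟩
  · have h := (val m hu.1 hm).2 Q hQ
    have h' := sp_mul e0 (sp_inv (sp_const z _) l0)
    rw [mul_inv_cancel₀ l0, div_eq_mul_inv] at h'
    rwa [hu.2, show ev z _ = 1 from h'.2] at h
  · have h := sp_mul (sp_mul (sp_const Q l) (sp_prod (m.Z z (divF g)) fun P _ =>
      sp_sub (sp_ev (hr Q hQ)) (sp_const Q (ev P s)))) (sp_ev (hm Q hQ))
    rw [← eW, show algebraMap ℂ F l * W * (g * W⁻¹ * (algebraMap ℂ F l)⁻¹) = g by field_simp] at h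
    exact h.2

end DISC

open DISC in
theorem stDISC : St_DISC := by
  classical
  intro F K _ _ _ _ _ _ m z
  refine ⟨fun g hg hr => val m hg hr, ?_⟩
  obtain ⟨s, hs, h1, hr⟩ := m.disc z
  refine ⟨s, hs, h1, hr, fun P hP => (ord_par m hs h1 hr hP hP).trans (if_pos rfl),
    fun P Q hP hQ h => (ord_par m hs h1 hr hP hQ).trans (if_neg h),
    fun g h lg lh hg hh hreg l1 l2 => ?_⟩
  obtain ⟨u, hu⟩ := fact m hs h1 hr hg (fun P hP => (hreg P hP).1) l1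
  obtain ⟨w, hw⟩ := fact m hs h1 hr hh (fun P hP => (hreg P hP).2) l2
  have a1 := sp_prod (m.Z z (divF h)) fun P hP => (hu P ((mem_Z m).1 hP).1).1
  have a2 := sp_prod (m.Z z (divF g)) fun P hP => (hw P ((mem_Z m).1 hP).1).1
  rw [Multiset.prod_map_one] at a1 a2
  have a3 := sp_ne a1 one_ne_zero
  refine ⟨_, by simpa using sp_mul a2 (sp_inv a1 one_ne_zero), ?_⟩
  rw [Mod.pair, Mod.pair, Multiset.map_congr rfl fun P hP => (hw P ((mem_Z m).1 hP).1).2,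
    Multiset.map_congr rfl fun P hP => (hu P ((mem_Z m).1 hP).1).2]
  have e : ∀ P : Place F, ((m.Z z (divF h)).map fun Q => ev P s - ev Q s).prod =
      (-1) ^ (m.Z z (divF h)).card * ((m.Z z (divF h)).map fun Q => ev Q s - ev P s).prod :=
    fun P => by
      rw [← Multiset.card_map (fun Q => ev Q s - ev P s), ← Multiset.prod_map_neg, Multiset.map_map]
      simp
  simp only [e, Multiset.prod_map_mul, Multiset.map_const', Multiset.prod_replicate,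
    Multiset.prod_map_prod_map (m.Z z (divF g))]
  field_simp
  ring

end G1
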