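import Pool.Agent.Lib.MP_3c72fe_ag.MainA

open Finsupp MvPolynomial IntermediateField Module
open Pool.Agent.Lib.MP_cc3443_ag Pool.Agent.Lib.MP_3c72fe_ag

noncomputable section

namespace G1

/-- A valuation ring of `F` together with an identification of its residue field with `K`. -/
structure Rd (F K : Type) [Field F] [Field K] where
  O : ValuationSubring F
  ρ : O →+* K
  surj : Function.Surjective ρ
  unit : ∀ a : O, ρ a ≠ 0 → (a : F)⁻¹ ∈ O

namespace Rd

variable {F K : Type} [Field F] [Field K] (R : Rd F K)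

open Classical in
/-- The residue map, extended by zero. -/
def r (a : F) : K := if h : a ∈ R.O then R.ρ ⟨a, h⟩ else 0

/-- `a` is integral with residue `b`. -/
def Sp (a : F) (b : K) : Prop := a ∈ R.O ∧ R.r a = b

/-- `a` is a unit of the valuation ring. -/
def U (a : F) : Prop := a ∈ R.O ∧ R.r a ≠ 0

end Rd

/-- Coefficientwise reduction of polynomials in two variables. -/
def RP (v : Rd ℂ ℂ) (g gb : P2) : Prop := ∀ s, v.Sp (coeff s g) (coeff s gb)

/-- Coefficientwise reduction of polynomials in one variable. -/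
def RQ (v : Rd ℂ ℂ) (q qb : Polynomial ℂ) : Prop := ∀ n, v.Sp (q.coeff n) (qb.coeff n)

section
variable {F K : Type} [Field F] [Algebra ℂ F] [Field K] [Algebra ℂ K]

/-- The valuation ring `R` of `F` lies over the valuation ring `v` of the constants. -/
def Over (v : Rd ℂ ℂ) (R : Rd F K) : Prop :=
  (∀ c : ℂ, algebraMap ℂ F c ∈ R.O → c ∈ v.O) ∧
    ∀ c b : ℂ, v.Sp c b → R.Sp (algebraMap ℂ F c) (algebraMap ℂ K b)

variable (K) in
/-- A Weierstrass model. -/
structure WM where
  x : K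
  y : K
  e : Fin 3 → ℂ
  inj : Function.Injective e
  eq : y ^ 2 = ∏ i, (x - algebraMap ℂ K (e i))
  tr : Transcendental ℂ x
  top : IntermediateField.adjoin ℂ {x, y} = ⊤

/-- The model has good reduction and `R` induces the Gauss valuation in the coordinate `x`. -/
structure Good (v : Rd ℂ ℂ) (R : Rd F K) (M : WM F) : Prop where
  x_mem : M.x ∈ R.O
  tr : Transcendental ℂ (R.r M.x)
  e_mem : ∀ i, M.e i ∈ v.O
  inj : Function.Injective fun i => v.r (M.e i)

variable [IsFF F] [IsFF K]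

lemma exists_ev (P : Place K) : ∃ ρ : P.O →+* ℂ, ∀ a : P.O, (a : K) - algebraMap ℂ K (ρ a) ∈ Ge P 1 := by
  choose f hf using fun a : P.O => P.exists_res a.2
  have hf' : ∀ a : P.O, (a : K) - algebraMap ℂ K (f a) ∈ Ge P 1 := fun a => mem_Ge_one.2 (hf a)
  have hu : ∀ (a : P.O) (c : ℂ), (a : K) - algebraMap ℂ K c ∈ Ge P 1 → f a = c := fun a c h =>
    P.res_unique (hf a) (mem_Ge_one.1 h)
  refine ⟨{ toFun := f, map_one' := hu _ _ (by simp), map_zero' := hu _ _ (by simp),
            map_mul' := fun a b => hu _ _ ?_, map_add' := fun a b => hu _ _ ?_ }, hf'⟩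
  · have := add_mem (Ge_mul' (k := 1) (hf' a) (mem_Ge_zero.2 b.2) (by omega))
      (Ge_mul' (k := 1) (const_mem_Ge (f a)) (hf' b) (by omega))
    have e : ((a * b : P.O) : K) - algebraMap ℂ K (f a * f b) =
      (a - algebraMap ℂ K (f a)) * b + algebraMap ℂ K (f a) * (b - algebraMap ℂ K (f b)) := by
      rw [map_mul]; push_cast; ring
    exact e ▸ this
  · have e : ((a + b : P.O) : K) - algebraMap ℂ K (f a + f b) =
      (a - algebraMap ℂ K (f a)) + (b - algebraMap ℂ K (f b)) := by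
      rw [map_add]; push_cast; ring
    exact e ▸ add_mem (hf' a) (hf' b)

/-- A place, seen as a valuation ring with residue field the constants. -/
def rd (P : Place K) : Rd K ℂ where
  O := P.O
  ρ := (exists_ev P).choose
  surj := fun c => ⟨⟨_, P.const c⟩, P.res_unique
    (mem_Ge_one.1 ((exists_ev P).choose_spec ⟨_, P.const c⟩)) (by simp)⟩
  unit := fun a ha => by
    have h := mem_Ge_one.1 ((exists_ev P).choose_spec a)
    rw [← P.val_const ha] at h
    have h1 := (P.val.map_eq_of_sub_lt h).trans (P.val_const ha)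
    rw [P.mem_iff, map_inv₀, h1, inv_one]

/-- The value of a function at a place. -/
def ev (P : Place K) (g : K) : ℂ := (rd P).r g

variable (K) in
/-- There is a vector field without zeros and poles. -/
def Flat : Prop := ∃ δ : Derivation ℂ K K, δ ≠ 0 ∧ ∀ P : Place K, P.ord (δ P.unif) = 0

/-- The positive part of a divisor as a multiset. -/
def ms {α : Type} (E : α →₀ ℤ) : Multiset α := Finsupp.toMultiset (E.mapRange Int.toNat rfl)

variable (F K) in
/-- Good reduction of a function field, with the specialisation map on places. -/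
structure Mod where
  v : Rd ℂ ℂ
  R : Rd F K
  ov : Over v R
  sp : Place F → Place K
  red : ∀ g, R.U g → divF (R.r g) = (divF g).mapDomain sp
  disc : ∀ z : Place K, ∃ s, R.U s ∧ z.ord (R.r s) = 1 ∧ ∀ P, sp P = z → s ∈ P.O
  scale : ∀ g : F, g ≠ 0 → ∃ c : ℂ, R.U (c • g)
  uniq : ∀ (L : Type) [Field L] [Algebra ℂ L] (R' : Rd F L), Over v R' → NR L →
    (∃ g : L, Transcendental ℂ g) → R'.O = R.O

open Classical in
/-- The part of a divisor in the residue disc of `z`. -/
def Mod.Z (m : Mod F K) (z : Place K) (E : Place F →₀ ℤ) : Multiset (Place F) :=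
  ms (E.filter fun P => m.sp P = z)

/-- Product of the values of `h` at the zeros of `g` in the residue disc of `z`. -/
def Mod.pair (m : Mod F K) (z : Place K) (g h : F) : ℂ :=
  ((m.Z z (divF g)).map fun P => ev P h).prod

/-- Leading coefficient with respect to a parameter. -/
def lead (z : Place K) (s g : K) : ℂ := ev z (g / s ^ z.ord g)

/-- `x` is the reduction of the image of the place `P` in the projective plane. -/
def IsPt (v : Rd ℂ ℂ) (c : Crv F) (P : Place F) (x : Fin 3 → ℂ) : Prop :=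
  x ≠ 0 ∧ ∃ M : F, ∀ j, M * ![c.ξ 0, c.ξ 1, 1] j ∈ P.O ∧
    v.Sp (ev P (M * ![c.ξ 0, c.ξ 1, 1] j)) (x j)

/-- Restriction to the line `Y = t X + a`. -/
def onL (t a : ℂ) : P2 →ₐ[ℂ] Polynomial ℂ :=
  aeval ![Polynomial.X, Polynomial.C t * Polynomial.X + Polynomial.C a]

variable (K) in
/-- A smooth cubic with ten independent points. -/
structure Cub where
  c : Crv K
  y : Fin 10 → Fin 2 → ℂ
  d3 : c.d = 3
  on : ∀ i, eval (y i) c.f = 0
  inj : Function.Injective y
  nr : NR K
  flat : Flat K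
  pic : ∀ (g : K) (a : ℤ) (b : Fin 10 → ℤ), g ≠ 0 →
    divF g = a • c.H - ∑ i, b i • c.D (y i) → a = 0 ∧ b = 0

namespace Cub
variable (D : Cub K)

/-- Restriction of the class `(a; b)` to the cubic. -/
def cl (a : ℤ) (b : Fin 10 → ℤ) : Place K →₀ ℤ := a • D.c.H - ∑ i, b i • D.c.D (D.y i)

/-- The residual intersection of the curve `r` of class `(a; b)` with the cubic. -/
def B (a : ℤ) (b : Fin 10 → ℤ) (r : P2) : Place K →₀ ℤ := divF (aeval D.c.ξ r) + D.cl a b

/-- `r` is a curve of class `(a; b)` not containing the cubic. -/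
def Tail (a : ℤ) (b : Fin 10 → ℤ) (r : P2) : Prop :=
  ¬ D.c.f ∣ r ∧ (r.totalDegree : ℤ) ≤ a ∧ ∀ i, b i ≤ mult (D.y i) r

/-- Positivity of the class `(a; b)` attached at `w` against classes that deform. -/
def Pos (a : ℤ) (b : Fin 10 → ℤ) (w : Place K) : Prop :=
  (∀ i, -D.c.D (D.y i) w ≤ b i) ∧ ∀ (e : ℕ) (μ : Fin 10 → ℕ),
    ∑ i, μ i * (μ i + 1) < (e + 1) * (e + 2) → ∃ Φ : P2, Φ ≠ 0 ∧ Φ.totalDegree ≤ e ∧
      (∀ i, Φ ∈ mi (D.y i) ^ μ i) ∧
      (¬ D.c.f ∣ Φ → 0 ≤ e * a - ∑ i, μ i * b i + D.B e (fun i => μ i) Φ w)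

end Cub

end

section
variable (F K E : Type) [Field F] [Algebra ℂ F] [IsFF F] [Field K] [Algebra ℂ K] [IsFF K]
  [Field E] [Algebra ℂ E] [IsFF E] [Algebra E K] [IsScalarTower ℂ E K]

/-- An unramified abelian cover. -/
structure Cov where
  res : Place K → Place E
  act : (K ≃ₐ[E] K) →* Equiv.Perm (Place K)
  fin : Finite (K ≃ₐ[E] K)
  comm : ∀ a b : K ≃ₐ[E] K, a * b = b * a
  ord_act : ∀ a z g, (act a z).ord (a g) = z.ord g
  ord_res : ∀ (z : Place K) (g : E), z.ord (algebraMap E K g) = (res z).ord g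
  surj : Function.Surjective res
  fib : ∀ z z', res z = res z' ↔ ∃ a, act a z = z'
  free : ∀ a z, act a z = z → a = 1
  fix : ∀ g : K, (∀ a : K ≃ₐ[E] K, a g = g) → ∃ h, algebraMap E K h = g

variable {K E} in
omit [IsScalarTower ℂ E K] in
lemma Cov.finite_fib (C : Cov K E) (w : Place E) : (C.res ⁻¹' {w}).Finite := by
  obtain ⟨z, rfl⟩ := C.surj w
  have := C.fin
  refine (Set.finite_range fun a => C.act a z).subset fun z' hz' => ?_
  exact (C.fib z z').1 (Eq.symm hz')

variable {K E} in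
/-- Pull-back of divisors. -/
def Cov.pb (C : Cov K E) (Δ : Place E →₀ ℤ) : Place K →₀ ℤ :=
  Finsupp.ofSupportFinite (fun z => Δ (C.res z)) (by
    refine (Δ.support.finite_toSet.biUnion fun w _ => C.finite_fib w).subset fun z hz => ?_
    simpa using hz)

/-- The degeneration of a plane curve of genus one through ten very general points. -/
structure Setup where
  m : Mod F K
  C : Cov K E
  D : Cub E
  c : Crv F
  p : Fin 10 → Fin 2 → ℂ
  vg : VG p
  nr : NR F
  sp_p : ∀ i k, m.v.Sp (p i k) (D.y i k)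
  sp_ξ : ∀ k, m.R.Sp (c.ξ k) (algebraMap E K (D.c.ξ k))

variable {F K E}

/-- Degrees of the tails. -/
def Setup.dz (S : Setup F K E) : Place K →₀ ℤ := S.c.H.mapDomain S.m.sp - S.C.pb S.D.c.H

/-- Multiplicities of the tails. -/
def Setup.mz (S : Setup F K E) (i : Fin 10) : Place K →₀ ℤ :=
  (S.c.D (S.p i)).mapDomain S.m.sp - S.C.pb (S.D.c.D (S.D.y i))

/-- The limit data used in the final count. -/
structure Lim (C : Cov K E) (D : Cub E) where
  dz : Place K →₀ ℤ
  mz : Fin 10 → Place K →₀ ℤ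
  B : Place K → Place E →₀ ℤ
  u : K
  β : E
  d_nonneg : ∀ z, 0 ≤ dz z
  B_nonneg : ∀ z, 0 ≤ B z
  lin : ∀ z, ∃ g : E, g ≠ 0 ∧ B z = divF g + D.cl (dz z) fun i => mz i z
  inter : ∀ z z', -B z (C.res z') ≤ dz z * dz z' - ∑ i, mz i z * mz i z'
  pole : ∀ z, (if 0 < D.c.D (D.y 9) (C.res z) then u - algebraMap E K β else u) ∈
    Ge z (-B z (C.res z) - D.cl 3 1 (C.res z))
  torsor : (β = 0 ∧ u ≠ 0) ∨ (β ≠ 0 ∧ ∀ w, 0 < D.c.D (D.y 9) w → w.ord β = 0)
  lt : 3 * degree dz - ∑ i, degree (mz i) < Nat.card (K ≃ₐ[E] K)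

end

end G1
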