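import Pool.Agent.Lib.G1.Blue

/-! The final count. -/

open Finsupp MvPolynomial IntermediateField Module
open Pool.Agent.Lib.MP_cc3443_ag Pool.Agent.Lib.MP_3c72fe_ag

noncomputable section

namespace G1

namespace ENDX

lemma deg_eq {α : Type} (f : α →₀ ℤ) {S : Finset α} (h : f.support ⊆ S) :
    degree f = ∑ z ∈ S, f z := by
  rw [degree_apply]
  exact Finset.sum_subset h fun z _ hz => notMem_support_iff.1 hz

lemma le_deg {α : Type} {f : α →₀ ℤ} (h : 0 ≤ f) (w : α) : f w ≤ degree f := by
  classical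
  rw [deg_eq f (Finset.subset_insert w _)]
  exact Finset.single_le_sum (f := fun z => f z) (fun z _ => h z) (Finset.mem_insert_self _ _)

lemma add_le_deg {α : Type} {f : α →₀ ℤ} (h : 0 ≤ f) {w w' : α} (hne : w ≠ w') :
    f w + f w' ≤ degree f := by
  classical
  rw [deg_eq f (Finset.subset_union_right (s₁ := {w, w'})), ← Finset.sum_pair hne]
  exact Finset.sum_le_sum_of_subset_of_nonneg Finset.subset_union_left fun z _ _ => h z

lemma degree_cl {E : Type} [Field E] [Algebra ℂ E] [IsFF E] (D : Cub E) (a : ℤ) (b : Fin 10 → ℤ) :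
    degree (D.cl a b) = 3 * a - ∑ i, b i := by
  have h3 : D.c.f.totalDegree = 3 := D.d3
  have h1 : ∀ i, mult (D.y i) D.c.f = 1 := fun i => by
    have a1 := D.c.add_two_le D.nr (D.y i)
    have a2 : 1 ≤ mult (D.y i) D.c.f := (mem_pow_iff D.c.prime.ne_zero).1 (by
      simpa [D.on i] using sub_C_mem (D.y i) D.c.f)
    have a3 := D.d3
    omega
  simp [Cub.cl, map_sum, Crv.degree_H, Crv.degree_D, h3, h1, mul_comm]

/-- The sum over pairs of points in a fibre. -/
lemma pairs_le {Z W A : Type} [Fintype A] [DecidableEq W] (res : Z → W) (act : A → Z → Z)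
    (fib : ∀ z z', res z = res z' → ∃ a, act a z = z') (S : Finset Z) (n : Z →₀ ℤ)
    (h0 : ∀ z, 0 ≤ n z) (hS : n.support ⊆ S) :
    ∑ z ∈ S, ∑ z' ∈ S, (if res z = res z' then min (n z) (n z') else 0) ≤
      ∑ a : A, ∑ z ∈ n.support, min (n z) (n (act a z)) := by
  classical
  have e : ∀ a : A, ∑ z ∈ n.support, min (n z) (n (act a z)) =
      ∑ z ∈ S, min (n z) (n (act a z)) := fun a =>
    Finset.sum_subset hS fun z _ hz => by
      rw [notMem_support_iff.1 hz]; exact min_eq_left (h0 _)
  simp only [e]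
  rw [Finset.sum_comm (s := Finset.univ)]
  refine Finset.sum_le_sum fun z _ => ?_
  rw [← Finset.sum_filter]
  refine le_trans (Finset.sum_le_sum_of_subset_of_nonneg
    (t := Finset.univ.image fun a => act a z) (fun z' hz' => ?_) fun z' _ _ =>
      le_min (h0 _) (h0 _)) ?_
  · obtain ⟨a, ha⟩ := fib z z' (Finset.mem_filter.1 hz').2
    exact Finset.mem_image.2 ⟨a, Finset.mem_univ _, ha⟩
  · exact Finset.sum_image_le_of_nonneg (f := fun z' => min (n z) (n z'))
      fun z' _ => le_min (h0 _) (h0 _)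

/-- The lower bound for the self-intersection of the sum of the tails. -/
lemma inter_le {Z W : Type} [DecidableEq Z] [DecidableEq W] (res : Z → W) (S : Finset Z)
    (I : Z → Z → ℤ) (n g : Z → ℤ) (hg : ∀ z, 0 ≤ g z) (hs : ∀ z z', I z z' = I z' z)
    (hI : ∀ z z', -I z z' ≤ (if res z = res z' then n z else 0) + g z) :
    -∑ z ∈ S, ∑ z' ∈ S, I z z' ≤
      ∑ z ∈ S, ∑ z' ∈ S, (if res z = res z' then min (n z) (n z') else 0) +
        (2 * S.card - 1) * ∑ z ∈ S, g z := by
  have h1 : ∀ z z', -I z z' ≤ (if res z = res z' then min (n z) (n z') else 0) +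
      (g z + g z' - if z = z' then g z else 0) := by
    intro z z'
    have a1 := hI z z'
    have a2 := hI z' z
    have a3 := hg z
    have a4 := hg z'
    rw [hs z' z] at a2
    by_cases h : z = z'
    · subst h
      simp only [if_true, min_self] at a1 ⊢
      omega
    · by_cases h' : res z = res z'
      · simp only [h', h, if_true, if_false] at a1 a2 ⊢
        omega
      · simp only [h', Ne.symm h', h, if_false] at a1 a2 ⊢
        omega
  have h2 : ∑ z ∈ S, ∑ z' ∈ S, (g z + g z' - if z = z' then g z else 0) =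
      (2 * S.card - 1) * ∑ z ∈ S, g z := by
    have : ∀ z ∈ S, ∑ z' ∈ S, (g z + g z' - if z = z' then g z else 0) =
        (S.card - 1) * g z + ∑ z' ∈ S, g z' := fun z hz => by
      rw [Finset.sum_sub_distrib, Finset.sum_add_distrib, Finset.sum_ite_eq, if_pos hz,
        Finset.sum_const, nsmul_eq_mul]
      ring
    rw [Finset.sum_congr rfl this, Finset.sum_add_distrib, ← Finset.mul_sum, Finset.sum_const,
      nsmul_eq_mul]
    ring
  rw [← h2, ← Finset.sum_add_distrib, ← Finset.sum_neg_distrib]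
  refine Finset.sum_le_sum fun z _ => ?_
  rw [← Finset.sum_add_distrib, ← Finset.sum_neg_distrib]
  exact Finset.sum_le_sum fun z' _ => h1 z z'

end ENDX

open ENDX in
theorem stEND (hB : St_ENDB) : St_END := by
  intro K E _ _ _ _ _ _ _ _ C D L
  classical
  have := C.fin
  have := Fintype.ofFinite (K ≃ₐ[E] K)
  obtain ⟨n, e, hn, he, hcase⟩ := hB K E C D L
  have hlt := L.lt
  generalize (Nat.card (K ≃ₐ[E] K) : ℤ) = k at *
  set S : Finset (Place K) := L.dz.support ∪ Finset.univ.biUnion fun i => (L.mz i).support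
    with hSdef
  have hdS : L.dz.support ⊆ S := Finset.subset_union_left
  have hmS : ∀ i, (L.mz i).support ⊆ S := fun i z hz =>
    Finset.mem_union_right _ (Finset.mem_biUnion.2 ⟨i, Finset.mem_univ _, hz⟩)
  have hτ : ∀ z, degree (L.B z) = 3 * L.dz z - ∑ i, L.mz i z := fun z => by
    obtain ⟨g, -, hg⟩ := L.lin z
    rw [hg, map_add, degree_div, zero_add, degree_cl]
  have hnτ : ∀ z, n z ≤ degree (L.B z) := fun z => (hn z).2.trans (le_deg (L.B_nonneg z) _)
  have hone : ∀ z ∈ S, 1 ≤ degree (L.B z) := by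
    intro z hz
    by_contra hc
    have h0 : L.B z = 0 := by
      ext w
      have a1 := le_deg (L.B_nonneg z) w
      have a2 : 0 ≤ L.B z w := L.B_nonneg z w
      simp only [Finsupp.coe_zero, Pi.zero_apply]
      omega
    obtain ⟨g, hg0, hg⟩ := L.lin z
    obtain ⟨b1, b2⟩ := D.pic g (-L.dz z) (fun i => -L.mz i z) hg0 (by
      rw [h0] at hg
      rw [eq_neg_of_add_eq_zero_left hg.symm, Cub.cl]
      simp only [neg_smul, Finset.sum_neg_distrib]
      abel)
    rcases Finset.mem_union.1 hz with h | h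
    · exact mem_support_iff.1 h (neg_eq_zero.1 b1)
    · obtain ⟨i, -, hi⟩ := Finset.mem_biUnion.1 h
      exact mem_support_iff.1 hi (neg_eq_zero.1 (congrFun b2 i))
  have hnS : n.support ⊆ S := by
    intro z hz
    by_contra hc
    have a1 := hnτ z
    rw [hτ, notMem_support_iff.1 fun h => hc (hdS h),
      Finset.sum_eq_zero fun i _ => notMem_support_iff.1 fun h => hc (hmS i h)] at a1
    have a2 := (hn z).1
    exact mem_support_iff.1 hz (by omega)
  have h1 := inter_le C.res S (fun z z' => L.dz z * L.dz z' - ∑ i, L.mz i z * L.mz i z') n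
    (fun z => degree (L.B z) - n z) (fun z => sub_nonneg.2 (hnτ z))
    (fun z z' => by simp only [mul_comm]) (fun z z' => by
      have a1 := L.inter z z'
      by_cases h : C.res z = C.res z'
      · have a2 := le_deg (L.B_nonneg z) (C.res z')
        simp only [h, if_true]
        omega
      · have a2 := add_le_deg (L.B_nonneg z) h
        have a3 := (hn z).2
        simp only [h, if_false]
        omega)
  have h2 := pairs_le C.res (fun a z => C.act a z) (fun z z' h => (C.fib z z').1 h) S n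
    (fun z => (hn z).1) hnS
  have h3 : ∑ z ∈ S, ∑ z' ∈ S, (L.dz z * L.dz z' - ∑ i, L.mz i z * L.mz i z') =
      degree L.dz ^ 2 - ∑ i, degree (L.mz i) ^ 2 := by
    simp only [Finset.sum_sub_distrib, deg_eq _ hdS, fun i => deg_eq _ (hmS i), sq,
      Finset.sum_mul_sum]
    congr 1
    rw [Finset.sum_comm (s := Finset.univ)]
    exact Finset.sum_congr rfl fun z _ => Finset.sum_comm
  have h4 : ∑ z ∈ S, degree (L.B z) = 3 * degree L.dz - ∑ i, degree (L.mz i) := by
    simp only [hτ, Finset.sum_sub_distrib, deg_eq _ hdS, fun i => deg_eq _ (hmS i),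
      Finset.mul_sum]
    congr 1
    exact Finset.sum_comm
  have h5 : ∑ z ∈ S, (degree (L.B z) - n z) = ∑ z ∈ S, degree (L.B z) - degree n := by
    rw [Finset.sum_sub_distrib, deg_eq _ hnS]
  have h6 : ∑ i, (k + degree (L.mz i)) ^ 2 =
      10 * k ^ 2 + 2 * k * ∑ i, degree (L.mz i) + ∑ i, degree (L.mz i) ^ 2 := by
    simp only [add_sq, Finset.sum_add_distrib, Finset.mul_sum]
    simp
  have h7 : 0 ≤ ∑ z ∈ S, (degree (L.B z) - n z) :=
    Finset.sum_nonneg fun z _ => sub_nonneg.2 (hnτ z)
  rw [h3] at h1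
  rw [h6]
  rcases hcase with ⟨c1, c2⟩ | ⟨c2, T, hT, c3⟩
  · have h8 : (S.card : ℤ) ≤ ∑ z ∈ S, degree (L.B z) := by
      simpa using Finset.sum_le_sum hone
    have h9 := h1.trans (add_le_add_left (h2.trans c2) _)
    rw [h4] at h5 h8
    generalize ∑ z ∈ S, (degree (L.B z) - n z) = Γ at *
    have p1 : 0 ≤ (e : ℤ) * (degree n - e) := mul_nonneg (by omega) (by omega)
    have p2 : 0 ≤ (2 * k - 2 * S.card + 1) * Γ := mul_nonneg (by omega) h7
    have e1 : ∑ i, degree (L.mz i) = 3 * degree L.dz - degree n - Γ := by omega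
    rw [e1]
    nlinarith
  · have hTS : T ⊆ S := fun z hz => hnS (mem_support_iff.2 (by have := (c3 z hz).1; omega))
    have h8 : (S.card : ℤ) + e ≤ ∑ z ∈ S, degree (L.B z) := by
      have a1 : ∑ z ∈ S, (1 + if z ∈ T then 1 else 0 : ℤ) ≤ ∑ z ∈ S, degree (L.B z) :=
        Finset.sum_le_sum fun z hz => by
          have a2 := hone z hz
          split_ifs with h
          · have := c3 z h
            omega
          · omega
      rw [Finset.sum_add_distrib, Finset.sum_ite_mem, Finset.inter_eq_right.2 hTS] at a1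
      simpa [hT] using a1
    have h10 : (e : ℤ) ≤ ∑ z ∈ S, (degree (L.B z) - n z) := by
      have a1 : ∑ z ∈ T, (1 : ℤ) ≤ ∑ z ∈ T, (degree (L.B z) - n z) :=
        Finset.sum_le_sum fun z hz => by have := c3 z hz; omega
      have a2 := Finset.sum_le_sum_of_subset_of_nonneg (f := fun z => degree (L.B z) - n z) hTS
        fun z _ _ => sub_nonneg.2 (hnτ z)
      simpa [hT] using a1.trans a2
    have h9 := h1.trans (add_le_add_left (h2.trans c2) _)
    rw [h4] at h5 h8
    generalize ∑ z ∈ S, (degree (L.B z) - n z) = Γ at *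
    have e1 : ∑ i, degree (L.mz i) = 3 * degree L.dz - degree n - Γ := by omega
    rw [e1] at h8 hlt ⊢
    have p1 : 0 ≤ (k - degree n - Γ) * (Γ - e) := mul_nonneg (by omega) (by omega)
    have p2 : 0 ≤ (2 * k - 2 * S.card + 1 - e - (k - degree n - Γ)) * Γ :=
      mul_nonneg (by omega) h7
    nlinarith

end G1
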