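import Pool.Agent.Lib.G1.Basic

open Finsupp MvPolynomial IntermediateField Module
open Pool.Agent.Lib.MP_cc3443_ag Pool.Agent.Lib.MP_3c72fe_ag

noncomputable section

namespace G1

namespace EB
variable {K E : Type} [Field K] [Algebra ℂ K] [IsFF K] [Field E] [Algebra ℂ E] [IsFF E]
  [Algebra E K] {C : Cov K E} {D : Cub E} (L : Lim C D)

/-- The local section. -/
def us (z : Place K) : K := if 0 < D.c.D (D.y 9) (C.res z) then L.u - algebraMap E K L.β else L.u

lemma deg_B (z : Place K) : degree (L.B z) = 3 * L.dz z - ∑ i, L.mz i z := by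
  obtain ⟨g, -, h⟩ := L.lin z
  rw [h, map_add, degree_div, D.degree_cl, zero_add]

/-- The degrees of the tails. -/
def tau : Place K →₀ ℤ := (3 : ℤ) • L.dz - ∑ i, L.mz i

lemma tau_apply (z : Place K) : tau L z = degree (L.B z) := by
  simp [tau, deg_B, Finsupp.finsetSum_apply]

lemma B_le (z : Place K) (w : Place E) : L.B z w ≤ tau L z := by
  rw [tau_apply]; exact le_degree_of_nonneg (L.B_nonneg z) w

open Classical in
/-- Pole order. -/
def nf (z : Place K) : ℤ :=
  if us L z = 0 then 0 else max (-z.ord (us L z) - D.cl 3 1 (C.res z)) 0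

lemma nf_nonneg (z : Place K) : 0 ≤ nf L z := by
  unfold nf; split_ifs <;> omega

lemma nf_le (z : Place K) : nf L z ≤ L.B z (C.res z) := by
  have h1 : 0 ≤ L.B z (C.res z) := L.B_nonneg z _
  unfold nf
  split_ifs with h
  · exact h1
  · have := (mem_Ge_iff h).1 (L.pole z)
    omega

lemma us_mem (z : Place K) : us L z ∈ Ge z (-nf L z - D.cl 3 1 (C.res z)) := by
  by_cases h : us L z = 0
  · simp [h]
  · refine mem_Ge_of_le ?_
    rw [nf, if_neg h]; omega

/-- The polar divisor. -/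
def n : Place K →₀ ℤ := Finsupp.ofSupportFinite (nf L) ((tau L).support.finite_toSet.subset
  fun z hz => by
    have h1 := nf_nonneg L z
    have h2 := (nf_le L z).trans (B_le L z _)
    have h3 : nf L z ≠ 0 := hz
    simp only [Finset.mem_coe, Finsupp.mem_support_iff]
    omega)

lemma n_apply (z : Place K) : n L z = nf L z := rfl

lemma degree_n_lt : degree (n L) < Nat.card (K ≃ₐ[E] K) := by
  have h1 := degree_mono' (E := n L) (E' := tau L) fun z => (nf_le L z).trans (B_le L z _)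
  have h2 := L.lt
  simp only [tau, map_sub, map_zsmul, map_sum, smul_eq_mul] at h1
  omega

lemma degree_kap : degree (C.pb (D.cl 3 1)) = -(Nat.card (K ≃ₐ[E] K) : ℤ) := by
  rw [C.degree_pb, D.degree_cl]; simp

lemma beta_ne : L.β ≠ 0 ∧ ∀ w, 0 < D.c.D (D.y 9) w → w.ord L.β = 0 := by
  refine L.torsor.resolve_left fun ⟨h1, h2⟩ => h2 (eq_zero_of_mem (E := C.pb (D.cl 3 1) + n L)
    (mem_LL.2 fun z => ?_) ?_)
  · have := us_mem L z
    rw [us, h1, map_zero, sub_zero, ite_self] at this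
    exact Ge_mono (by simp [n_apply]) this
  · rw [map_add, degree_kap]
    have := degree_n_lt L
    omega

lemma exists_pole : ∃ z, 0 < nf L z := by
  by_contra h
  push Not at h
  have h0 : ∀ z, nf L z = 0 := fun z => le_antisymm (h z) (nf_nonneg L z)
  obtain ⟨hβ, hβ'⟩ := beta_ne L
  let b : Fin 10 → ℤ := fun i => if i = 9 then 0 else 1
  have hb : ∀ w, D.cl 3 b w = D.cl 3 1 w + D.c.D (D.y 9) w := fun w => by
    simp only [D.cl_apply, b, Fin.sum_univ_castSucc (n := 9), Pi.one_apply, one_mul,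
      Fin.castSucc_ne_last, show (9 : Fin 10) = Fin.last 9 from rfl, if_false, if_true]
    ring
  have h1 : ∀ z, 0 < D.c.D (D.y 9) (C.res z) → L.u ≠ 0 ∧ z.ord L.u = 0 ∧ D.cl 3 b (C.res z) = 0 :=
    fun z hz => by
    have h2 : D.cl 3 b (C.res z) = 0 := by
      rw [D.cl_apply, D.c.H_eq_zero hz, Finset.sum_eq_zero fun i _ => ?_]
      · simp
      · by_cases hi : i = 9
        · simp [b, hi]
        · rw [D.D_eq_zero hz hi, mul_zero]
    have h3 := us_mem L z
    have h4 := hb (C.res z)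
    have h5 := C.ord_res z L.β
    rw [us, if_pos hz, h0] at h3
    have h6 := ord_eq_of_sub (P := z) (z := algebraMap E K L.β) (w := L.u) (by simpa using hβ)
      (Ge_mono (by rw [h5, hβ' _ hz]; omega) h3)
    exact ⟨h6.1, by rw [h6.2, h5, hβ' _ hz], h2⟩
  obtain ⟨w, hw⟩ := D.c.exists_place (D.on 9)
  obtain ⟨z₀, rfl⟩ := C.surj w
  have hu := (h1 z₀ hw).1
  have h2 := eq_neg_of_mem (g := L.u) (E := C.pb (D.cl 3 b)) (mem_LL.2 fun z => ?_) hu (by
    rw [C.degree_pb, D.degree_cl, show ∑ i, b i = 9 by decide]; simp)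
  · obtain ⟨g, hg, h3⟩ := C.norm hu
    have h4 := (D.pic' hg (a := Nat.card (K ≃ₐ[E] K) * 3) (b := (Nat.card (K ≃ₐ[E] K) : ℤ) • b) (by
      rw [h3, h2, D.cl_smul, ← C.mapDomain_pb, ← mapDomain_add]; simp)).1
    have := C.card_pos
    omega
  · by_cases hz : 0 < D.c.D (D.y 9) (C.res z)
    · exact mem_Ge_of_le (by rw [(h1 z hz).2.1, C.pb_apply, (h1 z hz).2.2]; simp)
    · have h3 := us_mem L z
      have h4 := D.c.D_nonneg (D.y 9) (C.res z)
      rw [us, if_neg hz, h0] at h3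
      exact Ge_mono (by rw [C.pb_apply, hb]; omega) h3

lemma act_us (a : K ≃ₐ[E] K) (z : Place K) :
    us L z - a⁻¹ (us L (C.act a z)) = L.u - a⁻¹ L.u := by
  unfold us
  rw [C.res_act]
  split_ifs <;> simp

lemma nf_act {a : K ≃ₐ[E] K} (ha : a L.u = L.u) (z : Place K) : nf L (C.act a z) = nf L z := by
  have h1 : us L (C.act a z) = a (us L z) := by
    unfold us
    rw [C.res_act]
    split_ifs <;> simp [ha]
  unfold nf
  rw [h1, C.ord_act, C.res_act]
  by_cases h : us L z = 0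
  · rw [if_pos h, if_pos (by rw [h, map_zero])]
  · rw [if_neg h, if_neg (by simpa using h)]

lemma v_mem (a : K ≃ₐ[E] K) (z : Place K) : L.u - a⁻¹ L.u ∈
    Ge z (-max (nf L z) (nf L (C.act a z)) - D.cl 3 1 (C.res z)) := by
  rw [← act_us L a z]
  refine sub_mem (Ge_mono (by omega) (us_mem L z)) ?_
  have h1 := (C.act_mem_Ge (a := a⁻¹)).2 (us_mem L (C.act a z))
  rw [← Equiv.Perm.mul_apply, ← map_mul, inv_mul_cancel, map_one, Equiv.Perm.one_apply,
    C.res_act] at h1
  exact Ge_mono (by omega) h1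

lemma count (a : K ≃ₐ[E] K) (ha : L.u - a⁻¹ L.u ≠ 0) (T : Finset (Place K))
    (hT : ∀ z ∈ T, 0 < z.ord (L.u - a⁻¹ L.u) + D.cl 3 1 (C.res z)) :
    ∑ z ∈ (n L).support, min (n L z) (n L (C.act a z)) ≤
      2 * degree (n L) - Nat.card (K ≃ₐ[E] K) - T.card := by
  classical
  let n' : Place K →₀ ℤ := (n L).equivMapDomain (C.act a).symm
  have hn' : ∀ z, n' z = nf L (C.act a z) := fun z => rfl
  have h1 : degree n' = degree (n L) := by
    rw [show n' = (n L).mapDomain (C.act a).symm from equivMapDomain_eq_mapDomain _ _,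
      degree_mapDomain']
  let Δ := divF (L.u - a⁻¹ L.u) + C.pb (D.cl 3 1) + n L + n' - n L ⊓ n'
  have h2 : ∀ z, Δ z = z.ord (L.u - a⁻¹ L.u) + D.cl 3 1 (C.res z) +
      max (nf L z) (nf L (C.act a z)) := fun z => by
    simp only [Δ, Finsupp.add_apply, Finsupp.sub_apply, Finsupp.inf_apply, divF_apply, C.pb_apply,
      n_apply, hn']
    omega
  have h3 : ∑ z ∈ T, single z (1 : ℤ) ≤ Δ := fun z => by
    have h4 := (mem_Ge_iff ha).1 (v_mem L a z)
    have h5 := nf_nonneg L z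
    rw [h2, Finsupp.finsetSum_apply]
    simp only [single_apply, Finset.sum_ite_eq']
    split_ifs with h
    · have := hT z h; omega
    · omega
  have h4 := degree_mono' h3
  have h5 : degree (n L ⊓ n') = ∑ z ∈ (n L).support, min (n L z) (n L (C.act a z)) := by
    refine (Finset.sum_subset (fun z hz => ?_) fun z _ hz => by simpa using hz).trans
      (Finset.sum_congr rfl fun z _ => rfl)
    have h6 := nf_nonneg L (C.act a z)
    simp only [Finsupp.mem_support_iff, Finsupp.inf_apply, hn'] at hz ⊢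
    omega
  simp only [Δ, map_sub, map_add, degree_div, degree_kap, h1, h5, map_sum, degree_single,
    Finset.sum_const, nsmul_eq_mul, mul_one] at h4
  omega

/-- Divisors with a multiple that is the restriction of a class of nonnegative degree. -/
def Pin (D : Cub E) : AddSubmonoid (Place E →₀ ℤ) where
  carrier := {Δ | ∃ (m a : ℤ) (b : Fin 10 → ℤ) (g : E), 0 < m ∧ 0 ≤ a ∧ g ≠ 0 ∧
    m • Δ = divF g + D.cl a b}
  zero_mem' := ⟨1, 0, 0, 1, one_pos, le_rfl, one_ne_zero, by simp⟩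
  add_mem' := by
    rintro Δ Δ' ⟨m, a, b, g, h1, h2, h3, h4⟩ ⟨m', a', b', g', h1', h2', h3', h4'⟩
    refine ⟨m' * m, m' * a + m * a', m' • b + m • b', g ^ m' * g' ^ m, by positivity, by positivity,
      mul_ne_zero (zpow_ne_zero _ h3) (zpow_ne_zero _ h3'), ?_⟩
    rw [D.cl_add, D.cl_smul, D.cl_smul, divF_mul (zpow_ne_zero _ h3) (zpow_ne_zero _ h3'),
      divF_zpow, divF_zpow, ← sub_eq_iff_eq_add.2 h4, ← sub_eq_iff_eq_add.2 h4']
    module

lemma pin_single {z : Place K} (h0 : 0 < nf L z) (h : degree (L.B z) ≤ nf L z) :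
    single (C.res z) (1 : ℤ) ∈ Pin D := by
  obtain ⟨g, hg, h1⟩ := L.lin z
  refine ⟨nf L z, _, _, g, h0, L.d_nonneg z, hg, Eq.trans ?_ h1⟩
  classical
  have h2 : 0 ≤ L.B z - single (C.res z) (nf L z) := fun w => by
    have := nf_le L z
    have : 0 ≤ L.B z w := L.B_nonneg z w
    simp only [Finsupp.sub_apply, single_apply, Finsupp.coe_zero, Pi.zero_apply]
    split_ifs with hw
    · subst hw; omega
    · omega
  ext w
  have h3 := le_degree_of_nonneg h2 w
  have h4 : 0 ≤ (L.B z - single (C.res z) (nf L z)) w := h2 w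
  rw [map_sub, degree_single] at h3
  rw [Finsupp.sub_apply] at h3 h4
  rw [smul_single, smul_eq_mul, mul_one]
  omega

lemma exists_zero (hp : ∀ z, 0 < nf L z → single (C.res z) (1 : ℤ) ∈ Pin D) (a : K ≃ₐ[E] K)
    (ha : L.u - a⁻¹ L.u ≠ 0) : ∃ z, 0 < z.ord (L.u - a⁻¹ L.u) + D.cl 3 1 (C.res z) := by
  by_contra h
  push Not at h
  let σ := -(divF (L.u - a⁻¹ L.u) + C.pb (D.cl 3 1))
  have hσ : ∀ z, σ z = -(z.ord (L.u - a⁻¹ L.u) + D.cl 3 1 (C.res z)) := fun z => rfl
  have h1 : σ.mapDomain C.res ∈ Pin D := by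
    refine sum_mem fun z hz => ?_
    have h2 := (mem_Ge_iff ha).1 (v_mem L a z)
    have h3 := h z
    have h4 := hσ z
    have h5 := Finsupp.mem_support_iff.1 hz
    have h6 : single (C.res z) (1 : ℤ) ∈ Pin D := by
      by_cases h7 : 0 < nf L z
      · exact hp z h7
      · exact C.res_act a z ▸ hp (C.act a z) (by omega)
    have h8 := nsmul_mem h6 (σ z).toNat
    rwa [smul_single, nsmul_eq_mul, mul_one, Int.toNat_of_nonneg (by omega)] at h8
  obtain ⟨m, d, b, g, hm, hd, hg, h2⟩ := h1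
  obtain ⟨g', hg', h3⟩ := C.norm ha
  have h4 := (D.pic' (g := g * g' ^ m) (a := d + m * (Nat.card (K ≃ₐ[E] K) * 3))
    (b := b + m • (Nat.card (K ≃ₐ[E] K) : ℤ) • (1 : Fin 10 → ℤ))
    (mul_ne_zero hg (zpow_ne_zero _ hg')) (by
      have h5 : σ.mapDomain C.res + (divF g' + (Nat.card (K ≃ₐ[E] K) : ℤ) • D.cl 3 1) = 0 := by
        rw [h3, ← C.mapDomain_pb, ← mapDomain_add, ← mapDomain_add]; simp [σ]
      rw [divF_mul hg (zpow_ne_zero _ hg'), divF_zpow, D.cl_add, D.cl_smul, D.cl_smul,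
        ← sub_eq_iff_eq_add.2 h2, eq_neg_of_add_eq_zero_left h5]
      module)).1
  have := C.card_pos
  have : 0 < m * (Nat.card (K ≃ₐ[E] K) * 3) := by positivity
  omega

end EB

open EB in
theorem stENDB : St_ENDB := by
  intro K E _ _ _ _ _ _ _ _ C D L _
  classical
  let A := Finset.univ.filter fun a : K ≃ₐ[E] K => a L.u = L.u
  have hA : ∀ a, a ∈ A ↔ a L.u = L.u := fun a => by simp [A]
  have hT : ∀ z, (A.image fun a => C.act a z).card = A.card := fun z =>
    Finset.card_image_of_injective _ (C.act_inj z)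
  have hS : ∀ X : ℤ, (∀ a : K ≃ₐ[E] K, L.u - a⁻¹ L.u ≠ 0 →
      ∑ z ∈ (n L).support, min (n L z) (n L (C.act a z)) ≤ X) →
      ∑ a : K ≃ₐ[E] K, ∑ z ∈ (n L).support, min (n L z) (n L (C.act a z)) ≤
        A.card * degree (n L) + (Nat.card (K ≃ₐ[E] K) - A.card) * X := fun X hX => by
    rw [← Finset.sum_add_sum_compl A, Nat.card_eq_fintype_card, ← Finset.card_add_card_compl A]
    refine add_le_add ?_ ?_
    · rw [← nsmul_eq_mul]
      exact Finset.sum_le_card_nsmul _ _ _ fun a _ => Finset.sum_le_sum fun z _ => min_le_left _ _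
    · rw [Nat.cast_add, add_sub_cancel_left, ← nsmul_eq_mul]
      refine Finset.sum_le_card_nsmul _ _ _ fun a ha => hX a fun h => Finset.mem_compl.1 ha ?_
      rw [hA, sub_eq_zero.1 h, ← AlgEquiv.mul_apply, mul_inv_cancel, AlgEquiv.one_apply,
        ← sub_eq_zero.1 h]
  refine ⟨n L, A.card, fun z => ⟨nf_nonneg L z, nf_le L z⟩,
    Finset.card_pos.2 ⟨1, (hA 1).2 rfl⟩, ?_⟩
  by_cases h : ∃ z, 0 < nf L z ∧ ∀ a ∈ A, nf L z < degree (L.B (C.act a z))
  · obtain ⟨z, h1, h2⟩ := h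
    refine Or.inr ⟨hS _ fun a ha => by simpa using count L a ha ∅ (by simp), _, hT z, fun z' hz => ?_⟩
    obtain ⟨a, ha, rfl⟩ := Finset.mem_image.1 hz
    rw [n_apply, nf_act L ((hA a).1 ha)]
    exact ⟨h1, h2 a ha⟩
  push Not at h
  refine Or.inl ⟨?_, hS _ fun a ha => ?_⟩
  · obtain ⟨z, hz⟩ := exists_pole L
    rw [← hT z, Finset.card_eq_sum_ones, Nat.cast_sum]
    have h1 : ∀ z' ∈ A.image fun a => C.act a z, 1 ≤ n L z' := fun z' hz' => by
      obtain ⟨a, ha, rfl⟩ := Finset.mem_image.1 hz'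
      rwa [n_apply, nf_act L ((hA a).1 ha)]
    exact (Finset.sum_le_sum h1).trans (Finset.sum_le_sum_of_subset_of_nonneg
      (fun z' hz' => Finsupp.mem_support_iff.2 (by have := h1 z' hz'; omega))
      fun z' _ _ => nf_nonneg L z')
  · obtain ⟨z, hz⟩ := exists_zero L (fun z hz => by
      obtain ⟨b, hb, h1⟩ := h z hz
      rw [← nf_act L ((hA b).1 hb)] at hz h1
      exact C.res_act b z ▸ pin_single L hz h1) a ha
    refine hT z ▸ count L a ha _ fun z' hz' => ?_
    obtain ⟨b, hb, rfl⟩ := Finset.mem_image.1 hz'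
    have h1 : b (L.u - a⁻¹ L.u) = L.u - a⁻¹ L.u := by
      rw [map_sub, ← AlgEquiv.mul_apply, C.comm, AlgEquiv.mul_apply, (hA b).1 hb]
    rwa [← h1, C.ord_act, C.res_act]

end G1
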