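import Pool.Agent.Lib.G1.Blue

/-! A valuation of the function field whose residue field contains a component of the limit. -/

open MvPolynomial
open Pool.Agent.Lib.MP_cc3443_ag Pool.Agent.Lib.MP_3c72fe_ag

noncomputable section

namespace G1

namespace EXV

lemma r_coe {F K : Type} [Field F] [Field K] (R : Rd F K) (a : R.O) : R.r a = R.ρ a := by
  simp [Rd.r, a.2]

lemma rho_ne {F K : Type} [Field F] [Field K] (R : Rd F K) (a : R.O) :
    R.ρ a ≠ 0 ↔ IsUnit a := by
  refine ⟨fun h => ?_, fun h => (h.map R.ρ).ne_zero⟩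
  have h0 : (a : F) ≠ 0 := fun e => h (by rw [show a = 0 from Subtype.ext e, map_zero])
  exact IsUnit.of_mul_eq_one ⟨_, R.unit a h⟩ (Subtype.ext (mul_inv_cancel₀ h0))

lemma inv_mem (v : Rd ℂ ℂ) {a : ℂ} (ha : a ∉ v.O) : ∃ h : a⁻¹ ∈ v.O, v.ρ ⟨a⁻¹, h⟩ = 0 := by
  refine ⟨(v.O.mem_or_inv_mem a).resolve_left ha, ?_⟩
  by_contra h
  exact ha (by simpa using v.unit _ h)

lemma lift (v : Rd ℂ ℂ) {g : P2} (h : ∀ s, coeff s g ∈ v.O) :
    ∃ g0 : MvPolynomial (Fin 2) v.O, map v.O.subtype g0 = g := by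
  refine mem_range_map_iff_coeffs_subset.2 fun a ha => ?_
  obtain ⟨s, -, rfl⟩ := mem_coeffs_iff.1 ha
  exact ⟨⟨_, h s⟩, rfl⟩

lemma prim (v : Rd ℂ ℂ) {h : P2} (h0 : h ≠ 0) :
    ∃ (a : ℂ) (g0 : MvPolynomial (Fin 2) v.O), a ≠ 0 ∧ h = C a * map v.O.subtype g0 ∧
      map v.ρ g0 ≠ 0 := by
  obtain ⟨s, hs, hm⟩ := h.support.exists_max_image (fun s => v.O.valuation (coeff s h))
    (support_nonempty.2 h0)
  have ha : coeff s h ≠ 0 := mem_support_iff.1 hs
  obtain ⟨g0, hg⟩ := lift v (g := C (coeff s h)⁻¹ * h) fun t => by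
    rw [coeff_C_mul, ← v.O.valuation_le_one_iff, map_mul, map_inv₀,
      inv_mul_le_one₀ (by simpa [pos_iff_ne_zero] using ha)]
    by_cases ht : t ∈ h.support
    · exact hm t ht
    · simp [notMem_support_iff.1 ht]
  refine ⟨coeff s h, g0, ha, by rw [hg, ← mul_assoc, ← C_mul, mul_inv_cancel₀ ha, C_1, one_mul],
    fun e => ?_⟩
  have h1 : coeff s g0 = 1 := Subtype.ext (by
    have := congrArg (coeff s) hg
    rw [coeff_map, coeff_C_mul, inv_mul_cancel₀ ha] at this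
    exact this)
  have := congrArg (coeff s) e
  rw [coeff_map, h1, map_one, coeff_zero] at this
  exact one_ne_zero this

lemma dvd_red (v : Rd ℂ ℂ) {f fb : P2} {η : ℂ} (h : RP v (η • f) fb) (hfb : fb ≠ 0)
    (g : MvPolynomial (Fin 2) v.O) (hg : f ∣ map v.O.subtype g) : fb ∣ map v.ρ g := by
  obtain ⟨f0, hf0⟩ := lift v fun s => (h s).1
  have hr : map v.ρ f0 = fb := by
    ext s
    rw [coeff_map, ← r_coe, ← (h s).2, ← hf0, coeff_map]
    rfl
  have hη : η ≠ 0 := by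
    rintro rfl
    apply hfb
    ext s
    rw [← (h s).2, zero_smul, coeff_zero]
    exact (r_coe v 0).trans (map_zero _)
  have inj := map_injective (σ := Fin 2) v.O.subtype Subtype.val_injective
  obtain ⟨q, hq⟩ := hg
  by_cases hq0 : C η⁻¹ * q = 0
  · have : q = 0 := (mul_eq_zero.1 hq0).resolve_left (by simpa using hη)
    rw [this, mul_zero, ← map_zero (map v.O.subtype)] at hq
    rw [inj hq, map_zero]
    exact dvd_zero _
  obtain ⟨a, q0, ha, e, hq1⟩ := prim v hq0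
  have e1 : map v.O.subtype g = C a * (map v.O.subtype f0 * map v.O.subtype q0) := by
    rw [hq, hf0, mul_left_comm, ← e, smul_eq_C_mul, mul_mul_mul_comm, ← C_mul,
      mul_inv_cancel₀ hη, C_1, one_mul]
  by_cases hv : a ∈ v.O
  · have : g = C ⟨a, hv⟩ * (f0 * q0) := inj (by rw [e1, map_mul, map_mul, map_C]; rfl)
    rw [this, map_mul, map_mul, hr]
    exact (dvd_mul_right _ _).mul_left _
  · obtain ⟨h1, h2⟩ := inv_mem v hv
    have : C ⟨a⁻¹, h1⟩ * g = f0 * q0 := inj (by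
      rw [map_mul, map_mul, e1, map_C, ← mul_assoc, ← C_mul]
      change C (a⁻¹ * a) * _ = _
      rw [inv_mul_cancel₀ ha, C_1, one_mul])
    have := congrArg (map v.ρ) this
    rw [map_mul, map_mul, map_C, h2, C_0, zero_mul, hr] at this
    exact absurd this.symm (mul_ne_zero hfb hq1)

end EXV

open EXV

theorem stEXV (MK : St_MK) (EMB : St_EMB) : St_EXV := by
  intro F E _ _ _ _ _ v c cD η fb h hfb hd
  let α : MvPolynomial (Fin 2) v.O →+* F := (aeval c.ξ).toRingHom.comp (map v.O.subtype)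
  let β : MvPolynomial (Fin 2) v.O →+* E := (aeval cD.ξ).toRingHom.comp (map v.ρ)
  have hk : ∀ g, α g = 0 → β g = 0 := fun g hg =>
    (cD.ker _).2 (hd.trans (dvd_red v h hfb g ((c.ker _).1 hg)))
  have := RingHom.ker_isPrime β
  let S := Localization.AtPrime (RingHom.ker β)
  have hu : ∀ y : (RingHom.ker β).primeCompl, IsUnit (α y) := fun y =>
    Ne.isUnit fun e => y.2 (hk _ e)
  obtain ⟨O, hO, hl⟩ := IsLocalRing.exists_factor_valuationRing (R := S) (K := F)
    (IsLocalization.lift (S := S) hu)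
  have hα : ∀ g, α g ∈ O := fun g => by
    have := hO (algebraMap _ S g)
    rwa [IsLocalization.lift_eq] at this
  have hU : ∀ g, IsUnit (⟨α g, hα g⟩ : O) ↔ β g ≠ 0 := fun g => by
    have e : (⟨α g, hα g⟩ : O) =
        (IsLocalization.lift (S := S) hu).codRestrict O.toSubring hO (algebraMap _ S g) :=
      Subtype.ext (IsLocalization.lift_eq hu g).symm
    rw [e]
    exact (isUnit_map_iff _ _).trans
      (IsLocalization.AtPrime.isUnit_to_map_iff S (RingHom.ker β) g)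
  have hC : ∀ a : v.O, α (C a) = algebraMap ℂ F a := fun a => by simp [α]
  obtain ⟨K, _, _, R, rfl, hov⟩ := MK F v O fun a => ⟨fun ha => by
    by_contra hv
    obtain ⟨h1, h2⟩ := inv_mem v hv
    have h0 : a ≠ 0 := fun e => hv (e ▸ zero_mem _)
    refine (hU (C ⟨a⁻¹, h1⟩)).1 (IsUnit.of_mul_eq_one ⟨_, ha⟩ (Subtype.ext ?_)) (by simp [β, h2])
    change α (C _) * _ = 1
    rw [hC, ← map_mul]
    simp [h0], fun ha => hC ⟨a, ha⟩ ▸ hα _⟩
  let ξ : Fin 2 → K := fun k => R.r (c.ξ k)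
  have hX : ∀ k, α (X k) = c.ξ k := fun k => by simp [α]
  have he : R.ρ.comp (α.codRestrict R.O.toSubring hα) = (aeval ξ).toRingHom.comp (map v.ρ) := by
    refine MvPolynomial.ringHom_ext (fun a => ?_) fun k => ?_
    · change R.ρ ⟨α (C a), _⟩ = aeval ξ (map v.ρ (C a))
      rw [← r_coe, map_C, aeval_C]
      exact (congrArg R.r (hC a)).trans (hov.2 a _ ⟨a.2, r_coe v a⟩).2
    · change R.ρ ⟨α (X k), _⟩ = aeval ξ (map v.ρ (X k))
      rw [← r_coe, map_X, aeval_X]
      exact congrArg R.r (hX k)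
  have hker : ∀ gb, aeval ξ gb = 0 ↔ cD.f ∣ gb := fun gb => by
    obtain ⟨g, rfl⟩ := map_surjective v.ρ v.surj gb
    have : aeval ξ (map v.ρ g) = R.ρ ⟨α g, hα g⟩ := (RingHom.congr_fun he g).symm
    rw [this, ← cD.ker, ← not_iff_not]
    exact (rho_ne R _).trans (hU g)
  have ht : Transcendental ℂ (ξ 0) := fun ha => by
    obtain ⟨a, ha⟩ := minpoly.mem_range_of_degree_eq_one ℂ _
      (IsAlgClosed.degree_eq_one_of_irreducible ℂ (minpoly.irreducible ha.isIntegral))
    have h1 := cD.eq_zero_of_lt (g := lin 1 0 (-a))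
      ((cD.ker _).2 ((hker _).1 (by simp [lin, ha]))) ((totalDegree_lin _ _ _).trans_lt cD.two)
    have := congrArg (eval ![a + 1, 0]) h1
    rw [eval_lin] at this
    simp at this
  obtain ⟨φ, hφ⟩ := EMB E K cD ξ 0 ((hker _).2 dvd_rfl) ht
  let _ : Algebra E K := φ.toRingHom.toAlgebra
  exact ⟨K, _, _, inferInstance, IsScalarTower.of_algebraMap_eq fun a => (φ.commutes a).symm, R,
    hov, fun k => ⟨hX k ▸ hα _, (hφ k).symm⟩⟩

end G1
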