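import Pool.Agent.Lib.G1.Blue

open Finsupp MvPolynomial IntermediateField Module
open Pool.Agent.Lib.MP_cc3443_ag Pool.Agent.Lib.MP_3c72fe_ag

noncomputable section

namespace G1

theorem stFIN (h1 : St_WM) (h2 : St_WEI) (h3 : St_R10) : St_FIN := by
  rintro r p hr hp F d hF hi' ⟨W, hW, a, b, c, h0, htop⟩ m hm
  obtain ⟨M⟩ := h1.1 W hW
  have := h1.2.2 _ M
  have hK : NR W.toAffine.FunctionField := nr_of_chi (h2 _ M).1.le
  have hc : c ≠ 0 := by
    rintro rfl
    refine hK 0 ?_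
    simpa using htop
  have ht : IntermediateField.adjoin ℂ (Set.range ![a / c, b / c]) = ⊤ := by
    rw [← htop]
    congr 1
    ext z
    simp [or_comm]
  obtain ⟨c0, hξ⟩ := exists_crv hK ht
  have h4 : aeval c0.ξ (dh F) = 0 := by
    have h5 := aeval_smul_hom hF c⁻¹ ![a, b, c]
    rw [h0, mul_zero] at h5
    rw [aeval_dh, hξ, ← h5]
    congr 2
    ext i
    fin_cases i <;> simp [hc, div_eq_inv_mul]
  obtain ⟨h, hh⟩ := (c0.ker _).1 h4
  have h5 : dh F ≠ 0 := fun h5 =>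
    hi'.ne_zero (dh_inj hF (isHomogeneous_zero _ _ d) (by rw [h5, map_zero]))
  have h6 : h ≠ 0 := by
    rintro rfl
    exact h5 (by simpa using hh)
  have h7 := totalDegree_dh hF
  rw [hh, totalDegree_mul_of_isDomain c0.prime.ne_zero h6] at h7
  obtain ⟨G, hG, h8, -⟩ := exists_hom 0 (g := c0.f) (n := 0) le_rfl (by simp)
  obtain ⟨H, hH, h9, -⟩ := exists_hom 0 (g := h) (e := d - c0.f.totalDegree) (n := 0)
    (by omega) (by simp)
  have h10 := dh_inj (hG.mul hH) (by rwa [Nat.add_sub_cancel' (by omega)])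
    (by rw [map_mul, h8, h9, hh])
  have h11 : IsUnit h := by
    rcases hi'.isUnit_or_isUnit h10.symm with h11 | h11
    · exact absurd (h8 ▸ h11.map dh) c0.prime.not_isUnit
    · exact h9 ▸ h11.map dh
  have h12 : ∀ i, m i ≤ c0.m p i := fun i => by
    refine (mem_pow_iff c0.prime.ne_zero).1 ?_
    have := dh_mem (hm i)
    rwa [hh, Ideal.mul_unit_mem_iff_mem _ h11] at this
  have h13 : c0.d ≤ d := by
    rw [Crv.d]
    omega
  calc ∑ i, m i ^ 2 ≤ ∑ i, c0.m p i ^ 2 := Finset.sum_le_sum fun i _ => by gcongr; exact h12 i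
    _ ≤ c0.d ^ 2 := h3 _ r c0 p hr M hp
    _ ≤ d ^ 2 := by gcongr

end G1
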