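import Pool.Agent.Lib.G1.Blue

/-! Block G3: intersection of two tails. -/

open Finsupp MvPolynomial IntermediateField Module
open Pool.Agent.Lib.MP_cc3443_ag Pool.Agent.Lib.MP_3c72fe_ag

noncomputable section

namespace G1

namespace G3

lemma mult_mul (p : Fin 2 → ℂ) {g h : P2} (hg : g ≠ 0) (hh : h ≠ 0) :
    mult p (g * h) = mult p g + mult p h := by
  rw [mult, map_mul, Polynomial.natTrailingDegree_mul (io_ne_zero p hg) (io_ne_zero p hh)]
  rfl

lemma eq_zero_of_degree {α : Type} {Δ : α →₀ ℤ} (h : 0 ≤ Δ) (h0 : degree Δ = 0) : Δ = 0 := by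
  ext P
  by_cases hP : P ∈ Δ.support
  · rw [degree_apply] at h0
    exact (Finset.sum_eq_zero_iff_of_nonneg fun i _ => h i).1 h0 P hP
  · exact Finsupp.notMem_support_iff.1 hP

/-- The intersection number of two curves on the blow-up. -/
def I (y : Fin 10 → Fin 2 → ℂ) (g h : P2) : ℤ :=
  (g.totalDegree : ℤ) * h.totalDegree - ∑ i, (mult (y i) g : ℤ) * mult (y i) h

lemma I_mul (y : Fin 10 → Fin 2 → ℂ) (g : P2) {h h' : P2} (h1 : h ≠ 0) (h2 : h' ≠ 0) :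
    I y g (h * h') = I y g h + I y g h' := by
  simp only [I, totalDegree_mul_of_isDomain h1 h2, mult_mul _ h1 h2, Nat.cast_add, mul_add,
    Finset.sum_add_distrib]
  ring

lemma I_nonneg (hB : St_BEZ) {y : Fin 10 → Fin 2 → ℂ} (hy : Function.Injective y) {ρ g : P2}
    (hρ : Prime ρ) (hg : ¬ ρ ∣ g) : 0 ≤ I y ρ g := by
  have h := hB (Fin 10) y hy ρ g hρ hg
  rw [I, sub_nonneg]
  exact_mod_cast h

lemma I_nonneg' (hB : St_BEZ) {y : Fin 10 → Fin 2 → ℂ} (hy : Function.Injective y) {ρ g : P2}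
    (hρ : Prime ρ) (h0 : 0 ≤ I y ρ ρ) (hg : g ≠ 0) : 0 ≤ I y ρ g := by
  obtain ⟨n, a, ha, rfl⟩ := WfDvdMonoid.max_power_factor hg hρ.irreducible
  have ha0 : a ≠ 0 := right_ne_zero_of_mul hg
  clear hg
  induction n with
  | zero => simpa using I_nonneg hB hy hρ ha
  | succ n ih =>
    rw [pow_succ', mul_assoc, I_mul y ρ hρ.ne_zero (mul_ne_zero (pow_ne_zero _ hρ.ne_zero) ha0)]
    exact add_nonneg h0 ih

variable {E : Type} [Field E] [Algebra ℂ E] [IsFF E] (D : Cub E)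

lemma ev_ne {r : P2} (h : ¬ D.c.f ∣ r) : aeval D.c.ξ r ≠ 0 := fun e => h ((D.c.ker r).1 e)

lemma B_apply (a : ℤ) (b : Fin 10 → ℤ) (r : P2) (w : Place E) :
    D.B a b r w = w.ord (aeval D.c.ξ r) + (a * D.c.H w - ∑ i, b i * D.c.D (D.y i) w) := by
  simp [Cub.B, Cub.cl]

lemma mult_f (i : Fin 10) : mult (D.y i) D.c.f = 1 := by
  have h1 := D.c.add_two_le D.nr (D.y i)
  have h2 : 1 ≤ mult (D.y i) D.c.f :=
    (mem_pow_iff D.c.prime.ne_zero).1 (by simpa using mem_mi.2 (D.on i))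
  rw [D.d3] at h1
  omega

lemma B_nonneg {r : P2} (h : ¬ D.c.f ∣ r) :
    0 ≤ D.B r.totalDegree (fun i => mult (D.y i) r) r := by
  have h0 : r ≠ 0 := fun e => h (e ▸ dvd_zero _)
  have h1 := nonneg_of_mem (D.c.ev_mem_LL D.inj (n := fun i => mult (D.y i) r) le_rfl
    fun i => (mem_pow_iff h0).2 le_rfl) (ev_ne D h)
  rwa [add_comm] at h1

lemma degree_B (a : ℤ) (b : Fin 10 → ℤ) (r : P2) : degree (D.B a b r) = 3 * a - ∑ i, b i := by
  have h3 : D.c.f.totalDegree = 3 := D.d3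
  simp [Cub.B, Cub.cl, map_sum, degree_div, Crv.degree_H, Crv.degree_D, mult_f, h3, mul_comm]

/-- The corrected intersection number of a curve with the class `(a'; b')`. -/
def Q (a' : ℤ) (b' : Fin 10 → ℤ) (w : Place E) (r : P2) : ℤ :=
  r.totalDegree * a' - ∑ i, mult (D.y i) r * b' i +
    D.B r.totalDegree (fun i => mult (D.y i) r) r w

lemma Q_mul (a' : ℤ) (b' : Fin 10 → ℤ) (w : Place E) {g h : P2} (hgh : ¬ D.c.f ∣ g * h) :
    Q D a' b' w (g * h) = Q D a' b' w g + Q D a' b' w h := by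
  have h1 : ¬ D.c.f ∣ g := fun e => hgh (e.mul_right _)
  have h2 : ¬ D.c.f ∣ h := fun e => hgh (e.mul_left _)
  have h3 : g ≠ 0 := fun e => h1 (e ▸ dvd_zero _)
  have h4 : h ≠ 0 := fun e => h2 (e ▸ dvd_zero _)
  simp only [Q, B_apply, totalDegree_mul_of_isDomain h3 h4, mult_mul _ h3 h4, Nat.cast_add,
    add_mul, Finset.sum_add_distrib, map_mul, w.ord_mul (ev_ne D h1) (ev_ne D h2)]
  ring

lemma Q_C (a' : ℤ) (b' : Fin 10 → ℤ) (w : Place E) {c : ℂ} (hc : c ≠ 0) :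
    Q D a' b' w (C c) = 0 := by
  have h1 : ∀ i, mult (D.y i) (C c) = 0 := fun i =>
    Nat.le_zero.1 ((mult_le _ _).trans (totalDegree_C c).le)
  simp [Q, B_apply, h1, ord_const hc]

lemma Q_prime (hA : St_ADJ) (hB : St_BEZ) {a' : ℤ} {b' : Fin 10 → ℤ} {r' : P2} {w : Place E}
    (ht : D.Tail a' b' r') (hp : D.Pos a' b' w) {ρ : P2} (hρ : Prime ρ) (hf : ¬ D.c.f ∣ ρ) :
    0 ≤ Q D a' b' w ρ := by
  have hB0 := B_nonneg D hf
  by_cases h0 : 0 ≤ I D.y ρ ρ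
  · have h1 := I_nonneg' hB D.inj hρ h0 (g := r') fun e => ht.1 (e ▸ dvd_zero _)
    have h2 : (ρ.totalDegree : ℤ) * r'.totalDegree ≤ ρ.totalDegree * a' :=
      mul_le_mul_of_nonneg_left ht.2.1 (Int.natCast_nonneg _)
    have h3 : ∑ i, (mult (D.y i) ρ : ℤ) * b' i ≤ ∑ i, (mult (D.y i) ρ : ℤ) * mult (D.y i) r' :=
      Finset.sum_le_sum fun i _ => mul_le_mul_of_nonneg_left (ht.2.2 i) (Int.natCast_nonneg _)
    have h4 : 0 ≤ D.B ρ.totalDegree (fun i => mult (D.y i) ρ) ρ w := hB0 w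
    rw [I] at h1
    rw [Q]
    linarith
  have h1 := degree_nonneg hB0
  have h2 : degree (D.B ρ.totalDegree (fun i => mult (D.y i) ρ) ρ) ≠ 0 := fun e => by
    have h3 := eq_zero_of_degree hB0 e
    obtain ⟨h4, h5⟩ := D.pic (aeval D.c.ξ ρ) (-ρ.totalDegree) (fun i => -mult (D.y i) ρ)
      (ev_ne D hf) (by
        rw [Cub.B, Cub.cl, add_eq_zero_iff_eq_neg] at h3
        rw [h3]
        simp only [neg_smul, Finset.sum_neg_distrib]
        abel)
    have h6 : ∀ i, (mult (D.y i) ρ : ℤ) = 0 := fun i => neg_eq_zero.1 (congrFun h5 i)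
    refine h0 ?_
    simp [I, h6, neg_eq_zero.1 h4]
  rw [degree_B] at h1 h2
  have h3 := (hA (Fin 10) D.y D.inj).1 ρ hρ
  have h4 : ∑ i, mult (D.y i) ρ * (mult (D.y i) ρ + 1) <
      (ρ.totalDegree + 1) * (ρ.totalDegree + 2) := by
    have h5 : ∑ i, (mult (D.y i) ρ : ℤ) * (mult (D.y i) ρ + 1) =
        ∑ i, (mult (D.y i) ρ : ℤ) * (mult (D.y i) ρ - 1) + 2 * ∑ i, (mult (D.y i) ρ : ℤ) := by
      rw [Finset.mul_sum, ← Finset.sum_add_distrib]
      exact Finset.sum_congr rfl fun i _ => by ring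
    have h6 : ∑ i, (mult (D.y i) ρ : ℤ) < 3 * ρ.totalDegree := by omega
    have h7 : ∑ i, (mult (D.y i) ρ : ℤ) * (mult (D.y i) ρ + 1) <
        (ρ.totalDegree + 1) * (ρ.totalDegree + 2) := by
      rw [h5]
      linarith
    exact_mod_cast h7
  obtain ⟨Φ, hΦ, hd, hm, hq⟩ := hp.2 _ _ h4
  have h5 : ρ ∣ Φ := by
    by_contra h5
    have h6 := I_nonneg hB D.inj hρ h5
    have h7 : (ρ.totalDegree : ℤ) * Φ.totalDegree ≤ ρ.totalDegree * ρ.totalDegree :=
      mul_le_mul_of_nonneg_left (by exact_mod_cast hd) (Int.natCast_nonneg _)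
    have h8 : ∑ i, (mult (D.y i) ρ : ℤ) * mult (D.y i) ρ ≤
        ∑ i, (mult (D.y i) ρ : ℤ) * mult (D.y i) Φ :=
      Finset.sum_le_sum fun i _ => mul_le_mul_of_nonneg_left
        (by exact_mod_cast (mem_pow_iff hΦ).1 (hm i)) (Int.natCast_nonneg _)
    refine h0 ?_
    rw [I] at h6 ⊢
    linarith
  obtain ⟨q, rfl⟩ := h5
  have hq0 : q ≠ 0 := right_ne_zero_of_mul hΦ
  rw [totalDegree_mul_of_isDomain hρ.ne_zero hq0] at hd
  obtain ⟨c, rfl⟩ : ∃ c, q = C c := ⟨_, totalDegree_eq_zero_iff_eq_C.1 (by omega)⟩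
  have hc : c ≠ 0 := fun e => hq0 (by rw [e, map_zero])
  have hc' : algebraMap ℂ E c ≠ 0 := by simpa using hc
  have h6 : ¬ D.c.f ∣ ρ * C c := fun e => by
    have h7 := (D.c.ker _).2 e
    rw [map_mul, aeval_C] at h7
    exact mul_ne_zero (ev_ne D hf) hc' h7
  have h7 := hq h6
  rw [B_apply, map_mul, aeval_C, w.ord_mul (ev_ne D hf) hc', ord_const hc, add_zero,
    ← B_apply] at h7
  exact h7

lemma Q_nonneg (hA : St_ADJ) (hB : St_BEZ) {a' : ℤ} {b' : Fin 10 → ℤ} {r' : P2} {w : Place E}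
    (ht : D.Tail a' b' r') (hp : D.Pos a' b' w) (r : P2) : ¬ D.c.f ∣ r → 0 ≤ Q D a' b' w r := by
  induction r using UniqueFactorizationMonoid.induction_on_prime with
  | h₁ => exact fun h => absurd (dvd_zero _) h
  | h₂ x hx =>
    obtain ⟨c, hc, rfl⟩ := isUnit_iff_eq_C_of_isReduced.1 hx
    exact fun _ => (Q_C D a' b' w hc.ne_zero).ge
  | h₃ a ρ _ hρ ih =>
    intro h
    rw [Q_mul D a' b' w h]
    exact add_nonneg (Q_prime D hA hB ht hp hρ fun e => h (e.mul_right _))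
      (ih fun e => h (e.mul_left _))

end G3

open G3 in
theorem stG3 (hA : St_ADJ) (hB : St_BEZ) : St_G3 := by
  intro E _ _ _ D a a' b b' r r' w h h' hp
  have h1 := Q_nonneg D hA hB h' hp r h.1
  have h2 : 0 ≤ (a - r.totalDegree) * (a' + D.c.H w) :=
    mul_nonneg (sub_nonneg.2 h.2.1)
      (add_nonneg ((Int.natCast_nonneg _).trans h'.2.1) (D.c.H_nonneg w))
  have h3 : 0 ≤ ∑ i, (mult (D.y i) r - b i) * (b' i + D.c.D (D.y i) w) :=
    Finset.sum_nonneg fun i _ => mul_nonneg (sub_nonneg.2 (h.2.2 i)) (by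
      have := hp.1 i
      omega)
  simp only [sub_mul, mul_add, Finset.sum_add_distrib, Finset.sum_sub_distrib] at h2 h3
  rw [Q, B_apply] at h1
  rw [B_apply]
  linarith

end G1
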