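import Pool.Agent.Lib.G1.Blue

open Finsupp IntermediateField Module WeierstrassCurve WeierstrassCurve.Affine
open Pool.Agent.Lib.MP_cc3443_ag Pool.Agent.Lib.MP_3c72fe_ag

noncomputable section

namespace G1

namespace GAL

section ell
variable {L : Type} [Field L] [Algebra ℂ L] [IsFF L] {D : Derivation ℂ L L}

lemma const_of_der (hD : D ≠ 0) {g : L} (h : D g = 0) : ∃ c : ℂ, g = algebraMap ℂ L c := by
  by_contra c
  exact deriv_ne_zero hD (transc_of_not_const fun a e => c ⟨a, e⟩) h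

lemma eq_of_transc {D' : Derivation ℂ L L} {t : L} (ht : Transcendental ℂ t) (h : D t = D' t) :
    D = D' := by
  by_contra c
  exact deriv_ne_zero (sub_ne_zero.2 c) ht (by simp [h])

omit [IsFF L] in
lemma der_eq {W : Affine ℂ} (h1 : W.a₁ = 0) (h3 : W.a₃ = 0) {x y : L}
    (n : (W⁄L).Nonsingular x y) :
    y ^ 2 = x ^ 3 + algebraMap ℂ L W.a₂ * x ^ 2 + algebraMap ℂ L W.a₄ * x + algebraMap ℂ L W.a₆ ∧
    2 * y * D y = (3 * x ^ 2 + 2 * algebraMap ℂ L W.a₂ * x + algebraMap ℂ L W.a₄) * D x := by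
  have e : y ^ 2 = x ^ 3 + algebraMap ℂ L W.a₂ * x ^ 2 + algebraMap ℂ L W.a₄ * x +
      algebraMap ℂ L W.a₆ := by
    simpa [WeierstrassCurve.baseChange, h1, h3] using (equation_iff _ _).1 n.1
  refine ⟨e, ?_⟩
  have := congrArg D e
  simp only [map_add, Derivation.leibniz, Derivation.leibniz_pow, Derivation.map_algebraMap,
    smul_eq_mul, nsmul_eq_mul] at this
  push_cast at this
  linear_combination this

open Classical in
lemma sub_const (hD : D ≠ 0) {W : Affine ℂ} (h1 : W.a₁ = 0) (h3 : W.a₃ = 0) {x₁ y₁ x₂ y₂ : L}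
    (n₁ : (W⁄L).Nonsingular x₁ y₁) (n₂ : (W⁄L).Nonsingular x₂ y₂) (d₁ : D x₁ = 2 * y₁)
    (d₂ : D x₂ = 2 * y₂) (z₁ : y₁ ≠ 0) (z₂ : y₂ ≠ 0) :
    ∃ T : (W⁄ℂ).Point, Point.some _ _ n₂ = Point.some _ _ n₁ + Point.baseChange ℂ L T := by
  have : CharZero L := charZero_of_injective_algebraMap (algebraMap ℂ L).injective
  by_cases hx : x₂ = x₁
  · subst hx
    obtain rfl : y₁ = y₂ := mul_left_cancel₀ two_ne_zero (d₁.symm.trans d₂)
    exact ⟨0, by simp⟩
  obtain ⟨e₁, f₁⟩ := der_eq (D := D) h1 h3 n₁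
  obtain ⟨e₂, f₂⟩ := der_eq (D := D) h1 h3 n₂
  have g₁ : D y₁ = 3 * x₁ ^ 2 + 2 * algebraMap ℂ L W.a₂ * x₁ + algebraMap ℂ L W.a₄ :=
    mul_left_cancel₀ (mul_ne_zero two_ne_zero z₁) (by rw [f₁, d₁]; ring)
  have g₂ : D y₂ = 3 * x₂ ^ 2 + 2 * algebraMap ℂ L W.a₂ * x₂ + algebraMap ℂ L W.a₄ :=
    mul_left_cancel₀ (mul_ne_zero two_ne_zero z₂) (by rw [f₂, d₂]; ring)
  have n₃ := nonsingular_add n₂ ((nonsingular_neg ..).2 n₁) fun h => hx h.1
  have s : Point.some _ _ n₂ - Point.some _ _ n₁ = Point.some _ _ n₃ := by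
    rw [sub_eq_add_neg, Point.neg_some, Point.add_of_X_ne hx]
  have hx' := sub_ne_zero.2 hx
  obtain ⟨l, hl⟩ : ∃ l, l = (W⁄L).slope x₂ x₁ y₂ ((W⁄L).negY x₁ y₁) := ⟨_, rfl⟩
  have l1 : l * (x₂ - x₁) = y₂ + y₁ := by
    rw [hl, slope_of_X_ne hx, div_mul_cancel₀ _ hx']
    simp [negY, WeierstrassCurve.baseChange, h1, h3]
  have l2 : D l = x₂ - x₁ := by
    have := congrArg D l1
    simp only [map_add, map_sub, Derivation.leibniz, smul_eq_mul, d₁, d₂, g₁, g₂] at this
    refine mul_left_cancel₀ (pow_ne_zero 2 hx') ?_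
    linear_combination (x₂ - x₁) * this - 2 * (y₂ - y₁) * l1 - 2 * e₂ + 2 * e₁
  have l3 : D ((W⁄L).addX x₂ x₁ l) = 0 := by
    simp only [addX, WeierstrassCurve.baseChange, map_a₁, map_a₂, h1, map_zero, zero_mul, add_zero,
      map_sub, Derivation.leibniz_pow, Derivation.map_algebraMap, smul_eq_mul, nsmul_eq_mul, d₁, d₂,
      l2]
    push_cast
    linear_combination 2 * l1
  simp only [← hl] at n₃ s
  have l4 : D ((W⁄L).addY x₂ x₁ y₂ l) = 0 := by
    have := (der_eq (D := D) h1 h3 n₃).2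
    rw [l3, mul_zero, mul_eq_zero, mul_eq_zero] at this
    rcases this with (h | h) | h
    exacts [absurd h two_ne_zero, by rw [h, map_zero], h]
  obtain ⟨a, ha⟩ := const_of_der hD l3
  obtain ⟨b, hb⟩ := const_of_der hD l4
  have n₄ : (W⁄ℂ).Nonsingular a b :=
    (W.baseChange_nonsingular (f := Algebra.ofId ℂ L) (Algebra.ofId ℂ L).injective ..).1
      (by rw [hb, ha] at n₃; exact n₃)
  refine ⟨Point.some _ _ n₄, ?_⟩
  rw [← sub_eq_iff_eq_add', s, Point.map_some]
  congr 1

lemma const_of_mem {z : L} (h : ∀ x : Place L, z ∈ x.O) : ∃ c : ℂ, z = algebraMap ℂ L c := by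
  obtain ⟨t, ht⟩ := IsFF.ex (K := L)
  obtain ⟨_, _, _, -⟩ := exists_inst ht
  exact exists_const h

variable {E : Type} [Field E] [Algebra ℂ E] [IsFF E] [Algebra E L] [IsScalarTower ℂ E L]
  {δ : Derivation ℂ E E}

omit [IsFF L] [IsFF E] in
lemma transc_alg {t : E} (ht : Transcendental ℂ t) : Transcendental ℂ (algebraMap E L t) :=
  (transcendental_algebraMap_iff (algebraMap E L).injective).2 ht

lemma fin_dim : FiniteDimensional E L := by
  obtain ⟨t, ht⟩ := IsFF.ex (K := E)
  obtain ⟨S, hS⟩ := (IsFF.fin _ (transc_alg (L := L) ht)).fg_top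
  have h : ℂ⟮algebraMap E L t⟯ ≤ (IsScalarTower.toAlgHom ℂ E L).fieldRange :=
    adjoin_simple_le_iff.2 ⟨t, rfl⟩
  refine ⟨S, eq_top_iff.2 fun z _ => ?_⟩
  have hz : z ∈ Submodule.span ℂ⟮algebraMap E L t⟯ (S : Set L) := hS ▸ Submodule.mem_top
  induction hz using Submodule.span_induction with
  | mem x hx => exact Submodule.subset_span hx
  | zero => exact zero_mem _
  | add x y _ _ hx hy => exact add_mem (hx trivial) (hy trivial)
  | smul c x _ hx =>
    obtain ⟨g, hg⟩ := h c.2
    have : c • x = g • x := by rw [Algebra.smul_def g]; exact congrArg (· * x) hg.symm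
    exact this ▸ Submodule.smul_mem _ g (hx trivial)

lemma der_comm (h : ∀ g, D (algebraMap E L g) = algebraMap E L (δ g)) (σ : L ≃ₐ[E] L) (a : L) :
    D (σ a) = σ (D a) := by
  obtain ⟨t, ht⟩ := IsFF.ex (K := E)
  have := eq_of_transc (D := D) (D' := Derivation.mk' ((σ.symm.restrictScalars ℂ).toLinearMap ∘ₗ
    (D : L →ₗ[ℂ] L) ∘ₗ (σ.restrictScalars ℂ).toLinearMap) fun a b => by simp) (transc_alg ht)
    (by simp [h])
  have := congrArg σ (DFunLike.congr_fun this a)
  simpa using this.symm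

open Classical in
lemma transl (hD : D ≠ 0) (h : ∀ g, D (algebraMap E L g) = algebraMap E L (δ g)) {W : Affine ℂ}
    (h1 : W.a₁ = 0) (h3 : W.a₃ = 0) {x y : L} (n : (W⁄L).Nonsingular x y) (d : D x = 2 * y)
    (z : y ≠ 0) (σ : L ≃ₐ[E] L) : ∃ T : (W⁄ℂ).Point,
      Point.map (σ.restrictScalars ℂ : L →ₐ[ℂ] L) (Point.some _ _ n) =
        Point.some _ _ n + Point.baseChange ℂ L T :=
  sub_const hD h1 h3 n _ d
    (show D (σ x) = 2 * σ y by rw [der_comm h, d, map_mul, map_ofNat]) z
    (show σ y ≠ 0 by simpa using z)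

end ell

section gal
variable {K E : Type} [Field K] [Algebra ℂ K] [IsFF K] [Field E] [Algebra ℂ E] [IsFF E]
  [Algebra E K] [IsScalarTower ℂ E K] {D : Derivation ℂ K K} {δ : Derivation ℂ E E}

/-- The curve of a model. -/
def Wc (M : WM K) : Affine ℂ :=
  ⟨0, -(M.e 0 + M.e 1 + M.e 2), 0, M.e 0 * M.e 1 + M.e 0 * M.e 2 + M.e 1 * M.e 2,
    -(M.e 0 * M.e 1 * M.e 2)⟩

omit [IsFF K] in
lemma nons (M : WM K) (z : M.y ≠ 0) : ((Wc M)⁄K).Nonsingular M.x M.y := by
  have : CharZero K := charZero_of_injective_algebraMap (algebraMap ℂ K).injective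
  have := M.eq
  rw [Fin.prod_univ_three] at this
  refine (nonsingular_iff' _ _).2 ⟨(equation_iff _ _).2 ?_, Or.inr ?_⟩
  · simp [Wc, WeierstrassCurve.baseChange]
    linear_combination this
  · simpa [Wc, WeierstrassCurve.baseChange] using z

omit [IsFF K] in
lemma mem_of_gen (M : WM K) {L : Type} [Field L] [Algebra ℂ L] (f : K →ₐ[ℂ] L)
    (S : IntermediateField ℂ L) (hx : f M.x ∈ S) (hy : f M.y ∈ S) (a : K) : f a ∈ S := by
  have : IntermediateField.adjoin ℂ {M.x, M.y} ≤ S.comap f :=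
    adjoin_le_iff.2 (by rintro _ (rfl | rfl); exacts [hx, hy])
  exact this (M.top ▸ mem_top)

lemma comm (M : WM K) (hD : D ≠ 0) (h : ∀ g, D (algebraMap E K g) = algebraMap E K (δ g))
    (d : D M.x = 2 * M.y) (z : M.y ≠ 0) (a b : K ≃ₐ[E] K) : a * b = b * a := by
  classical
  obtain ⟨A, hA⟩ := transl hD h rfl rfl (nons M z) d z a
  obtain ⟨B, hB⟩ := transl hD h rfl rfl (nons M z) d z b
  have e := congrArg (Point.map (a.restrictScalars ℂ : K →ₐ[ℂ] K)) hB
  have e' := congrArg (Point.map (b.restrictScalars ℂ : K →ₐ[ℂ] K)) hA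
  rw [map_add, hA, Point.map_baseChange] at e
  rw [map_add, hB, Point.map_baseChange, add_right_comm, ← e] at e'
  obtain ⟨ex, ey⟩ : b (a M.x) = a (b M.x) ∧ b (a M.y) = a (b M.y) := Point.some.inj e'
  ext g
  have hg : g ∈ IntermediateField.adjoin ℂ {M.x, M.y} := M.top ▸ mem_top
  change a (b g) = b (a g)
  induction hg using adjoin_induction with
  | mem x hx => rcases hx with rfl | rfl; exacts [ex.symm, ey.symm]
  | algebraMap c => simp [IsScalarTower.algebraMap_apply ℂ E K]
  | add x y _ _ hx hy => simp [hx, hy]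
  | inv x _ hx => simp [hx]
  | mul x y _ _ hx hy => simp [hx, hy]

lemma normal_aux (L : Type) [Field L] [Algebra ℂ L] [Algebra E L] [Algebra K L]
    [IsScalarTower ℂ E L] [IsScalarTower E K L] [FiniteDimensional E L] [Normal E L] (M : WM K)
    (hD : D ≠ 0) (h : ∀ g, D (algebraMap E K g) = algebraMap E K (δ g))
    (d : D M.x = 2 * M.y) (z : M.y ≠ 0) : Normal E K := by
  classical
  have : IsScalarTower ℂ K L := IsScalarTower.of_algebraMap_eq fun c => by
    rw [IsScalarTower.algebraMap_apply ℂ E L, IsScalarTower.algebraMap_apply ℂ E K,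
      IsScalarTower.algebraMap_apply E K L]
  have : FiniteDimensional K L := Module.Finite.of_restrictScalars_finite E K L
  have : IsFF L := by
    obtain ⟨_, _, _, -⟩ := exists_inst M.tr
    let : Algebra (RatFunc ℂ) L := ((algebraMap K L).comp (algebraMap (RatFunc ℂ) K)).toAlgebra
    have : IsScalarTower (RatFunc ℂ) K L := IsScalarTower.of_algebraMap_eq fun _ => rfl
    have : IsScalarTower ℂ (RatFunc ℂ) L := IsScalarTower.of_algebraMap_eq fun c => by
      rw [IsScalarTower.algebraMap_apply ℂ K L, IsScalarTower.algebraMap_apply ℂ (RatFunc ℂ) K]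
      rfl
    have : FiniteDimensional (RatFunc ℂ) L := Module.Finite.trans K L
    infer_instance
  have : CharZero K := charZero_of_injective_algebraMap (algebraMap ℂ K).injective
  have := fs_field K L
  obtain ⟨D₀, h₀⟩ := exists_ext ((algebraMap K L).toAddMonoidHom.comp D.toLinearMap.toAddMonoidHom)
    fun a b => by simp [D.leibniz]
  let D₁ : Derivation ℂ L L := Derivation.mk'
    { toFun := D₀, map_add' := map_add D₀, map_smul' := fun c a => by
        rw [Algebra.smul_def, D₀.leibniz, IsScalarTower.algebraMap_apply ℂ K L, h₀]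
        simp [← IsScalarTower.algebraMap_apply, Algebra.smul_def] } D₀.leibniz
  have h₁ : ∀ g, D₁ (algebraMap K L g) = algebraMap K L (D g) := h₀
  have z' : algebraMap K L M.y ≠ 0 := by simpa using z
  have d' : D₁ (algebraMap K L M.x) = 2 * algebraMap K L M.y := by rw [h₁, d, map_mul, map_ofNat]
  have hD₁ : D₁ ≠ 0 := fun c => deriv_ne_zero hD M.tr ((algebraMap K L).injective (by
    rw [← h₁, c]; simp))
  let ι := IsScalarTower.toAlgHom ℂ K L
  have : Normal E (IsScalarTower.toAlgHom E K L).fieldRange := by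
    refine normal_iff_forall_map_le'.2 fun σ => ?_
    rintro _ ⟨_, ⟨g, rfl⟩, rfl⟩
    obtain ⟨T, hT⟩ := transl (δ := δ) hD₁ (fun g => by
      rw [IsScalarTower.algebraMap_apply E K L, h₁, h, ← IsScalarTower.algebraMap_apply]) rfl rfl
      (((Wc M).baseChange_nonsingular (f := ι) ι.injective ..).2 (nons M z)) d' z' σ
    rw [← Point.map_some ι (nons M z), ← Point.map_baseChange ι, ← map_add] at hT
    generalize Point.some _ _ (nons M z) + _ = Q at hT
    rcases Q with _ | ⟨u, v, n⟩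
    · cases hT
    obtain ⟨ex, ey⟩ := Point.some.inj hT
    exact mem_of_gen M ((σ.restrictScalars ℂ : L →ₐ[ℂ] L).comp ι) ι.fieldRange ⟨u, ex.symm⟩
      ⟨v, ey.symm⟩ g
  exact Normal.of_algEquiv (IsScalarTower.toAlgHom E K L).equivFieldRange.symm

lemma galois (M : WM K) (hD : D ≠ 0) (h : ∀ g, D (algebraMap E K g) = algebraMap E K (δ g))
    (d : D M.x = 2 * M.y) (z : M.y ≠ 0) : IsGalois E K := by
  have : FiniteDimensional E K := fin_dim
  have : CharZero E := charZero_of_injective_algebraMap (algebraMap ℂ E).injective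
  have : IsAlgClosure E (AlgebraicClosure K) := ⟨inferInstance, Algebra.IsAlgebraic.trans E K _⟩
  have := normal_aux (normalClosure E K (AlgebraicClosure K)) M hD h d z
  exact {}

/-- The action of automorphisms on places. -/
def act : (K ≃ₐ[E] K) →* Equiv.Perm (Place K) := MonoidHom.toHomPerm
  { toFun := fun a z => ⟨z.O.comap (a.symm : K →+* K), fun h => z.ne_top (eq_top_iff.2 fun g _ => by
        have : a g ∈ z.O.comap (a.symm : K →+* K) := h ▸ ValuationSubring.mem_top _
        simpa using this), fun c => by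
      simpa [IsScalarTower.algebraMap_apply ℂ E K] using z.const c⟩
    map_one' := rfl
    map_mul' := fun _ _ => rfl }

omit [IsFF K] [IsFF E] in
lemma mem_act (a : K ≃ₐ[E] K) (z : Place K) (g : K) : a g ∈ (act a z).O ↔ g ∈ z.O := by
  change a.symm (a g) ∈ z.O ↔ _
  rw [a.symm_apply_apply]

omit [IsFF E] in
lemma ord_act (a : K ≃ₐ[E] K) (z : Place K) (g : K) : (act a z).ord (a g) = z.ord g := by
  have k : ∀ g, g ≠ 0 → (0 ≤ (act a z).ord (a g) ↔ 0 ≤ z.ord g) := fun g hg => by
    rw [← Place.mem_iff_ord _ (by simpa using hg), mem_act, z.mem_iff_ord hg]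
  have u := z.unif_ne_zero
  have l : ∀ g, g ≠ 0 → (act a z).ord (a g) = z.ord g * (act a z).ord (a z.unif) := fun g hg => by
    have h0 : g / z.unif ^ z.ord g ≠ 0 := div_ne_zero hg (zpow_ne_zero _ u)
    have h1 : z.ord (g / z.unif ^ z.ord g) = 0 := by
      rw [ord_div hg (zpow_ne_zero _ u), z.ord_zpow, z.ord_unif]; ring
    have h2 := (k _ h0).2 h1.ge
    have h3 := (k _ (inv_ne_zero h0)).2 (by rw [z.ord_inv, h1]; rfl)
    rw [map_inv₀, Place.ord_inv] at h3
    rw [map_div₀, map_zpow₀, ord_div (by simpa using hg) (zpow_ne_zero _ (by simpa using u)),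
      Place.ord_zpow] at h2 h3
    omega
  have e := l (a.symm (act a z).unif) (by simpa using (act a z).unif_ne_zero)
  rw [a.apply_symm_apply, Place.ord_unif] at e
  have e1 := Int.eq_one_of_mul_eq_one_left ((k _ u).2 (by simp)) e.symm
  by_cases hg : g = 0
  · simp [hg]
  · rw [l g hg, e1, mul_one]

omit [IsFF E] in
lemma val_act (a : K ≃ₐ[E] K) (z : Place K) (g : K) : (act a z).val (a g) = z.val g := by
  by_cases hg : g = 0
  · simp [hg]
  · rw [Place.val_eq _ (by simpa using hg), ord_act, z.val_eq hg]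

lemma free (hD : D ≠ 0) (h : ∀ g, D (algebraMap E K g) = algebraMap E K (δ g))
    (h0 : ∀ z : Place K, z.ord (D z.unif) = 0) {a : K ≃ₐ[E] K} {z : Place K} (e : act a z = z) :
    a = 1 := by
  have k : ∀ (n : ℕ) (g : K), g ∈ z.O → a g - g ≠ 0 → z.ord (a g - g) ≠ n := by
    intro n
    have b : ∀ g ∈ z.O, a g - g ≠ 0 → 1 ≤ z.ord (a g - g) := fun g hg ne => by
      obtain ⟨c, hc⟩ := z.exists_res hg
      have hc' := hc
      rw [← val_act a, e, map_sub, IsScalarTower.algebraMap_apply ℂ E K, a.commutes,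
        ← IsScalarTower.algebraMap_apply] at hc'
      have := sub_mem (mem_Ge_one.2 hc') (mem_Ge_one.2 hc)
      rw [sub_sub_sub_cancel_right] at this
      exact (mem_Ge_iff ne).1 this
    induction n with
    | zero => exact fun g hg ne c => by have := b g hg ne; omega
    | succ n ih =>
      intro g hg ne c
      have o := ord_deriv hD z (z := a g - g) (by omega)
      rw [h0, c, map_sub, der_comm h] at o
      refine ih (D g) (mem_Ge_zero.1 (h0 z ▸ der_mem_zero hD (mem_Ge_zero.2 hg))) (fun c' => ?_)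
        (by omega)
      obtain ⟨w, hw⟩ := const_of_der hD (g := a g - g) (by rw [map_sub, der_comm h, c'])
      rw [hw, ord_const (by rintro rfl; exact ne (by simpa using hw))] at c
      omega
  have l : ∀ g ∈ z.O, a g = g := fun g hg => by
    by_contra ne
    have ne := sub_ne_zero.2 ne
    have m : a g - g ∈ z.O := sub_mem (e ▸ (mem_act a z g).2 hg) hg
    exact k _ g hg ne (Int.toNat_of_nonneg ((z.mem_iff_ord ne).1 m)).symm
  ext g
  rcases z.O.mem_or_inv_mem g with m | m
  · exact l g m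
  · simpa using l _ m

variable {res : Place K → Place E}
  (hr : ∀ (z : Place K) (g : E), z.ord (algebraMap E K g) = (res z).ord g)
include hr

omit [IsScalarTower ℂ E K] in
lemma val_res (z : Place K) (g : E) : z.val (algebraMap E K g) = (res z).val g := by
  by_cases hg : g = 0
  · simp [hg]
  · rw [Place.val_eq _ (by simpa using hg), hr, (res z).val_eq hg]

lemma surj (w : Place E) : ∃ z, res z = w := by
  let A := (chartRing {w}).map (IsScalarTower.toAlgHom ℂ E K)
  have m : ∀ g ∈ w.O, algebraMap E K g ∈ A := fun g hg => ⟨g, by rintro _ rfl; exact hg, rfl⟩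
  obtain ⟨z, hz, -⟩ := exists_place_of_ideal A (Ideal.span {⟨_, m _ w.unif_mem⟩}) (fun c => by
    obtain ⟨⟨_, g, hg, rfl⟩, e⟩ := Ideal.mem_span_singleton'.1 ((Ideal.eq_top_iff_one _).1 c)
    have e : g * w.unif = 1 := (algebraMap E K).injective (by simpa using congrArg Subtype.val e)
    have := Ge_mul (mem_Ge_zero.2 (hg w rfl)) (mem_Ge_of_le w.ord_unif.ge)
    rw [e, mem_Ge_iff one_ne_zero] at this
    simp at this) (Ideal.mem_span_singleton_self _)
    (fun c => w.unif_ne_zero (by simpa using congrArg Subtype.val c))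
  refine ⟨z, (Place.eq_of_le fun g hg => ?_).symm⟩
  rw [Place.mem_iff, ← val_res hr, ← Place.mem_iff]
  exact hz _ (m g hg)

lemma fib [IsGalois E K] (z z' : Place K) :
    res z = res z' ↔ ∃ a : K ≃ₐ[E] K, act a z = z' := by
  have : FiniteDimensional E K := fin_dim
  have v : ∀ (a : K ≃ₐ[E] K) (x : Place K) (g : K), x.val (a g) = (act a⁻¹ x).val g :=
    fun a x g => by rw [← val_act a⁻¹ x]; exact congrArg _ (a.symm_apply_apply g)
  constructor
  · intro e
    by_contra c
    obtain ⟨t, ht, m⟩ := (res z).exists_transc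
    have u : ∀ x, res x = res z → ∀ a : K ≃ₐ[E] K, algebraMap E K t ∈ (act a x).O := fun x hx a => by
      rw [← a.commutes, mem_act, Place.mem_iff, val_res hr, hx, ← Place.mem_iff]; exact m
    obtain ⟨s, s1, s2, s3⟩ := (good_fin (transc_alg (L := K) ht)).approx (x := z')
      (by simpa using u z' e.symm 1) (Set.finite_range fun a : K ≃ₐ[E] K => act a z) 1
    have n := Algebra.norm_eq_prod_automorphisms E (s - 1)
    have a1 : z.val (∏ a : K ≃ₐ[E] K, a (s - 1)) = 1 := by
      rw [map_prod]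
      refine Finset.prod_eq_one fun a _ => ?_
      rw [v, Valuation.map_sub_swap]
      exact Valuation.map_one_sub_of_lt _ ((Place.val_lt_one_iff _).2
        (s3 _ ⟨_, rfl⟩ (u z rfl _) fun h => c ⟨_, h⟩))
    have a2 := Pool.Agent.Lib.MP_cc3443_ag.Good.val_prod_le Finset.univ (fun a : K ≃ₐ[E] K => a (s - 1)) z' (fun a _ => by
      rw [Place.mem_iff, v, ← Place.mem_iff]
      exact sub_mem (s1 _ (u z' e.symm _)) (one_mem _)) (Finset.mem_univ 1)
    rw [← n, val_res hr, ← e, ← val_res hr, n, a1] at a2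
    exact absurd ((Place.val_lt_one_iff _).2 s2) (not_lt.2 a2)
  · rintro ⟨a, rfl⟩
    refine Place.eq_of_le fun g hg => ?_
    rwa [Place.mem_iff, ← val_res hr, ← a.commutes, val_act, val_res hr, ← Place.mem_iff]

end gal

end GAL

open GAL in
theorem stGAL (hW : St_WEI) (hR : St_RHL) : St_GAL := by
  intro K E _ _ _ _ _ _ _ _ M ⟨δ₀, h0, h1⟩
  obtain ⟨hχ, ⟨D, hD, d, o⟩, -⟩ := hW K M
  obtain ⟨res, δ, c, o', hr⟩ := (hR K E δ₀ h0 h1).2 hχ
  have hδ : δ ≠ 0 := fun e => h0 (Derivation.ext fun g => (algebraMap E K).injective (by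
    rw [← c, e]; simp))
  have x0 := deriv_ne_zero hD M.tr
  have x1 := deriv_ne_zero hδ M.tr
  have e : D = (D M.x / δ M.x) • δ := eq_of_transc M.tr (by simp [x1])
  obtain ⟨k, hk⟩ := const_of_mem (z := D M.x / δ M.x) fun z => by
    have := o z
    rw [e, Derivation.smul_apply, smul_eq_mul, z.ord_mul (div_ne_zero x0 x1)
      (deriv_ne_zero hδ z.transc_unif), o', add_zero] at this
    exact (z.mem_iff_ord (div_ne_zero x0 x1)).2 this.ge
  have h : ∀ g, D (algebraMap E K g) = algebraMap E K ((k • δ₀) g) := fun g => by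
    rw [e, hk, Derivation.smul_apply, Derivation.smul_apply, c, Algebra.smul_def k, map_mul,
      ← IsScalarTower.algebraMap_apply, smul_eq_mul]
  have z : M.y ≠ 0 := fun y => x0 (by rw [d, y, mul_zero])
  have := galois M hD h d z
  have : FiniteDimensional E K := fin_dim
  exact ⟨⟨res, act, inferInstance, comm M hD h d z, ord_act, hr, surj hr, fib hr,
    fun _ _ => free hD h o, fun g hg => by
      obtain ⟨u, hu⟩ := (IsGalois.mem_range_algebraMap_iff_fixed g).2 hg
      exact ⟨u, hu⟩⟩⟩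

end G1
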