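import Pool.Agent.Lib.G1.Blue

open Polynomial IntermediateField
open Pool.Agent.Lib.MP_cc3443_ag Pool.Agent.Lib.MP_3c72fe_ag

noncomputable section

namespace G1

namespace GM

section Sp

variable {F K : Type} [Field F] [Field K] {R : Rd F K} {a a' : F} {b b' : K}

lemma sp_iff : R.Sp a b ↔ ∃ h : a ∈ R.O, R.ρ ⟨a, h⟩ = b :=
  ⟨fun ⟨h, e⟩ => ⟨h, by rw [← e, Rd.r, dif_pos h]⟩,
    fun ⟨h, e⟩ => ⟨h, by rw [Rd.r, dif_pos h, e]⟩⟩

lemma sp_r (h : a ∈ R.O) : R.Sp a (R.r a) := ⟨h, rfl⟩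

lemma sp_zero : R.Sp 0 0 := sp_iff.2 ⟨zero_mem _, map_zero R.ρ⟩

lemma sp_one : R.Sp 1 1 := sp_iff.2 ⟨one_mem _, map_one R.ρ⟩

lemma sp_add (h : R.Sp a b) (h' : R.Sp a' b') : R.Sp (a + a') (b + b') := by
  obtain ⟨h1, rfl⟩ := sp_iff.1 h
  obtain ⟨h2, rfl⟩ := sp_iff.1 h'
  exact sp_iff.2 ⟨add_mem h1 h2, map_add R.ρ ⟨a, h1⟩ ⟨a', h2⟩⟩

lemma sp_sub (h : R.Sp a b) (h' : R.Sp a' b') : R.Sp (a - a') (b - b') := by
  obtain ⟨h1, rfl⟩ := sp_iff.1 h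
  obtain ⟨h2, rfl⟩ := sp_iff.1 h'
  exact sp_iff.2 ⟨sub_mem h1 h2, map_sub R.ρ ⟨a, h1⟩ ⟨a', h2⟩⟩

lemma sp_mul (h : R.Sp a b) (h' : R.Sp a' b') : R.Sp (a * a') (b * b') := by
  obtain ⟨h1, rfl⟩ := sp_iff.1 h
  obtain ⟨h2, rfl⟩ := sp_iff.1 h'
  exact sp_iff.2 ⟨mul_mem h1 h2, map_mul R.ρ ⟨a, h1⟩ ⟨a', h2⟩⟩

lemma sp_pow (h : R.Sp a b) (n : ℕ) : R.Sp (a ^ n) (b ^ n) := by
  induction n with
  | zero => simpa using sp_one
  | succ n ih => simpa [pow_succ] using sp_mul ih h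

lemma sp_sum {ι : Type} (s : Finset ι) {f : ι → F} {g : ι → K} (h : ∀ i, R.Sp (f i) (g i)) :
    R.Sp (∑ i ∈ s, f i) (∑ i ∈ s, g i) := by
  classical
  induction s using Finset.induction_on with
  | empty => simpa using sp_zero
  | insert i s hi ih => rw [Finset.sum_insert hi, Finset.sum_insert hi]; exact sp_add (h i) ih

lemma sp_uniq (h : R.Sp a b) (h' : R.Sp a b') : b = b' := h.2.symm.trans h'.2

lemma sp_inv (h : R.Sp a b) (hb : b ≠ 0) : R.Sp a⁻¹ b⁻¹ := by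
  obtain ⟨h1, e⟩ := sp_iff.1 h
  have h2 : a⁻¹ ∈ R.O := R.unit ⟨a, h1⟩ (e ▸ hb)
  have h3 : a ≠ 0 := fun t => hb (sp_uniq h (t ▸ sp_zero))
  have h4 := sp_mul h (sp_r h2)
  rw [mul_inv_cancel₀ h3] at h4
  exact ⟨h2, (eq_inv_of_mul_eq_one_right (sp_uniq h4 sp_one))⟩

lemma mem_of_sq (h : a ^ 2 ∈ R.O) : a ∈ R.O := by
  rcases R.O.mem_or_inv_mem a with h1 | h1
  · exact h1
  · rcases eq_or_ne a 0 with rfl | h0
    · exact zero_mem _
    · have := mul_mem h h1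
      rwa [pow_two, mul_inv_cancel_right₀ h0] at this

end Sp

section Pol

variable {v : Rd ℂ ℂ}

/-- Coefficientwise residue. -/
def red (v : Rd ℂ ℂ) (q : ℂ[X]) : ℂ[X] := ∑ n ∈ q.support, monomial n (v.r (q.coeff n))

lemma rq_red {q : ℂ[X]} (h : ∀ n, q.coeff n ∈ v.O) : RQ v q (red v q) := fun n => by
  refine ⟨h n, ?_⟩
  simp only [red, finsetSum_coeff, coeff_monomial, Finset.sum_ite_eq', mem_support_iff]
  split_ifs with e
  · rfl
  · rw [not_not.1 e]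
    exact sp_zero.2

lemma rq_C_mul {c cb : ℂ} {q qb : ℂ[X]} (hc : v.Sp c cb) (h : RQ v q qb) :
    RQ v (C c * q) (C cb * qb) := fun n => by
  rw [coeff_C_mul, coeff_C_mul]
  exact sp_mul hc (h n)

lemma scale (α β : ℂ[X]) (h : α ≠ 0 ∨ β ≠ 0) : ∃ (c : ℂ) (αb βb : ℂ[X]), c ≠ 0 ∧
    RQ v (C c * α) αb ∧ RQ v (C c * β) βb ∧ (αb ≠ 0 ∨ βb ≠ 0) := by
  classical
  obtain ⟨d, hd, hm⟩ := Finset.exists_max_image (α.coeffs ∪ β.coeffs) v.O.valuation (by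
    rcases h with h | h
    · exact ⟨_, Finset.mem_union_left _ (coeff_mem_coeffs (leadingCoeff_ne_zero.2 h))⟩
    · exact ⟨_, Finset.mem_union_right _ (coeff_mem_coeffs (leadingCoeff_ne_zero.2 h))⟩)
  have d0 : d ≠ 0 := by
    rintro rfl
    simp [mem_coeffs_iff, eq_comm] at hd
  have key : ∀ q : ℂ[X], q.coeffs ⊆ α.coeffs ∪ β.coeffs → RQ v (C d⁻¹ * q) (red v (C d⁻¹ * q)) ∧
      (d ∈ q.coeffs → red v (C d⁻¹ * q) ≠ 0) := fun q hq => by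
    have h1 : RQ v (C d⁻¹ * q) (red v (C d⁻¹ * q)) := rq_red fun n => by
      rw [coeff_C_mul]
      rcases eq_or_ne (q.coeff n) 0 with e | e
      · rw [e, mul_zero]
        exact zero_mem _
      · rw [← v.O.valuation_le_one_iff, map_mul, map_inv₀,
          inv_mul_le_one₀ (zero_lt_iff.2 ((_root_.map_ne_zero _).2 d0))]
        exact hm _ (hq (coeff_mem_coeffs e))
    refine ⟨h1, fun h2 e => ?_⟩
    obtain ⟨n, -, hn⟩ := mem_coeffs_iff.1 h2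
    have h3 := h1 n
    rw [e, coeff_C_mul, ← hn, inv_mul_cancel₀ d0] at h3
    exact one_ne_zero (sp_uniq sp_one h3)
  have k1 := key α Finset.subset_union_left
  have k2 := key β Finset.subset_union_right
  exact ⟨d⁻¹, _, _, inv_ne_zero d0, k1.1, k2.1, (Finset.mem_union.1 hd).imp k1.2 k2.2⟩

end Pol

variable {F K : Type} [Field F] [Algebra ℂ F] [Field K] [Algebra ℂ K] {v : Rd ℂ ℂ} {R : Rd F K}

lemma rq_aeval (ov : Over v R) {q qb : ℂ[X]} (h : RQ v q qb) {x : F} {xb : K} (hx : R.Sp x xb) :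
    R.Sp (aeval x q) (aeval xb qb) := by
  rw [aeval_eq_sum_range' (n := q.natDegree + qb.natDegree + 1) (by omega),
    aeval_eq_sum_range' (n := q.natDegree + qb.natDegree + 1) (by omega)]
  refine sp_sum _ fun i => ?_
  rw [Algebra.smul_def, Algebra.smul_def]
  exact sp_mul (ov.2 _ _ (h i)) (sp_pow hx i)

/-- The cubic of a model. -/
def cub (e : Fin 3 → ℂ) : ℂ[X] := ∏ i, (X - C (e i))

lemma nrm {e : Fin 3 → ℂ} {α β : ℂ[X]} (h : α ^ 2 - β ^ 2 * cub e = 0) : α = 0 ∧ β = 0 := by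
  have h1 : (cub e).Monic := monic_prod_of_monic _ _ fun i _ => monic_X_sub_C _
  have h2 : (cub e).natDegree = 3 := by
    rw [cub, natDegree_prod_of_monic _ _ fun i _ => monic_X_sub_C _]
    simp
  rw [sub_eq_zero] at h
  have h3 : β = 0 := by
    by_contra h3
    have := congrArg natDegree h
    rw [natDegree_mul (pow_ne_zero 2 h3) h1.ne_zero, natDegree_pow, natDegree_pow, h2] at this
    omega
  exact ⟨by simpa [h3] using h, h3⟩

lemma sq_eq (M : WM F) : M.y ^ 2 = aeval M.x (cub M.e) := by simp [cub, M.eq]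

lemma ae_ne (M : WM F) {γ : ℂ[X]} (h : γ ≠ 0) : aeval M.x γ ≠ 0 := fun e => M.tr ⟨γ, h, e⟩

lemma ind (M : WM F) {α β : ℂ[X]} (h : α ≠ 0 ∨ β ≠ 0) :
    aeval M.x α + aeval M.x β * M.y ≠ 0 := fun e => by
  have h1 : α ^ 2 - β ^ 2 * cub M.e = 0 := by
    by_contra h1
    refine ae_ne M h1 ?_
    rw [map_sub, map_mul, map_pow, map_pow, ← sq_eq]
    linear_combination (aeval M.x α - aeval M.x β * M.y) * e
  exact h.elim (fun t => t (nrm h1).1) fun t => t (nrm h1).2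

lemma rep0 (M : WM F) (g : F) : ∃ α β γ : ℂ[X], γ ≠ 0 ∧
    g * aeval M.x γ = aeval M.x α + aeval M.x β * M.y := by
  have hg : g ∈ IntermediateField.adjoin ℂ {M.x, M.y} := M.top ▸ mem_top
  induction hg using IntermediateField.adjoin_induction with
  | mem g hg =>
    rcases hg with rfl | rfl
    · exact ⟨X, 0, 1, one_ne_zero, by simp⟩
    · exact ⟨0, 1, 1, one_ne_zero, by simp⟩
  | algebraMap c => exact ⟨C c, 0, 1, one_ne_zero, by simp⟩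
  | add a b _ _ ha hb =>
    obtain ⟨α, β, γ, h, e⟩ := ha
    obtain ⟨α', β', γ', h', e'⟩ := hb
    refine ⟨α * γ' + α' * γ, β * γ' + β' * γ, γ * γ', mul_ne_zero h h', ?_⟩
    simp only [map_add, map_mul]
    linear_combination aeval M.x γ' * e + aeval M.x γ * e'
  | inv a _ ha =>
    obtain ⟨α, β, γ, h, e⟩ := ha
    rcases eq_or_ne a 0 with rfl | h0
    · exact ⟨0, 0, 1, one_ne_zero, by simp⟩
    refine ⟨γ * α, -(γ * β), α ^ 2 - β ^ 2 * cub M.e, fun t => ?_, ?_⟩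
    · rw [(nrm t).1, (nrm t).2] at e
      exact mul_ne_zero h0 (ae_ne M h) (by simpa using e)
    · rw [inv_mul_eq_iff_eq_mul₀ h0]
      simp only [map_sub, map_mul, map_pow, map_neg, ← sq_eq]
      linear_combination (aeval M.x β * M.y - aeval M.x α) * e
  | mul a b _ _ ha hb =>
    obtain ⟨α, β, γ, h, e⟩ := ha
    obtain ⟨α', β', γ', h', e'⟩ := hb
    refine ⟨α * α' + β * β' * cub M.e, α * β' + α' * β, γ * γ', mul_ne_zero h h', ?_⟩
    simp only [map_add, map_mul, ← sq_eq]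
    linear_combination b * aeval M.x γ' * e + (aeval M.x α + aeval M.x β * M.y) * e'

lemma rep (v : Rd ℂ ℂ) (M : WM F) {g : F} (hg : g ≠ 0) : ∃ (c : ℂ) (α β γ αb βb γb : ℂ[X]),
    c ≠ 0 ∧ RQ v α αb ∧ RQ v β βb ∧ RQ v γ γb ∧ (αb ≠ 0 ∨ βb ≠ 0) ∧ γb ≠ 0 ∧
      algebraMap ℂ F c * g * aeval M.x γ = aeval M.x α + aeval M.x β * M.y := by
  obtain ⟨α, β, γ, h, e⟩ := rep0 M g
  obtain ⟨c, αb, βb, c0, h1, h2, h3⟩ := scale (v := v) α β (by
    by_contra t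
    rw [not_or, not_not, not_not] at t
    rw [t.1, t.2] at e
    exact mul_ne_zero hg (ae_ne M h) (by simpa using e))
  obtain ⟨d, γb, γb', d0, h4, h5, h6⟩ := scale (v := v) γ 0 (Or.inl h)
  have h7 : γb' = 0 := Polynomial.ext fun n => sp_uniq (h5 n) (by simpa using sp_zero)
  refine ⟨c / d, _, _, _, αb, βb, γb, div_ne_zero c0 d0, h1, h2, h4, h3,
    h6.resolve_right (not_not.2 h7), ?_⟩
  have d1 : algebraMap ℂ F d ≠ 0 := (_root_.map_ne_zero _).2 d0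
  simp only [map_mul, aeval_C, map_div₀]
  field_simp
  linear_combination algebraMap ℂ F c * e

variable {M : WM F}

lemma sp_y (ov : Over v R) (G : Good v R M) :
    M.y ∈ R.O ∧ R.r M.y ^ 2 = ∏ i, (R.r M.x - algebraMap ℂ K (v.r (M.e i))) := by
  have h : ∀ i, R.Sp (M.x - algebraMap ℂ F (M.e i)) (R.r M.x - algebraMap ℂ K (v.r (M.e i))) :=
    fun i => sp_sub (sp_r G.x_mem) (ov.2 _ _ (sp_r (G.e_mem i)))
  have h1 := sp_mul (sp_mul (h 0) (h 1)) (h 2)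
  rw [← Fin.prod_univ_three fun i => M.x - algebraMap ℂ F (M.e i),
    ← Fin.prod_univ_three fun i => R.r M.x - algebraMap ℂ K (v.r (M.e i)), ← M.eq] at h1
  exact ⟨mem_of_sq h1.1, sp_uniq (sp_pow (sp_r (mem_of_sq h1.1)) 2) h1⟩

lemma unit (ov : Over v R) (G : Good v R M) {u : F} {α β γ αb βb γb : ℂ[X]} (h1 : RQ v α αb)
    (h2 : RQ v β βb) (h3 : RQ v γ γb) (h4 : αb ≠ 0 ∨ βb ≠ 0) (h5 : γb ≠ 0)
    (e : u * aeval M.x γ = aeval M.x α + aeval M.x β * M.y) : R.U u := by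
  obtain ⟨y1, y2⟩ := sp_y ov G
  have hx := sp_r G.x_mem
  have a1 : aeval (R.r M.x) γb ≠ 0 := fun t => G.tr ⟨γb, h5, t⟩
  have a2 : aeval (R.r M.x) αb + aeval (R.r M.x) βb * R.r M.y ≠ 0 := fun t => by
    have a3 : αb ^ 2 - βb ^ 2 * cub (fun i => v.r (M.e i)) ≠ 0 := fun s =>
      h4.elim (fun t => t (nrm s).1) fun t => t (nrm s).2
    refine G.tr ⟨_, a3, ?_⟩
    simp only [map_sub, map_mul, map_pow, cub, map_prod, aeval_X, aeval_C, ← y2]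
    linear_combination (aeval (R.r M.x) αb - aeval (R.r M.x) βb * R.r M.y) * t
  have a4 := rq_aeval ov h3 hx
  have a5 := sp_mul (sp_add (rq_aeval ov h1 hx) (sp_mul (rq_aeval ov h2 hx) (sp_r y1)))
    (sp_inv a4 a1)
  have a6 : aeval M.x γ ≠ 0 := fun t => a1 (sp_uniq a4 (t ▸ sp_zero))
  rw [← e, mul_inv_cancel_right₀ a6] at a5
  exact ⟨a5.1, a5.2 ▸ mul_ne_zero a2 (inv_ne_zero a1)⟩

lemma mem_iff (ov : Over v R) {c : ℂ} {g : F} (c0 : c ≠ 0) (h : R.U (algebraMap ℂ F c * g)) :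
    g ∈ R.O ↔ c⁻¹ ∈ v.O := by
  have c1 : algebraMap ℂ F c ≠ 0 := (_root_.map_ne_zero _).2 c0
  refine ⟨fun hg => ov.1 _ ?_, fun hc => ?_⟩
  · have g0 : g ≠ 0 := fun t => h.2 (by rw [t, mul_zero]; exact sp_zero.2)
    have := mul_mem hg (sp_inv (sp_r h.1) h.2).1
    rwa [mul_inv, mul_comm _ g⁻¹, mul_inv_cancel_left₀ g0, ← map_inv₀] at this
  · have := mul_mem (ov.2 _ _ (sp_r hc)).1 h.1
    rwa [map_inv₀, inv_mul_cancel_left₀ c1] at this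

lemma third (ov : Over v R) (G : Good v R M) {g : F} (hg : g ∈ R.O) :
    ∃ α β γ αb βb γb : ℂ[X], RQ v α αb ∧ RQ v β βb ∧ RQ v γ γb ∧ γb ≠ 0 ∧
      g * aeval M.x γ = aeval M.x α + aeval M.x β * M.y := by
  rcases eq_or_ne g 0 with rfl | g0
  · refine ⟨0, 0, 1, 0, 0, 1, fun _ => sp_zero, fun _ => sp_zero, fun n => ?_, one_ne_zero, by simp⟩
    rw [coeff_one]
    split_ifs
    exacts [sp_one, sp_zero]
  obtain ⟨c, α, β, γ, αb, βb, γb, c0, h1, h2, h3, h4, h5, e⟩ := rep v M g0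
  have hc := sp_r ((mem_iff ov c0 (unit ov G h1 h2 h3 h4 h5 e)).1 hg)
  refine ⟨_, _, γ, _, _, γb, rq_C_mul hc h1, rq_C_mul hc h2, h3, h5, ?_⟩
  have c1 : algebraMap ℂ F c ≠ 0 := (_root_.map_ne_zero _).2 c0
  simp only [map_mul, aeval_C, map_inv₀]
  field_simp
  linear_combination e

end GM

open GM in
theorem stGM (hGR : St_GR) : St_GM := by
  intro F K _ _ _ _ v R M ov G
  obtain ⟨y1, y2⟩ := sp_y ov G
  have hx := sp_r G.x_mem
  refine ⟨⟨⟨R.r M.x, R.r M.y, fun i => v.r (M.e i), G.inj, y2, G.tr, eq_top_iff.2 fun b _ => ?_⟩,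
    hx, sp_r y1, fun i => sp_r (G.e_mem i)⟩, fun g g0 => ?_, fun g hg => third ov G hg,
    fun L _ _ R' ov' nr tr => ?_⟩
  · obtain ⟨g, rfl⟩ := R.surj b
    obtain ⟨α, β, γ, αb, βb, γb, h1, h2, h3, h4, e⟩ := third ov G g.2
    have a1 := sp_mul (sp_iff.2 ⟨g.2, rfl⟩) (rq_aeval ov h3 hx)
    have a2 := sp_add (rq_aeval ov h1 hx) (sp_mul (rq_aeval ov h2 hx) (sp_r y1))
    have a3 : aeval (R.r M.x) γb ≠ 0 := fun t => G.tr ⟨γb, h4, t⟩
    have a4 : ∀ q : ℂ[X], aeval (R.r M.x) q ∈ IntermediateField.adjoin ℂ {R.r M.x, R.r M.y} :=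
      fun q => IntermediateField.algebra_adjoin_le_adjoin ℂ _
        (Algebra.adjoin_mono (by simp) (aeval_mem_adjoin_singleton ℂ (R.r M.x)))
    rw [e] at a1
    rw [(eq_mul_inv_iff_mul_eq₀ a3).2 (sp_uniq a1 a2)]
    exact mul_mem (add_mem (a4 _) (mul_mem (a4 _) (subset_adjoin _ _ (by simp)))) (inv_mem (a4 _))
  · obtain ⟨c, α, β, γ, αb, βb, γb, -, h1, h2, h3, h4, h5, e⟩ := rep v M g0
    exact ⟨c, Algebra.smul_def c g ▸ unit ov G h1 h2 h3 h4 h5 e⟩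
  · obtain ⟨M', a, r, r0, e1, e2, G'⟩ := hGR F L v R' M ov' nr tr
    have n01 : (0 : Fin 3) ≠ 1 := by decide
    have s1 := sp_sub (sp_r (G.e_mem 0)) (sp_r (G.e_mem 1))
    have s2 := sp_sub (sp_r (G'.e_mem 0)) (sp_r (G'.e_mem 1))
    have t1 := sub_ne_zero.2 (G.inj.ne n01)
    have t2 := sub_ne_zero.2 (G'.inj.ne n01)
    have q1 : r = (M.e 0 - M.e 1) * (M'.e 0 - M'.e 1)⁻¹ := by
      rw [e2, e2, add_sub_add_left_eq_sub, ← mul_sub,
        mul_inv_cancel_right₀ (sub_ne_zero.2 (M'.inj.ne n01))]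
    obtain ⟨rb, s3, t3⟩ : ∃ rb, v.Sp r rb ∧ rb ≠ 0 :=
      ⟨_, q1 ▸ sp_mul s1 (sp_inv s2 t2), mul_ne_zero t1 (inv_ne_zero t2)⟩
    have q2 : a = M.e 0 - r * M'.e 0 := by rw [e2, add_sub_cancel_right]
    obtain ⟨ab, s4⟩ : ∃ ab, v.Sp a ab :=
      ⟨_, q2 ▸ sp_sub (sp_r (G.e_mem 0)) (sp_mul s3 (sp_r (G'.e_mem 0)))⟩
    have s5 := sp_add (ov'.2 _ _ s4) (sp_mul (ov'.2 _ _ s3) (sp_r G'.x_mem))
    rw [← Algebra.smul_def, ← e1] at s5
    have G2 : Good v R' M := ⟨s5.1, fun t => G'.tr ?_, G.e_mem, G.inj⟩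
    · ext g
      rcases eq_or_ne g 0 with rfl | g0
      · simp
      obtain ⟨c, α, β, γ, αb, βb, γb, c0, h1, h2, h3, h4, h5, e⟩ := rep v M g0
      rw [mem_iff ov c0 (unit ov G h1 h2 h3 h4 h5 e), mem_iff ov' c0 (unit ov' G2 h1 h2 h3 h4 h5 e)]
    · rw [s5.2] at t
      have t4 := (t.sub (isAlgebraic_algebraMap ab)).mul (isAlgebraic_algebraMap rb).inv
      rwa [add_sub_cancel_left, mul_comm, inv_mul_cancel_left₀ ((_root_.map_ne_zero _).2 t3)] at t4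

end G1
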