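import Pool.Agent.Lib.G1.BasicA
import Pool.Agent.Lib.G1.GM

open Polynomial IntermediateField
open Pool.Agent.Lib.MP_cc3443_ag Pool.Agent.Lib.MP_3c72fe_ag

noncomputable section

namespace G1

open Rd

namespace GR

section Rat

variable {K : Type} [Field K] [Algebra ℂ K] {t y : K}

/-- Both elements lie in a simple extension. -/
def Rat (t y : K) : Prop := ∃ θ : K, t ∈ ℂ⟮θ⟯ ∧ y ∈ ℂ⟮θ⟯

/-- The element is one or linear in `t`. -/
def Lin (t f : K) : Prop := f = 1 ∨ ∃ b : ℂ, f = t - algebraMap ℂ K b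

lemma rat_div {b : ℂ} (h0 : t - algebraMap ℂ K b ≠ 0) (h : Rat t (y / (t - algebraMap ℂ K b))) :
    Rat t y := by
  obtain ⟨θ, h1, h2⟩ := h
  refine ⟨θ, h1, ?_⟩
  rw [← div_mul_cancel₀ y h0]
  exact mul_mem h2 (sub_mem h1 (IntermediateField.algebraMap_mem _ b))

lemma rat1 {f : K} (hf : Lin t f) (h : y ^ 2 = f) : Rat t y := by
  rcases hf with rfl | ⟨b, rfl⟩
  · refine ⟨t, mem_adjoin_simple_self ℂ t, ?_⟩
    rcases sq_eq_one_iff.1 h with rfl | rfl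
    exacts [one_mem _, neg_mem (one_mem _)]
  · refine ⟨y, ?_, mem_adjoin_simple_self ℂ y⟩
    rw [eq_add_of_sub_eq h.symm]
    exact add_mem (pow_mem (mem_adjoin_simple_self ℂ y) 2) (IntermediateField.algebraMap_mem _ b)

lemma rat2 (ht : ∀ b : ℂ, t - algebraMap ℂ K b ≠ 0) {f g : K} (hf : Lin t f) (hg : Lin t g)
    (h : y ^ 2 = f * g) : Rat t y := by
  rcases hf with rfl | ⟨b, rfl⟩
  · exact rat1 hg (by rw [h, one_mul])
  rcases hg with rfl | ⟨b', rfl⟩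
  · exact rat1 (Or.inr ⟨b, rfl⟩) (by rw [h, mul_one])
  refine rat_div (ht b) ?_
  obtain ⟨θ, hθ⟩ : ∃ θ, θ = y / (t - algebraMap ℂ K b) := ⟨_, rfl⟩
  have h1 : θ ^ 2 * (t - algebraMap ℂ K b) = t - algebraMap ℂ K b' := by
    have := ht b
    rw [hθ, div_pow, h]
    field_simp
  rw [← hθ]
  by_cases h2 : θ ^ 2 = 1
  · exact rat1 (Or.inl rfl) h2
  have h3 := pow_mem (mem_adjoin_simple_self ℂ θ) 2
  refine ⟨θ, ?_, mem_adjoin_simple_self ℂ θ⟩
  have h4 : t = (θ ^ 2 * algebraMap ℂ K b - algebraMap ℂ K b') / (θ ^ 2 - 1) := by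
    rw [eq_div_iff (sub_ne_zero.2 h2)]
    linear_combination h1
  rw [h4]
  exact div_mem (sub_mem (mul_mem h3 (IntermediateField.algebraMap_mem _ b))
    (IntermediateField.algebraMap_mem _ b')) (sub_mem h3 (one_mem _))

lemma three (f : Fin 3 → K) {i j : Fin 3} (h : i ≠ j) : ∃ k, ∏ l, f l = f i * f j * f k := by
  obtain ⟨k, hk⟩ : ∃ k, (Finset.univ : Finset (Fin 3)) = {i, j, k} ∧ i ≠ k ∧ j ≠ k := by
    revert i j
    decide
  refine ⟨k, ?_⟩
  rw [hk.1, Finset.prod_insert (by simp [h, hk.2.1]), Finset.prod_pair hk.2.2, mul_assoc]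

lemma rat3 (ht : ∀ b : ℂ, t - algebraMap ℂ K b ≠ 0) {f : Fin 3 → K} {b : Fin 3 → ℂ}
    {P : Fin 3 → Prop} (h : ∀ i, (P i ∧ f i = t - algebraMap ℂ K (b i)) ∨ f i = 1)
    (hy : y ^ 2 = ∏ i, f i) (nr : ¬ Rat t y) : (∀ i, P i) ∧ Function.Injective b := by
  have hl : ∀ i, Lin t (f i) := fun i => (h i).elim (fun e => Or.inr ⟨_, e.2⟩) Or.inl
  have h1 : ∀ i, P i ∧ f i = t - algebraMap ℂ K (b i) := fun i => (h i).resolve_right fun e => by
    obtain ⟨j, hj⟩ := exists_ne i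
    obtain ⟨k, hk⟩ := three f hj.symm
    exact nr (rat2 ht (hl j) (hl k) (by rw [hy, hk, e, one_mul]))
  refine ⟨fun i => (h1 i).1, fun i j e => by_contra fun hij => ?_⟩
  obtain ⟨k, hk⟩ := three f hij
  refine nr (rat_div (ht (b i)) (rat1 (hl k) ?_))
  have := ht (b i)
  rw [div_pow, hy, hk, (h1 i).2, (h1 j).2, ← e]
  field_simp

end Rat

variable {F K : Type} [Field F] [Algebra ℂ F] [Field K] [Algebra ℂ K] {v : Rd ℂ ℂ} {R : Rd F K}

lemma two_ne : (2 : K) ≠ 0 := by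
  have := charZero_of_injective_algebraMap (algebraMap ℂ K).injective
  exact two_ne_zero

/-- The residue field of a quadratic extension. -/
lemma quad (M : WM F) (L : IntermediateField ℂ K) (h1 : ∀ g ∈ ℂ⟮M.x⟯, g ∈ R.O → R.r g ∈ L)
    (h2 : ∀ g ∈ ℂ⟮M.x⟯, g * M.y ∈ R.O → R.r (g * M.y) ∈ L) : L = ⊤ := by
  refine eq_top_iff.2 fun b _ => ?_
  obtain ⟨h, hb⟩ := R.exists_sp b
  have ha : ∀ q : ℂ[X], aeval M.x q ∈ ℂ⟮M.x⟯ := fun q =>
    IntermediateField.algebra_adjoin_le_adjoin ℂ _ (aeval_mem_adjoin_singleton ℂ M.x)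
  obtain ⟨α, hα, β, hβ, rfl⟩ : ∃ α ∈ ℂ⟮M.x⟯, ∃ β ∈ ℂ⟮M.x⟯, h = α + β * M.y := by
    obtain ⟨α, β, γ, h0, e⟩ := GM.rep0 M h
    have := GM.ae_ne M h0
    refine ⟨_, div_mem (ha α) (ha γ), _, div_mem (ha β) (ha γ), ?_⟩
    field_simp
    exact e
  have s2 : R.Sp (2 : F)⁻¹ (2 : K)⁻¹ := (sp_ofNat 2).inv two_ne
  have t2 : (2 : F) ≠ 0 := two_ne
  by_cases h3 : α ∈ R.O
  · have h4 : β * M.y ∈ R.O := by simpa using sub_mem hb.1 h3
    rw [hb.unique ((sp_r h3).add (sp_r h4))]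
    exact add_mem (h1 α hα h3) (h2 β hβ h4)
  · have h0 : α ≠ 0 := fun e => h3 (e ▸ zero_mem _)
    have h4 := hb.mul (sp_one.sub ((hb.mul s2).mul (sp_inv_of_not_mem h3)))
    have e : (α + β * M.y) * (1 - (α + β * M.y) * 2⁻¹ * α⁻¹) =
        (α ^ 2 - β ^ 2 * aeval M.x (GM.cub M.e)) / (α + α) := by
      rw [← GM.sq_eq, ← two_mul]
      field_simp
      ring
    rw [e, mul_zero, sub_zero, mul_one] at h4
    rw [← h4.2]
    exact h1 _ (div_mem (sub_mem (pow_mem hα 2) (mul_mem (pow_mem hβ 2) (ha _))) (add_mem hα hα))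
      h4.1

variable (R) in
/-- A constant times a power of `z` times a unit with constant residue. -/
def T (z g : F) : Prop := ∃ (c : ℂ) (n : ℤ) (u : F) (b : ℂ), c ≠ 0 ∧ b ≠ 0 ∧
  R.Sp u (algebraMap ℂ K b) ∧ g = algebraMap ℂ F c * z ^ n * u

lemma T.const {z : F} {c : ℂ} (h : c ≠ 0) : T R z (algebraMap ℂ F c) :=
  ⟨c, 0, 1, 1, h, one_ne_zero, by simpa using sp_one, by simp⟩

lemma T.mul {z g g' : F} (hz : z ≠ 0) (h : T R z g) (h' : T R z g') : T R z (g * g') := by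
  obtain ⟨c, n, u, b, h1, h2, h3, rfl⟩ := h
  obtain ⟨c', n', u', b', h1', h2', h3', rfl⟩ := h'
  exact ⟨c * c', n + n', u * u', b * b', mul_ne_zero h1 h1', mul_ne_zero h2 h2',
    map_mul (algebraMap ℂ K) b b' ▸ h3.mul h3', by rw [map_mul, zpow_add₀ hz]; ring⟩

lemma T.inv {z g : F} (h : T R z g) : T R z g⁻¹ := by
  obtain ⟨c, n, u, b, h1, h2, h3, rfl⟩ := h
  exact ⟨c⁻¹, -n, u⁻¹, b⁻¹, inv_ne_zero h1, inv_ne_zero h2,
    map_inv₀ (algebraMap ℂ K) b ▸ h3.inv ((_root_.map_ne_zero _).2 h2),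
    by rw [map_inv₀, zpow_neg, mul_inv, mul_inv]⟩

lemma T.poly {z x : F} (hz : z ≠ 0) (h : ∀ a : ℂ, T R z (x - algebraMap ℂ F a)) {q : ℂ[X]}
    (hq : q ≠ 0) : T R z (aeval x q) := by
  rw [(IsAlgClosed.splits q).eq_prod_roots, map_mul, aeval_C, map_multiset_prod, Multiset.map_map]
  refine (T.const (leadingCoeff_ne_zero.2 hq)).mul hz
    (Multiset.prod_induction _ _ (fun _ _ => T.mul hz) (by simpa using T.const (R := R) (z := z) one_ne_zero) ?_)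
  intro g hg
  obtain ⟨a, -, rfl⟩ := Multiset.mem_map.1 hg
  simpa using h a

lemma base (ov : Over v R) {x : F} (hx : ∀ a : ℂ, x - algebraMap ℂ F a ≠ 0)
    (h : ∀ a r : ℂ, r ≠ 0 → (x - algebraMap ℂ F a) / algebraMap ℂ F r ∈ R.O →
      ∃ b : ℂ, R.r ((x - algebraMap ℂ F a) / algebraMap ℂ F r) = algebraMap ℂ K b) :
    ∃ z : F, z ≠ 0 ∧ (∀ a : ℂ, T R z (x - algebraMap ℂ F a)) ∧ ∀ (c : ℂ) (n : ℤ),
      R.U (algebraMap ℂ F c * z ^ n) → ∃ b : ℂ, R.Sp (algebraMap ℂ F c * z ^ n) (algebraMap ℂ K b) := by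
  have h0 : ∀ c : ℂ, R.U (algebraMap ℂ F c) → ∃ b : ℂ, R.Sp (algebraMap ℂ F c) (algebraMap ℂ K b) :=
    fun c hc => ⟨_, ov.const (sp_r (ov.1 c hc.1))⟩
  by_cases h1 : ∀ a : ℂ, ∃ r : ℂ, r ≠ 0 ∧ R.U ((x - algebraMap ℂ F a) / algebraMap ℂ F r)
  · refine ⟨1, one_ne_zero, fun a => ?_, fun c n => by simpa using h0 c⟩
    obtain ⟨r, r0, hr⟩ := h1 a
    obtain ⟨b, hb⟩ := h a r r0 hr.1
    have r1 : algebraMap ℂ F r ≠ 0 := (_root_.map_ne_zero _).2 r0
    exact ⟨r, 0, _, b, r0, fun e => hr.2 (by rw [hb, e, map_zero]), ⟨hr.1, hb⟩, by field_simp⟩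
  push Not at h1
  obtain ⟨a₀, h1⟩ := h1
  refine ⟨_, hx a₀, fun a => ?_, fun c n hc => ?_⟩
  · rcases eq_or_ne a a₀ with rfl | h2
    · exact ⟨1, 1, 1, 1, one_ne_zero, one_ne_zero, by simpa using sp_one, by simp⟩
    have h3 := sub_ne_zero.2 h2
    have h4 : algebraMap ℂ F (a - a₀) ≠ 0 := (_root_.map_ne_zero _).2 h3
    have h5 := hx a₀
    by_cases h6 : (x - algebraMap ℂ F a₀) / algebraMap ℂ F (a - a₀) ∈ R.O
    · refine ⟨a - a₀, 0, _, -1, h3, by simp,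
        by simpa using (sp_zero_of_not_U h6 (h1 _ h3)).sub sp_one, ?_⟩
      rw [map_sub] at h4 ⊢
      field_simp
      ring
    · refine ⟨1, 1, _, 1, one_ne_zero, one_ne_zero,
        by simpa only [sub_zero, map_one] using sp_one.sub (sp_inv_of_not_mem h6), ?_⟩
      rw [map_sub] at h4 ⊢
      rw [map_one]
      field_simp
      ring
  · rcases eq_or_ne n 0 with rfl | hn
    · simpa using h0 c (by simpa using hc)
    have c0 : c ≠ 0 := fun e => hc.ne_zero (by simp [e])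
    have key : ∀ (d : ℂ) (m : ℕ), m ≠ 0 → d ≠ 0 →
        ¬ R.U (algebraMap ℂ F d * (x - algebraMap ℂ F a₀) ^ m) := fun d m hm hd hu => by
      obtain ⟨ρ, hρ⟩ := IsAlgClosed.exists_pow_nat_eq d⁻¹ (Nat.pos_of_ne_zero hm)
      have ρ0 : ρ ≠ 0 := fun e => hd (by simpa [e, hm] using hρ.symm)
      have e : algebraMap ℂ F d * (x - algebraMap ℂ F a₀) ^ m =
          ((x - algebraMap ℂ F a₀) / algebraMap ℂ F ρ) ^ m := by
        rw [div_pow, ← map_pow, hρ, map_inv₀, div_inv_eq_mul, mul_comm]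
      rw [e] at hu
      have h2 := mem_of_pow_mem hm hu.1
      exact hu.2 (by simpa [hm] using ((sp_zero_of_not_U h2 (h1 ρ ρ0)).pow m).2)
    obtain ⟨m, rfl | rfl⟩ := n.eq_nat_or_neg
    · exact absurd (by simpa using hc) (key c m (by simpa using hn) c0)
    · exact absurd (by simpa [mul_comm] using hc.inv) (key c⁻¹ m (by simpa using hn) (inv_ne_zero c0))

lemma ne_const {x : F} (h : Transcendental ℂ x) (a : ℂ) : x - algebraMap ℂ F a ≠ 0 := fun e =>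
  h (sub_eq_zero.1 e ▸ isAlgebraic_algebraMap a)

/-- A coordinate with transcendental residue. -/
lemma coord (ov : Over v R) (M : WM F) (hK : ∃ g : K, Transcendental ℂ g) :
    ∃ a r : ℂ, r ≠ 0 ∧ (M.x - algebraMap ℂ F a) / algebraMap ℂ F r ∈ R.O ∧
      Transcendental ℂ (R.r ((M.x - algebraMap ℂ F a) / algebraMap ℂ F r)) := by
  by_contra h
  obtain ⟨z, hz, h1, h2⟩ := base ov (ne_const M.tr) fun a r r0 hr => by
    by_contra h1
    exact h ⟨a, r, r0, hr, transc_of_ne fun c e => h1 ⟨c, e⟩⟩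
  have h3 : ∀ g ∈ ℂ⟮M.x⟯, g ∈ R.O → R.r g ∈ (⊥ : IntermediateField ℂ K) := fun g hg ho => by
    by_cases hu : R.U g
    swap
    · rw [(sp_zero_of_not_U ho hu).2]
      exact zero_mem _
    obtain ⟨p, q, rfl⟩ := (IntermediateField.mem_adjoin_simple_iff ℂ g).1 hg
    have p0 : p ≠ 0 := fun e => hu.ne_zero (by simp [e])
    have q0 : q ≠ 0 := fun e => hu.ne_zero (by simp [e])
    obtain ⟨c, n, u, b, -, b0, h4, e⟩ := (T.poly hz h1 p0).mul hz (T.poly hz h1 q0).inv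
    have b1 : algebraMap ℂ K b ≠ 0 := (_root_.map_ne_zero _).2 b0
    rw [div_eq_mul_inv, e] at hu ⊢
    obtain ⟨b', h5⟩ := h2 c n (by
      simpa only [mul_inv_cancel_right₀ (h4.ne_zero b1)] using hu.mul (h4.U b1).inv)
    rw [(h5.mul h4).2]
    exact mul_mem (IntermediateField.algebraMap_mem _ _) (IntermediateField.algebraMap_mem _ _)
  have h4 := quad M ⊥ h3 fun g hg ho => by
    have h5 := ((sp_r ho).pow 2).2
    have h6 : (g * M.y) ^ 2 ∈ ℂ⟮M.x⟯ := by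
      rw [mul_pow, GM.sq_eq]
      exact mul_mem (pow_mem hg 2)
        (IntermediateField.algebra_adjoin_le_adjoin ℂ _ (aeval_mem_adjoin_singleton ℂ M.x))
    obtain ⟨c, hc⟩ := IntermediateField.mem_bot.1 (h5 ▸ h3 _ h6 (pow_mem ho 2))
    by_contra h7
    refine transc_of_ne (z := R.r (g * M.y)) (fun d e => h7 (IntermediateField.mem_bot.2 ⟨d, e.symm⟩))
      (IsAlgebraic.of_pow two_pos (hc ▸ isAlgebraic_algebraMap c))
  obtain ⟨g, hg⟩ := hK
  obtain ⟨c, rfl⟩ := IntermediateField.mem_bot.1 (h4 ▸ IntermediateField.mem_top (x := g))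
  exact hg (isAlgebraic_algebraMap c)

/-- Change of the coordinate. -/
lemma change (M : WM F) (a r : ℂ) (r0 : r ≠ 0) : ∃ M' : WM F,
    M'.x = (M.x - algebraMap ℂ F a) / algebraMap ℂ F r ∧ ∀ i, M'.e i = (M.e i - a) / r := by
  obtain ⟨s, hs⟩ := IsAlgClosed.exists_pow_nat_eq (r ^ 3) two_pos
  have s0 : s ≠ 0 := fun e => r0 (by simpa [e] using hs.symm)
  have r1 : algebraMap ℂ F r ≠ 0 := (_root_.map_ne_zero _).2 r0
  have s1 : algebraMap ℂ F s ≠ 0 := (_root_.map_ne_zero _).2 s0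
  have e : M.x = (M.x - algebraMap ℂ F a) / algebraMap ℂ F r * algebraMap ℂ F r +
      algebraMap ℂ F a := by rw [div_mul_cancel₀ _ r1, sub_add_cancel]
  refine ⟨⟨_, M.y / algebraMap ℂ F s, fun i => (M.e i - a) / r, fun i j e => M.inj ?_, ?_,
    fun h => M.tr ?_, eq_top_iff.2 (M.top.ge.trans (IntermediateField.adjoin_le_iff.2 ?_))⟩, rfl,
    fun _ => rfl⟩
  · simpa [r0] using e
  · rw [div_pow, ← map_pow, hs, M.eq, map_pow]
    simp only [Fin.prod_univ_three, map_div₀, map_sub]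
    field_simp
    ring
  · rw [e]
    exact (h.mul (isAlgebraic_algebraMap r)).add (isAlgebraic_algebraMap a)
  · rintro _ (rfl | rfl)
    · rw [SetLike.mem_coe]
      refine e ▸ add_mem (mul_mem (subset_adjoin _ _ (Or.inl ?_))
        (IntermediateField.algebraMap_mem _ r)) (IntermediateField.algebraMap_mem _ a)
      rw [← e]
    · rw [SetLike.mem_coe]
      refine div_mul_cancel₀ M.y s1 ▸ mul_mem (subset_adjoin _ _ (Or.inr ?_))
        (IntermediateField.algebraMap_mem _ s)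
      rw [div_mul_cancel₀ M.y s1]
      rfl

/-- The Gauss valuation. -/
lemma gauss (ov : Over v R) {t : F} (ht : t ∈ R.O) (tr : Transcendental ℂ (R.r t)) {g : F}
    (hg : g ∈ ℂ⟮t⟯) (ho : g ∈ R.O) : R.r g ∈ ℂ⟮R.r t⟯ := by
  obtain ⟨p, q, rfl⟩ := (IntermediateField.mem_adjoin_simple_iff ℂ g).1 hg
  by_cases h0 : p = 0 ∨ q = 0
  · have : aeval t p / aeval t q = 0 := by rcases h0 with rfl | rfl <;> simp
    rw [this, r_zero]
    exact zero_mem _
  push Not at h0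
  obtain ⟨η, pb, η0, p0, hp⟩ := RQ.scale v h0.1
  obtain ⟨ζ, qb, ζ0, q0, hq⟩ := RQ.scale v h0.2
  have p1 : aeval (R.r t) pb ≠ 0 := fun e => tr ⟨pb, p0, e⟩
  have q1 : aeval (R.r t) qb ≠ 0 := fun e => tr ⟨qb, q0, e⟩
  have h1 := (hp.aeval ov (sp_r ht)).div (hq.aeval ov (sp_r ht)) q1
  have η1 : algebraMap ℂ F η ≠ 0 := (_root_.map_ne_zero _).2 η0
  have ζ1 : algebraMap ℂ F ζ ≠ 0 := (_root_.map_ne_zero _).2 ζ0
  have e : aeval t p / aeval t q = algebraMap ℂ F (ζ / η) * (aeval t (η • p) / aeval t (ζ • q)) := by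
    rw [map_smul, map_smul, Algebra.smul_def, Algebra.smul_def, map_div₀]
    field_simp
  have h2 : ζ / η ∈ v.O := ov.1 _ (by
    have := mul_mem ho (h1.U (div_ne_zero p1 q1)).inv.1
    rwa [e, mul_inv_cancel_right₀ (h1.ne_zero (div_ne_zero p1 q1))] at this)
  rw [e, ((ov.const (sp_r h2)).mul h1).2]
  exact mul_mem (IntermediateField.algebraMap_mem _ _)
    ((IntermediateField.mem_adjoin_simple_iff ℂ _).2 ⟨pb, qb, rfl⟩)

lemma good (ov : Over v R) (M : WM F) (nr : NR K) (ht : M.x ∈ R.O)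
    (tr : Transcendental ℂ (R.r M.x)) : Good v R M := by
  have h1 : ∀ i, ∃ (c : ℂ) (f : K), c ≠ 0 ∧ f ≠ 0 ∧
      R.Sp ((M.x - algebraMap ℂ F (M.e i)) / algebraMap ℂ F c) f ∧
      ((M.e i ∈ v.O ∧ f = R.r M.x - algebraMap ℂ K (v.r (M.e i))) ∨ f = 1) := fun i => by
    by_cases h : M.e i ∈ v.O
    · exact ⟨1, _, one_ne_zero, ne_const tr _, by simpa using (sp_r ht).sub (ov.const (sp_r h)),
        Or.inl ⟨h, rfl⟩⟩
    · have h0 : M.e i ≠ 0 := fun e => h (e ▸ zero_mem _)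
      have h2 : algebraMap ℂ F (M.e i) ≠ 0 := (_root_.map_ne_zero _).2 h0
      refine ⟨-M.e i, 1, neg_ne_zero.2 h0, one_ne_zero,
        (sp_one.sub ((sp_r ht).mul (ov.const (sp_inv_of_not_mem h)))).congr ?_ (by simp), Or.inr rfl⟩
      rw [map_neg, map_inv₀]
      field_simp
      ring
  choose c f c0 f0 h1 h2 using h1
  obtain ⟨s, hs⟩ := IsAlgClosed.exists_pow_nat_eq (∏ i, c i) two_pos
  have s0 : s ≠ 0 := fun e => Finset.prod_ne_zero_iff.2 (fun i _ => c0 i) (by simpa [e] using hs.symm)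
  have s1 : algebraMap ℂ F s ≠ 0 := (_root_.map_ne_zero _).2 s0
  have h3 := Sp.prod (s := Finset.univ) fun i _ => h1 i
  rw [Finset.prod_div_distrib, ← M.eq, ← map_prod, ← hs, map_pow, ← div_pow] at h3
  have h4 := mem_of_pow_mem two_ne_zero h3.1
  have h5 := ((sp_r h4).pow 2).unique h3
  have h6 : R.U (M.y / algebraMap ℂ F s) := ⟨h4, fun e =>
    Finset.prod_ne_zero_iff.2 (fun i _ => f0 i) (by rw [← h5, e, zero_pow two_ne_zero])⟩
  obtain ⟨h7, h8⟩ := rat3 (ne_const tr) h2 h5 fun ⟨θ, t1, t2⟩ => by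
    have h7 : ∀ g ∈ ℂ⟮M.x⟯, g ∈ R.O → R.r g ∈ ℂ⟮θ⟯ := fun g hg ho =>
      adjoin_simple_le_iff.2 t1 (gauss ov ht tr hg ho)
    refine nr θ (quad M _ h7 fun g hg ho => ?_)
    have e : g * M.y = g * algebraMap ℂ F s * (M.y / algebraMap ℂ F s) := by field_simp
    have h8 : g * algebraMap ℂ F s ∈ R.O := by
      have := mul_mem ho h6.inv.1
      rwa [e, mul_inv_cancel_right₀ h6.ne_zero] at this
    rw [e, ((sp_r h8).mul h6.sp).2]
    exact mul_mem (h7 _ (mul_mem hg (IntermediateField.algebraMap_mem _ s)) h8) t2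
  exact ⟨ht, tr, h7, h8⟩

end GR

open GR in
theorem stGR : St_GR := by
  intro F K _ _ _ _ v R M ov nr hK
  obtain ⟨a, r, r0, h1, h2⟩ := coord ov M hK
  obtain ⟨M', e1, e2⟩ := change M a r r0
  have r1 : algebraMap ℂ F r ≠ 0 := (_root_.map_ne_zero _).2 r0
  refine ⟨M', a, r, r0, ?_, fun i => ?_, good ov M' nr (e1 ▸ h1) (e1 ▸ h2)⟩
  · rw [e1, Algebra.smul_def, mul_div_cancel₀ _ r1, add_sub_cancel]
  · rw [e2, mul_div_cancel₀ _ r0, add_sub_cancel]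

end G1
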