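import Pool.Agent.Lib.G1.Basic

open Finsupp MvPolynomial IntermediateField Module
open Pool.Agent.Lib.MP_cc3443_ag Pool.Agent.Lib.MP_3c72fe_ag

noncomputable section

namespace G1

section
variable {F K E : Type} [Field F] [Algebra ℂ F] [IsFF F] [Field K] [Algebra ℂ K] [IsFF K]
  [Field E] [Algebra ℂ E] [IsFF E] [Algebra E K]

lemma exists_tail (hT : TAIL F K E) (hP : POS F K E) (S : Setup F K E)
    (hH : ∀ z, (S.dz z ≠ 0 ∨ ∃ i, S.mz i z ≠ 0) → S.D.c.H (S.C.res z) = 0) (z : Place K) :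
    ∃ r : P2, S.D.Tail (S.dz z) (fun i => S.mz i z) r ∧ ∀ (Γ : P2) (η : ℂ) (u : K) (j : Fin 10),
    RP S.m.v Γ S.D.c.f → Γ.totalDegree ≤ 3 → S.m.R.Sp (η • aeval S.c.ξ Γ) u →
    (∀ i, i ≠ j → eval (S.p i) Γ = 0) → S.D.c.D (S.D.y j) (S.C.res z) = 0 →
    u ∈ Ge z (-S.D.B (S.dz z) (fun i => S.mz i z) r (S.C.res z) - S.D.cl 3 1 (S.C.res z)) := by
  by_cases h : S.dz z ≠ 0 ∨ ∃ i, S.mz i z ≠ 0
  · obtain ⟨r, h1, h2⟩ := hT S z (hH z h)
    exact ⟨r, h1, fun Γ η u j h3 h4 h5 h6 h7 => h2 Γ η u h3 h4 h5 fun i hi =>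
      h6 i (by rintro rfl; omega)⟩
  · push Not at h
    refine ⟨1, ⟨S.D.c.prime.not_dvd_one, by simp [h.1], fun i => by simp [h.2]⟩,
      fun Γ η u j _ h4 h5 h6 h7 => ?_⟩
    refine Ge_mono (le_of_eq ?_) (((hP S).2.2 z).2.2 Γ 3 (fun i => if i = j then 0 else 1) η u h4
      (fun i => ?_) h5)
    · have h8 : ∀ i, ((if i = j then 0 else 1 : ℕ) : ℤ) * S.D.c.D (S.D.y i) (S.C.res z) =
          S.D.c.D (S.D.y i) (S.C.res z) := fun i => by
        split_ifs with hi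
        · simp [hi, h7]
        · simp
      simp only [Cub.B, Cub.cl_apply, Finsupp.add_apply, h.1, h.2, h8]
      simp
    · split_ifs with hi
      · simp
      · simpa using mem_mi.2 (h6 i hi)

end

theorem stM10 (hWEI : St_WEI) (hADJ : St_ADJ) (hG3 : St_G3) (hSET : St_SET) (hT : St_TAIL)
    (hP : St_POS) (hPR : St_PROJ) (hC : St_CUB) (hE : St_END) : St_M10 := by
  classical
  intro F _ _ _ c p M hp
  by_contra hlt
  have h1 := (hADJ _ p hp.inj).2 F c (nr_of_chi (hWEI F M).1.le)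
  have h2 : ∑ i, (c.m p i : ℤ) * (c.m p i - 1) = ∑ i, (c.m p i : ℤ) ^ 2 - ∑ i, (c.m p i : ℤ) := by
    rw [← Finset.sum_sub_distrib]
    exact Finset.sum_congr rfl fun i _ => by ring
  push Not at hlt
  zify at hlt
  have hk : 3 * (c.d : ℤ) < ∑ i, (c.m p i : ℤ) := by nlinarith
  obtain ⟨K, E, _, _, _, _, _, _, _, _, S₀, rfl, rfl⟩ := hSET F c p M hp (by exact_mod_cast hk)
  obtain ⟨S, hC', hd, hm, hdz, hmz, hH⟩ := hPR F K E S₀
    ((S₀.dz.support ∪ Finset.univ.biUnion fun i => (S₀.mz i).support).image S₀.C.res)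
  rw [← hd, ← hm] at hlt hk
  choose r hr hr' using exists_tail (hT F K E) (hP F K E) S fun z hz => hH _ (by
    rw [hC']
    refine Finset.mem_image_of_mem _ ?_
    simpa [← hdz, ← hmz] using hz)
  obtain ⟨G, G', η, u, β, hG, hG', hd3, hd3', hz, hz', hu, hu', hβ⟩ := hC F K E S
  obtain ⟨e1, e2, e3⟩ := hP F K E S
  let L : Lim S.C S.D :=
    { dz := S.dz, mz := S.mz, B := fun z => S.D.B (S.dz z) (fun i => S.mz i z) (r z), u := u, β := β
      d_nonneg := fun z => (e3 z).1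
      B_nonneg := fun z => S.D.B_nonneg (hr z)
      lin := fun z => ⟨_, S.D.ev_ne (hr z).1, rfl⟩
      inter := fun z z' => hG3 E S.D _ _ _ _ _ _ _ (hr z) (hr z') (e3 z').2.1
      pole := fun z => by
        split_ifs with h
        · exact hr' z G' η _ 0 hG' hd3' hu' hz' (S.D.D_eq_zero h (by decide))
        · exact hr' z G η _ 9 hG hd3 hu hz (le_antisymm (not_lt.1 h) (S.D.c.D_nonneg _ _))
      torsor := hβ
      lt := by
        simp only [e1, e2, Finset.sum_sub_distrib, Finset.sum_const, Finset.card_univ,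
          Fintype.card_fin, nsmul_eq_mul]
        push_cast
        omega }
  have h3 := hE K E S.C S.D L
  simp only [L, e1, e2, add_sub_cancel] at h3
  omega

end G1
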