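import Pool.Agent.Lib.G1.Blue

/-! Residue fields over a valuation of the constants; embeddings of function fields of curves. -/

open Finsupp MvPolynomial IntermediateField Module
open Pool.Agent.Lib.MP_cc3443_ag Pool.Agent.Lib.MP_3c72fe_ag

noncomputable section

namespace G1

theorem stMK : St_MK := by
  intro F _ _ v O h
  let ι : v.O →+* O :=
    { toFun := fun c => ⟨algebraMap ℂ F c, (h c).2 c.2⟩
      map_one' := Subtype.ext (by simp)
      map_zero' := Subtype.ext (by simp)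
      map_mul' := fun a b => Subtype.ext (by simp)
      map_add' := fun a b => Subtype.ext (by simp) }
  have hu : ∀ a : O, IsLocalRing.residue O a ≠ 0 → (a : F) ≠ 0 ∧ (a : F)⁻¹ ∈ O := fun a ha => by
    obtain ⟨b, hb⟩ := ((IsLocalRing.residue_ne_zero_iff_isUnit a).1 ha).exists_right_inv
    have h1 : (a : F) * (b : F) = 1 := congrArg Subtype.val hb
    refine ⟨left_ne_zero_of_mul_eq_one h1, ?_⟩
    rw [← eq_inv_of_mul_eq_one_right h1]
    exact b.2
  let ψ : v.O →+* IsLocalRing.ResidueField O := (IsLocalRing.residue O).comp ι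
  have hk : RingHom.ker v.ρ ≤ RingHom.ker ψ := fun c hc => by
    rw [RingHom.mem_ker] at hc ⊢
    by_contra h1
    obtain ⟨h2, h3⟩ := hu (ι c) h1
    change algebraMap ℂ F c ≠ 0 at h2
    change (algebraMap ℂ F c)⁻¹ ∈ O at h3
    rw [← map_inv₀, h] at h3
    have h4 : (c : ℂ) ≠ 0 := fun h5 => h2 (by rw [h5, map_zero])
    have h5 : c * ⟨_, h3⟩ = 1 := Subtype.ext (mul_inv_cancel₀ h4)
    have h6 := congrArg v.ρ h5
    rw [map_mul, hc, zero_mul, map_one] at h6
    exact zero_ne_one h6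
  let φ : ℂ →+* IsLocalRing.ResidueField O := v.ρ.liftOfSurjective v.surj ⟨ψ, hk⟩
  have hφ : ∀ c : v.O, φ (v.ρ c) = ψ c := fun c =>
    RingHom.liftOfSurjective_comp_apply v.ρ v.surj ⟨ψ, hk⟩ c
  refine ⟨IsLocalRing.ResidueField O, inferInstance, φ.toAlgebra,
    ⟨O, IsLocalRing.residue O, IsLocalRing.residue_surjective, fun a ha => (hu a ha).2⟩, rfl,
    fun c hc => (h c).1 hc, fun c b hb => ⟨(h c).2 hb.1, ?_⟩⟩
  obtain ⟨hc, rfl⟩ := hb
  rw [Rd.r, dif_pos ((h c).2 hc), Rd.r, dif_pos hc]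
  exact (hφ ⟨c, hc⟩).symm

theorem stEMB : St_EMB := by
  intro E L _ _ _ _ c ξ k h0 ht
  have hker : ∀ g : P2, aeval ξ g = 0 ↔ c.f ∣ g := fun g => by
    refine ⟨fun hg => ?_, ?_⟩
    · by_contra h2
      obtain ⟨r, hr, q, s, hs⟩ := exists_res c.prime h2 k
      have := congrArg (aeval ξ) hs
      rw [map_sub, map_mul, map_mul, hg, h0, ← Polynomial.aeval_algHom_apply] at this
      exact ht ⟨r, hr, by simpa using this⟩
    · rintro ⟨s, rfl⟩
      rw [map_mul, h0, zero_mul]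
  let I : Ideal P2 := Ideal.span {c.f}
  have hI : ∀ g : P2, g ∈ I ↔ c.f ∣ g := fun g => Ideal.mem_span_singleton
  let a : (P2 ⧸ I) →ₐ[ℂ] E :=
    Ideal.Quotient.liftₐ I (aeval c.ξ) fun g hg => (c.ker g).2 ((hI g).1 hg)
  let b : (P2 ⧸ I) →ₐ[ℂ] L :=
    Ideal.Quotient.liftₐ I (aeval ξ) fun g hg => (hker g).2 ((hI g).1 hg)
  have ha : ∀ g : P2, a (Ideal.Quotient.mk I g) = aeval c.ξ g := fun g => rfl
  have hb : ∀ g : P2, b (Ideal.Quotient.mk I g) = aeval ξ g := fun g => rfl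
  have ia : Function.Injective a := (injective_iff_map_eq_zero a).2 fun z hz => by
    obtain ⟨g, rfl⟩ := Ideal.Quotient.mk_surjective z
    exact Ideal.Quotient.eq_zero_iff_mem.2 ((hI g).2 ((c.ker g).1 hz))
  have ib : Function.Injective b := (injective_iff_map_eq_zero b).2 fun z hz => by
    obtain ⟨g, rfl⟩ := Ideal.Quotient.mk_surjective z
    exact Ideal.Quotient.eq_zero_iff_mem.2 ((hI g).2 ((hker g).1 hz))
  have : I.IsPrime := (Ideal.span_singleton_prime c.prime.ne_zero).2 c.prime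
  let _ : Algebra (P2 ⧸ I) E := a.toRingHom.toAlgebra
  have : IsScalarTower ℂ (P2 ⧸ I) E := IsScalarTower.of_algebraMap_eq fun x => (a.commutes x).symm
  have : FaithfulSMul (P2 ⧸ I) E := (faithfulSMul_iff_algebraMap_injective _ _).2 ia
  have : IsFractionRing (P2 ⧸ I) E := IsFractionRing.of_field _ _ fun z => by
    obtain ⟨r, s, hz⟩ := (mem_adjoin_range_iff ℂ c.ξ z).1 (c.top ▸ mem_top)
    exact ⟨Ideal.Quotient.mk I r, Ideal.Quotient.mk I s, hz⟩
  refine ⟨IsFractionRing.liftAlgHom ib, fun j => ?_⟩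
  have h1 : c.ξ j = algebraMap (P2 ⧸ I) E (Ideal.Quotient.mk I (X j)) :=
    ((ha (X j)).trans (aeval_X _ _)).symm
  rw [h1, IsFractionRing.liftAlgHom_apply, IsFractionRing.lift_algebraMap]
  exact (hb (X j)).trans (aeval_X _ _)

end G1
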