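import Pool.Agent.Lib.G1.Blue

/-! Only finitely many points of the cubic are reductions of points of one residue disc. -/

open Finsupp MvPolynomial IntermediateField Module Filter
open Pool.Agent.Lib.MP_cc3443_ag Pool.Agent.Lib.MP_3c72fe_ag

noncomputable section

namespace G1

namespace NOT

section
variable {F K : Type} [Field F] [Field K] {R : Rd F K} {a a' : F} {b b' : K}

lemma r_mem (h : a ∈ R.O) : R.r a = R.ρ ⟨a, h⟩ := dif_pos h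

lemma sp_self (h : a ∈ R.O) : R.Sp a (R.r a) := ⟨h, rfl⟩

lemma sp_add (h : R.Sp a b) (h' : R.Sp a' b') : R.Sp (a + a') (b + b') :=
  ⟨add_mem h.1 h'.1, by
    rw [← h.2, ← h'.2, r_mem h.1, r_mem h'.1, r_mem (add_mem h.1 h'.1), ← map_add]; rfl⟩

lemma sp_mul (h : R.Sp a b) (h' : R.Sp a' b') : R.Sp (a * a') (b * b') :=
  ⟨mul_mem h.1 h'.1, by
    rw [← h.2, ← h'.2, r_mem h.1, r_mem h'.1, r_mem (mul_mem h.1 h'.1), ← map_mul]; rfl⟩

lemma sp_neg (h : R.Sp a b) : R.Sp (-a) (-b) :=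
  ⟨neg_mem h.1, by rw [← h.2, r_mem h.1, r_mem (neg_mem h.1), ← map_neg]; rfl⟩

lemma sp_one : R.Sp 1 1 := ⟨one_mem _, by rw [r_mem (one_mem _)]; exact R.ρ.map_one⟩

lemma sp_zero : R.Sp 0 0 := ⟨zero_mem _, by rw [r_mem (zero_mem _)]; exact R.ρ.map_zero⟩

lemma sp_lift (R : Rd F K) (b : K) : ∃ a, R.Sp a b := by
  obtain ⟨a, rfl⟩ := R.surj b
  exact ⟨a, a.2, r_mem a.2⟩

lemma ne_of_inv (h : a ∈ R.O) (h' : a⁻¹ ∈ R.O) (h0 : a ≠ 0) : R.r a * R.r a⁻¹ = 1 := by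
  have h1 := (sp_mul (sp_self h) (sp_self h')).2
  rw [mul_inv_cancel₀ h0, sp_one.2] at h1
  exact h1.symm

lemma ne_zero_of (hb : R.r a ≠ 0) : a ≠ 0 := fun e => hb (e ▸ sp_zero.2)

lemma inv_mem_of (h : a ∈ R.O) (hb : R.r a ≠ 0) : a⁻¹ ∈ R.O :=
  R.unit ⟨a, h⟩ (r_mem h ▸ hb)

lemma sp_inv (h : R.Sp a b) (hb : b ≠ 0) : R.Sp a⁻¹ b⁻¹ := by
  have hb' : R.r a ≠ 0 := h.2 ▸ hb
  refine ⟨inv_mem_of h.1 hb', eq_inv_of_mul_eq_one_right ?_⟩
  rw [← h.2]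
  exact ne_of_inv h.1 (inv_mem_of h.1 hb') (ne_zero_of hb')

/-- Membership in the composite valuation ring. -/
def Cm {L : Type} [Field L] (R : Rd F K) (v : Rd K L) (a : F) : Prop := a ∈ R.O ∧ R.r a ∈ v.O

variable {L : Type} [Field L] {v : Rd K L}

lemma cm_or (R : Rd F K) (v : Rd K L) (a : F) : Cm R v a ∨ Cm R v a⁻¹ := by
  by_cases h : a ∈ R.O
  · by_cases h1 : R.r a ∈ v.O
    · exact Or.inl ⟨h, h1⟩
    · have h0 : R.r a ≠ 0 := fun e => h1 (e ▸ zero_mem _)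
      have h2 := sp_inv (sp_self h) h0
      exact Or.inr ⟨h2.1, h2.2 ▸ (v.O.mem_or_inv_mem _).resolve_left h1⟩
  · have h1 := (R.O.mem_or_inv_mem a).resolve_left h
    refine Or.inr ⟨h1, ?_⟩
    by_cases h0 : R.r a⁻¹ = 0
    · exact h0 ▸ zero_mem _
    · exact absurd (by simpa using inv_mem_of h1 h0) h

/-- The ultralimit of a family of composite valuation rings. -/
def lim {ι : Type} (U : Ultrafilter ι) (R : ι → Rd F K) (v : Rd K L) : ValuationSubring F where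
  carrier := {a | ∀ᶠ i in U, Cm (R i) v a}
  mul_mem' := fun h h' => (h.and h').mono fun _ e =>
    ⟨mul_mem e.1.1 e.2.1, (sp_mul (sp_self e.1.1) (sp_self e.2.1)).2 ▸ mul_mem e.1.2 e.2.2⟩
  add_mem' := fun h h' => (h.and h').mono fun _ e =>
    ⟨add_mem e.1.1 e.2.1, (sp_add (sp_self e.1.1) (sp_self e.2.1)).2 ▸ add_mem e.1.2 e.2.2⟩
  neg_mem' := fun h => h.mono fun _ e => ⟨neg_mem e.1, (sp_neg (sp_self e.1)).2 ▸ neg_mem e.2⟩
  one_mem' := Eventually.of_forall fun i => ⟨one_mem _, (sp_one (R := R i)).2.symm ▸ one_mem _⟩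
  zero_mem' := Eventually.of_forall fun i => ⟨zero_mem _, (sp_zero (R := R i)).2.symm ▸ zero_mem _⟩
  mem_or_inv_mem' := fun a =>
    Ultrafilter.eventually_or.1 (Eventually.of_forall fun i => cm_or (R i) v a)

lemma mem_lim {ι : Type} {U : Ultrafilter ι} {R : ι → Rd F K} :
    a ∈ lim U R v ↔ ∀ᶠ i in U, Cm (R i) v a := Iff.rfl

lemma lim_zero {ι M : Type} [Field M] {U : Ultrafilter ι} {R : ι → Rd F K} {R₁ : Rd F M}
    (h₁ : R₁.O = lim U R v) (h : ∀ᶠ i in U, a ∈ (R i).O ∧ v.Sp ((R i).r a) 0) : R₁.r a = 0 := by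
  by_contra h0
  have h2 : a ∈ R₁.O := h₁ ▸ mem_lim.2 (h.mono fun _ e => ⟨e.1, e.2.1⟩)
  have h3 := mem_lim.1 (h₁ ▸ inv_mem_of h2 h0)
  obtain ⟨i, e, e'⟩ := (h.and h3).exists
  have h4 := (sp_mul e.2 (sp_self e'.2)).2
  rw [ne_of_inv e.1 e'.1 (ne_zero_of h0), sp_one.2, zero_mul] at h4
  exact one_ne_zero h4

lemma lim_ne {ι M : Type} [Field M] {U : Ultrafilter ι} {R : ι → Rd F K} {R₁ : Rd F M}
    (h₁ : R₁.O = lim U R v) (h : ∀ᶠ i in U, a ∈ (R i).O ∧ ∃ c, c ≠ 0 ∧ v.Sp ((R i).r a) c) :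
    R₁.r a ≠ 0 := by
  have h2 : a ∈ R₁.O := h₁ ▸ mem_lim.2 (h.mono fun _ ⟨e, _, _, e'⟩ => ⟨e, e'.1⟩)
  have h3 : a⁻¹ ∈ R₁.O := h₁ ▸ mem_lim.2 (h.mono fun _ ⟨e, _, hc, e'⟩ => by
    have h4 := sp_inv (sp_self e) (ne_zero_of (e'.2 ▸ hc))
    exact ⟨h4.1, h4.2 ▸ (sp_inv e' hc).1⟩)
  obtain ⟨i, -, c, hc, e'⟩ := h.exists
  exact left_ne_zero_of_mul_eq_one (ne_of_inv h2 h3 (ne_zero_of (ne_zero_of (e'.2 ▸ hc))))

end

section
variable {K : Type} [Field K] [Algebra ℂ K] [IsFF K]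

lemma ev_eq {P : Place K} {g : K} {c : ℂ} (hg : g ∈ P.O) (h : g - algebraMap ℂ K c ∈ Ge P 1) :
    ev P g = c := by
  rw [ev, r_mem (R := rd P) hg]
  exact P.res_unique (mem_Ge_one.1 ((exists_ev P).choose_spec ⟨g, hg⟩)) (mem_Ge_one.1 h)

lemma sp_const (P : Place K) (c : ℂ) : (rd P).Sp (algebraMap ℂ K c) c :=
  ⟨P.const c, ev_eq (P.const c) (by simp)⟩

omit [IsFF K] in
lemma transc {g : K} (h : ∀ b : ℂ, g ≠ algebraMap ℂ K b) : Transcendental ℂ g := fun ha => by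
  obtain ⟨b, hb⟩ := minpoly.mem_range_of_degree_eq_one ℂ g
    (IsAlgClosed.degree_eq_one_of_irreducible ℂ (minpoly.irreducible ha.isIntegral))
  exact h b hb.symm

end

end NOT

open G1.NOT

theorem stNOT (hMK : St_MK) (hEMB : St_EMB) (hNRE : St_NRE) (hD : St_DISC) : St_NOT := by
  intro F K E _ _ _ _ _ _ _ _ _ m ξ cD hE z k
  by_contra hS
  set S := {a : ℂ | ∃ (P : Place F) (q : Fin 2 → ℂ), m.sp P = z ∧
    (∀ j, ξ j ∈ P.O ∧ m.v.Sp (ev P (ξ j)) (q j)) ∧ eval q cD.f = 0 ∧ q k = a}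
  have : Infinite S := Set.infinite_coe_iff.2 hS
  choose P q h1 h2 h3 h4 using fun a : S => a.2
  obtain ⟨L, _, _, R, hR, ov⟩ := hMK F m.v (lim (hyperfilter S) (fun a => rd (P a)) m.v) fun c => by
    rw [mem_lim]
    exact ⟨fun h => by
      obtain ⟨a, e⟩ := h.exists
      exact (sp_const (P a) c).2 ▸ e.2,
      fun h => Eventually.of_forall fun a => ⟨(P a).const c, (sp_const (P a) c).2.symm ▸ h⟩⟩
  have hξ : ∀ j, ξ j ∈ R.O := fun j =>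
    hR ▸ mem_lim.2 (Eventually.of_forall fun a => ⟨(h2 a j).1, (h2 a j).2.1⟩)
  have key : ∀ f : P2, ∃ g : F, R.Sp g (aeval (fun j => R.r (ξ j)) f) ∧
      ∀ a, g ∈ (rd (P a)).O ∧ m.v.Sp ((rd (P a)).r g) (eval (q a) f) := fun f => by
    induction f using MvPolynomial.induction_on with
    | C b =>
      obtain ⟨c, hc⟩ := sp_lift m.v b
      refine ⟨algebraMap ℂ F c, by simpa using ov.2 c b hc, fun a => ⟨(P a).const c, ?_⟩⟩
      rw [(sp_const (P a) c).2, eval_C]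
      exact hc
    | add f f' hf hf' =>
      obtain ⟨g, e1, e2⟩ := hf
      obtain ⟨g', e3, e4⟩ := hf'
      refine ⟨g + g', by simpa using sp_add e1 e3, fun a => ⟨add_mem (e2 a).1 (e4 a).1, ?_⟩⟩
      rw [(sp_add (sp_self (e2 a).1) (sp_self (e4 a).1)).2, map_add]
      exact sp_add (e2 a).2 (e4 a).2
    | mul_X f j hf =>
      obtain ⟨g, e1, e2⟩ := hf
      refine ⟨g * ξ j, by simpa using sp_mul e1 (sp_self (hξ j)),
        fun a => ⟨mul_mem (e2 a).1 (h2 a j).1, ?_⟩⟩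
      rw [(sp_mul (sp_self (e2 a).1) (sp_self (R := rd (P a)) (h2 a j).1)).2, map_mul, eval_X]
      exact sp_mul (e2 a).2 (h2 a j).2
  have hf : aeval (fun j => R.r (ξ j)) cD.f = 0 := by
    obtain ⟨g, e1, e2⟩ := key cD.f
    rw [← e1.2]
    exact lim_zero hR (Eventually.of_forall fun a => ⟨(e2 a).1, h3 a ▸ (e2 a).2⟩)
  have ht : Transcendental ℂ (R.r (ξ k)) := transc fun b hb => by
    obtain ⟨g, e1, e2⟩ := key (X k - C b)
    have hfin : ∀ᶠ a : S in hyperfilter S, (a : ℂ) ≠ b :=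
      hyperfilter_le_cofinite (Set.Subsingleton.finite fun a ha a' ha' =>
        Subtype.ext ((not_not.1 ha).trans (not_not.1 ha').symm))
    refine lim_ne hR (hfin.mono fun a ha => ⟨(e2 a).1, _, ?_, (e2 a).2⟩) ?_
    · rw [map_sub, eval_X, eval_C, h4 a]
      exact sub_ne_zero.2 ha
    · rw [e1.2, map_sub, aeval_X, aeval_C, hb, sub_self]
  obtain ⟨φ, -⟩ := hEMB E L cD _ k hf ht
  have hO := m.uniq L R ov (hNRE L E hE φ) ⟨_, ht⟩
  obtain ⟨hval, s, s1, s2, s3, -⟩ := hD F K m z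
  obtain ⟨v1, v2⟩ := hval s s1.1 s3
  have hz : ev z (m.R.r s) = 0 := ev_eq v1 (by simpa using mem_Ge_of_le s2.ge)
  have h0 : R.r s = 0 :=
    lim_zero hR (Eventually.of_forall fun a => ⟨s3 _ (h1 a), hz ▸ v2 _ (h1 a)⟩)
  have h5 := ne_of_inv (hO ▸ s1.1 : s ∈ R.O) (hO ▸ inv_mem_of s1.1 s1.2) (ne_zero_of s1.2)
  rw [h0, zero_mul] at h5
  exact zero_ne_one h5

end G1
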