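import Pool.Agent.Lib.G1.Blue

/-! Block PIC: independence of ten general points of a cubic in the class group. -/

open Finsupp MvPolynomial IntermediateField Module
open Pool.Agent.Lib.MP_cc3443_ag Pool.Agent.Lib.MP_3c72fe_ag

noncomputable section

namespace G1

namespace PIC

variable {K : Type} [Field K] [Algebra ℂ K] [IsFF K] {P : Place K} {Δ : ZD K} {δ : ZD ℂ}
  {D : Derivation ℂ K K} (hΔ : ∀ c, Δ (algebraMap ℂ K c) = algebraMap ℂ K (δ c)) (hD : D ≠ 0)
  (h0 : P.ord (D P.unif) = 0)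
include hΔ hD

lemma sub_mem' {n : ℤ} {z : K} (hz : z ∈ Ge P n) :
    Δ z - Δ P.unif / D P.unif * D z ∈ Ge P n := by
  have h1 := deriv_ne_zero hD P.transc_unif
  let Δ' : ZD K := Δ - (Δ P.unif / D P.unif) • rz D
  have h2 : ∀ a, Δ' (algebraMap ℂ K a) = algebraMap ℂ K (δ a) := fun a => by simp [Δ', hΔ]
  have h3 : Δ' P.unif = 0 := by simp [Δ', h1]
  simpa [Δ'] using zd_mem h2 h3 hz

include h0

lemma kap_mem {m : ℤ} {s : K} (hs : P.ord s ≠ 0) (hm : m ≤ P.ord s) (h : Δ s ∈ Ge P m) :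
    Δ P.unif / D P.unif ∈ Ge P (m - P.ord s + 1) := by
  have h1 := sub_mem h (Ge_mono hm (sub_mem' hΔ hD (mem_Ge_of_le (z := s) le_rfl)))
  have h2 : D s ≠ 0 := deriv_ne_zero hD (transc_of_not_const fun c hc => hs (by
    rw [hc]
    by_cases e : c = 0
    · simp [e]
    · exact ord_const e))
  have h3 := Ge_div h1 (D s)
  rw [sub_sub_cancel, mul_div_cancel_right₀ _ h2, ord_deriv hD P hs, h0] at h3
  exact Ge_mono (by omega) h3

lemma of_kap {k n : ℤ} {z : K} (hk : Δ P.unif / D P.unif ∈ Ge P k) (h1 : k ≤ 1) (hz : z ∈ Ge P n) :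
    Δ z ∈ Ge P (n + k - 1) := by
  simpa using add_mem (Ge_mono (n := n + k - 1) (by omega) (sub_mem' hΔ hD hz))
    (Ge_mul' hk (der_mem hD hz) (by omega))

lemma of_kap_zero {z : K} (hk : Δ P.unif / D P.unif ∈ Ge P 0) (hz : z ∈ Ge P 0) :
    Δ z ∈ Ge P 0 := by
  simpa using add_mem (sub_mem' hΔ hD hz) (Ge_mul' hk (der_mem_zero hD hz) (by omega))

end PIC

open PIC in
theorem stPIC (hW : St_WEI) : St_PIC := by
  intro E _ _ _ M c y he hc hy hai g a b g0 hg
  obtain ⟨hchi, ⟨D, hD, hx, h0⟩, -, ⟨O, o1, -, o2⟩, hP, hord⟩ := hW E M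
  have hK : NR E := nr_of_chi hchi.le
  have c0 : c.ξ 0 = M.x := by rw [hc]; rfl
  have c1 : c.ξ 1 = M.y := by rw [hc]; rfl
  have inj : Function.Injective y := fun i j e => hai.injective (congrFun e 0)
  have y0 : ∀ i, y i 1 ≠ 0 := fun i e => hai.transcendental i ⟨Polynomial.X ^ 3 - Polynomial.X,
    fun h => by have := congrArg (Polynomial.eval 2) h; norm_num at this, by
      have := hy i
      rw [e] at this
      simpa using this.symm⟩
  have hH : ∀ P, P ≠ O → c.H P = 0 := fun P h => by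
    have h1 := (P.mem_iff_ord (c0 ▸ c.ne_zero 0)).1 (o2 P h).1
    have h2 := (P.mem_iff_ord (c1 ▸ c.ne_zero 1)).1 (o2 P h).2
    rw [c.H_apply, c0, c1]; omega
  have cen : ∀ P q, 0 < c.D q P → M.x - algebraMap ℂ E (q 0) ∈ Ge P 1 ∧
      M.y - algebraMap ℂ E (q 1) ∈ Ge P 1 := fun P q h => by
    have h1 := c.H_eq_zero h
    exact ⟨c0 ▸ Ge_mono (by omega) (c.sub_mem_Ge q P 0), c1 ▸ Ge_mono (by omega) (c.sub_mem_Ge q P 1)⟩
  have hb : b = 0 := by
    ext j
    by_contra hj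
    obtain ⟨δ, hδ⟩ := exists_der_of_ai hai (Pi.single j 1)
    obtain ⟨Δ₀, hΔ₀⟩ := exists_ext_field (K := E) δ
    have dx := deriv_ne_zero hD M.tr
    let Δ : ZD E := Δ₀ - (Δ₀ M.x / D M.x) • rz D
    have hΔ : ∀ a, Δ (algebraMap ℂ E a) = algebraMap ℂ E (δ a) := fun a => by simp [Δ, hΔ₀]
    have ex : Δ M.x = 0 := by simp [Δ, dx]
    have ey : Δ M.y = 0 := by
      have h := congrArg Δ M.eq
      rw [he, Fin.prod_univ_three] at h
      have h2 : (2 : E) ≠ 0 := left_ne_zero_of_mul (hx ▸ dx)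
      simpa [Derivation.leibniz, ex, c1 ▸ c.ne_zero 1, h2] using h
    obtain ⟨Q, ⟨q1, q2⟩, q3⟩ := hP (y j 0) (y j 1) (by rw [he, Fin.prod_univ_three, hy]; simp; ring)
    have q4 : 0 < c.D (y j) Q := by
      have h1 := (mem_Ge_iff (c0 ▸ c.sub_ne 0 _)).1 q1
      have h2 := (mem_Ge_iff (c1 ▸ c.sub_ne 1 _)).1 q2
      rw [c.D_apply, c0, c1]; omega
    have k1 : ∀ (P : Place E) (u v : ℂ) (m : ℤ), M.x - algebraMap ℂ E u ∈ Ge P 1 →
        M.y - algebraMap ℂ E v ∈ Ge P 1 → m ≤ 1 → algebraMap ℂ E (δ u) ∈ Ge P m →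
        Δ P.unif / D P.unif ∈ Ge P m := fun P u v m h1 h2 h3 h4 => by
      by_cases hv : v = 0
      · have h5 := (hord P u v h1 h2).2 hv
        simpa [h5] using kap_mem hΔ hD (h0 P) (m := m) (s := M.y) (by omega) (by omega)
          (by simp [ey])
      · have h5 := (hord P u v h1 h2).1 hv
        simpa [h5] using kap_mem hΔ hD (h0 P) (m := m) (s := M.x - algebraMap ℂ E u) (by omega)
          (by omega) (by simpa [ex, hΔ] using h4)
    have kO : Δ O.unif / D O.unif ∈ Ge O 1 := by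
      simpa using kap_mem hΔ hD (h0 O) (s := M.x) (by omega) le_rfl (by simp [ex])
    have k0 : ∀ P : Place E, Δ P.unif / D P.unif ∈ Ge P 0 := fun P => by
      by_cases h : P = O
      · exact h ▸ Ge_mono (by omega) kO
      · obtain ⟨u, hu⟩ := P.exists_res (o2 P h).1
        obtain ⟨v, hv⟩ := P.exists_res (o2 P h).2
        exact k1 P u v 0 (mem_Ge_one.2 hu) (mem_Ge_one.2 hv) (by omega) (const_mem_Ge _)
    have gg : ∀ P : Place E, g ∈ Ge P (P.ord g) := fun P => mem_Ge_of_le le_rfl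
    have og : ∀ P : Place E, P.ord g = a * c.H P - (∑ i, b i • c.D (y i)) P := fun P => by
      simpa using DFunLike.congr_fun hg P
    have m1 : Δ g / g ∈ LL (single Q 1) := mem_LL.2 fun P => by
      by_cases h : P = Q
      · subst h
        exact Ge_mono (by simp) (Ge_div (of_kap hΔ hD (h0 P) (k0 P) (by omega) (gg P)) g)
      rw [single_eq_of_ne h, neg_zero]
      by_cases h1 : P.ord g = 0
      · simpa [h1] using Ge_div (of_kap_zero hΔ hD (h0 P) (k0 P) (h1 ▸ gg P)) g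
      refine Ge_mono (by omega) (Ge_div (of_kap hΔ hD (h0 P) (k := 1) ?_ le_rfl (gg P)) g)
      by_cases h2 : P = O
      · exact h2 ▸ kO
      obtain ⟨i, hi⟩ : ∃ i, 0 < c.D (y i) P := by
        by_contra h3
        rw [og, hH P h2, c.sum_D_apply' _ (not_exists.1 h3)] at h1
        simp at h1
      have h3 : i ≠ j := fun e => h (q3 P (cen P _ (e ▸ hi)))
      exact k1 P _ _ 1 (cen P _ hi).1 (cen P _ hi).2 le_rfl (by simp [hδ, h3])
    have m2 : ∀ t : ℂ, Δ g / g ≠ t • (1 : E) := fun t ht => by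
      have h1 : Q.ord g ≠ 0 := by
        rw [og, c.H_eq_zero q4, c.sum_D_apply inj _ q4]
        simpa using ⟨hj, q4.ne'⟩
      have h2 := kap_mem hΔ hD (h0 Q) h1 le_rfl (by
        rw [(div_eq_iff g0).1 ht, smul_one_mul]; exact Submodule.smul_mem _ _ (gg Q))
      have h3 := of_kap hΔ hD (h0 Q) h2 (by omega) q1
      rw [map_sub, ex, hΔ, hδ, Pi.single_eq_same, zero_sub, neg_mem_iff, map_one,
        mem_Ge_iff one_ne_zero, Place.ord_one] at h3
      omega
    have h1 := finrank_le_degree m1 (one_mem_LL (single_nonneg.2 one_pos.le)) one_ne_zero m2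
    have h2 := hK.two_le_finrank (transc_div one_ne_zero m2)
    rw [degree_single] at h1
    omega
  refine ⟨?_, hb⟩
  have h1 := congrArg degree hg
  have h2 := c.two
  rw [degree_div, hb] at h1
  simp [c.degree_H] at h1
  omega

end G1
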