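import Pool.Agent.Lib.G1.Blue
import Pool.Agent.Lib.G1.Chev

open Finsupp MvPolynomial IntermediateField Module
open Pool.Agent.Lib.MP_cc3443_ag Pool.Agent.Lib.MP_3c72fe_ag

noncomputable section

namespace G1

namespace PLACE

lemma tr_of_der (δ : ZD ℂ) (A : Subalgebra ℚ ℂ) (hA : ∀ a ∈ A, δ a = 0) {x : ℂ} (hx : δ x = 1) :
    Transcendental A x := by
  have hd : ∀ P : Polynomial A, δ (Polynomial.aeval x P) =
      Polynomial.aeval x (Polynomial.derivative P) := fun P => by
    induction P using Polynomial.induction_on' with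
    | add P Q hP hQ => simp only [map_add, hP, hQ]
    | monomial n a =>
      have h1 : δ (algebraMap A ℂ a) = 0 := hA _ a.2
      rw [Polynomial.aeval_monomial, Polynomial.derivative_monomial, Polynomial.aeval_monomial,
        δ.leibniz, h1, δ.leibniz_pow, hx]
      simp [mul_assoc]
  have key : ∀ (n : ℕ) (P : Polynomial A), P.natDegree = n → Polynomial.aeval x P = 0 → P = 0 := by
    intro n
    induction n using Nat.strong_induction_on with
    | _ n ih =>
      intro P hn h0
      have h1 : P.natDegree = 0 := by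
        by_contra h1
        have h2 := ih _ (hn ▸ Polynomial.natDegree_derivative_lt h1) _ rfl
          (by rw [← hd, h0, map_zero])
        exact h1 (Polynomial.derivative_eq_zero.1 h2)
      rw [Polynomial.eq_C_of_natDegree_eq_zero h1] at h0 ⊢
      rw [Polynomial.aeval_C] at h0
      rw [show P.coeff 0 = 0 from Subtype.ext h0, map_zero]
  rintro ⟨P, hP, h0⟩
  exact hP (key _ P rfl h0)

lemma ai_of_der {σ : Type} {q : σ → ℂ} (h : ∀ v : σ → ℂ, ∃ δ : ZD ℂ, ∀ s, δ (q s) = v s) :
    AlgebraicIndependent ℚ q := by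
  classical
  refine algebraicIndependent_of_finite_type' (algebraMap ℚ ℂ).injective fun t _ _ i hi => ?_
  obtain ⟨δ, hδ⟩ := h (Pi.single i 1)
  refine tr_of_der δ _ (fun a ha => ?_) (by simp [hδ])
  induction ha using Algebra.adjoin_induction with
  | mem a ha =>
    obtain ⟨s, hs, rfl⟩ := ha
    rw [hδ, Pi.single_eq_of_ne (by rintro rfl; exact hi hs)]
  | algebraMap r =>
    have h1 : (r.den : ℂ) * algebraMap ℚ ℂ r = r.num := by
      rw [eq_ratCast]
      exact_mod_cast Rat.den_mul_eq_num r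
    have h2 := congrArg δ h1
    rw [δ.leibniz, δ.map_natCast, δ.map_intCast, smul_zero, add_zero, smul_eq_mul] at h2
    exact (mul_eq_zero.1 h2).resolve_left (by exact_mod_cast r.den_nz)
  | add a b _ _ ha hb => rw [map_add, ha, hb, add_zero]
  | mul a b _ _ ha hb => rw [δ.leibniz, ha, hb, smul_zero, smul_zero, add_zero]

/-- A finite independent family specialises to any family. -/
lemma exists_rd {σ : Type} [Finite σ] {q : σ → ℂ} (hq : AlgebraicIndependent ℚ q) (y : σ → ℂ) :
    ∃ v : Rd ℂ ℂ, ∀ s, v.Sp (q s) (y s) := by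
  classical
  obtain ⟨B, hqB, hB⟩ := exists_isTranscendenceBasis_superset (R := ℚ) (s := Set.range q)
    hq.to_subtype_range
  have hc : Cardinal.aleph0 < Cardinal.mk ℂ := by
    rw [Cardinal.mk_complex]; exact Cardinal.aleph0_lt_continuum
  have h1 : Cardinal.mk ℂ = Cardinal.mk B :=
    IsAlgClosed.cardinal_eq_cardinal_transcendence_basis_of_aleph0_lt' _ hB (by simp) hc
  have : Infinite B := Cardinal.infinite_iff.2 (h1 ▸ hc.le)
  let j : σ → B := fun s => ⟨q s, hqB ⟨s, rfl⟩⟩
  have hj : Function.Injective j := fun s t h => hq.injective (congrArg Subtype.val h)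
  have h2 : Cardinal.mk ((Set.range j)ᶜ : Set B) = Cardinal.mk ℂ := by
    rw [h1]
    exact Cardinal.mk_compl_of_infinite _
      ((Set.finite_range j).lt_aleph0.trans_le (Cardinal.aleph0_le_mk B))
  obtain ⟨e⟩ := Cardinal.eq.1 h2
  let g : B → ℂ := Function.extend j y fun b => if h : b ∈ (Set.range j)ᶜ then e ⟨b, h⟩ else 0
  let A := Algebra.adjoin ℚ (Set.range ((↑) : B → ℂ))
  let φ : A →ₐ[ℚ] ℂ := (aeval g).comp hB.1.aevalEquiv.symm.toAlgHom
  have hm : ∀ b : B, (b : ℂ) ∈ A := fun b => Algebra.subset_adjoin ⟨b, rfl⟩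
  have hφ : ∀ b : B, φ ⟨b, hm b⟩ = g b := fun b => by
    have h3 : hB.1.aevalEquiv (X b) = ⟨b, hm b⟩ :=
      Subtype.ext ((hB.1.algebraMap_aevalEquiv _).trans (aeval_X _ _))
    change aeval g (hB.1.aevalEquiv.symm _) = _
    rw [← h3, AlgEquiv.symm_apply_apply, aeval_X]
  obtain ⟨O, ψ, p1, p2, p3, p4, p5⟩ := G1.blockChev ℂ ℂ A.toSubring φ.toRingHom
  have hψ : ∀ b : B, ψ b = g b := fun b => (p2 ⟨b, hm b⟩).trans (hφ b)
  let ρ : O →+* ℂ :=
    { toFun := fun a => ψ a
      map_one' := (p2 1).trans (map_one _)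
      map_zero' := (p2 0).trans (map_zero _)
      map_mul' := fun a b => p4 a a.2 b b.2
      map_add' := fun a b => p3 a a.2 b b.2 }
  refine ⟨⟨O, ρ, fun c => ?_, fun a ha => p5 a a.2 ha⟩, fun s => ⟨p1 _ (hm (j s)), ?_⟩⟩
  · refine ⟨⟨(e.symm c).1, p1 _ (hm _)⟩, (hψ _).trans ?_⟩
    have h3 := (e.symm c).2
    simp only [g]
    rw [Function.extend_apply' _ _ _ h3, dif_pos h3]
    exact e.apply_symm_apply c
  · rw [Rd.r, dif_pos (p1 _ (hm (j s)))]
    exact (hψ (j s)).trans (hj.extend_apply _ _ s)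

end PLACE

theorem stPLACE : St_PLACE := by
  intro p hp
  have hq : AlgebraicIndependent ℚ fun s : Fin 10 × Fin 2 => p s.1 s.2 :=
    PLACE.ai_of_der fun v => by
      obtain ⟨δ, hδ⟩ := hp fun i k => v (i, k)
      exact ⟨δ, fun s => hδ s.1 s.2⟩
  choose w hw using fun i => IsAlgClosed.exists_pow_nat_eq (p i 0 ^ 3 - p i 0) two_pos
  obtain ⟨v, hv⟩ := PLACE.exists_rd hq fun s => ![p s.1 0, w s.1] s.2
  exact ⟨v, fun i => ![p i 0, w i], fun i k => hv (i, k), hw,
    hq.comp (fun i => (i, 0)) fun _ _ h => congrArg Prod.fst h⟩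

end G1
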