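import Pool.Agent.Lib.G1.Blue

open Finsupp MvPolynomial IntermediateField Module
open Pool.Agent.Lib.MP_cc3443_ag Pool.Agent.Lib.MP_3c72fe_ag

noncomputable section

namespace G1
namespace Ps

lemma sp_iff {F K : Type} [Field F] [Field K] {R : Rd F K} {a : F} {b : K} :
    R.Sp a b ↔ ∃ x : R.O, (x : F) = a ∧ R.ρ x = b := by
  constructor
  · rintro ⟨h, rfl⟩; exact ⟨⟨a, h⟩, rfl, by simp [Rd.r, h]⟩
  · rintro ⟨x, rfl, rfl⟩; exact ⟨x.2, by simp [Rd.r]⟩

lemma sp_aeval {F K : Type} [Field F] [Algebra ℂ F] [Field K] [Algebra ℂ K] {v : Rd ℂ ℂ}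
    {R : Rd F K} (ov : Over v R) {ξ : Fin 2 → F} {ξb : Fin 2 → K} (h : ∀ k, R.Sp (ξ k) (ξb k))
    (G : MvPolynomial (Fin 2) v.O) :
    R.Sp (aeval ξ (MvPolynomial.map v.O.subtype G)) (aeval ξb (MvPolynomial.map v.ρ G)) := by
  induction G using MvPolynomial.induction_on with
  | C a => simpa using ov.2 _ _ (sp_iff.2 ⟨a, rfl, rfl⟩)
  | add p q hp hq =>
    obtain ⟨x, h1, h2⟩ := sp_iff.1 hp
    obtain ⟨y, h3, h4⟩ := sp_iff.1 hq
    exact sp_iff.2 ⟨x + y, by simp [h1, h3], by simp [h2, h4]⟩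
  | mul_X p k hp =>
    obtain ⟨x, h1, h2⟩ := sp_iff.1 hp
    obtain ⟨y, h3, h4⟩ := sp_iff.1 (h k)
    exact sp_iff.2 ⟨x * y, by simp [h1, h3], by simp [h2, h4]⟩

lemma red_mem_pow {v : Rd ℂ ℂ} {p y : Fin 2 → ℂ} (h : ∀ k, v.Sp (p k) (y k))
    (G : MvPolynomial (Fin 2) v.O) {n : ℕ} (hG : MvPolynomial.map v.O.subtype G ∈ mi p ^ n) :
    MvPolynomial.map v.ρ G ∈ mi y ^ n := by
  choose x h1 h2 using fun k => sp_iff.1 (h k)
  have key : ∀ (φ : v.O →+* ℂ) (q : Fin 2 → ℂ), (∀ k, φ (x k) = q k) →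
      tr q (MvPolynomial.map φ G) = MvPolynomial.map φ (aeval (fun k => X k + C (x k)) G) := by
    intro φ q hq
    clear hG
    induction G using MvPolynomial.induction_on with
    | C a => simp [tr]
    | add p q hp hq => simp only [map_add, hp, hq]
    | mul_X p k hp => simp only [map_mul, hp]; simp [tr, hq]
  rw [mem_pow_iff_tr] at hG ⊢
  intro s hs
  have h3 := hG s hs
  rw [key _ _ h1, coeff_map] at h3
  rw [key _ _ h2, coeff_map, (map_eq_zero_iff _ Subtype.val_injective).1 h3, map_zero]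

lemma exists_scale (v : Rd ℂ ℂ) {g : P2} (hg : g ≠ 0) : ∃ (η : ℂ) (G : MvPolynomial (Fin 2) v.O),
    MvPolynomial.map v.O.subtype G = η • g ∧ MvPolynomial.map v.ρ G ≠ 0 ∧
      (MvPolynomial.map v.ρ G).totalDegree ≤ g.totalDegree := by
  classical
  obtain ⟨t, ht, hm⟩ := g.support.exists_max_image (fun s => v.O.valuation (coeff s g))
    (support_nonempty.2 hg)
  have h0 := MvPolynomial.mem_support_iff.1 ht
  have h1 : ∀ s, (coeff t g)⁻¹ * coeff s g ∈ v.O := fun s => by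
    by_cases hs : s ∈ g.support
    · rw [← v.O.valuation_le_one_iff, map_mul, map_inv₀]
      exact inv_mul_le_one_of_le₀ (hm s hs) zero_le
    · rw [MvPolynomial.notMem_support_iff.1 hs, mul_zero]; exact zero_mem _
  have h2 : ∀ s, coeff s (∑ s ∈ g.support, monomial s (⟨_, h1 s⟩ : v.O)) = ⟨_, h1 s⟩ := fun s => by
    rw [coeff_sum]
    simp only [coeff_monomial, Finset.sum_ite_eq']
    split_ifs with hs
    · rfl
    · exact Subtype.ext (by simp [MvPolynomial.notMem_support_iff.1 hs])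
  refine ⟨(coeff t g)⁻¹, ∑ s ∈ g.support, monomial s ⟨_, h1 s⟩, ?_, fun h => ?_, ?_⟩
  · ext s
    rw [coeff_map, h2]; simp
  · have h3 := congrArg (coeff t) h
    rw [coeff_map, h2, show (⟨_, h1 t⟩ : v.O) = 1 from Subtype.ext (inv_mul_cancel₀ h0)] at h3
    simp at h3
  · refine Finset.sup_mono fun s hs => ?_
    by_contra h
    refine MvPolynomial.mem_support_iff.1 hs ?_
    rw [coeff_map, h2, show (⟨_, h1 s⟩ : v.O) = 0 from
      Subtype.ext (by simp [MvPolynomial.notMem_support_iff.1 h]), map_zero]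

variable {F K E : Type} [Field F] [Algebra ℂ F] [IsFF F] [Field K] [Algebra ℂ K] [IsFF K]
  [Field E] [Algebra ℂ E] [IsFF E] [Algebra E K] [IsScalarTower ℂ E K]

omit [IsScalarTower ℂ E K] in
lemma pb_apply (C : Cov K E) (Δ : Place E →₀ ℤ) (z : Place K) : C.pb Δ z = Δ (C.res z) := rfl

omit [IsScalarTower ℂ E K] in
lemma degree_pb (C : Cov K E) (Δ : Place E →₀ ℤ) :
    degree (C.pb Δ) = Nat.card (K ≃ₐ[E] K) * degree Δ := by
  classical
  rw [degree_apply, degree_apply, Finset.mul_sum, ← Finset.sum_fiberwise_of_maps_to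
    (t := Δ.support) (g := C.res) (fun z hz => by simpa [pb_apply] using hz)]
  refine Finset.sum_congr rfl fun w hw => ?_
  obtain ⟨z, rfl⟩ := C.surj w
  rw [Finset.sum_congr rfl (g := fun _ => Δ (C.res z)) fun x hx => by
    rw [pb_apply, (Finset.mem_filter.1 hx).2], Finset.sum_const, nsmul_eq_mul]
  congr 2
  rw [← Nat.card_eq_finsetCard]
  have h0 : ∀ a, C.act a z ∈ (C.pb Δ).support.filter fun x => C.res x = C.res z := fun a => by
    have := ((C.fib z _).2 ⟨a, rfl⟩).symm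
    simpa [pb_apply, this] using hw
  refine (Nat.card_congr (Equiv.ofBijective (fun a => ⟨_, h0 a⟩) ⟨fun a b h => ?_, ?_⟩)).symm
  · have h1 : C.act a z = C.act b z := congrArg Subtype.val h
    have := C.free (b⁻¹ * a) z (by simp [h1])
    exact (inv_mul_eq_one.1 this).symm
  · rintro ⟨x, hx⟩
    obtain ⟨a, rfl⟩ := (C.fib z x).1 (Finset.mem_filter.1 hx).2.symm
    exact ⟨a, rfl⟩

omit [IsScalarTower ℂ E K] in
lemma general (S : Setup F K E) (z : Place K) (Φ : P2) (e : ℕ) (μ : Fin 10 → ℕ) (η : ℂ) (u : K)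
    (he : Φ.totalDegree ≤ e) (hμ : ∀ i, Φ ∈ mi (S.p i) ^ μ i)
    (hu : S.m.R.Sp (η • aeval S.c.ξ Φ) u) :
    u ∈ Ge z (-(e * S.dz z - ∑ i, μ i * S.mz i z) - S.D.cl e (fun i => μ i) (S.C.res z)) := by
  by_cases h0 : u = 0
  · rw [h0]; exact zero_mem _
  have h1 : η • aeval S.c.ξ Φ ≠ 0 := fun h =>
    h0 (by rw [← hu.2, h]; exact (sp_iff.2 ⟨0, rfl, map_zero _⟩).2)
  have h2 := mapDomain_nonneg (f := S.m.sp)
    (nonneg_of_mem (Submodule.smul_mem _ η (S.c.ev_mem_LL S.vg.inj he hμ)) h1) z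
  rw [mapDomain_add, ← S.m.red _ ⟨hu.1, hu.2 ▸ h0⟩, hu.2, Crv.cls, mapDomain_sub,
    mapDomain_finsetSum] at h2
  refine mem_Ge_of_le ?_
  simp only [mapDomain_smul, Finsupp.add_apply, Finsupp.sub_apply, Finsupp.finsetSum_apply,
    Finsupp.smul_apply, smul_eq_mul, divF_apply, Setup.dz, Setup.mz, Cub.cl, pb_apply, mul_sub,
    Finset.sum_sub_distrib, Finsupp.coe_zero, Pi.zero_apply] at h2 ⊢
  linarith

omit [IsScalarTower ℂ E K] in
lemma dz_nonneg (S : Setup F K E) (z : Place K) : 0 ≤ S.dz z := by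
  have h : ∀ (Φ : P2) (u : E), u ≠ 0 → Φ.totalDegree ≤ 1 →
      S.m.R.Sp (aeval S.c.ξ Φ) (algebraMap E K u) →
      -S.dz z - S.D.c.H (S.C.res z) ≤ (S.C.res z).ord u := fun Φ u h0 h1 h2 => by
    have := general S z Φ 1 0 1 _ h1 (by simp) (by simpa using h2)
    rw [mem_Ge_iff (by simpa using h0), S.C.ord_res] at this
    simpa [Cub.cl] using this
  have h0 := h (X 0) _ (S.D.c.ne_zero 0) (by simp) (by simpa using S.sp_ξ 0)
  have h1 := h (X 1) _ (S.D.c.ne_zero 1) (by simp) (by simpa using S.sp_ξ 1)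
  have h2 := h 1 1 one_ne_zero (by simp) (sp_iff.2 ⟨1, by simp, by simp⟩)
  rw [Place.ord_one] at h2
  have h3 := S.D.c.H_apply (S.C.res z)
  omega

end Ps

theorem stPOS (hDIM : St_DIM) : St_POS := by
  intro F K E _ _ _ _ _ _ _ _ _ _ _ S
  refine ⟨?_, fun i => ?_, fun z => ⟨Ps.dz_nonneg S z, ⟨fun i => ?_, fun e μ h => ?_⟩,
    Ps.general S z⟩⟩
  · have h := S.D.d3
    rw [Setup.dz, map_sub, degree_mapDomain, Ps.degree_pb, Crv.degree_H, Crv.degree_H]
    unfold Crv.d at *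
    rw [h]; push_cast; ring
  · have h1 := S.D.c.add_two_le S.D.nr (S.D.y i)
    have h2 := (mem_pow_iff (n := 1) S.D.c.prime.ne_zero).1
      (by simpa using mem_mi.2 (S.D.on i))
    have h3 := S.D.d3
    rw [Setup.mz, map_sub, degree_mapDomain, Ps.degree_pb, Crv.degree_D, Crv.degree_D,
      show mult (S.D.y i) S.D.c.f = 1 by omega]
    simp [Crv.m]
  · have := mapDomain_nonneg (f := S.m.sp) (g := S.c.D (S.p i)) (fun P => S.c.D_nonneg _ P) z
    simp only [Setup.mz, Finsupp.sub_apply, Ps.pb_apply, Finsupp.coe_zero, Pi.zero_apply] at this ⊢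
    omega
  · obtain ⟨N, g, h1, h2, h3⟩ := hDIM (Fin 10) S.p e μ
    let j : Fin N := ⟨0, by omega⟩
    obtain ⟨η, G, h4, h5, h6⟩ := Ps.exists_scale S.m.v (h1.ne_zero j)
    refine ⟨_, h5, h6.trans (h3 j).1, fun i => Ps.red_mem_pow (S.sp_p i) G ?_, fun h7 => ?_⟩
    · rw [h4, smul_eq_C_mul]; exact Ideal.mul_mem_left _ _ ((h3 j).2 i)
    · have h8 := Ps.sp_aeval (ξb := algebraMap E K ∘ S.D.c.ξ) S.m.ov S.sp_ξ G
      rw [h4, map_smul, aeval_algebraMap_apply] at h8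
      have h9 := Ps.general S z _ e μ η _ (h3 j).1 (h3 j).2 h8
      rw [mem_Ge_iff ((_root_.map_ne_zero _).2 fun h => h7 ((S.D.c.ker _).1 h)), S.C.ord_res] at h9
      simp only [Cub.B, Finsupp.add_apply, divF_apply]
      linarith

end G1
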