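import Pool.Agent.Lib.G1.Blue

open Finsupp MvPolynomial IntermediateField Module
open Pool.Agent.Lib.MP_cc3443_ag Pool.Agent.Lib.MP_3c72fe_ag

noncomputable section

namespace G1

namespace PROJ

section
variable {F K : Type} [Field F] [Field K] {R : Rd F K} {a a' : F} {b b' : K}

lemma sp_iff : R.Sp a b ↔ ∃ h : a ∈ R.O, R.ρ ⟨a, h⟩ = b :=
  ⟨fun ⟨h, e⟩ => ⟨h, by rwa [Rd.r, dif_pos h] at e⟩,
    fun ⟨h, e⟩ => ⟨h, by rw [Rd.r, dif_pos h, e]⟩⟩

lemma sp_add (h : R.Sp a b) (h' : R.Sp a' b') : R.Sp (a + a') (b + b') := by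
  obtain ⟨k, rfl⟩ := sp_iff.1 h
  obtain ⟨k', rfl⟩ := sp_iff.1 h'
  exact sp_iff.2 ⟨add_mem k k', map_add R.ρ ⟨a, k⟩ ⟨a', k'⟩⟩

lemma sp_mul (h : R.Sp a b) (h' : R.Sp a' b') : R.Sp (a * a') (b * b') := by
  obtain ⟨k, rfl⟩ := sp_iff.1 h
  obtain ⟨k', rfl⟩ := sp_iff.1 h'
  exact sp_iff.2 ⟨mul_mem k k', map_mul R.ρ ⟨a, k⟩ ⟨a', k'⟩⟩

lemma sp_nat (n : ℕ) : R.Sp n n := sp_iff.2 ⟨natCast_mem _ n, map_natCast R.ρ n⟩

lemma sp_ne (h : R.Sp a b) (hb : b ≠ 0) : a ≠ 0 := by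
  rintro rfl
  obtain ⟨h, rfl⟩ := sp_iff.1 h
  exact hb (map_zero R.ρ)

lemma sp_div (h : R.Sp a b) (h' : R.Sp a' b') (hb : b' ≠ 0) : R.Sp (a / a') (b / b') := by
  have h0 := sp_ne h' hb
  rw [div_eq_mul_inv, div_eq_mul_inv]
  refine sp_mul h ?_
  obtain ⟨h', rfl⟩ := sp_iff.1 h'
  refine sp_iff.2 ⟨R.unit _ hb, eq_inv_of_mul_eq_one_left ?_⟩
  rw [← map_mul, ← map_one R.ρ]
  exact congrArg _ (Subtype.ext (inv_mul_cancel₀ h0))

/-- The linear form. -/
def ll (n : ℕ) (ξ : Fin 2 → F) : F := 1 + n * ξ 0 + n * n * ξ 1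

/-- The projective transformation. -/
def pj (n : ℕ) (ξ : Fin 2 → F) : Fin 2 → F := fun k => ξ k / ll n ξ

variable {n : ℕ} {ξ : Fin 2 → F} {η : Fin 2 → K}

lemma sp_ll (h : ∀ k, R.Sp (ξ k) (η k)) : R.Sp (ll n ξ) (ll n η) :=
  sp_add (sp_add (by simpa using sp_nat (R := R) 1) (sp_mul (sp_nat n) (h 0)))
    (sp_mul (sp_mul (sp_nat n) (sp_nat n)) (h 1))

lemma pj_inv (h : ll n ξ ≠ 0) (k : Fin 2) :
    ξ k = pj n ξ k / (1 - n * pj n ξ 0 - n * n * pj n ξ 1) := by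
  have : 1 - n * pj n ξ 0 - n * n * pj n ξ 1 = (ll n ξ)⁻¹ := by
    simp only [pj]
    field_simp
    simp only [ll]
    ring
  rw [this, pj, div_inv_eq_mul, div_mul_cancel₀ _ h]

lemma mem_of_pj (h : ll n ξ ≠ 0) {M : Subfield F} (hM : ∀ k, pj n ξ k ∈ M) (k : Fin 2) :
    ξ k ∈ M := by
  rw [pj_inv h k]
  exact div_mem (hM k) (sub_mem (sub_mem (one_mem _) (mul_mem (natCast_mem _ _) (hM 0)))
    (mul_mem (mul_mem (natCast_mem _ _) (natCast_mem _ _)) (hM 1)))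

end

lemma fin_bad {V : Type} [AddCommGroup V] [Module ℂ V] (W : Submodule ℂ V) (x : Fin 3 → V)
    (h : ∃ i, x i ∉ W) : {n : ℕ | x 0 + (n : ℂ) • x 1 + ((n : ℂ) * n) • x 2 ∈ W}.Finite := by
  obtain ⟨i, hi⟩ := h
  obtain ⟨φ, h1, h2⟩ := W.exists_dual_map_eq_bot_of_notMem hi inferInstance
  let p : Polynomial ℂ := ∑ j : Fin 3, Polynomial.monomial j.val (φ (x j))
  have hp : p ≠ 0 := fun h => h1 (by
    simpa [p, Polynomial.coeff_monomial, Fin.val_inj] using congrArg (Polynomial.coeff · i) h)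
  refine ((p.finite_setOfPred_isRoot hp).preimage Nat.cast_injective.injOn).subset fun n hn => ?_
  have h3 := Submodule.mem_map_of_mem (f := φ) hn
  rw [h2, Submodule.mem_bot, map_add, map_add, map_smul, map_smul] at h3
  simp only [Set.mem_preimage, Set.mem_ofPred_eq, Polynomial.IsRoot, p, Fin.sum_univ_three,
    Polynomial.eval_add, Polynomial.eval_monomial, smul_eq_mul] at h3 ⊢
  simp only [Fin.val_zero, Fin.val_one, Fin.val_two]
  linear_combination h3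

variable {K : Type} [Field K] [Algebra ℂ K] {n : ℕ}

lemma ll_eq (ξ : Fin 2 → K) : ll n ξ = 1 + (n : ℂ) • ξ 0 + ((n : ℂ) * n) • ξ 1 := by
  simp [ll, Algebra.smul_def]

lemma ll_ne (c : Crv K) : ll n c.ξ ≠ 0 := fun h => by
  have := c.lin_eq_zero (a := n) (b := n * n) (e := 1) (by rw [← h, ll_eq, map_one]; ring)
  exact one_ne_zero this.2.2

variable [IsFF K]

lemma exists_pj (hK : NR K) (c : Crv K) (n : ℕ) : ∃ c' : Crv K, c'.ξ = pj n c.ξ := by
  have := mem_of_pj (ll_ne (n := n) c)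
    (M := (IntermediateField.adjoin ℂ (Set.range (pj n c.ξ))).toSubfield)
    fun k => subset_adjoin _ _ ⟨k, rfl⟩
  exact exists_crv hK (adjoin_eq_top_of_mem c.top (this 0) (this 1))

variable {c c' : Crv K} (hc : c'.ξ = pj n c.ξ)
include hc

lemma H_pj : c'.H = c.H + divF (ll n c.ξ) := by
  ext P
  have hl := ll_ne (n := n) c
  have h0 : ∀ k, P.ord (c'.ξ k) = P.ord (c.ξ k) - P.ord (ll n c.ξ) := fun k => by
    rw [hc, pj, ord_div (c.ne_zero k) hl]
  have h1 : -c.H P ≤ P.ord (ll n c.ξ) := (mem_Ge_iff hl).1 (by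
    rw [ll_eq]
    exact add_mem (add_mem (Ge_mono (by simpa using c.H_nonneg P) one_mem_Ge)
      (Submodule.smul_mem _ _ (c.mem_Ge_H P 0))) (Submodule.smul_mem _ _ (c.mem_Ge_H P 1)))
  have h2 : min (P.ord (ll n c.ξ)) (min (P.ord (c.ξ 0)) (P.ord (c.ξ 1))) ≤ 0 := by
    rw [← P.ord_one, ← mem_Ge_iff one_ne_zero,
      show (1 : K) = ll n c.ξ - (n : ℂ) • c.ξ 0 - ((n : ℂ) * n) • c.ξ 1 by rw [ll_eq]; ring]
    exact sub_mem (sub_mem (mem_Ge_of_le (by omega))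
      (Submodule.smul_mem _ _ (mem_Ge_of_le (by omega))))
      (Submodule.smul_mem _ _ (mem_Ge_of_le (by omega)))
  rw [Finsupp.add_apply, divF_apply, Crv.H_apply, h0, h0]
  rw [Crv.H_apply] at h1 ⊢
  omega

lemma D_pj {q : Fin 2 → ℂ} (hq : ll n q ≠ 0) : c'.D (pj n q) = c.D q := by
  ext P
  have hl := ll_ne (n := n) c
  have hq' : algebraMap ℂ K (ll n q) ≠ 0 := by simpa using hq
  have hm : algebraMap ℂ K (ll n q) = ll n fun k => algebraMap ℂ K (q k) := by simp [ll]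
  set u : Fin 2 → K := fun k => c.ξ k - algebraMap ℂ K (q k) with hu
  set w : Fin 2 → K := fun k => (c'.ξ k - algebraMap ℂ K (pj n q k)) * ll n c.ξ with hw
  have hw0 : ∀ k, w k ≠ 0 := fun k => mul_ne_zero (c'.sub_ne k _) hl
  have e1 : ∀ k, w k = u k - (q k / ll n q) • ((n : ℂ) • u 0 + ((n : ℂ) * n) • u 1) := fun k => by
    simp only [hw, hu, hc, pj, Algebra.smul_def, map_div₀, map_mul, map_natCast]
    field_simp
    rw [hm]
    simp only [ll]
    ring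
  have e2 : ∀ k, u k = w k + q k • ((n : ℂ) • w 0 + ((n : ℂ) * n) • w 1) := fun k => by
    simp only [e1, Algebra.smul_def, map_div₀, map_mul, map_natCast]
    field_simp
    rw [hm]
    simp only [ll]
    ring
  have h1 : ∀ k, min (P.ord (u 0)) (P.ord (u 1)) ≤ P.ord (w k) := fun k => by
    have h : ∀ k, u k ∈ Ge P (min (P.ord (u 0)) (P.ord (u 1))) := fun k => by
      fin_cases k
      exacts [mem_Ge_of_le (min_le_left _ _), mem_Ge_of_le (min_le_right _ _)]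
    rw [← mem_Ge_iff (hw0 k), e1]
    exact sub_mem (h k) (Submodule.smul_mem _ _
      (add_mem (Submodule.smul_mem _ _ (h 0)) (Submodule.smul_mem _ _ (h 1))))
  have h2 : ∀ k, min (P.ord (w 0)) (P.ord (w 1)) ≤ P.ord (u k) := fun k => by
    have h : ∀ k, w k ∈ Ge P (min (P.ord (w 0)) (P.ord (w 1))) := fun k => by
      fin_cases k
      exacts [mem_Ge_of_le (min_le_left _ _), mem_Ge_of_le (min_le_right _ _)]
    rw [← mem_Ge_iff (show u k ≠ 0 from c.sub_ne k _), e2]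
    exact add_mem (h k) (Submodule.smul_mem _ _
      (add_mem (Submodule.smul_mem _ _ (h 0)) (Submodule.smul_mem _ _ (h 1))))
  have h3 : ∀ k, P.ord (w k) = P.ord (c'.ξ k - algebraMap ℂ K (pj n q k)) + P.ord (ll n c.ξ) :=
    fun k => P.ord_mul (c'.sub_ne k _) hl
  have h4 := c.min_ord q P
  have h5 := c'.min_ord (pj n q) P
  rw [H_pj hc, Finsupp.add_apply, divF_apply] at h5
  have a0 := h1 0
  have a1 := h1 1
  have b0 := h2 0
  have b1 := h2 1
  rw [h3] at a0 a1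
  rw [h3, h3] at b0 b1
  simp only [hu] at a0 a1 b0 b1
  omega

lemma d_pj : c'.d = c.d := by
  have h := c'.degree_H
  rw [H_pj hc, map_add, degree_div, c.degree_H] at h
  unfold Crv.d
  omega

lemma mult_pj {q : Fin 2 → ℂ} (hq : ll n q ≠ 0) : mult (pj n q) c'.f = mult q c.f := by
  have h := c'.degree_D (pj n q)
  rw [D_pj hc hq, c.degree_D] at h
  omega

end PROJ

open PROJ

theorem stPROJ : St_PROJ := by
  intro F K E _ _ _ _ _ _ _ _ _ _ _ S T
  have f1 : ∀ i, {n : ℕ | ll n (S.D.y i) = 0}.Finite := fun i =>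
    (fin_bad (⊥ : Submodule ℂ ℂ) ![1, S.D.y i 0, S.D.y i 1] ⟨0, by simp⟩).subset fun n hn => by
      simpa [ll] using hn
  have f2 : ∀ w, {n : ℕ | ll n S.D.c.ξ ∈ Ge w (1 - S.D.c.H w)}.Finite := fun w =>
    (fin_bad (Ge w (1 - S.D.c.H w)) ![1, S.D.c.ξ 0, S.D.c.ξ 1] (by
      by_contra h
      push Not at h
      have h0 := (mem_Ge_iff one_ne_zero).1 (h 0)
      have h1 := (mem_Ge_iff (S.D.c.ne_zero 0)).1 (h 1)
      have h2 := (mem_Ge_iff (S.D.c.ne_zero 1)).1 (h 2)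
      rw [w.ord_one] at h0
      rw [Crv.H_apply] at h0 h1 h2
      omega)).subset fun n hn => by simpa [ll_eq] using hn
  obtain ⟨n, hn⟩ := ((Set.finite_iUnion f1).union
    (T.finite_toSet.biUnion fun w _ => f2 w)).infinite_compl.nonempty
  simp only [Set.mem_compl_iff, Set.mem_union, Set.mem_iUnion, Set.mem_ofPred_eq, not_or,
    not_exists] at hn
  obtain ⟨hy, hw⟩ := hn
  obtain ⟨c', hc⟩ := exists_pj S.nr S.c n
  obtain ⟨e', he⟩ := exists_pj S.D.nr S.D.c n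
  have s1 : ∀ i, S.m.v.Sp (ll n (S.p i)) (ll n (S.D.y i)) := fun i => sp_ll (S.sp_p i)
  have hp : ∀ i, ll n (S.p i) ≠ 0 := fun i => sp_ne (s1 i) (hy i)
  have s2 : S.m.R.Sp (ll n S.c.ξ) (algebraMap E K (ll n S.D.c.ξ)) := by
    simpa [ll] using sp_ll (n := n) S.sp_ξ
  have hl := ll_ne (n := n) S.D.c
  have hl' : algebraMap E K (ll n S.D.c.ξ) ≠ 0 := by simpa using hl
  let D' : Cub E :=
    { c := e'
      y := fun i => pj n (S.D.y i)
      d3 := (d_pj he).trans S.D.d3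
      on := fun i => mem_mi.1 (by
        rw [← pow_one (mi _), mem_pow_iff e'.prime.ne_zero, mult_pj he (hy i),
          ← mem_pow_iff S.D.c.prime.ne_zero, pow_one, mem_mi]
        exact S.D.on i)
      inj := fun i j h => S.D.inj (funext fun k => by
        rw [pj_inv (hy i) k, pj_inv (hy j) k, show pj n (S.D.y i) = pj n (S.D.y j) from h])
      nr := S.D.nr
      flat := S.D.flat
      pic := fun g a b hg h => S.D.pic (g / ll n S.D.c.ξ ^ a) a b
        (div_ne_zero hg (zpow_ne_zero _ hl)) (by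
          simp only [H_pj he, D_pj he (hy _)] at h
          ext P
          have := DFunLike.congr_fun h P
          simp only [divF_apply, Finsupp.sub_apply, Finsupp.smul_apply, Finsupp.add_apply,
            smul_eq_mul] at this ⊢
          rw [ord_div hg (zpow_ne_zero _ hl), P.ord_zpow, this]
          ring) }
  refine ⟨⟨S.m, S.C, D', c', fun i => pj n (S.p i),
    S.vg.of_ker fun δ hδ i => mem_of_pj (hp i) (M := cst δ) (hδ i), S.nr,
    fun i k => sp_div (S.sp_p i k) (s1 i) (hy i), fun k => ?_⟩, rfl, d_pj hc,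
    funext fun i => mult_pj hc (hp i), ?_, funext fun i => ?_, fun w hT => ?_⟩
  · simp only [D', hc, he, pj, map_div₀]
    exact sp_div (S.sp_ξ k) s2 hl'
  · simp only [Setup.dz, D', H_pj hc, H_pj he, Finsupp.mapDomain_add]
    rw [← S.m.red _ ⟨s2.1, s2.2 ▸ hl'⟩, s2.2]
    ext z
    have h : ∀ Δ, S.C.pb Δ z = Δ (S.C.res z) := fun _ => rfl
    simp only [Finsupp.sub_apply, Finsupp.add_apply, h, divF_apply, S.C.ord_res]
    ring
  · simp only [Setup.mz, D', D_pj hc (hp i), D_pj he (hy i)]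
  · have h1 := hw w hT
    have h2 := e'.H_nonneg w
    rw [mem_Ge_iff hl] at h1
    change e'.H w = 0
    rw [H_pj he, Finsupp.add_apply, divF_apply] at h2 ⊢
    omega

end G1
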