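import Pool.Agent.Lib.G1.Blue

/-! The reduction of the image of a place in the projective plane. -/

open Pool.Agent.Lib.MP_cc3443_ag Pool.Agent.Lib.MP_3c72fe_ag

namespace G1

namespace PT

section
variable {F K : Type} [Field F] [Field K] {R : Rd F K} {a a' : F} {b b' : K}

lemma sp_iff : R.Sp a b ↔ ∃ h : a ∈ R.O, R.ρ ⟨a, h⟩ = b :=
  ⟨fun ⟨h, e⟩ => ⟨h, by rw [← e, Rd.r, dif_pos h]⟩, fun ⟨h, e⟩ => ⟨h, by rw [Rd.r, dif_pos h, e]⟩⟩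

lemma sp_mul (h : R.Sp a b) (h' : R.Sp a' b') : R.Sp (a * a') (b * b') := by
  obtain ⟨u, rfl⟩ := sp_iff.1 h
  obtain ⟨u', rfl⟩ := sp_iff.1 h'
  exact sp_iff.2 ⟨mul_mem u u', R.ρ.map_mul ⟨a, u⟩ ⟨a', u'⟩⟩

lemma sp_sub (h : R.Sp a b) (h' : R.Sp a' b') : R.Sp (a - a') (b - b') := by
  obtain ⟨u, rfl⟩ := sp_iff.1 h
  obtain ⟨u', rfl⟩ := sp_iff.1 h'
  exact sp_iff.2 ⟨sub_mem u u', R.ρ.map_sub ⟨a, u⟩ ⟨a', u'⟩⟩

lemma sp_one : R.Sp 1 1 := sp_iff.2 ⟨one_mem _, R.ρ.map_one⟩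

lemma sp_zero : R.Sp 0 0 := sp_iff.2 ⟨zero_mem _, R.ρ.map_zero⟩

lemma sp_uniq (h : R.Sp a b) (h' : R.Sp a b') : b = b' := h.2.symm.trans h'.2

lemma sp_ne (h : R.Sp a b) (hb : b ≠ 0) : a ≠ 0 := by
  rintro rfl
  exact hb (sp_uniq h sp_zero)

lemma sp_div (h' : R.Sp a' b') (h : R.Sp a b) (hb : b ≠ 0) : R.Sp (a' / a) (b' / b) := by
  obtain ⟨h0, e⟩ := sp_iff.1 h
  have h1 : R.Sp a⁻¹ (R.r a⁻¹) := ⟨R.unit ⟨a, h0⟩ (e ▸ hb), rfl⟩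
  have h2 := sp_mul h h1
  rw [mul_inv_cancel₀ (sp_ne h hb)] at h2
  rw [div_eq_mul_inv, div_eq_mul_inv, ← eq_inv_of_mul_eq_one_right (sp_uniq h2 sp_one)]
  exact sp_mul h' h1

end

variable {F : Type} [Field F] [Algebra ℂ F] [IsFF F] {P : Place F} {g : F}

lemma sp_ev (h : g ∈ P.O) : (rd P).Sp g (ev P g) := ⟨h, rfl⟩

lemma sp_rd {b : ℂ} (h : g ∈ P.O) : (rd P).Sp g b ↔ g - algebraMap ℂ F b ∈ Ge P 1 := by
  have h1 : g - algebraMap ℂ F ((rd P).ρ ⟨g, h⟩) ∈ Ge P 1 := (exists_ev P).choose_spec ⟨g, h⟩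
  exact sp_iff.trans ⟨fun ⟨_, e⟩ => e ▸ h1, fun e =>
    ⟨h, P.res_unique (mem_Ge_one.1 h1) (mem_Ge_one.1 e)⟩⟩

lemma sp_const (b : ℂ) : (rd P).Sp (algebraMap ℂ F b) b := (sp_rd (P.const b)).2 (by simp)

lemma ev_zero (h : g ∈ Ge P 1) : (rd P).Sp g 0 :=
  (sp_rd (mem_Ge_zero.1 (Ge_mono (by omega) h))).2 (by simpa using h)

lemma ev_ne (h0 : g ≠ 0) (h : P.ord g = 0) : g ∈ P.O ∧ ev P g ≠ 0 := by
  have h1 := (P.mem_iff_ord h0).2 h.ge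
  refine ⟨h1, fun e => ?_⟩
  have h2 := (sp_rd h1).1 (e ▸ sp_ev h1)
  rw [map_zero, sub_zero, mem_Ge_iff h0] at h2
  omega

lemma co (c : Crv F) (P : Place F) : (∀ j, ![c.ξ 0, c.ξ 1, 1] j ∈ Ge P (-c.H P)) ∧
    ∃ j, ![c.ξ 0, c.ξ 1, 1] j ≠ 0 ∧ P.ord (![c.ξ 0, c.ξ 1, 1] j) = -c.H P := by
  have h := c.H_apply P
  refine ⟨fun j => ?_, ?_⟩
  · fin_cases j
    exacts [c.mem_Ge_H P 0, c.mem_Ge_H P 1, Ge_mono (by omega) one_mem_Ge]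
  · obtain e | e | e : P.ord (c.ξ 0) = -c.H P ∨ P.ord (c.ξ 1) = -c.H P ∨ 0 = -c.H P := by omega
    exacts [⟨0, c.ne_zero 0, e⟩, ⟨1, c.ne_zero 1, e⟩, ⟨2, one_ne_zero, P.ord_one.trans e⟩]

end PT

open PT in
theorem stPT : St_PT := by
  intro F _ _ _ v c P
  obtain ⟨w1, j₀, w2, w3⟩ := co c P
  refine ⟨?_, fun x ⟨hx, M, hM⟩ => ?_⟩
  · set w := ![c.ξ 0, c.ξ 1, 1]
    have h1 : ∀ j, P.unif ^ c.H P * w j ∈ P.O := fun j =>
      mem_Ge_zero.1 (Ge_mul' (unif_zpow_mem P _) (w1 j) (by omega))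
    have h2 := zpow_ne_zero (c.H P) P.unif_ne_zero
    have h3 := (ev_ne (P := P) (mul_ne_zero h2 w2) (by
      rw [P.ord_mul h2 w2, P.ord_zpow, P.ord_unif, w3]; omega)).2
    obtain ⟨j, -, hj⟩ := Finset.univ.exists_max_image
      (fun j => v.O.valuation (ev P (P.unif ^ c.H P * w j))) ⟨0, Finset.mem_univ _⟩
    have h4 : ev P (P.unif ^ c.H P * w j) ≠ 0 := fun e => h3 (by simpa [e] using hj j₀)
    refine ⟨fun i => v.r (ev P (P.unif ^ c.H P * w i) / ev P (P.unif ^ c.H P * w j)),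
      fun e => ?_, P.unif ^ c.H P / algebraMap ℂ F (ev P (P.unif ^ c.H P * w j)), fun i => ?_⟩
    · have := congrFun e j
      simp only [div_self h4] at this
      exact one_ne_zero (sp_one.2.symm.trans this)
    · have h5 := sp_div (sp_ev (h1 i)) (sp_const _) h4
      rw [div_mul_eq_mul_div]
      refine ⟨h5.1, ?_⟩
      rw [ev, h5.2]
      refine ⟨(v.O.valuation_le_one_iff _).1 ?_, rfl⟩
      rw [map_div₀]
      exact div_le_one_of_le₀ (hj i (Finset.mem_univ _)) zero_le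
  have e0 := sp_ev (hM 0).1
  have e1 := sp_ev (hM 1).1
  have e2 := sp_ev (hM 2).1
  obtain ⟨j, hj⟩ := Function.ne_iff.1 hx
  have h1 := sp_ne (hM j).2 hj
  have hM0 : M ≠ 0 := left_ne_zero_of_mul (sp_ne (sp_ev (hM j).1) h1)
  have hO : P.ord M = c.H P := by
    have h2 := (P.mem_iff_ord (mul_ne_zero hM0 w2)).1 (hM j₀).1
    rw [P.ord_mul hM0 w2] at h2
    by_contra h3
    exact h1 (ev_zero (Ge_mul' (mem_Ge_of_le le_rfl) (w1 j) (by omega))).2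
  refine ⟨fun h2 k => ?_, fun q hq => ?_, fun t a tb ab ht ha h => ?_, fun W hW hO' => ?_⟩
  · have h3 := sp_div (sp_ev (hM k.castSucc).1) e2 (sp_ne (hM 2).2 h2)
    have h4 : M * ![c.ξ 0, c.ξ 1, 1] k.castSucc / (M * ![c.ξ 0, c.ξ 1, 1] 2) = c.ξ k := by
      fin_cases k <;> simp [mul_div_cancel_left₀ _ hM0]
    rw [h4] at h3
    exact ⟨h3.1, by rw [ev, h3.2]; exact sp_div (hM _).2 (hM 2).2 h2⟩
  · have h2 : ∀ k : Fin 2, x k.castSucc = x 2 * q k := fun k => by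
      refine sp_uniq (hM _).2 ?_
      have h3 := sp_mul e2 (sp_ev (hq k).1)
      have h4 : M * ![c.ξ 0, c.ξ 1, 1] 2 * c.ξ k = M * ![c.ξ 0, c.ξ 1, 1] k.castSucc := by
        fin_cases k <;> simp
      rw [h4] at h3
      rw [ev, h3.2]
      exact sp_mul (hM 2).2 (hq k).2
    refine ⟨fun e => hx ?_, h2 0, h2 1⟩
    ext i
    fin_cases i
    exacts [by simpa [e] using h2 0, by simpa [e] using h2 1, e]
  · have h2 := sp_sub (sp_sub e1 (sp_mul (sp_const t) e0)) (sp_mul (sp_const a) e2)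
    have h3 := ev_zero (Ge_mul' (k := 1) (mem_Ge_of_le (P := P) (z := M) le_rfl)
      (mem_Ge_of_le (z := c.ξ 1 - t • c.ξ 0 - algebraMap ℂ F a) le_rfl) (by omega))
    have h4 := sp_sub (sp_sub (hM 1).2 (sp_mul ht (hM 0).2)) (sp_mul ha (hM 2).2)
    rw [sp_uniq h2 (by convert h3 using 1; simp [Algebra.smul_def]; ring)] at h4
    linear_combination sp_uniq h4 sp_zero
  · obtain ⟨h2, h3⟩ := ev_ne (P := P) (div_ne_zero hW hM0) (by rw [ord_div hW hM0]; omega)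
    refine ⟨_, _, h3, fun j => ⟨(hM j).2, ?_⟩⟩
    have h4 := sp_mul (sp_ev h2) (sp_ev (hM j).1)
    rwa [← mul_assoc, div_mul_cancel₀ _ hM0] at h4

end G1
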