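import Pool.Agent.Lib.G1.Blue

open Finsupp MvPolynomial IntermediateField Module
open Pool.Agent.Lib.MP_cc3443_ag Pool.Agent.Lib.MP_3c72fe_ag

noncomputable section

namespace G1

namespace R10

variable {ι : Type} [Fintype ι] [DecidableEq ι]

/-- The numerical inequality for a reduced class with at least eleven points. -/
lemma num_big (hc : 4 ≤ Fintype.card ι) {m : ι → ℕ} {d : ℕ} {j : ι}
    (hmin : ∀ i, m i ≠ 0 → m j ≤ m i)
    (hS : 11 ≤ (Finset.univ.filter fun i => m i ≠ 0).card)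
    (hb : ∑ i, (m i : ℤ) ≤ 3 * d + m j)
    (hred : ∀ a b e, a ≠ b → a ≠ e → b ≠ e → m a + m b + m e ≤ d) :
    ∑ i, (m i : ℤ) ^ 2 ≤ d ^ 2 := by
  obtain ⟨a, b, e, ha, hb', he, hab, hae, hbe, h3, h4, h5⟩ := exists_top hc m j
  set R := (((Finset.univ.erase j).erase a).erase b).erase e with hR
  have h6 := sum_split ha hb' he hab hae hbe fun i => (m i : ℤ)
  have h7 := sum_split ha hb' he hab hae hbe fun i => (m i : ℤ) ^ 2
  rw [← hR] at h6 h7
  have h8 := hred a b e hab hae hbe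
  have h9 : 7 ≤ (R.filter fun i => m i ≠ 0).card := by
    have h1 : (Finset.univ.filter fun i => m i ≠ 0) ⊆
        (R.filter fun i => m i ≠ 0) ∪ {j, a, b, e} := fun i hi => by
      simp only [hR, Finset.mem_filter, Finset.mem_union, Finset.mem_erase, Finset.mem_univ,
        Finset.mem_insert, Finset.mem_singleton] at hi ⊢
      tauto
    have h2 := (Finset.card_le_card h1).trans (Finset.card_union_le _ _)
    have h3 : ({j, a, b, e} : Finset ι).card ≤ 4 := Finset.card_le_four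
    omega
  have h10 : m j ≤ m e := by
    obtain ⟨i, hi⟩ := Finset.card_pos.1 (show 0 < (R.filter fun i => m i ≠ 0).card by omega)
    rw [Finset.mem_filter] at hi
    exact (hmin i hi.2).trans (h5 i hi.1)
  have h11 : ∑ i ∈ R, (m i : ℤ) ^ 2 ≤ (m e + m j) * ∑ i ∈ R, (m i : ℤ) -
      (R.filter fun i => m i ≠ 0).card * (m e * m j) := by
    rw [Finset.card_filter, Finset.mul_sum, Nat.cast_sum, Finset.sum_mul, ← Finset.sum_sub_distrib]
    refine Finset.sum_le_sum fun i hi => ?_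
    by_cases h : m i = 0
    · simp [h]
    · have h1 : (m j : ℤ) ≤ m i := by exact_mod_cast hmin i h
      have h2 : (m i : ℤ) ≤ m e := by exact_mod_cast h5 i hi
      rw [if_pos h]
      push_cast
      nlinarith [mul_nonneg (sub_nonneg.2 h1) (sub_nonneg.2 h2)]
  obtain ⟨s, hs⟩ : ∃ s : ℕ, m a = m e + s := ⟨m a - m e, by omega⟩
  obtain ⟨t, ht⟩ : ∃ t : ℕ, m b = m e + t := ⟨m b - m e, by omega⟩
  obtain ⟨u, hu⟩ : ∃ u : ℕ, d = 3 * m e + s + t + u := ⟨d - (3 * m e + s + t), by omega⟩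
  obtain ⟨w, hw⟩ : ∃ w : ℕ, m e = m j + w := ⟨m e - m j, by omega⟩
  have h12 : (7 : ℤ) * (m e * m j) ≤ (R.filter fun i => m i ≠ 0).card * (m e * m j) :=
    mul_le_mul_of_nonneg_right (by exact_mod_cast h9) (by positivity)
  have h13 : ((m e : ℤ) + m j) * ∑ i ∈ R, (m i : ℤ) ≤ (m e + m j) * (3 * d - m a - m b - m e) :=
    mul_le_mul_of_nonneg_left (by omega) (by positivity)
  rw [h7]
  generalize ∑ i ∈ R, (m i : ℤ) ^ 2 = S₂ at *
  have h14 : S₂ ≤ (m e + m j) * (3 * d - m a - m b - m e) - 7 * (m e * m j) := by omega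
  rw [hs, ht, hu, hw] at h14 ⊢
  push_cast at h14 ⊢
  have h15 : (0 : ℤ) ≤ w * (2 * s + 2 * t + 3 * u) + 2 * s * t + u ^ 2 + 2 * u * (s + t) +
      m j * w := by positivity
  nlinarith

variable {K : Type} [Field K] [Algebra ℂ K] [IsFF K] {p : ι → Fin 2 → ℂ}

/-- Moving one point bounds the canonical degree. -/
lemma sum_le (c : Crv K) (h0 : chi K = 0) (hp : VG p) {j : ι} (hj : c.m p j ≠ 0) :
    ∑ i, (c.m p i : ℤ) ≤ 3 * c.d + c.m p j := by
  by_cases h1 : c.m p j = 1
  · obtain ⟨δ, h2, h3⟩ := c.exists_simple hp h1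
    have hfj : c.f ∈ mi (p j) := by simpa using c.f_mem j (n := 1) h1.ge
    obtain ⟨W, hW, hW'⟩ := c.equigeneric hp.inj hfj
    have h4 := degree_nonneg_of_mem (hW' δ (Function.update 1 j 0) fun i => by
      by_cases hi : i = j
      · simp [hi]
      · exact Or.inr ⟨by simp [hi], h2 i hi⟩) fun h => h3 (rigid_one ((c.ker _).1 h) hfj)
    rw [map_add, c.degree_cls_three] at h4
    omega
  · have := c.sum_le_chi (nr_of_chi (by omega)) hp (j := j) (by omega)
    omega

omit [Fintype ι] [DecidableEq ι] in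
lemma vg_comp {κ : Type} (hp : VG p) {φ : κ → ι} (hφ : Function.Injective φ) : VG (p ∘ φ) := by
  intro v
  obtain ⟨δ, hδ⟩ := hp (Function.extend φ v 0)
  exact ⟨δ, fun i k => by rw [Function.comp, hδ, hφ.extend_apply]⟩

lemma small (h10 : St_M10) (M : WM K) (hc : 10 ≤ Fintype.card ι) (c : Crv K) (hp : VG p)
    (hS : (Finset.univ.filter fun i => c.m p i ≠ 0).card ≤ 10) :
    ∑ i, c.m p i ^ 2 ≤ c.d ^ 2 := by
  obtain ⟨T, h1, -, h2⟩ := Finset.exists_subsuperset_card_eq (Finset.subset_univ _) hS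
    (by simpa using hc)
  let φ : Fin 10 ≃ T := (T.equivFinOfCardEq h2).symm
  have h3 := h10 K c (p ∘ fun i => (φ i : ι)) M
    (vg_comp hp (Subtype.val_injective.comp φ.injective))
  have h4 : ∑ i, c.m (p ∘ fun i => (φ i : ι)) i ^ 2 = ∑ i ∈ T, c.m p i ^ 2 := by
    rw [← Finset.sum_coe_sort T, ← φ.sum_comp]
    rfl
  rw [h4, Finset.sum_subset (Finset.subset_univ T)] at h3
  · exact h3
  · intro i _ hi
    have : ¬ c.m p i ≠ 0 := fun h => hi (h1 (by simpa using h))
    simpa using this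

lemma main (h10 : St_M10) (M : WM K) (h0 : chi K = 0) (hc : 10 ≤ Fintype.card ι) (d : ℕ) :
    ∀ (c : Crv K) (p : ι → Fin 2 → ℂ), c.d = d → VG p → 0 ≤ degree (c.A p) := by
  have hK : NR K := nr_of_chi (by omega)
  induction d using Nat.strong_induction_on with
  | _ d ih =>
  intro c p hd hp
  by_cases hS : (Finset.univ.filter fun i => c.m p i ≠ 0).card ≤ 10
  · have := small h10 M hc c hp hS
    rw [Crv.degree_A]
    zify at this
    omega
  obtain ⟨j, hj, hmin⟩ := Finset.exists_min_image (Finset.univ.filter fun i => c.m p i ≠ 0) (c.m p)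
    (Finset.card_pos.1 (by omega))
  have hj' : c.m p j ≠ 0 := (Finset.mem_filter.1 hj).2
  by_cases hred : ∀ a b e, a ≠ b → a ≠ e → b ≠ e → c.m p a + c.m p b + c.m p e ≤ c.d
  · have := num_big (by omega) (fun i hi => hmin i (by simpa using hi)) (by omega)
      (sum_le c h0 hp hj') hred
    rw [Crv.degree_A]
    omega
  · push Not at hred
    obtain ⟨a, b, e, hab, hae, hbe, h⟩ := hred
    obtain ⟨l, -, hl⟩ := Finset.exists_mem_notMem_of_card_lt_card (s := {a, b, e})
      (t := Finset.univ) (by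
        have : ({a, b, e} : Finset ι).card ≤ 3 := Finset.card_le_three
        rw [Finset.card_univ]; omega)
    simp only [Finset.mem_insert, Finset.mem_singleton, not_or] at hl
    have h7 : c.m p j + 2 ≤ c.d := c.add_two_le hK (p j)
    obtain ⟨c', p', hp', h8, -, h9⟩ := c.exists_smaller hK hp (by omega) (Ne.symm hl.1)
      (Ne.symm hl.2.1) (Ne.symm hl.2.2) hab hae hbe h
    exact h9 ▸ ih _ (hd ▸ h8) c' p' rfl hp'

end R10

theorem stR10 (hWEI : St_WEI) (hM10 : St_M10) : St_R10 := by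
  intro F _ _ _ r c p hr M hp
  have := R10.main hM10 M (hWEI F M).1 (by simpa using hr) _ c p rfl hp
  rw [Crv.degree_A] at this
  zify
  omega

end G1
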