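import Pool.Agent.Lib.G1.Basic

/-! Good reduction of a Weierstrass model: specialisation of places and of divisors. -/

open Finsupp IntermediateField Module
open Pool.Agent.Lib.MP_cc3443_ag Pool.Agent.Lib.MP_3c72fe_ag

noncomputable section

namespace G1

namespace RED

open Rd

section
variable {K : Type} [Field K] [Algebra ℂ K] [IsFF K] (M : WM K)

/-- The place `P` has centre `(a, b)`. -/
def Cen (P : Place K) (a b : ℂ) : Prop := (rd P).Sp M.x a ∧ (rd P).Sp M.y b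

/-- The facts on places of a Weierstrass model. -/
structure Wf (O : Place K) : Prop where
  ox : O.ord M.x = -2
  oy : O.ord M.y = -3
  mem : ∀ P, P ≠ O → M.x ∈ P.O ∧ M.y ∈ P.O
  ex : ∀ a b : ℂ, b ^ 2 = ∏ i, (a - M.e i) → ∃! P, Cen M P a b
  o1 : ∀ P a b, Cen M P a b →
    (b ≠ 0 → P.ord (M.x - algebraMap ℂ K a) = 1) ∧ (b = 0 → P.ord M.y = 1)

lemma exists_Wf (hW : St_WEI) : ∃ O, Wf M O := by
  obtain ⟨-, -, -, ⟨O, h1, h2, h3⟩, h4, h5⟩ := hW K M
  exact ⟨O, h1, h2, h3, fun a b h => by simpa only [Cen, sp_rd_iff] using h4 a b h,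
    fun P a b h => h5 P a b (sp_rd_iff.1 h.1) (sp_rd_iff.1 h.2)⟩

variable {M} {O P P' : Place K} {a b : ℂ}

lemma Cen.eq (h : Cen M P a b) : b ^ 2 = ∏ i, (a - M.e i) :=
  (h.2.pow 2).unique ((Sp.prod fun i _ => h.1.sub (sp_const (M.e i))).congr M.eq.symm rfl)

lemma ord_add_const {g : K} (h : O.ord g < 0) (c : ℂ) :
    g + algebraMap ℂ K c ≠ 0 ∧ O.ord (g + algebraMap ℂ K c) = O.ord g :=
  ord_eq_of_sub (by rintro rfl; simp at h) (by
    rw [add_sub_cancel_left]; exact Ge_mono (by omega) (const_mem_Ge c))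

lemma pos_of_sp {g : K} (h0 : g ≠ 0) (h : (rd P).Sp g 0) : 0 < P.ord g :=
  (mem_Ge_iff h0).1 (by simpa using sp_rd_iff.1 h)

lemma x_ne (a : ℂ) : M.x - algebraMap ℂ K a ≠ 0 := transc_sub_ne M.tr a

lemma Cen.pos (h : Cen M P a b) : 0 < P.ord (M.x - algebraMap ℂ K a) :=
  pos_of_sp (x_ne a) ((h.1.sub (sp_const a)).congr rfl (sub_self a))

lemma Cen.root (h : Cen M P a 0) : ∃ j, a = M.e j := by
  obtain ⟨j, -, hj⟩ := Finset.prod_eq_zero_iff.1 (h.eq.symm.trans (by simp))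
  exact ⟨j, sub_eq_zero.1 hj⟩

variable (W : Wf M O)
include W

lemma Wf.ne (h : Cen M P a b) : P ≠ O := by
  rintro rfl
  have := ord_nonneg h.1.1
  rw [W.ox] at this
  omega

lemma Wf.uniq (h : Cen M P a b) (h' : Cen M P' a b) : P = P' := (W.ex a b h.eq).unique h h'

lemma Wf.y_ne (c : ℂ) : M.y + algebraMap ℂ K c ≠ 0 := (ord_add_const (by rw [W.oy]; omega) c).1

lemma Wf.two (h : Cen M P a 0) : P.ord (M.x - algebraMap ℂ K a) = 2 := by
  obtain ⟨j, rfl⟩ := h.root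
  have h1 : (rd P).Sp (∏ i ∈ Finset.univ.erase j, (M.x - algebraMap ℂ K (M.e i))) _ :=
    Sp.prod fun i _ => h.1.sub (sp_const (M.e i))
  have h2 : ∏ i ∈ Finset.univ.erase j, (M.e j - M.e i) ≠ 0 := Finset.prod_ne_zero_iff.2
    fun i hi => sub_ne_zero.2 fun e => (Finset.mem_erase.1 hi).1 (M.inj e).symm
  have h3 := congrArg P.ord M.eq
  rw [← Finset.mul_prod_erase _ _ (Finset.mem_univ j), P.ord_mul (x_ne _) (h1.ne_zero h2),
    ord_eq_zero_of_sp h1 h2, ← zpow_natCast, P.ord_zpow, (W.o1 P _ _ h).2 rfl] at h3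
  omega

lemma Wf.divx (h : Cen M P a b) (h' : Cen M P' a (-b)) :
    divF (M.x - algebraMap ℂ K a) = single P 1 + single P' 1 - single O 2 := by
  classical
  have := eq_neg_of_mem (g := M.x - algebraMap ℂ K a) (E := -(single P 1 + single P' 1 - single O 2))
    (mem_LL.2 fun Q => mem_Ge_of_le ?_) (x_ne a) (by simp)
  · rwa [neg_neg] at this
  have h1 := W.ne h
  have h2 := W.ne h'
  simp only [Finsupp.neg_apply, neg_neg, Finsupp.sub_apply, Finsupp.add_apply, single_apply]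
  by_cases hQ : O = Q
  · subst hQ
    have := (ord_add_const (O := O) (g := M.x) (by rw [W.ox]; omega) (-a)).2
    rw [map_neg, ← sub_eq_add_neg, W.ox] at this
    simp [h1, h2, this]
  have h3 := ord_nonneg (sub_mem (W.mem Q (Ne.symm hQ)).1 (Q.const a))
  rw [if_neg hQ]
  split_ifs with h4 h5 h5
  · subst h4 h5
    obtain rfl : b = 0 := CharZero.eq_neg_self_iff.1 (h.2.unique h'.2)
    rw [W.two h]; rfl
  · have := h.pos; subst h4; omega
  · have := h'.pos; subst h5; omega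
  · omega

lemma Wf.pair (a : ℂ) : ∃ b P P', Cen M P a b ∧ Cen M P' a (-b) := by
  obtain ⟨b, hb⟩ := IsAlgClosed.exists_pow_nat_eq (∏ i, (a - M.e i)) two_pos
  obtain ⟨P, hP, -⟩ := W.ex a b hb
  obtain ⟨P', hP', -⟩ := W.ex a (-b) (by rw [neg_sq, hb])
  exact ⟨b, P, P', hP, hP'⟩

end

variable {F K : Type} [Field F] [Algebra ℂ F] [IsFF F] [Field K] [Algebra ℂ K] [IsFF K]
  {v : Rd ℂ ℂ} {R : Rd F K} {M : WM F} {Mb : WM K} {O P : Place F} {Ob z : Place K}
  {sp : Place F → Place K} {a b ab bb : ℂ} {g g' : F} {gb gb' : K}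

variable (v R M Mb O Ob sp) in
/-- The data of the reduction. -/
structure Dat : Prop where
  ov : Over v R
  W : Wf M O
  Wb : Wf Mb Ob
  x : R.Sp M.x Mb.x
  y : R.Sp M.y Mb.y
  e : ∀ i, v.Sp (M.e i) (Mb.e i)
  sp : ∀ P, (∃ a b ab bb, Cen M P a b ∧ v.Sp a ab ∧ v.Sp b bb ∧ Cen Mb (sp P) ab bb) ∨
    (sp P = Ob ∧ ∀ a b, Cen M P a b → a ∉ v.O)

omit [IsFF K] in
lemma snd_mem (he : ∀ i, v.Sp (M.e i) (Mb.e i)) (h : Cen M P a b) (ha : v.Sp a ab) :
    v.Sp b (v.r b) ∧ v.r b ^ 2 = ∏ i, (ab - Mb.e i) := by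
  have h1 := (Sp.prod (s := Finset.univ) fun i _ => ha.sub (he i)).congr h.eq.symm rfl
  have h2 := sp_r (mem_of_pow_mem two_ne_zero h1.1)
  exact ⟨h2, (h2.pow 2).unique h1⟩

variable (R sp) in
/-- The divisor of the reduction is the specialisation of the divisor. -/
def Q (g : F) (gb : K) : Prop := R.Sp g gb ∧ gb ≠ 0 ∧ divF gb = (divF g).mapDomain sp

lemma Q.mul (h : Q R sp g gb) (h' : Q R sp g' gb') : Q R sp (g * g') (gb * gb') :=
  ⟨h.1.mul h'.1, mul_ne_zero h.2.1 h'.2.1, by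
    rw [divF_mul h.2.1 h'.2.1, divF_mul (h.1.ne_zero h.2.1) (h'.1.ne_zero h'.2.1), mapDomain_add,
      h.2.2, h'.2.2]⟩

variable (D : Dat v R M Mb O Ob sp)
include D

lemma Dat.cen (h : Cen M P a b) (ha : v.Sp a ab) (hb : v.Sp b bb) : Cen Mb (sp P) ab bb := by
  rcases D.sp P with ⟨a', b', ab', bb', h1, h2, h3, h4⟩ | ⟨-, h1⟩
  · obtain rfl := h.1.unique h1.1
    obtain rfl := h.2.unique h1.2
    rwa [ha.unique h2, hb.unique h3]
  · exact absurd ha.1 (h1 a b h)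

lemma Dat.out (h : ∀ a b, Cen M P a b → a ∉ v.O) : sp P = Ob :=
  ((D.sp P).resolve_left fun ⟨a, b, _, _, h1, h2, _⟩ => h a b h1 h2.1).1

lemma Dat.inf : sp O = Ob := D.out fun _ _ h => absurd rfl (D.W.ne h)

lemma Dat.aff (h : sp P ≠ Ob) : M.x ∈ P.O ∧ M.y ∈ P.O :=
  D.W.mem P fun e => h (e ▸ D.inf)

lemma Dat.lin (ha : v.Sp a ab) :
    Q R sp (M.x - algebraMap ℂ F a) (Mb.x - algebraMap ℂ K ab) := by
  obtain ⟨b, P, P', h, h'⟩ := D.W.pair a
  have hb := (snd_mem D.e h ha).1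
  refine ⟨D.x.sub (D.ov.const ha), x_ne ab, ?_⟩
  rw [D.W.divx h h', D.Wb.divx (D.cen h ha hb) (D.cen h' ha hb.neg), mapDomain_sub', mapDomain_add,
    mapDomain_single, mapDomain_single, mapDomain_single, D.inf]

lemma Dat.lin' (a : ℂ) : ∃ (κ : ℂ) (l : K), κ ≠ 0 ∧ Q R sp (κ • (M.x - algebraMap ℂ F a)) l := by
  by_cases ha : a ∈ v.O
  · exact ⟨1, _, one_ne_zero, by simpa using D.lin (sp_r ha)⟩
  have a0 : a ≠ 0 := by rintro rfl; exact ha (zero_mem _)
  obtain ⟨b, P, P', h, h'⟩ := D.W.pair a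
  refine ⟨a⁻¹, -1, inv_ne_zero a0,
    ((D.ov.smul (sp_inv_of_not_mem ha) D.x).sub sp_one).congr ?_ (by simp), by simp, ?_⟩
  · rw [smul_sub, Algebra.smul_def a⁻¹ (algebraMap ℂ F a), ← map_mul, inv_mul_cancel₀ a0, map_one]
  · rw [divF_smul (inv_ne_zero a0), D.W.divx h h', mapDomain_sub', mapDomain_add, mapDomain_single,
      mapDomain_single, mapDomain_single, D.inf,
      D.out fun _ _ h1 => h.1.unique h1.1 ▸ ha, D.out fun _ _ h1 => h'.1.unique h1.1 ▸ ha,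
      ← single_add, one_add_one_eq_two, sub_self]
    exact Finsupp.ext fun Q => by simp

lemma Dat.poly {γ : Polynomial ℂ} (h : R.Sp (Polynomial.aeval M.x γ) gb) (h0 : gb ≠ 0) :
    Q R sp (Polynomial.aeval M.x γ) gb := by
  have h1 : ∀ s : Multiset ℂ, ∃ (κ : ℂ) (l : K), κ ≠ 0 ∧
      Q R sp (κ • (s.map fun a => M.x - algebraMap ℂ F a).prod) l := fun s => by
    induction s using Multiset.induction_on with
    | empty => exact ⟨1, 1, one_ne_zero, by simpa using sp_one, one_ne_zero, by simp⟩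
    | cons a s ih =>
      obtain ⟨κ, l, h1, h2⟩ := ih
      obtain ⟨κ', l', h3, h4⟩ := D.lin' a
      exact ⟨κ' * κ, l' * l, mul_ne_zero h3 h1, by
        simpa only [Multiset.map_cons, Multiset.prod_cons, smul_mul_smul_comm] using h4.mul h2⟩
  obtain ⟨κ, l, h2, h3⟩ := h1 γ.roots
  have h4 : Polynomial.aeval M.x γ = algebraMap ℂ F (γ.leadingCoeff / κ) *
      κ • (γ.roots.map fun a => M.x - algebraMap ℂ F a).prod := by
    conv_lhs => rw [(IsAlgClosed.splits γ).eq_prod_roots]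
    rw [← Algebra.smul_def, smul_smul, div_mul_cancel₀ _ h2, Algebra.smul_def]
    simp [map_multiset_prod]
  have h5 := h.div h3.1 h3.2.1
  rw [h4, mul_div_cancel_right₀ _ (h3.1.ne_zero h3.2.1)] at h5
  have h6 := D.ov.const (sp_r (D.ov.1 _ h5.1))
  have h7 := Q.mul ⟨h5, div_ne_zero h0 h3.2.1, by
    rw [divF_const, h5.unique h6, divF_const, mapDomain_zero]⟩ h3
  rwa [← h4, div_mul_cancel₀ _ h3.2.1] at h7

lemma Dat.le (hz : z ≠ Ob) (n : ℕ) {α β αb βb : Polynomial ℂ} (hα : RQ v α αb) (hβ : RQ v β βb)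
    (hg : g = Polynomial.aeval M.x α + Polynomial.aeval M.x β * M.y)
    (h : R.Sp g gb) (h0 : gb ≠ 0) (hn : z.ord gb < n) : (divF g).mapDomain sp z ≤ z.ord gb := by
  induction n using Nat.strong_induction_on generalizing α β αb βb g gb with
  | _ n ih =>
  have g0 := h.ne_zero h0
  have h3 : 0 ≤ z.ord gb := by
    rw [h.unique (((hα.aeval D.ov D.x).add ((hβ.aeval D.ov D.x).mul D.y)).congr hg.symm rfl)]
    exact ord_nonneg (add_mem (z.aeval_mem (D.Wb.mem z hz).1 αb)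
      (mul_mem (z.aeval_mem (D.Wb.mem z hz).1 βb) (D.Wb.mem z hz).2))
  by_cases h1 : ∀ P, sp P = z → P.ord g ≤ 0
  · have h2 := mapDomain_nonneg_at (E := 0 - divF g) sp (b := z) fun P hP => by simpa using h1 P hP
    rw [mapDomain_sub', mapDomain_zero, zero_sub, Finsupp.neg_apply] at h2
    omega
  push Not at h1
  obtain ⟨P, rfl, h1⟩ := h1
  obtain ⟨c, η, cb, ηb, h2, hc, hη, hb⟩ := (D.sp P).resolve_right fun h => hz h.1
  have h4 : α.eval c + β.eval c * η = 0 :=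
    (((sp_ev_aeval₁ h2.1 α).add ((sp_ev_aeval₁ h2.1 β).mul h2.2)).congr hg.symm rfl).unique
      (sp_rd_iff.2 (by simpa using mem_Ge_of_le h1))
  have hf := RQ.prod (s := Finset.univ) fun i _ => RQ.X.sub (RQ.C (D.e i))
  obtain ⟨α₁, e1⟩ : Polynomial.X - Polynomial.C c ∣
      η • α + β * ∏ i, (Polynomial.X - Polynomial.C (M.e i)) := Polynomial.dvd_iff_isRoot.2 (by
    simp only [Polynomial.IsRoot, Polynomial.eval_add, Polynomial.eval_smul, Polynomial.eval_mul,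
      Polynomial.eval_prod, Polynomial.eval_sub, Polynomial.eval_X, Polynomial.eval_C, ← h2.eq,
      smul_eq_mul]
    linear_combination η * h4)
  obtain ⟨β₁, e2⟩ : Polynomial.X - Polynomial.C c ∣ α + η • β := Polynomial.dvd_iff_isRoot.2 (by
    simp only [Polynomial.IsRoot, Polynomial.eval_add, Polynomial.eval_smul, smul_eq_mul]
    linear_combination h4)
  obtain ⟨αb₁, hα₁, -⟩ := RQ.of_mul hc (e1 ▸ (RQ.smul hη hα).add (hβ.mul hf))
  obtain ⟨βb₁, hβ₁, -⟩ := RQ.of_mul hc (e2 ▸ hα.add (RQ.smul hη hβ))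
  have e3 : g * (M.y + algebraMap ℂ F η) = (M.x - algebraMap ℂ F c) *
      (Polynomial.aeval M.x α₁ + Polynomial.aeval M.x β₁ * M.y) := by
    have f1 := congrArg (Polynomial.aeval M.x) e1
    have f2 := congrArg (Polynomial.aeval M.x) e2
    simp only [map_add, map_mul, map_prod, map_sub, Polynomial.aeval_X, Polynomial.aeval_C, ← M.eq,
      Algebra.smul_def, AlgHom.commutes] at f1 f2
    rw [hg]
    linear_combination f1 + M.y * f2
  have s1 := (hα₁.aeval D.ov D.x).add ((hβ₁.aeval D.ov D.x).mul D.y)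
  have q := D.lin hc
  have e4 := (h.mul (D.y.add (D.ov.const hη))).unique ((q.1.mul s1).congr e3.symm rfl)
  have n1 := right_ne_zero_of_mul (e4 ▸ mul_ne_zero h0 (D.Wb.y_ne ηb))
  have e5 := congrArg (sp P).ord e4
  rw [(sp P).ord_mul h0 (D.Wb.y_ne ηb), (sp P).ord_mul q.2.1 n1] at e5
  have e6 := congrArg (fun t => (divF t).mapDomain sp (sp P)) e3
  simp only [divF_mul g0 (D.W.y_ne η), divF_mul (x_ne c) (s1.ne_zero n1), mapDomain_add,
    Finsupp.add_apply, ← q.2.2, divF_apply] at e6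
  have r1 : ∀ P', sp P' = sp P → 0 ≤ divF (M.y + algebraMap ℂ F η) P' := fun P' hP' =>
    ord_nonneg (add_mem (D.aff (hP' ▸ hz)).2 (P'.const η))
  have k : (sp P).ord (Mb.y + algebraMap ℂ K ηb) < (sp P).ord (Mb.x - algebraMap ℂ K cb) ∧
      (sp P).ord (Mb.y + algebraMap ℂ K ηb) ≤
        (divF (M.y + algebraMap ℂ F η)).mapDomain sp (sp P) := by
    by_cases h5 : ηb = 0
    · subst h5
      obtain ⟨P', h6, -⟩ := D.W.ex c (-η) (by rw [neg_sq, h2.eq])
      have h7 : sp P' = sp P := D.Wb.uniq (D.cen h6 hc (hη.neg.congr rfl neg_zero)) hb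
      have h8 := le_mapDomain_at sp (a := P') fun a ha => r1 a (ha.trans h7)
      have h9 := pos_of_sp (D.W.y_ne η) ((h6.2.add (sp_const η)).congr rfl (neg_add_cancel η))
      rw [h7, divF_apply] at h8
      rw [map_zero, add_zero, (D.Wb.o1 _ _ _ hb).2 rfl, D.Wb.two hb]
      omega
    · rw [ord_eq_zero_of_sp (hb.2.add (sp_const ηb)) (by simpa [← two_mul] using h5)]
      exact ⟨hb.pos, mapDomain_nonneg_at sp r1⟩
  have := ih (n - 1) (by omega) hα₁ hβ₁ rfl s1 n1 (by omega)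
  omega

end RED

open RED Rd in
theorem stRED (hW : St_WEI) (hG : St_GM) : St_RED := by
  classical
  intro F K _ _ _ _ _ _ v R M ov gd
  obtain ⟨⟨Mb, hx, hy, he⟩, -, h3, -⟩ := hG F K v R M ov gd
  obtain ⟨O, W⟩ := exists_Wf M hW
  obtain ⟨Ob, Wb⟩ := exists_Wf Mb hW
  have h1 : ∀ P : Place F, ∃ z, (∃ a b ab bb, Cen M P a b ∧ v.Sp a ab ∧ v.Sp b bb ∧ Cen Mb z ab bb) ∨
      (z = Ob ∧ ∀ a b, Cen M P a b → a ∉ v.O) := fun P => by
    by_cases h : ∀ a b, Cen M P a b → a ∉ v.O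
    · exact ⟨Ob, Or.inr ⟨rfl, h⟩⟩
    push Not at h
    obtain ⟨a, b, h, ha⟩ := h
    obtain ⟨h1, h2⟩ := snd_mem he h (sp_r ha)
    obtain ⟨z, hz, -⟩ := Wb.ex _ _ h2
    exact ⟨z, Or.inl ⟨a, b, _, _, h, sp_r ha, h1, hz⟩⟩
  choose sp hsp using h1
  have D : Dat v R M Mb O Ob sp := ⟨ov, W, Wb, hx, hy, he, hsp⟩
  have h4 : ∀ g gb, R.Sp g gb → gb ≠ 0 → ∀ z, z ≠ Ob → (divF g).mapDomain sp z ≤ z.ord gb := by
    intro g gb hg h0 z hz
    obtain ⟨α, β, γ, αb, βb, γb, hα, hβ, hγ, γ0, e⟩ := h3 g hg.1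
    have q := D.poly (hγ.aeval ov hx) fun h => Mb.tr ⟨γb, γ0, h⟩
    have := D.le hz ((z.ord (gb * Polynomial.aeval Mb.x γb)).toNat + 1) hα hβ e (hg.mul q.1)
      (mul_ne_zero h0 q.2.1) (by omega)
    rw [divF_mul (hg.ne_zero h0) (q.1.ne_zero q.2.1), mapDomain_add, Finsupp.add_apply, ← q.2.2,
      z.ord_mul h0 q.2.1, divF_apply] at this
    omega
  have y0 : Mb.y ≠ 0 := by simpa using Wb.y_ne 0
  refine ⟨sp, fun g hg => ?_, fun z => ?_⟩
  · have h5 : divF (R.r g) - (divF g).mapDomain sp =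
        single Ob ((divF (R.r g) - (divF g).mapDomain sp) Ob) := by
      ext z
      by_cases hz : z = Ob
      · rw [hz, single_eq_same]
      have h6 := h4 g _ hg.sp hg.2 z hz
      have h7 := h4 _ _ (hg.sp.inv hg.2) (inv_ne_zero hg.2) z hz
      rw [divF_inv, ← zero_sub, mapDomain_sub', mapDomain_zero, zero_sub, Finsupp.neg_apply,
        z.ord_inv] at h7
      rw [single_eq_of_ne hz, Finsupp.sub_apply, divF_apply]
      omega
    have h6 := congrArg degree h5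
    rw [degree_single, map_sub, degree_mapDomain', degree_div, degree_div, sub_zero] at h6
    rwa [← h6, single_zero, sub_eq_zero] at h5
  by_cases hz : z = Ob
  · have x0 : Mb.x ≠ 0 := by simpa using x_ne (M := Mb) 0
    have h5 := hx.div hy y0
    refine ⟨_, h5.U (div_ne_zero x0 y0), by rw [h5.2, ord_div x0 y0, hz, Wb.ox, Wb.oy]; rfl,
      fun P hP => ?_⟩
    by_cases h6 : P = O
    · refine mem_O_of_ord ?_
      rw [ord_div (hx.ne_zero x0) (hy.ne_zero y0), h6, W.ox, W.oy]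
      omega
    have h7 : Cen M P _ _ := ⟨sp_ev (W.mem P h6).1, sp_ev (W.mem P h6).2⟩
    refine (h7.1.div h7.2 fun h8 => ?_).1
    rw [h8] at h7
    obtain ⟨j, hj⟩ := h7.root
    exact Wb.ne (D.cen h7 (hj ▸ he j) sp_zero) (hP.trans hz)
  have h5 : Cen Mb z _ _ := ⟨sp_ev (Wb.mem z hz).1, sp_ev (Wb.mem z hz).2⟩
  by_cases h6 : ev z Mb.y = 0
  · exact ⟨_, hy.U y0, by rw [hy.2, (Wb.o1 _ _ _ h5).2 h6], fun P hP => (D.aff (hP ▸ hz)).2⟩
  · obtain ⟨a, ha⟩ := v.exists_sp (ev z Mb.x)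
    have q := D.lin ha
    exact ⟨_, q.1.U q.2.1, by rw [q.1.2, (Wb.o1 _ _ _ h5).1 h6],
      fun P hP => sub_mem (D.aff (hP ▸ hz)).1 (P.const a)⟩

end G1
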