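import Pool.Agent.Lib.G1.Blue

open Finsupp IntermediateField Module
open Pool.Agent.Lib.MP_cc3443_ag Pool.Agent.Lib.MP_3c72fe_ag

noncomputable section

namespace G1

namespace RHL

variable {K E : Type} [Field K] [Algebra ℂ K] [IsFF K] [Field E] [Algebra ℂ E] [IsFF E]
  [Algebra E K] [IsScalarTower ℂ E K]

variable (E) in
/-- The restriction of a place to a subfield. -/
def res (z : Place K) : Place E where
  O := z.O.comap (algebraMap E K)
  ne_top := fun h => by
    obtain ⟨t, ht⟩ := IsFF.ex (K := E)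
    have h1 : ∀ g : E, algebraMap E K g ∈ z.O := fun g =>
      ValuationSubring.mem_comap.1 (h ▸ ValuationSubring.mem_top g)
    obtain ⟨c, hc⟩ := z.exists_res (h1 t)
    have h2 := h1 (t - algebraMap ℂ E c)⁻¹
    rw [IsScalarTower.algebraMap_apply ℂ E K, ← map_sub] at hc
    rw [map_inv₀, z.inv_mem_iff ((map_ne_zero _).2 (transc_sub_ne ht c))] at h2
    exact hc.not_ge h2
  const := fun c => by
    rw [ValuationSubring.mem_comap, ← IsScalarTower.algebraMap_apply]
    exact z.const c

lemma mem_res (z : Place K) (g : E) : g ∈ (res E z).O ↔ algebraMap E K g ∈ z.O := Iff.rfl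

lemma ord_zero (z : Place K) {g : E} (h0 : g ≠ 0) (h : (res E z).ord g = 0) :
    z.ord (algebraMap E K g) = 0 := by
  have h1 := (mem_res z g).1 (((res E z).mem_iff_ord h0).2 h.ge)
  have h2 := (mem_res z g⁻¹).1 (((res E z).mem_iff_ord (inv_ne_zero h0)).2 (by simp [h]))
  rw [map_inv₀, z.mem_iff_ord (inv_ne_zero ((map_ne_zero _).2 h0)), Place.ord_inv] at h2
  rw [z.mem_iff_ord ((map_ne_zero _).2 h0)] at h1
  omega

lemma ord_res (z : Place K) (g : E) : z.ord (algebraMap E K g) =
    (res E z).ord g * z.ord (algebraMap E K (res E z).unif) := by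
  rcases eq_or_ne g 0 with rfl | h0
  · simp
  have hu := (res E z).unif_ne_zero
  have h1 := zpow_ne_zero (-(res E z).ord g) hu
  have h2 := ord_zero z (mul_ne_zero h1 h0) (by
    rw [Place.ord_mul _ h1 h0, Place.ord_zpow, Place.ord_unif]; ring)
  rw [map_mul, z.ord_mul ((map_ne_zero _).2 h1) ((map_ne_zero _).2 h0), map_zpow₀,
    z.ord_zpow] at h2
  linarith

lemma one_le (z : Place K) : 1 ≤ z.ord (algebraMap E K (res E z).unif) := by
  have hu := (res E z).unif_ne_zero
  have h1 := mem_res z (res E z).unif⁻¹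
  rw [Place.mem_iff_ord _ (inv_ne_zero hu), map_inv₀,
    z.mem_iff_ord (inv_ne_zero ((map_ne_zero _).2 hu)), Place.ord_inv, Place.ord_inv,
    Place.ord_unif] at h1
  omega

lemma exists_lift {δ₀ : Derivation ℂ E E} (h : δ₀ ≠ 0) : ∃ δ : Derivation ℂ K K, δ ≠ 0 ∧
    ∀ g, δ (algebraMap E K g) = algebraMap E K (δ₀ g) := by
  obtain ⟨t, ht⟩ := IsFF.ex (K := E)
  obtain ⟨D, hD⟩ := exists_der (K := K)
  have h1 := deriv_ne_zero hD ((transcendental_algebraMap_iff (algebraMap E K).injective).2 ht)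
  let δ : Derivation ℂ K K := (algebraMap E K (δ₀ t) / D (algebraMap E K t)) • D
  have h2 : δ (algebraMap E K t) = algebraMap E K (δ₀ t) := div_mul_cancel₀ _ h1
  refine ⟨δ, fun e => ?_, fun g => ?_⟩
  · rw [e, Derivation.zero_apply, eq_comm, map_eq_zero] at h2
    exact deriv_ne_zero h ht h2
  · let Δ : Derivation ℂ E K := δ.compAlgebraMap E - (Algebra.linearMap E K).compDer δ₀
    have h3 : ∀ a, Δ a = δ (algebraMap E K a) - algebraMap E K (δ₀ a) := fun _ => rfl
    rw [← sub_eq_zero, ← h3]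
    refine (Module.forall_dual_apply_eq_zero_iff E _).1 fun l => ?_
    have h4 : l.compDer Δ = 0 := by
      by_contra h4
      refine deriv_ne_zero h4 ht ?_
      change l (Δ t) = 0
      rw [h3, h2, sub_self, map_zero]
    exact DFunLike.congr_fun h4 g

end RHL

open RHL

theorem stRHL : St_RHL := by
  intro K E _ _ _ _ _ _ _ _ δ₀ h0 h
  obtain ⟨δ, h1, h2⟩ := exists_lift (K := K) h0
  obtain ⟨W, h3, h4⟩ := hur h1
  have h5 : ∀ z : Place K, W z = z.ord (algebraMap E K (res E z).unif) - 1 := fun z => by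
    have a := one_le (E := E) z
    have b := ord_deriv h1 z (z := algebraMap E K (res E z).unif) (by omega)
    rw [h2, ord_res, h, h4] at b
    omega
  have h6 : 0 ≤ W := fun z => by
    have a := one_le (E := E) z
    have b := h5 z
    simp only [Finsupp.coe_zero, Pi.zero_apply]
    omega
  have h7 := degree_nonneg h6
  refine ⟨by omega, fun h8 => ?_⟩
  have h9 : ∀ z, W z = 0 := fun z => by
    have a := degree_mono' (E := single z (W z)) (E' := W) fun z' => by
      classical
      rw [single_apply]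
      split_ifs with e
      · exact e ▸ le_rfl
      · exact h6 z'
    have b : 0 ≤ W z := h6 z
    rw [degree_single] at a
    omega
  refine ⟨res E, δ, h2, fun z => by rw [h4, h9, neg_zero], fun z g => ?_⟩
  have a := h5 z
  rw [h9] at a
  rw [ord_res, show z.ord (algebraMap E K (res E z).unif) = 1 by omega, mul_one]

theorem stNRE (h : St_RHL) : St_NRE := by
  intro L E _ _ _ _ _ ⟨δ, h0, h1⟩ f t ht
  have h2 : Transcendental ℂ t := fun ha => by
    obtain ⟨u, hu⟩ := IsFF.ex (K := E)
    have := adjoin.finiteDimensional ha.isIntegral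
    have h3 : f u ∈ ℂ⟮t⟯ := ht ▸ mem_top
    have h4 : IsAlgebraic ℂ (f u) := (IsAlgebraic.of_finite ℂ (⟨f u, h3⟩ : ℂ⟮t⟯)).algHom ℂ⟮t⟯.val
    exact hu ((isAlgebraic_algHom_iff f f.injective).1 h4)
  let e := RatFunc.algEquivOfTranscendental t h2
  let _ : Algebra (RatFunc ℂ) L := ((algebraMap ℂ⟮t⟯ L).comp e.toRingEquiv.toRingHom).toAlgebra
  have : IsScalarTower ℂ (RatFunc ℂ) L := IsScalarTower.of_algebraMap_eq fun c => by
    change _ = algebraMap ℂ⟮t⟯ L (e (algebraMap ℂ _ c))
    rw [e.commutes]; rfl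
  have : FiniteDimensional (RatFunc ℂ) L :=
    Module.Finite.of_surjective (Algebra.linearMap (RatFunc ℂ) L) fun y =>
      ⟨e.symm ⟨y, ht ▸ mem_top⟩, by
        change algebraMap ℂ⟮t⟯ L (e (e.symm _)) = _
        rw [e.apply_symm_apply]; rfl⟩
  let _ : Algebra E L := f.toRingHom.toAlgebra
  have : IsScalarTower ℂ E L := IsScalarTower.of_algebraMap_eq fun c => (f.commutes c).symm
  exact nr_of_chi (h L E δ h0 h1).1 t ht

end G1
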