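import Pool.Agent.Lib.G1.Basic

open Finsupp MvPolynomial IntermediateField Module
open Pool.Agent.Lib.MP_cc3443_ag Pool.Agent.Lib.MP_3c72fe_ag

noncomputable section

namespace G1

theorem stSET (hWM : St_WM) (hWEI : St_WEI) (hNRE : St_NRE) (hGAL : St_GAL) (hPIC : St_PIC)
    (hPL : St_PLACE) (hEXV : St_EXV) (hGR : St_GR) (hGM : St_GM) (hRED : St_RED) : St_SET := by
  intro F _ _ _ c p M hp hk
  obtain ⟨v, y, hy, hy1, hy2⟩ := hPL p hp
  obtain ⟨-, ⟨E, _, _, ME, hE⟩, hFF⟩ := hWM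
  have := hFF E ME
  obtain ⟨hchi, ⟨δ, hδ, -, hδ'⟩, ⟨cD, hξ, hd, hon⟩, -⟩ := hWEI E ME
  have hfl : Flat E := ⟨δ, hδ, hδ'⟩
  let D : Cub E :=
    { c := cD, y := y, d3 := hd, nr := nr_of_chi hchi.le, flat := hfl
      on := fun i => (hon _).2 (by rw [hy1, hE, Fin.prod_univ_three]; simp; ring)
      inj := fun i j h => hy2.injective (congrFun h 0)
      pic := hPIC E ME cD y hE hξ hy1 hy2 }
  obtain ⟨η, fb, hη, hfb, hr⟩ := RP.scale v c.prime.ne_zero
  have hdvd : cD.f ∣ fb := by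
    by_contra h
    have h1 : D.Tail c.d (fun i => c.m p i) fb := by
      refine ⟨h, ?_, fun i => ?_⟩
      · exact_mod_cast hr.totalDegree_le.trans (totalDegree_smul_le _ _)
      · have h2 := hr.mem_pow (hy i) (n := c.m p i) (by
          rw [smul_eq_C_mul]; exact Ideal.mul_mem_left _ _ (c.f_mem i le_rfl))
        exact Int.ofNat_le.2 ((mem_pow_iff hfb).1 h2)
    have h2 := degree_nonneg (D.B_nonneg h1)
    rw [D.degree_B] at h2
    zify at hk
    omega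
  obtain ⟨K, _, _, _, _, R, ho, hξ'⟩ := hEXV F E v c cD η fb hr hfb hdvd
  have hK : NR K := hNRE K E hfl (IsScalarTower.toAlgHom ℂ E K)
  obtain ⟨M', -, -, -, -, -, hg⟩ := hGR F K v R M ho hK ⟨algebraMap E K (cD.ξ 0),
    (transcendental_algebraMap_iff (algebraMap E K).injective).2 (cD.transc 0)⟩
  obtain ⟨⟨Mb, -⟩, hsc, -, hu⟩ := hGM F K v R M' ho hg
  have := hFF K Mb
  obtain ⟨sp, h1, h2⟩ := hRED F K v R M' ho hg
  obtain ⟨C⟩ := hGAL K E Mb hfl
  exact ⟨K, E, _, _, inferInstance, _, _, inferInstance, _, inferInstance,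
    { m := ⟨v, R, ho, sp, h1, h2, hsc, hu⟩, C := C, D := D, c := c, p := p, vg := hp
      nr := nr_of_chi (hWEI F M).1.le, sp_p := hy, sp_ξ := hξ' }, rfl, rfl⟩

end G1
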