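import Pool.Agent.Lib.G1.T1A

open Finsupp MvPolynomial IntermediateField Module
open Pool.Agent.Lib.MP_cc3443_ag Pool.Agent.Lib.MP_3c72fe_ag

noncomputable section

namespace G1.T1

section ev
variable {K : Type} [Field K] [Algebra ℂ K] [IsFF K] {P : Place K} {g : K} {c : ℂ}

lemma rd_iff : (rd P).Sp g c ↔ g - algebraMap ℂ K c ∈ Ge P 1 := by
  rw [sp_iff]
  constructor
  · rintro ⟨h, rfl⟩
    exact (exists_ev P).choose_spec ⟨g, h⟩
  · intro h
    have h1 : g ∈ P.O := by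
      simpa using add_mem (mem_Ge_zero.1 (Ge_mono zero_le_one h)) (P.const c)
    exact ⟨h1, P.res_unique (mem_Ge_one.1 ((exists_ev P).choose_spec ⟨g, h1⟩)) (mem_Ge_one.1 h)⟩

lemma rd_const (P : Place K) (c : ℂ) : (rd P).Sp (algebraMap ℂ K c) c := rd_iff.2 (by simp)

lemma rd_pos (h : 0 < P.ord g) : (rd P).Sp g 0 := rd_iff.2 (by simpa using mem_Ge_of_le h)

lemma ord_zero_of (h : (rd P).Sp g c) (hc : c ≠ 0) : P.ord g = 0 := by
  have h0 := sp_ne h hc
  have h1 := (P.mem_iff_ord h0).1 h.1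
  have h2 := (P.mem_iff_ord (inv_ne_zero h0)).1 (sp_inv h hc).1
  rw [P.ord_inv] at h2
  omega

lemma lead_ne {s : K} (hs : P.ord s = 1) (h : g ≠ 0) : lead P s g ≠ 0 := fun e => by
  have h0 : s ≠ 0 := by rintro rfl; simp at hs
  have h1 : g / s ^ P.ord g ≠ 0 := div_ne_zero h (zpow_ne_zero _ h0)
  have h2 : P.ord (g / s ^ P.ord g) = 0 := by
    rw [ord_div h (zpow_ne_zero _ h0), P.ord_zpow, hs]; ring
  have h3 : (rd P).Sp (g / s ^ P.ord g) 0 := ⟨(P.mem_iff_ord h1).2 h2.ge, e⟩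
  have h4 := (mem_Ge_iff h1).1 (by simpa using rd_iff.1 h3)
  omega

lemma ord_pow (P : Place K) (g : K) (n : ℕ) : P.ord (g ^ n) = n * P.ord g := by
  rw [← zpow_natCast, P.ord_zpow]

end ev

lemma count_ms {α : Type} [DecidableEq α] (E : α →₀ ℤ) (a : α) :
    (ms E).count a = (E a).toNat := by
  simp [ms]

lemma card_ms {α : Type} {E : α →₀ ℤ} (h : ∀ a, 0 ≤ E a) :
    ((ms E).card : ℤ) = E.sum fun _ n => n := by
  rw [ms, Finsupp.card_toMultiset, Finsupp.sum_mapRange_index (by simp), Finsupp.sum, Finsupp.sum]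
  push_cast
  exact Finset.sum_congr rfl fun a _ => by simpa using h a

/-- Affine linear forms in two functions. -/
def lf {K : Type} [Field K] [Algebra ℂ K] (ξ : Fin 2 → K) (a : Fin 3 → ℂ) : K :=
  a 0 • ξ 0 + a 1 • ξ 1 + algebraMap ℂ K (a 2)

lemma lf_line {K : Type} [Field K] [Algebra ℂ K] (ξ : Fin 2 → K) (t a : ℂ) :
    lf ξ ![-t, 1, -a] = ξ 1 - t • ξ 0 - algebraMap ℂ K a := by
  simp [lf]; ring

lemma hom_eq {S : Finset (Fin 2 →₀ ℕ)} {n : ℕ} (hS : ∀ s ∈ S, s 0 + s 1 ≤ n) {Γ : P2}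
    (h : Γ.support ⊆ S) {t a cc : ℂ} {A : Fin n → ℂ}
    (e : onL t a Γ = Polynomial.C cc * ∏ j, (Polynomial.X - Polynomial.C (A j))) (x y : ℂ) :
    ∑ s ∈ S, coeff s Γ * (x ^ s 0 * (t * x + a * y) ^ s 1 * y ^ (n - (s 0 + s 1))) =
      cc * ∏ j, (x - y * A j) := by
  refine congrFun (Continuous.ext_on (dense_compl_singleton (0 : ℂ))
    (f := fun y => ∑ s ∈ S, coeff s Γ * (x ^ s 0 * (t * x + a * y) ^ s 1 * y ^ (n - (s 0 + s 1))))
    (g := fun y => cc * ∏ j, (x - y * A j)) (by fun_prop) (by fun_prop) fun y hy => ?_) y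
  have hy : y ≠ 0 := hy
  have h1 := congrArg (Polynomial.eval (x / y)) e
  rw [Core.eval_onL, eval_eq', Finset.sum_subset h fun s _ hs => by
    rw [MvPolynomial.notMem_support_iff.1 hs, zero_mul]] at h1
  simp only [Polynomial.eval_mul, Polynomial.eval_C, Polynomial.eval_prod, Polynomial.eval_sub,
    Polynomial.eval_X, Fin.prod_univ_two, Matrix.cons_val_zero, Matrix.cons_val_one] at h1
  have h2 : ∏ j, (x - y * A j) = y ^ n * ∏ j, (x / y - A j) := by
    rw [← Fin.prod_const, ← Finset.prod_mul_distrib]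
    exact Finset.prod_congr rfl fun j _ => by field_simp
  simp only []
  rw [h2, mul_left_comm, ← h1, Finset.mul_sum]
  refine Finset.sum_congr rfl fun s hs => ?_
  obtain ⟨k, rfl⟩ := Nat.exists_eq_add_of_le (hS s hs)
  have h3 : t * (x / y) + a = (t * x + a * y) / y := by field_simp
  rw [Nat.add_sub_cancel_left, h3, div_pow, div_pow, pow_add, pow_add]
  field_simp

section md
variable {F K : Type} [Field F] [Algebra ℂ F] [IsFF F] [Field K] [Algebra ℂ K] [IsFF K]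
  {m : Mod F K} {z : Place K} {E E' : Place F →₀ ℤ} {P : Place F}

open Classical in
lemma count_Z (h : m.sp P = z) : (m.Z z E).count P = (E P).toNat := by
  rw [Mod.Z, count_ms, Finsupp.filter_apply, if_pos h]

lemma mem_Z : P ∈ m.Z z E ↔ m.sp P = z ∧ 0 < E P := by
  classical
  rw [← Multiset.one_le_count_iff_mem, Mod.Z, count_ms, Finsupp.filter_apply]
  split_ifs with h <;> simp [h]
  omega

lemma Z_congr (h : ∀ P, m.sp P = z → E P = E' P) : m.Z z E = m.Z z E' := by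
  unfold Mod.Z
  congr 1
  ext P
  rw [Finsupp.filter_apply, Finsupp.filter_apply]
  split_ifs with h1
  exacts [h P h1, rfl]

lemma card_Z {g : F} (hg : m.R.U g) (h : ∀ P, m.sp P = z → g ∈ P.O) :
    ((m.Z z (divF g)).card : ℤ) = z.ord (m.R.r g) := by
  classical
  have h0 : g ≠ 0 := sp_ne (sp_self hg.1) hg.2
  rw [← divF_apply, m.red g hg, Mod.Z, card_ms, Finsupp.mapDomain, Finsupp.sum_apply,
    Finsupp.sum_filter_index, Finsupp.support_filter, Finset.sum_filter]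
  · exact Finset.sum_congr rfl fun P _ => by simp only [Finsupp.single_apply]
  · intro P
    rw [Finsupp.filter_apply]
    split_ifs with h1
    exacts [(P.mem_iff_ord h0).1 (h P h1), le_rfl]

lemma sp_smul {c b : ℂ} {g : F} {u : K} (h : m.v.Sp c b) (h' : m.R.Sp g u) :
    m.R.Sp (c • g) (b • u) := by
  rw [Algebra.smul_def, Algebra.smul_def]
  exact sp_mul (m.ov.2 c b h) h'

lemma exists_W {s : F} (h0 : m.R.r s ≠ 0)
    (h1 : ∀ P, m.sp P = z → m.R.Sp (s - algebraMap ℂ F (ev P s)) (m.R.r s))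
    (h2 : ∀ P, m.sp P = z → P.ord (s - algebraMap ℂ F (ev P s)) = 1)
    (h3 : ∀ P Q, m.sp P = z → m.sp Q = z → P ≠ Q → P.ord (s - algebraMap ℂ F (ev Q s)) = 0)
    (hE : ∀ P, 0 ≤ E P) : ∃ W, m.R.Sp W (m.R.r s ^ (m.Z z E).card) ∧
      ∀ P, m.sp P = z → P.ord W = E P := by
  classical
  have key : ∀ S : Multiset (Place F), (∀ Q ∈ S, m.sp Q = z) → ∃ W,
      m.R.Sp W (m.R.r s ^ S.card) ∧ ∀ P, m.sp P = z → P.ord W = S.count P := fun S => by
    induction S using Multiset.induction_on with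
    | empty => exact fun _ => ⟨1, by simpa using sp_one, by simp⟩
    | cons Q S ih =>
      intro hS
      obtain ⟨W, hW, hW'⟩ := ih fun P hP => hS P (by simp [hP])
      have hQ := hS Q (by simp)
      refine ⟨W * (s - algebraMap ℂ F (ev Q s)), ?_, fun P hP => ?_⟩
      · rw [Multiset.card_cons, pow_succ]
        exact sp_mul hW (h1 Q hQ)
      · rw [P.ord_mul (sp_ne hW (pow_ne_zero _ h0)) (sp_ne (h1 Q hQ) h0), hW' P hP,
          Multiset.count_cons]
        split_ifs with e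
        · subst e; rw [h2 P hP]; simp
        · rw [h3 P Q hP hQ e]; simp
  obtain ⟨W, hW, hW'⟩ := key (m.Z z E) fun Q hQ => (mem_Z.1 hQ).1
  exact ⟨W, hW, fun P hP => by rw [hW' P hP, count_Z hP, Int.toNat_of_nonneg (hE P)]⟩

end md

end G1.T1

namespace G1
open T1

theorem stT1 (hD : St_DISC) (hP : St_PT) : St_T1 := by
  intro F K _ _ _ _ _ _ m c ξb z w xb hξ hw hind hx
  obtain ⟨hval, s, hs, hs1, hsO, hs2, hs3, hrec⟩ := hD F K m z
  obtain ⟨W, hW, hWo⟩ := exists_W (E := c.H) hs.2 (fun P hP => by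
    have h1 := (hval s hs.1 hsO).2 P hP
    rw [show ev z (m.R.r s) = 0 from (rd_pos (by omega)).2] at h1
    simpa using sp_sub (sp_self hs.1) (m.ov.2 _ _ h1)) hs2 hs3 c.H_nonneg
  set d := (m.Z z c.H).card with hd
  set sb := m.R.r s with hsb
  have hsd : sb ^ d ≠ 0 := pow_ne_zero _ hs.2
  have hW0 : W ≠ 0 := sp_ne hW hsd
  have hch : ∀ P : Place F, ∃ (γ : ℂ) (xh : Fin 3 → ℂ), γ ≠ 0 ∧ (∀ j, m.v.Sp (xh j) (xb P j)) ∧
      (m.sp P = z → ∀ j, (rd P).Sp (W * ![c.ξ 0, c.ξ 1, 1] j) (γ * xh j)) := fun P => by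
    by_cases h : m.sp P = z
    · obtain ⟨γ, xh, h1, h2⟩ := ((hP F m.v c P).2 _ (hx P)).2.2.2 W hW0 (hWo P h)
      exact ⟨γ, xh, h1, fun j => (h2 j).1, fun _ j => (h2 j).2⟩
    · choose xh hxh using fun j => sp_lift m.v (xb P j)
      exact ⟨1, xh, one_ne_zero, hxh, fun e => (h e).elim⟩
  choose γ xh hγ hxh hev using hch
  have hL : ∀ (a : Fin 3 → ℂ) (P : Place F), m.sp P = z →
      (rd P).Sp (W * lf c.ξ a) (γ P * dot a (xh P)) := fun a P h => by
    have := sp_add (sp_add (sp_mul (rd_const P (a 0)) (hev P h 0))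
      (sp_mul (rd_const P (a 1)) (hev P h 1))) (sp_mul (rd_const P (a 2)) (hev P h 2))
    convert this using 1
    · simp [lf, Algebra.smul_def]; ring
    · simp [dot]; ring
  have hb : ∀ ab : Fin 3 → ℂ, (rd z).Sp (lf ξb ab) (dot ab ![w 0, w 1, 1]) := fun ab => by
    have := sp_add (sp_add (sp_mul (rd_const z (ab 0)) (rd_iff.2 (hw 0)))
      (sp_mul (rd_const z (ab 1)) (rd_iff.2 (hw 1)))) (rd_const z (ab 2))
    convert this using 1
    · simp [lf, Algebra.smul_def]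
    · simp [dot]
  have hb0 : ∀ a ab, Adm m.v a ab → lf ξb ab ≠ 0 := fun a ab h e => by
    have := hind _ _ _ e
    exact h.2.elim (· this.1) (· this.2)
  have hl : ∀ a ab, Adm m.v a ab → m.R.Sp (lf c.ξ a) (lf ξb ab) := fun a ab h =>
    sp_add (sp_add (sp_smul (h.1 0) (hξ 0)) (sp_smul (h.1 1) (hξ 1))) (m.ov.2 _ _ (h.1 2))
  have hR : ∀ a ab, Adm m.v a ab → m.R.Sp (W * lf c.ξ a) (sb ^ d * lf ξb ab) := fun a ab h =>
    sp_mul hW (hl a ab h)
  have hU : ∀ a ab, Adm m.v a ab → m.R.U (W * lf c.ξ a) := fun a ab h =>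
    ⟨(hR a ab h).1, by rw [(hR a ab h).2]; exact mul_ne_zero hsd (hb0 a ab h)⟩
  have hpair : ∀ (g : F) (a : Fin 3 → ℂ), m.pair z g (W * lf c.ξ a) =
      ((m.Z z (divF g)).map fun P => γ P * dot a (xh P)).prod := fun g a =>
    congrArg _ (Multiset.map_congr rfl fun P h => (hL a P (mem_Z.1 h).1).2)
  let T : Core (Place F) m.v :=
    { d := d, w := w, xh := xh, xb := xb, γ := γ
      Z := fun a => m.Z z (divF (W * lf c.ξ a))
      ζ := fun ab => (z.ord (lf ξb ab)).toNat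
      lam := fun ab => lead z sb (sb ^ d * lf ξb ab)
      sp := hxh
      xb_ne := fun P => (hx P).1
      γ_ne := hγ
      zero := fun a ab _ P h => (mul_eq_zero.1
        (sp_uniq (hL a P (mem_Z.1 h).1) (rd_pos (mem_Z.1 h).2))).resolve_left (hγ P)
      card := fun a ab h => by
        have h1 := card_Z (hU a ab h) fun P e => (hL a P e).1
        have h2 := (z.mem_iff_ord (hb0 a ab h)).1 (hb ab).1
        rw [(hR a ab h).2, z.ord_mul hsd (hb0 a ab h), ord_pow, hs1] at h1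
        omega
      lam_ne := fun a ab h => lead_ne hs1 (mul_ne_zero hsd (hb0 a ab h))
      gen := fun ab h => by
        have h1 := ord_zero_of (hb ab) h
        refine ⟨by rw [h1]; rfl, ?_⟩
        rw [lead, z.ord_mul hsd (sp_ne (hb ab) h), h1, ord_pow, hs1, mul_one, add_zero,
          zpow_natCast, mul_div_cancel_left₀ _ hsd]
        exact (hb ab).2
      recip := fun a ab a' ab' l l' h h' e e' => by
        have := hrec _ _ l l' (hU a ab h) (hU a' ab' h') (fun P e => ⟨(hL a P e).1, (hL a' P e).1⟩)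
          (by rwa [(hR a ab h).2]) (by rwa [(hR a' ab' h').2])
        rwa [hpair, hpair] at this }
  obtain ⟨r, g, hr, hg, hmain⟩ := T.main
  refine ⟨r, hr, fun t a tb ab ht ha _ => ?_, fun n Γ Γb η tb hΓ hn hu hZ => ?_⟩
  · obtain ⟨k, -, e⟩ := hmain t a tb ab ht ha
    have h1 : T.Z ![-t, 1, -a] = m.Z z (divF (c.ξ 1 - t • c.ξ 0 - algebraMap ℂ F a) + c.H) :=
      Z_congr fun P h => by
        have h2 := sp_ne (hl _ _ (adm_line ht ha)) (hb0 _ _ (adm_line ht ha))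
        rw [divF_apply, P.ord_mul hW0 h2, hWo P h, lf_line, add_comm]
        rfl
    rw [h1, show T.ζ ![-tb, 1, -ab] = _ from congrArg (fun u => (z.ord u).toNat) (lf_line ξb tb ab)]
      at e
    exact ⟨_, e⟩
  have hu0 : η • aeval c.ξ Γ ≠ 0 := sp_ne (sp_self hu.1) hu.2
  have hη : η ≠ 0 := left_ne_zero_of_smul hu0
  have hΓ0 : aeval c.ξ Γ ≠ 0 := right_ne_zero_of_smul hu0
  set G := W ^ n * (η • aeval c.ξ Γ) with hG
  have hGR : m.R.Sp G ((sb ^ d) ^ n * m.R.r (η • aeval c.ξ Γ)) :=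
    sp_mul (sp_pow hW n) (sp_self hu.1)
  have hGU : m.R.U G := ⟨hGR.1, by rw [hGR.2]; exact mul_ne_zero (pow_ne_zero _ hsd) hu.2⟩
  have hS : ∀ u ∈ Γ.support, u 0 + u 1 ≤ n := fun u h => by
    have h1 := (le_totalDegree h).trans hn
    rwa [Finsupp.sum_fintype _ _ (by simp), Fin.sum_univ_two] at h1
  let hom : P2 → (Fin 3 → ℂ) → ℂ := fun Δ x =>
    ∑ u ∈ Γ.support, coeff u Δ * (x 0 ^ u 0 * x 1 ^ u 1 * x 2 ^ (n - (u 0 + u 1)))
  have hhom : ∀ P, m.v.Sp (hom Γ (xh P)) (hom Γb (xb P)) := fun P =>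
    sp_sum fun u _ => sp_mul (hΓ u)
      (sp_mul (sp_mul (sp_pow (hxh P 0) _) (sp_pow (hxh P 1) _)) (sp_pow (hxh P 2) _))
  have hGP : ∀ P, m.sp P = z → (rd P).Sp G (η * (γ P ^ n * hom Γ (xh P))) := fun P h => by
    have := sp_mul (rd_const P η) (sp_sum (S := Γ.support) fun u _ => sp_mul (rd_const P (coeff u Γ))
      (sp_mul (sp_mul (sp_pow (hev P h 0) (u 0)) (sp_pow (hev P h 1) (u 1)))
        (sp_pow (hev P h 2) (n - (u 0 + u 1)))))
    convert this using 1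
    · rw [hG, Algebra.smul_def, mul_left_comm, aeval_def, eval₂_eq', Finset.mul_sum]
      refine congrArg _ (Finset.sum_congr rfl fun u hu => ?_)
      obtain ⟨k, e⟩ := Nat.exists_eq_add_of_le (hS u hu)
      rw [show n - (u 0 + u 1) = k by omega, e]
      simp [Fin.prod_univ_two]
      ring
    · simp only [hom]
      rw [Finset.mul_sum]
      refine congrArg _ (Finset.sum_congr rfl fun u hu => ?_)
      obtain ⟨k, e⟩ := Nat.exists_eq_add_of_le (hS u hu)
      rw [show n - (u 0 + u 1) = k by omega, e]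
      ring
  have hZG : m.Z z (divF G) = m.Z z (divF (aeval c.ξ Γ) + (n : ℤ) • c.H) := Z_congr fun P h => by
    rw [divF_apply, hG, P.ord_mul (pow_ne_zero _ hW0) hu0, ord_pow, hWo P h, Algebra.smul_def,
      P.ord_mul (by simpa using hη) hΓ0, ord_const hη]
    simp [add_comm]
  set ZG := m.Z z (divF (aeval c.ξ Γ) + (n : ℤ) • c.H) with hZG'
  obtain ⟨lg, hlg⟩ := sp_lift m.v (lead z sb (m.R.r G))
  obtain ⟨t, ht⟩ := sp_lift m.v tb
  have key : ∀ ab, w 1 - tb * w 0 - ab ≠ 0 → ∃ (k p q : ℂ) (ZL : Multiset (Place F)),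
      (-1) ^ (ZG.card * d) * (ZG.map γ).prod * lg ^ d / (η ^ d * g ^ n) * p = q ∧
      m.v.Sp p (ZG.map fun P => xb P 1 - tb * xb P 0 - ab * xb P 2).prod ∧
      m.v.Sp q (k ^ n * (ZL.map fun P => hom Γb (xb P)).prod *
        (w 1 - tb * w 0 - ab) ^ ZG.card) ∧ ZL.card = d ∧
      (∀ P ∈ ZL, xb P 1 = tb * xb P 0 + ab * xb P 2) ∧ ∀ A, k * (w 1 - tb * w 0 - ab) ^ d *
        (ZL.map fun P => xb P 0 - xb P 2 * A).prod = eval ![A, tb * A + ab] r := fun ab h => by
    obtain ⟨a, ha⟩ := sp_lift m.v ab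
    obtain ⟨l, hl'⟩ := sp_lift m.v (w 1 - tb * w 0 - ab)
    have had := adm_line ht ha
    obtain ⟨k, hk, e⟩ := hmain t a tb ab ht ha
    obtain ⟨g1, g2⟩ := T.gen_line h
    have hc : (T.Z ![-t, 1, -a]).card = d := by rw [T.card _ _ had, g1]; rfl
    obtain ⟨μ, hμ, e'⟩ := hrec G (W * lf c.ξ ![-t, 1, -a]) lg l hGU (hU _ _ had)
      (fun P e => ⟨(hGP P e).1, (hL _ P e).1⟩) hlg (by
        rw [(hR _ _ had).2, show lead z sb _ = w 1 - tb * w 0 - ab from g2]; exact hl')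
    have e1 : m.pair z (W * lf c.ξ ![-t, 1, -a]) G = η ^ d * (T.cc ![-t, 1, -a] ^ n *
        ((T.Z ![-t, 1, -a]).map fun P => hom Γ (xh P)).prod) := by
      rw [Mod.pair, Multiset.map_congr rfl fun P h => show ev P G = _ from (hGP P (mem_Z.1 h).1).2,
        Multiset.prod_map_mul, Multiset.prod_map_mul, Multiset.prod_map_pow, Multiset.map_const',
        Multiset.prod_replicate, ← hc]
      rfl
    rw [hpair, e1, hZG, Multiset.prod_map_mul, show (m.Z z (divF (W * lf c.ξ ![-t, 1, -a]))).card = d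
      from hc] at e'
    refine ⟨k, (ZG.map fun P => dot ![-t, 1, -a] (xh P)).prod, (T.cc ![-t, 1, -a] / g) ^ n *
      ((T.Z ![-t, 1, -a]).map fun P => hom Γ (xh P)).prod * l ^ ZG.card * μ, T.Z ![-t, 1, -a],
      ?_, sp_mprod fun P _ => ?_, ?_, hc, fun P hP => ?_, fun A => ?_⟩
    · have h2 : ((-1 : ℂ) ^ (ZG.card * d)) ^ 2 = 1 := by
        rw [← pow_mul, mul_comm, pow_mul]; simp
      rw [div_pow]
      field_simp
      linear_combination (-1 : ℂ) ^ (ZG.card * d) * e' + (η ^ d * (T.cc ![-t, 1, -a] ^ n *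
        ((T.Z ![-t, 1, -a]).map fun P => hom Γ (xh P)).prod) * l ^ ZG.card * μ) * h2
    · convert sp_dot had.1 (hxh P) using 1
      simp [dot]; ring
    · simpa using sp_mul (sp_mul (sp_mul (sp_pow hk n) (sp_mprod fun P _ => hhom P))
        (sp_pow hl' _)) hμ
    · have := T.zero_b had hP
      simp [dot] at this
      linear_combination this
    · have := congrArg (Polynomial.eval A) e
      rw [g1, g2] at this
      simpa [eval_PP, Core.eval_onL] using this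
  have hm : (-1) ^ (ZG.card * d) * (ZG.map γ).prod * lg ^ d / (η ^ d * g ^ n) ∈ m.v.O := by
    obtain ⟨ab, h1, h2⟩ := exists_ne (S := ZG) (α := fun P => xb P 1 - tb * xb P 0)
      (β := fun P => xb P 2) (fun P h e => hZ P h ⟨sub_eq_zero.1 e.1, e.2⟩) (w 1 - tb * w 0)
    obtain ⟨k, p, q, ZL, e, hp, hq, -⟩ := key ab (sub_ne_zero.2 h1.symm)
    exact mem_of_mul e hp hq (by simpa only [mul_comm ab] using h2)
  refine ⟨m.v.r ((-1) ^ (ZG.card * d) * (ZG.map γ).prod * lg ^ d / (η ^ d * g ^ n)),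
    fun ab cc A h _ e => ?_⟩
  obtain ⟨k, p, q, ZL, e1, hp, hq, hc, h1, h2⟩ := key ab h
  have h3 := sp_uniq (e1 ▸ sp_mul (sp_self hm) hp) hq
  have h4 : (ZL.map fun P => hom Γb (xb P)).prod =
      cc ^ d * ∏ j, (ZL.map fun P => xb P 0 - xb P 2 * A j).prod := by
    have h5 : ∀ P ∈ ZL, hom Γb (xb P) = cc * ∏ j, (xb P 0 - xb P 2 * A j) := fun P hP => by
      rw [← hom_eq hS (fun u hu => ?_) e, ← h1 P hP]
      rw [MvPolynomial.mem_support_iff] at hu ⊢
      exact fun e => hu (sp_uniq (hΓ u) (by rw [e]; exact sp_zero))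
    rw [Multiset.map_congr rfl h5, Multiset.prod_map_mul, Multiset.map_const',
      Multiset.prod_replicate, hc, Multiset.prod_map_prod]
  rw [h3, h4]
  simp only [← h2, Finset.prod_mul_distrib, Fin.prod_const]
  ring

end G1
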