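import Pool.Agent.Lib.G1.Blue

open Finsupp MvPolynomial IntermediateField Module
open Pool.Agent.Lib.MP_cc3443_ag Pool.Agent.Lib.MP_3c72fe_ag

noncomputable section

namespace G1

namespace T4

section
variable {A B : Type} [CommRing A] [Algebra ℂ A] [CommRing B] [Algebra ℂ B]

/-- Restriction to a line with coefficients in an algebra. -/
def ln (t : ℂ) (a : A) : P2 →ₐ[ℂ] Polynomial A :=
  aeval ![Polynomial.X, Polynomial.C (algebraMap ℂ A t) * Polynomial.X + Polynomial.C a]

lemma ln_map (t : ℂ) (a : A) (φ : A →ₐ[ℂ] B) (g : P2) :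
    (ln t a g).map (φ : A →+* B) = ln t (φ a) g := by
  induction g using MvPolynomial.induction_on with
  | C c => simp [ln]
  | add a b ha hb => rw [map_add, Polynomial.map_add, ha, hb, map_add]
  | mul_X a i ha =>
    rw [map_mul, Polynomial.map_mul, ha, map_mul]
    congr 1
    fin_cases i <;> simp [ln]

lemma ln_eval (t : ℂ) (a b : A) (g : P2) :
    (ln t a g).eval b = aeval ![b, algebraMap ℂ A t * b + a] g := by
  induction g using MvPolynomial.induction_on with
  | C c => simp [ln]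
  | add a b ha hb => rw [map_add, Polynomial.eval_add, ha, hb, map_add]
  | mul_X a i ha =>
    rw [map_mul, Polynomial.eval_mul, ha, map_mul]
    congr 1
    fin_cases i <;> simp [ln]

lemma ln_deg (t : ℂ) (a : A) (g : P2) : (ln t a g).natDegree ≤ g.totalDegree := by
  have h := aeval_natDegree_le (MvPolynomial.map (algebraMap ℂ A) g) (m := g.totalDegree)
    (Finset.sup_mono (support_map_subset _ g))
    ![Polynomial.X, Polynomial.C (algebraMap ℂ A t) * Polynomial.X + Polynomial.C a] (n := 1)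
    fun i => by
      fin_cases i
      exacts [Polynomial.natDegree_X_le, Polynomial.natDegree_linear_le]
  rwa [aeval_map_algebraMap, mul_one] at h

end

lemma io_ln (t : ℂ) (w : Fin 2 → ℂ) (g : P2) : (io w g).map (Polynomial.evalRingHom t) =
    Polynomial.taylor (w 0) (ln t (w 1 - t * w 0) g) := by
  induction g using MvPolynomial.induction_on with
  | C c => simp [ln, io, tr, io0]
  | add a b ha hb => rw [map_add, Polynomial.map_add, ha, hb, map_add, map_add]
  | mul_X a i ha =>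
    rw [map_mul, Polynomial.map_mul, ha, map_mul, Polynomial.taylor_mul]
    refine congrArg (Polynomial.taylor (w 0) (ln t (w 1 - t * w 0) a) * ·) ?_
    fin_cases i
    · simp [ln, io, tr, io0]
    · simp [ln, io, tr, io0, Polynomial.taylor_apply]
      ring

open Polynomial in
lemma res_split {K : Type} [Field K] {F Q G : K[X]} {b : K} {n : ℕ}
    (e : F = (Polynomial.X - Polynomial.C b) * Q)
    (h3 : F.natDegree = 3) (hG : G.natDegree ≤ n) :
    Q.natDegree = 2 ∧ resultant F G 3 n = G.eval b * resultant Q G 2 n := by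
  have h0 : Q ≠ 0 := by rintro rfl; simp [e] at h3
  have h1 : Q.natDegree = 2 := by
    rw [e, natDegree_mul (X_sub_C_ne_zero b) h0, natDegree_X_sub_C] at h3
    omega
  have h2 := resultant_mul_left (Polynomial.X - Polynomial.C b) Q G n hG
  rw [natDegree_X_sub_C, h1, resultant_X_sub_C_left _ _ _ hG] at h2
  exact ⟨h1, e ▸ h2⟩

open Polynomial in
lemma split3 {F : ℂ[X]} (h3 : F.natDegree = 3) : ∃ A : Fin 3 → ℂ,
    F = Polynomial.C (F.coeff 3) * ∏ j, (Polynomial.X - Polynomial.C (A j)) ∧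
    ∀ (G : ℂ[X]) (n : ℕ), G.natDegree ≤ n →
      resultant F G 3 n = F.coeff 3 ^ n * ∏ j, G.eval (A j) := by
  have hs := IsAlgClosed.splits F
  obtain ⟨x, y, z, h⟩ := Multiset.card_eq_three.1 (hs.natDegree_eq_card_roots.symm.trans h3)
  have hl : F.leadingCoeff = F.coeff 3 := by rw [leadingCoeff, h3]
  refine ⟨![x, y, z], ?_, fun G n hn => ?_⟩
  · have := hs.eq_prod_roots
    rw [h, hl] at this
    simpa [Fin.prod_univ_three, mul_assoc] using this
  · have := resultant_eq_prod_eval F G n hn hs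
    rw [h, hl, h3] at this
    simpa [Fin.prod_univ_three, mul_assoc] using this

variable {E : Type} [Field E] [Algebra ℂ E] [IsFF E]

/-- A general slope. -/
lemma exists_slope (c : Crv E) (hE : NR E) (h3 : c.d = 3) {w : Fin 2 → ℂ} (hw : eval w c.f = 0)
    {r : P2} (hr : ¬ c.f ∣ r) (Z : Multiset (Fin 3 → ℂ)) (hZ : ∀ x ∈ Z, x ≠ 0) :
    ∃ t : ℂ, (∀ x ∈ Z, ¬ (x 1 = t * x 0 ∧ x 2 = 0)) ∧ (ln t (w 1 - t * w 0) c.f).coeff 3 ≠ 0 ∧
      (ln t (w 1 - t * w 0) c.f).derivative.eval (w 0) ≠ 0 ∧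
      ∀ b, b ≠ w 0 → (ln t (w 1 - t * w 0) c.f).eval b = 0 →
        (ln t (w 1 - t * w 0) r).eval b ≠ 0 := by
  classical
  have h0 := io_ne_zero w c.prime.ne_zero
  have h1 : (io w c.f).coeff 3 ≠ 0 := by
    have := Polynomial.leadingCoeff_ne_zero.2 h0
    rwa [Polynomial.leadingCoeff, natDegree_io, show c.f.totalDegree = 3 from h3] at this
  have h2 : (io w c.f).coeff 1 ≠ 0 := by
    have h4 := c.add_two_le hE w
    have h5 := (mem_pow_iff (p := w) (n := 1) c.prime.ne_zero).1 (by simpa using mem_mi.2 hw)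
    have := Polynomial.trailingCoeff_nonzero_iff_nonzero.2 h0
    rwa [Polynomial.trailingCoeff, show (io w c.f).natTrailingDegree = 1 by
      unfold mult at h4 h5; omega] at this
  obtain ⟨r0, a0, s0, b0⟩ := exists_res c.prime hr 0
  obtain ⟨r1, a1, s1, b1⟩ := exists_res c.prime hr 1
  obtain ⟨t, ht⟩ := Infinite.exists_notMem_finset (Z.toFinset.image (fun x => x 1 / x 0) ∪
    ((io w c.f).coeff 3).roots.toFinset ∪ ((io w c.f).coeff 1).roots.toFinset ∪
    (r0.roots.toFinset ×ˢ r1.roots.toFinset).image fun q => (q.2 - w 1) / (q.1 - w 0))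
  simp only [Finset.mem_union, not_or, Finset.mem_image, Multiset.mem_toFinset, not_exists,
    not_and, Polynomial.mem_roots h1, Polynomial.mem_roots h2, Finset.mem_product,
    Polynomial.mem_roots a0, Polynomial.mem_roots a1, Polynomial.IsRoot.def, and_imp] at ht
  obtain ⟨⟨⟨t1, t2⟩, t3⟩, t4⟩ := ht
  have e := io_ln t w c.f
  refine ⟨t, fun x hx ⟨e1, e2⟩ => ?_, ?_, ?_, fun b hb hf hr' => ?_⟩
  · by_cases h : x 0 = 0
    · refine hZ x hx (funext fun i => ?_)
      fin_cases i
      exacts [h, by simpa [h] using e1, e2]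
    · exact t1 x hx (by rw [e1, mul_div_cancel_right₀ _ h])
  · have h4 := congrArg (Polynomial.coeff · 3) e
    simp only [Polynomial.coeff_map, Polynomial.coe_evalRingHom] at h4
    rw [h4] at t2
    have h5 := Polynomial.le_natDegree_of_ne_zero t2
    have h6 := (ln_deg t (w 1 - t * w 0) c.f).trans (le_of_eq h3)
    rw [Polynomial.natDegree_taylor] at h5
    rw [← le_antisymm h6 h5]
    refine Polynomial.leadingCoeff_ne_zero.2 fun h => ?_
    simp [h] at h5
  · have h4 := congrArg (Polynomial.coeff · 1) e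
    simp only [Polynomial.coeff_map, Polynomial.coe_evalRingHom,
      Polynomial.taylor_coeff_one] at h4
    rwa [h4] at t3
  · rw [ln_eval] at hf hr'
    have key : ∀ {k : Fin 2} {p : Polynomial ℂ} {s : P2},
        c.f ∣ r * s - Polynomial.aeval (X k : P2) p →
          p.eval (![b, algebraMap ℂ ℂ t * b + (w 1 - t * w 0)] k) = 0 := by
      rintro k p s ⟨u, hu⟩
      have := congrArg (aeval ![b, algebraMap ℂ ℂ t * b + (w 1 - t * w 0)]) hu
      rw [map_sub, map_mul, map_mul, hf, hr', ← Polynomial.aeval_algHom_apply, aeval_X] at this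
      simpa using this
    refine t4 (b, t * b + (w 1 - t * w 0)) (key b0) (key b1) ?_
    have := sub_ne_zero.2 hb
    field_simp
    ring

end T4

open T4 in
theorem stT4 : St_T4 := by
  intro E _ _ _ c hE h3 P w r Z₁ Z₂ d hP hr hZ hZ1 hid
  have hH := c.H_eq_zero hP
  have hw : eval w c.f = 0 := c.eval_eq_zero hP (by simp [c.ev_f])
  have hr0 : aeval c.ξ r ≠ 0 := fun h => hr ((c.ker r).1 h)
  obtain hk | hk := le_or_gt (3 * d) Z₂.card
  · have := (mem_Ge_iff hr0).1 (c.ev_mem_zero hH r)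
    omega
  obtain ⟨k, hk⟩ := Nat.exists_eq_add_of_le hk.le
  obtain ⟨t, t1, t2, t3, t4⟩ := exists_slope c hE h3 hw hr _ hZ
  obtain ⟨κ, hκ⟩ := hid t t1
  set a0 := w 1 - t * w 0 with ha0
  set n := r.totalDegree
  set lc := (ln t (Polynomial.X : Polynomial ℂ) c.f).coeff 3 with hlc
  set N := Polynomial.resultant (ln t (Polynomial.X : Polynomial ℂ) c.f) (ln t Polynomial.X r) 3 n
    with hN
  have hlc' : ∀ {A : Type} [CommRing A] [Algebra ℂ A] (a : A),
      Polynomial.aeval a lc = (ln t a c.f).coeff 3 := fun a => by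
    have := congrArg (Polynomial.coeff · 3) (ln_map t Polynomial.X (Polynomial.aeval a) c.f)
    simpa using this
  have hN' : ∀ {A : Type} [CommRing A] [Algebra ℂ A] (a : A),
      Polynomial.aeval a N = Polynomial.resultant (ln t a c.f) (ln t a r) 3 n := by
    intro A _ _ a
    have := Polynomial.resultant_map_map (ln t (Polynomial.X : Polynomial ℂ) c.f)
      (ln t Polynomial.X r) 3 n (Polynomial.aeval (R := ℂ) a : Polynomial ℂ →+* A)
    rw [ln_map, ln_map, Polynomial.aeval_X] at this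
    exact this.symm
  have hdeg : ∀ {A : Type} [CommRing A] [Algebra ℂ A] (a : A), (ln t a c.f).coeff 3 ≠ 0 →
      (ln t a c.f).natDegree = 3 := fun a h =>
    le_antisymm ((ln_deg t a c.f).trans (le_of_eq h3)) (Polynomial.le_natDegree_of_ne_zero h)
  have hlc0 : lc ≠ 0 := fun h => t2 (by rw [← hlc', h, map_zero])
  set e : Polynomial ℂ := Polynomial.C a0 - Polynomial.X with he
  have he0 : e ≠ 0 := fun h => Polynomial.X_ne_C a0 (sub_eq_zero.1 h).symm
  set m : (Fin 3 → ℂ) → Polynomial ℂ := fun x =>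
    Polynomial.C (x 1 - t * x 0) - Polynomial.X * Polynomial.C (x 2) with hm
  have hpoly : Polynomial.C κ * ((Z₁ + Z₂).map m).prod * e ^ (3 * d) * lc ^ n =
      lc ^ d * e ^ (Z₁ + Z₂).card * N := by
    refine Polynomial.eq_of_infinite_eval_eq _ _
      (((Polynomial.finite_setOfPred_isRoot (mul_ne_zero he0 hlc0)).infinite_compl).mono fun a ha => ?_)
    have h1 : (a0 - a ≠ 0) ∧ lc.eval a ≠ 0 := by simpa [he, not_or] using ha
    have h2 := hlc' a
    have h4 := hN' a
    rw [Polynomial.coe_aeval_eq_eval] at h2 h4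
    obtain ⟨A, h5, h6⟩ := split3 (hdeg a (h2 ▸ h1.2))
    rw [h6 _ n (ln_deg t a r), ← h2] at h4
    rw [← h2] at h5
    have h7 := hκ a _ A h1.1 h1.2 h5
    simp only [ln_eval, Algebra.algebraMap_self, RingHom.id_apply, aeval_eq_eval] at h4
    simp only [Set.mem_ofPred_eq, Polynomial.eval_mul, Polynomial.eval_pow, Polynomial.eval_C,
      Polynomial.eval_multiset_prod, Multiset.map_map, Function.comp_def, he, hm,
      Polynomial.eval_sub, Polynomial.eval_X, h4]
    linear_combination lc.eval a ^ n * h7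
  have hd1 : e ^ Z₁.card ∣ (Z₁.map m).prod := by
    rw [← Multiset.prod_replicate, ← Multiset.map_const']
    refine Multiset.prod_dvd_prod_of_dvd _ _ fun x hx => ⟨Polynomial.C (x 2), ?_⟩
    simp only [hm, he, ha0, (hZ1 x hx).1, (hZ1 x hx).2, map_sub, map_mul]
    ring
  obtain ⟨S, hS⟩ : e ^ k ∣ lc ^ d * N := by
    obtain ⟨u, hu⟩ := hd1
    refine ⟨Polynomial.C κ * u * (Z₂.map m).prod * lc ^ n,
      mul_left_cancel₀ (pow_ne_zero (Z₁.card + Z₂.card) he0) ?_⟩
    rw [Multiset.map_add, Multiset.prod_add, Multiset.card_add, hu, hk] at hpoly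
    linear_combination -hpoly
  set φ : P2 := X 1 - C t * X 0 with hφ
  obtain ⟨Q, hQ⟩ : Polynomial.X - Polynomial.C (X 0) ∣ ln t φ c.f - Polynomial.C c.f := by
    have := Polynomial.X_sub_C_dvd_sub_C_eval (a := (X 0 : P2)) (p := ln t φ c.f)
    rwa [ln_eval, show ![X 0, algebraMap ℂ P2 t * X 0 + φ] = X by
      funext i; fin_cases i <;> simp [hφ], aeval_X_left_apply] at this
  have hQ' : ∀ {A : Type} [CommRing A] [Algebra ℂ A] (ξ : Fin 2 → A), aeval ξ c.f = 0 →
      ln t (aeval ξ φ) c.f = (Polynomial.X - Polynomial.C (ξ 0)) *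
        Q.map (aeval (R := ℂ) ξ : P2 →+* A) := by
    intro A _ _ ξ h
    have := congrArg (Polynomial.map (aeval (R := ℂ) ξ : P2 →+* A)) hQ
    rw [Polynomial.map_sub, ln_map] at this
    simpa [h] using this
  have hφw : aeval w φ = a0 := by simp [hφ, ha0]
  set g := Polynomial.resultant Q (ln t φ r) 2 n with hg
  have hg' : ∀ {A : Type} [CommRing A] [Algebra ℂ A] (ξ : Fin 2 → A), aeval ξ g =
      Polynomial.resultant (Q.map (aeval (R := ℂ) ξ : P2 →+* A)) (ln t (aeval ξ φ) r) 2 n :=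
    fun ξ => by
      rw [← ln_map, Polynomial.resultant_map_map]
      rfl
  have hgw : aeval w g ≠ 0 := by
    have h1 := hQ' w (by simpa [coe_aeval_eq_eval] using hw)
    rw [hg', hφw] at *
    set Qw := Q.map (aeval (R := ℂ) w : P2 →+* ℂ)
    have h2 := (res_split h1 (hdeg a0 t2) (ln_deg t a0 r)).1
    have h0 : Qw ≠ 0 := fun h => by simp [h] at h2
    have h5 := Polynomial.resultant_eq_prod_eval Qw _ _ (ln_deg t a0 r) (IsAlgClosed.splits _)
    rw [h2] at h5
    rw [h5]
    refine mul_ne_zero (pow_ne_zero _ (Polynomial.leadingCoeff_ne_zero.2 h0))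
      (Multiset.prod_ne_zero fun h => ?_)
    obtain ⟨b, hb, hb'⟩ := Multiset.mem_map.1 h
    have h4 : Qw.eval b = 0 := (Polynomial.mem_roots h0).1 hb
    refine t4 b ?_ (by rw [h1, Polynomial.eval_mul, h4, mul_zero]) hb'
    rintro rfl
    exact t3 (by simp [h1, h4])
  have hu : ∀ h : P2, aeval w h ≠ 0 → aeval c.ξ h ≠ 0 ∧ P.ord (aeval c.ξ h) ≤ 0 := fun h h1 => by
    have h2 : aeval c.ξ h ∉ Ge P 1 := fun h2 =>
      h1 (by simpa [coe_aeval_eq_eval] using c.eval_eq_zero hP h2)
    have h4 : aeval c.ξ h ≠ 0 := fun h4 => h2 (h4 ▸ zero_mem _)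
    rw [mem_Ge_iff h4] at h2
    exact ⟨h4, by omega⟩
  have hl := hu (Polynomial.aeval φ lc) (by rw [← Polynomial.aeval_algHom_apply, hφw, hlc']; exact t2)
  have hl' := hu (Polynomial.aeval φ lc ^ d * g) (by
    rw [map_mul, map_pow, ← Polynomial.aeval_algHom_apply, hφw, hlc']
    exact mul_ne_zero (pow_ne_zero _ t2) hgw)
  rw [← Polynomial.aeval_algHom_apply, hlc'] at hl
  have h1 := (res_split (hQ' c.ξ c.ev_f) (hdeg _ hl.1) (ln_deg t (aeval c.ξ φ) r)).2
  rw [← hN', ← hg', ln_eval, show ![c.ξ 0, algebraMap ℂ E t * c.ξ 0 + aeval c.ξ φ] = c.ξ by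
    funext i; fin_cases i <;> simp [hφ]] at h1
  have h2 : aeval c.ξ r * aeval c.ξ (Polynomial.aeval φ lc ^ d * g) ∈ Ge P k := by
    have h4 := congrArg (Polynomial.aeval (aeval c.ξ φ)) hS
    rw [map_mul, map_mul, map_pow, map_pow, h1] at h4
    rw [map_mul, map_pow, ← Polynomial.aeval_algHom_apply, mul_left_comm, h4]
    have h5 : Polynomial.aeval (aeval c.ξ φ) e ∈ Ge P 1 := by
      have := c.ev_mem_pow (p := w) hH (n := 1) (g := C a0 - φ) (by simp [mem_mi, hφ, ha0])
      refine Ge_mono (by omega) (?_ : _ ∈ Ge P ((1 : ℕ) * c.D w P))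
      simpa [he] using this
    refine Ge_mul' (Ge_pow h5 k) (mem_Ge_zero.2 (P.aeval_mem ?_ S)) (by omega)
    exact mem_Ge_zero.1 (c.ev_mem_zero hH φ)
  rw [mem_Ge_iff (mul_ne_zero hr0 hl'.1), P.ord_mul hr0 hl'.1] at h2
  omega

end G1
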