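import Pool.Agent.Lib.G1.TAIL1

open Finsupp MvPolynomial IntermediateField Module
open Pool.Agent.Lib.MP_cc3443_ag Pool.Agent.Lib.MP_3c72fe_ag

noncomputable section

namespace G1

namespace TAILp

lemma eval_onL (t a b : ℂ) (g : P2) : (onL t a g).eval b = eval ![b, t * b + a] g := by
  induction g using MvPolynomial.induction_on with
  | C c => simp [onL]
  | add g h hg hh => simp [hg, hh]
  | mul_X g i hg =>
    rw [map_mul, Polynomial.eval_mul, hg, map_mul]
    fin_cases i <;> simp [onL]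

lemma deg_prod {α : Type} (Z : Multiset α) (a b : α → ℂ) :
    (Z.map fun P => Polynomial.C (a P) - Polynomial.C (b P) * Polynomial.X).prod.natDegree ≤
      Z.card := by
  induction Z using Multiset.induction_on with
  | empty => simp
  | cons P Z ih =>
    rw [Multiset.map_cons, Multiset.prod_cons, Multiset.card_cons]
    refine Polynomial.natDegree_mul_le.trans ?_
    have : (Polynomial.C (a P) - Polynomial.C (b P) * Polynomial.X).natDegree ≤ 1 := by
      compute_degree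
    omega

lemma lin_ne (a : ℂ) : Polynomial.C a - Polynomial.X ≠ 0 := by
  rw [← neg_sub]; exact neg_ne_zero.2 (Polynomial.X_sub_C_ne_zero a)

lemma deg_lin (a : ℂ) : (Polynomial.C a - Polynomial.X).natDegree = 1 := by
  rw [← neg_sub, Polynomial.natDegree_neg, Polynomial.natDegree_X_sub_C]

variable {F K E : Type} [Field F] [Algebra ℂ F] [IsFF F] [Field K] [Algebra ℂ K] [IsFF K]
  [Field E] [Algebra ℂ E] [IsFF E] [Algebra E K] [IsScalarTower ℂ E K] (S : Setup F K E)
  (z : Place K)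

omit [IsScalarTower ℂ E K] in
lemma card_H (hH : S.D.c.H (S.C.res z) = 0) : ((S.m.Z z S.c.H).card : ℤ) = S.dz z := by
  rw [card_Z (show (0 : Place F →₀ ℤ) ≤ _ from S.c.H_nonneg), Setup.dz, Finsupp.sub_apply]
  change _ = _ - S.D.c.H (S.C.res z)
  rw [hH, sub_zero]

omit [IsScalarTower ℂ E K] in
lemma card_D (i : Fin 10) : ((S.m.Z z (S.c.D (S.p i))).card : ℤ) =
    S.mz i z + S.D.c.D (S.D.y i) (S.C.res z) := by
  rw [card_Z (show (0 : Place F →₀ ℤ) ≤ _ from S.c.D_nonneg _), Setup.mz, Finsupp.sub_apply]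
  exact (sub_add_cancel _ _).symm

lemma map_line (t a : ℂ) :
    algebraMap E K (S.D.c.ξ 1) - t • algebraMap E K (S.D.c.ξ 0) - algebraMap ℂ K a =
      algebraMap E K (S.D.c.ξ 1 - t • S.D.c.ξ 0 - algebraMap ℂ E a) := by
  simp only [Algebra.smul_def, map_sub, map_mul, ← IsScalarTower.algebraMap_apply]

lemma card_line {t a tb ab : ℂ} (ht : S.m.v.Sp t tb) (ha : S.m.v.Sp a ab) :
    ((S.m.Z z (divF (S.c.ξ 1 - t • S.c.ξ 0 - algebraMap ℂ F a) + S.c.H)).card : ℤ) =
      (S.C.res z).ord (S.D.c.ξ 1 - tb • S.D.c.ξ 0 - algebraMap ℂ E ab) +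
        (S.m.Z z S.c.H).card := by
  have h1 : S.m.R.Sp ((1 : ℂ) • (S.c.ξ 1 - t • S.c.ξ 0 - algebraMap ℂ F a))
      (algebraMap E K (S.D.c.ξ 1 - tb • S.D.c.ξ 0 - algebraMap ℂ E ab)) := by
    rw [one_smul, ← map_line, Algebra.smul_def, Algebra.smul_def]
    exact sp_sub (sp_sub (S.sp_ξ 1) (sp_mul (S.m.ov.2 _ _ ht) (S.sp_ξ 0))) (S.m.ov.2 _ _ ha)
  have h2 := card_div (z := z) (A := S.c.H) h1 ((_root_.map_ne_zero _).2 (line_ne _ _ _)) 1
    (by simpa using line_nonneg S.c t a) S.c.H_nonneg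
  rw [S.C.ord_res] at h2
  simpa using h2

end TAILp

open TAILp in
theorem stTAIL (hPT : St_PT) (hT1 : St_T1) (hT2 : St_T2) (hT4 : St_T4) (hNOT : St_NOT) :
    St_TAIL := by
  classical
  intro F K E _ _ _ _ _ _ _ _ _ _ _ S z hH
  obtain ⟨w, hw⟩ := exists_centre S.D.c hH
  choose xb hxb using fun P => (hPT F S.m.v S.c P).1
  have pt := fun P => (hPT F S.m.v S.c P).2 _ (hxb P)
  obtain ⟨r, r0, LINE, ID⟩ := hT1 F K S.m S.c (fun k => algebraMap E K (S.D.c.ξ k)) z w xb S.sp_ξ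
    (fun k => by
      have h1 := (mem_Ge_iff (S.D.c.sub_ne _ _)).1 (centre S.D.c hw k)
      rw [← S.C.ord_res, map_sub, ← IsScalarTower.algebraMap_apply] at h1
      exact mem_Ge_of_le h1)
    (fun a b e h => by
      have := S.D.c.lin_eq_zero (a := a) (b := b) (e := e) ((algebraMap E K).injective (by
        simpa only [Algebra.smul_def, map_add, map_mul, ← IsScalarTower.algebraMap_apply,
          map_zero] using h))
      exact ⟨this.1, this.2.1⟩) hxb
  simp only [map_line, S.C.ord_res] at LINE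
  have hd := card_H S z hH
  have pos : ∀ t a, 0 ≤ (S.C.res z).ord (S.D.c.ξ 1 - t • S.D.c.ξ 0 - algebraMap ℂ E a) :=
    fun t a => by simpa [hH] using line_nonneg S.D.c t a (S.C.res z)
  have near : ∀ i, ∀ P ∈ S.m.Z z (S.c.D (S.p i)),
      xb P 0 = xb P 2 * S.D.y i 0 ∧ xb P 1 = xb P 2 * S.D.y i 1 := fun i P hP =>
    ((pt P).2.1 (S.D.y i) fun k => by
      obtain ⟨h1, h2⟩ := ev_of (centre S.c (mem_Z.1 hP).2 k)
      exact ⟨h1, h2 ▸ S.sp_p i k⟩).2
  have ndvd : ¬ S.D.c.f ∣ r := fun hdv => by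
    obtain ⟨ab, hab⟩ := (((((hT2 r).2.2 r0).union (Set.finite_singleton (w 1))).union
      (hNOT F K E S.m S.c.ξ S.D.c S.D.flat z 1)).union (fin_miss S.D.c)).exists_notMem
    simp only [Set.mem_union, not_or, Set.mem_ofPred_eq, Set.mem_singleton_iff, not_forall,
      not_not] at hab
    obtain ⟨⟨⟨h1, h2⟩, h3⟩, q0, h4⟩ := hab
    obtain ⟨a, ha⟩ := sp_lift S.m.v ab
    obtain ⟨κ, hκ⟩ := LINE 0 a 0 ab sp_zero ha (Or.inr h2)
    have h5 : κ ≠ 0 := by
      rintro rfl
      rw [map_zero, zero_mul] at hκ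
      exact mul_ne_zero h1 (pow_ne_zero _ (lin_ne _)) hκ.symm
    have h6 := congrArg (Polynomial.eval q0) hκ
    obtain ⟨r1, rfl⟩ := hdv
    rw [Polynomial.eval_mul, Polynomial.eval_mul, eval_onL, zero_mul, zero_add, map_mul, h4,
      zero_mul, zero_mul, Polynomial.eval_C, mul_eq_zero, Polynomial.eval_multiset_prod,
      Multiset.prod_eq_zero_iff, Multiset.map_map, Multiset.mem_map] at h6
    obtain ⟨P, hP, h7⟩ := h6.resolve_left h5
    have h8 := (pt P).2.2.1 0 a 0 ab sp_zero ha (mem_Z.1 hP).2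
    simp only [Function.comp, Polynomial.eval_sub, Polynomial.eval_C, Polynomial.eval_mul,
      Polynomial.eval_X, sub_eq_zero] at h7
    have h9 : xb P 2 ≠ 0 := fun e => (hxb P).1 (by
      ext j
      fin_cases j <;> simp [h7, h8, e])
    refine h3 ⟨P, ![q0, ab], (mem_Z.1 hP).1, fun j => ?_, h4, rfl⟩
    have h10 := (pt P).1 h9 j
    fin_cases j
    · simpa [h7, h9] using h10
    · simpa [h8, h9] using h10
  refine ⟨r, ⟨ndvd, ?_, fun i => ?_⟩, fun Γ η u h1 h2 h3 h4 => ?_⟩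
  · rw [← hd, Nat.cast_le]
    refine (hT2 r).1 _ ((Set.finite_singleton 0).subset fun tb htb => ?_)
    by_contra h0
    refine htb ?_
    obtain ⟨t, ht⟩ := sp_lift S.m.v tb
    obtain ⟨κ, hκ⟩ := LINE t 0 tb 0 ht sp_zero (Or.inl h0)
    by_cases h1 : onL tb 0 r = 0
    · simp [h1]
    have h2 := (Polynomial.natDegree_C_mul_le κ _).trans (deg_prod (S.m.Z z (divF
      (S.c.ξ 1 - t • S.c.ξ 0 - algebraMap ℂ F 0) + S.c.H)) (fun P => xb P 0) fun P => xb P 2)
    rw [hκ, Polynomial.natDegree_mul h1 (pow_ne_zero _ (lin_ne _)), Polynomial.natDegree_pow,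
      deg_lin] at h2
    have h3 := card_line S z ht (sp_zero (R := S.m.v))
    have h4 := pos tb 0
    omega
  · refine (Int.self_le_toNat _).trans (Nat.cast_le.2 ((mem_pow_iff r0).1 ((hT2 r).2.1 _ _
      (((Set.finite_singleton 0).union (fin_tan S.D.c (S.D.y i) (S.C.res z)).finite).subset
        fun tb htb => ?_))))
    by_contra h0
    simp only [Set.mem_union, not_or, Set.mem_ofPred_eq, Set.mem_singleton_iff, not_lt, hH,
      sub_zero] at h0
    refine htb ?_
    obtain ⟨t, ht⟩ := sp_lift S.m.v tb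
    obtain ⟨κ, hκ⟩ := LINE t _ tb _ ht (sp_sub (S.sp_p i 1) (sp_mul ht (S.sp_p i 0))) (Or.inl h0.1)
    have h1 : (Polynomial.X - Polynomial.C (S.D.y i 0)) ^ (S.m.Z z (S.c.D (S.p i))).card ∣
        ((S.m.Z z (S.c.D (S.p i))).map fun P =>
          Polynomial.C (xb P 0) - Polynomial.C (xb P 2) * Polynomial.X).prod := by
      rw [← Multiset.prod_replicate, ← Multiset.map_const']
      refine Multiset.prod_dvd_prod_of_dvd _ _ fun P hP => ⟨-Polynomial.C (xb P 2), ?_⟩
      rw [(near i P hP).1, map_mul]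
      ring
    have h2 := (h1.trans (Multiset.prod_dvd_prod_of_le (Multiset.map_le_map
      (Z_mono (D_le_line S.c t (S.p i)))))).mul_left (Polynomial.C κ)
    rw [hκ] at h2
    have h3 := card_D S z i
    have h4 := h0.2
    beta_reduce
    rcases (S.D.c.D_nonneg (S.D.y i) (S.C.res z)).eq_or_lt with e | e
    · rw [Int.toNat_eq_zero.2 (by omega), pow_zero, mul_one] at h2
      exact (pow_dvd_pow _ (by omega)).trans h2
    · rw [← S.D.c.eq_of_pos e hw, ← neg_sub Polynomial.X (Polynomial.C _), neg_pow,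
        ← mul_assoc] at h2
      by_cases h5 : S.mz i z ≤ 0
      · simp [Int.toNat_eq_zero.2 h5]
      have h6 := pos tb (S.D.y i 1 - tb * S.D.y i 0)
      have h7 := (pow_dvd_pow _ (show (S.mz i z).toNat + ((S.C.res z).ord (S.D.c.ξ 1 -
        tb • S.D.c.ξ 0 - algebraMap ℂ E (S.D.y i 1 - tb * S.D.y i 0))).toNat ≤ _ by omega)).trans h2
      rw [pow_add, mul_dvd_mul_iff_right (pow_ne_zero _ (Polynomial.X_sub_C_ne_zero _))] at h7
      exact (IsUnit.dvd_mul_right (isUnit_neg_one.pow _)).1 h7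
  · by_cases hu : u = 0
    · simp [hu]
    have g0 : aeval S.c.ξ Γ ≠ 0 := right_ne_zero_of_smul (sp_ne h3 hu)
    have g1 : 0 ≤ divF (aeval S.c.ξ Γ) + ((3 : ℕ) : ℤ) • S.c.H := fun P => by
      have := (mem_Ge_iff g0).1 (S.c.ev_mem_H h2 P)
      simp at this ⊢
      omega
    have hN := card_div (z := z) h3 hu 3 g1 S.c.H_nonneg
    have key : ∀ Z₁ ≤ S.m.Z z (divF (aeval S.c.ξ Γ) + ((3 : ℕ) : ℤ) • S.c.H),
        (∀ P ∈ Z₁, xb P 0 = xb P 2 * w 0 ∧ xb P 1 = xb P 2 * w 1) →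
        (Z₁.card : ℤ) - (S.C.res z).ord (aeval S.D.c.ξ r) ≤ z.ord u := fun Z₁ hle hZ => by
      obtain ⟨Z₂, e⟩ := Multiset.le_iff_exists_add.1 hle
      have h5 := hT4 E S.D.c S.D.nr S.D.d3 (S.C.res z) w r (Z₁.map xb) (Z₂.map xb)
        (S.m.Z z S.c.H).card hw ndvd
        (by
          rw [← Multiset.map_add]
          exact Multiset.forall_mem_map_iff.2 fun P _ => (hxb P).1)
        (Multiset.forall_mem_map_iff.2 hZ)
        (fun t ht => by
          rw [← Multiset.map_add, ← e] at ht ⊢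
          obtain ⟨κ, hκ⟩ := ID 3 Γ _ η t h1 h2 ⟨h3.1, h3.2 ▸ hu⟩
            fun P hP => ht _ (Multiset.mem_map_of_mem xb hP)
          refine ⟨κ, fun a cc A h6 h7 h8 => ?_⟩
          rw [Multiset.map_map, Multiset.card_map]
          exact hκ a cc A h6 h7 h8)
      rw [e, Multiset.card_add] at hN
      rw [Multiset.card_map] at h5
      push_cast at hN
      omega
    refine mem_Ge_of_le ?_
    simp only [Cub.B, Cub.cl, Finsupp.add_apply, Finsupp.sub_apply, Finsupp.smul_apply, hH,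
      divF_apply, smul_zero]
    by_cases hj : ∃ j, 0 < S.D.c.D (S.D.y j) (S.C.res z)
    · obtain ⟨j, hj⟩ := hj
      have h5 := key _ (Z_mono (D_le_ev S.c g0 h2 (h4 j hj))) (S.D.c.eq_of_pos hj hw ▸ near j)
      have h6 := le_degree_of_nonneg (show (0 : Place E →₀ ℤ) ≤ _ from S.D.c.D_nonneg (S.D.y j))
        (S.C.res z)
      have h7 := S.D.c.add_two_le S.D.nr (S.D.y j)
      rw [S.D.d3] at h7
      rw [S.D.c.degree_D] at h6
      have h8 : S.D.c.D (S.D.y j) (S.C.res z) = 1 := by omega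
      rw [S.D.c.sum_D_apply S.D.inj _ hj, S.D.c.sum_D_apply S.D.inj _ hj, h8, Pi.one_apply]
      rw [card_D, h8] at h5
      omega
    · have h5 := key 0 (Multiset.zero_le _) (by simp)
      rw [S.D.c.sum_D_apply' _ (not_exists.1 hj), S.D.c.sum_D_apply' _ (not_exists.1 hj)]
      simpa using h5

end G1
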