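import Pool.Agent.Lib.G1.Blue

open Finsupp MvPolynomial IntermediateField Module
open Pool.Agent.Lib.MP_cc3443_ag Pool.Agent.Lib.MP_3c72fe_ag

noncomputable section

namespace G1

namespace WEI

variable {K : Type} [Field K] [Algebra ℂ K] (M : WM K)

/-- The cubic of a Weierstrass model. -/
def F : Polynomial ℂ := ∏ i, (Polynomial.X - Polynomial.C (M.e i))

lemma eval_F (a : ℂ) : (F M).eval a = ∏ i, (a - M.e i) := by
  simp [F, Polynomial.eval_prod]

lemma sq_eq : M.y ^ 2 = Polynomial.aeval M.x (F M) := by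
  rw [M.eq]; simp [F]

lemma monic_F : (F M).Monic :=
  Polynomial.monic_prod_of_monic _ _ fun _ _ => Polynomial.monic_X_sub_C _

lemma natDegree_F : (F M).natDegree = 3 := by
  rw [F, Polynomial.natDegree_prod_of_monic _ _ fun i _ => Polynomial.monic_X_sub_C _]
  simp

lemma deriv_ne {a : ℂ} (h : (F M).eval a = 0) : (F M).derivative.eval a ≠ 0 := by
  have h1 : (F M).Separable := Polynomial.separable_prod_X_sub_C_iff.2 M.inj
  simpa using h1.aeval_derivative_ne_zero (x := a) (by simpa using h)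

lemma aeval_ne {p : Polynomial ℂ} (hp : p ≠ 0) : Polynomial.aeval M.x p ≠ 0 :=
  fun h => hp (transcendental_iff.1 M.tr p h)

lemma y_ne : M.y ≠ 0 := fun h => aeval_ne M (monic_F M).ne_zero (by rw [← sq_eq, h]; simp)

lemma sub_ne (a : ℂ) : M.x - algebraMap ℂ K a ≠ 0 := by
  simpa using aeval_ne M (Polynomial.X_sub_C_ne_zero a)

/-- The functions `1` and `y` are independent over the polynomials in `x`. -/
lemma ind {a b : Polynomial ℂ}
    (h : Polynomial.aeval M.x a + Polynomial.aeval M.x b * M.y = 0) : a = 0 ∧ b = 0 := by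
  have h1 : a ^ 2 - b ^ 2 * F M = 0 := by
    refine transcendental_iff.1 M.tr _ ?_
    rw [map_sub, map_mul, map_pow, map_pow, ← sq_eq, eq_neg_of_add_eq_zero_left h]
    ring
  have hb : b = 0 := by
    by_contra hb
    have h2 := congrArg Polynomial.natDegree (sub_eq_zero.1 h1)
    rw [Polynomial.natDegree_mul (pow_ne_zero 2 hb) (monic_F M).ne_zero, Polynomial.natDegree_pow,
      Polynomial.natDegree_pow, natDegree_F] at h2
    omega
  refine ⟨?_, hb⟩
  rw [hb] at h
  exact transcendental_iff.1 M.tr _ (by simpa using h)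

lemma linInd (n m : ℕ) : LinearIndependent ℂ
    (Sum.elim (fun i : Fin n => M.x ^ (i : ℕ)) fun j : Fin m => M.x ^ (j : ℕ) * M.y) := by
  have h0 := (Polynomial.basisMonomials ℂ).linearIndependent
  have h1 := linearIndependent_inl_union_inr' (h0.comp _ (Fin.val_injective (n := n)))
    (h0.comp _ (Fin.val_injective (n := m)))
  let Φ : (Polynomial ℂ × Polynomial ℂ) →ₗ[ℂ] K := (Polynomial.aeval M.x).toLinearMap.coprod
    ((LinearMap.mulRight ℂ M.y).comp (Polynomial.aeval M.x).toLinearMap)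
  have h2 := h1.map' Φ (LinearMap.ker_eq_bot'.2 fun p hp => Prod.ext (ind M hp).1 (ind M hp).2)
  have h3 : ∀ {u v : Fin n ⊕ Fin m → K}, LinearIndependent ℂ u → v = u → LinearIndependent ℂ v :=
    fun h e => e ▸ h
  refine h3 h2 ?_
  ext (i | j) <;> simp [Φ]

variable [IsFF K]

lemma two_le_degree {D : Place K →₀ ℤ} (hD : 0 ≤ D) {P Q : Place K} (h : P ≠ Q) :
    D P + D Q ≤ degree D := by
  have h1 : single P (D P) + single Q (D Q) ≤ D := fun R => by
    have := hD R
    by_cases h2 : P = R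
    · subst h2; simp [h]
    · by_cases h3 : Q = R
      · subst h3; simp [h.symm]
      · simpa [Ne.symm h2, Ne.symm h3] using this
  simpa using degree_mono' h1

lemma aeval_sub {P : Place K} {x : K} {a : ℂ} (h : x - algebraMap ℂ K a ∈ Ge P 1)
    (p : Polynomial ℂ) : Polynomial.aeval x p - algebraMap ℂ K (p.eval a) ∈ Ge P 1 := by
  obtain ⟨q, hq⟩ := Polynomial.X_sub_C_dvd_sub_C_eval (a := a) (p := p)
  have h1 := congrArg (Polynomial.aeval x) hq
  have h2 : x ∈ P.O := by
    have := add_mem (Ge_mono (n := 0) (by omega) h) (const_mem_Ge a)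
    rwa [sub_add_cancel, mem_Ge_zero] at this
  simp only [map_sub, map_mul, Polynomial.aeval_X, Polynomial.aeval_C] at h1
  rw [h1]
  exact Ge_mul' h (mem_Ge_zero.2 (P.aeval_mem h2 q)) (by omega)

lemma ord_eq_zero {P : Place K} {z : K} {a : ℂ} (h : z - algebraMap ℂ K a ∈ Ge P 1) (ha : a ≠ 0) :
    P.ord z = 0 := by
  have h1 := ord_eq_of_sub (P := P) (z := algebraMap ℂ K a) (w := z) (by simpa using ha)
    (by rwa [ord_const ha])
  rw [h1.2, ord_const ha]

lemma res_zero {P : Place K} {z : K} {a : ℂ} (h : z - algebraMap ℂ K a ∈ Ge P 1)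
    (hz : z ∈ Ge P 1) : a = 0 :=
  P.res_unique (mem_Ge_one.1 h) (by simpa using mem_Ge_one.1 hz)

lemma ord_sq (P : Place K) {z : K} (hz : z ≠ 0) : P.ord (z ^ 2) = 2 * P.ord z := by
  rw [sq, P.ord_mul hz hz]; ring

lemma on_curve {P : Place K} {a b : ℂ} (ha : M.x - algebraMap ℂ K a ∈ Ge P 1)
    (hb : M.y - algebraMap ℂ K b ∈ Ge P 1) : b ^ 2 = (F M).eval a := by
  have h1 := aeval_sub hb (Polynomial.X ^ 2)
  have h2 := aeval_sub ha (F M)
  rw [map_pow, Polynomial.aeval_X, sq_eq] at h1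
  simpa using P.res_unique (mem_Ge_one.1 h1) (mem_Ge_one.1 h2)

lemma degree_pol_le : degree (pol M.x) ≤ 2 := by
  rw [degree_pol M.tr]
  have h1 := finrank_le_of_rel M.tr M.top (h := Polynomial.X ^ 2 - Polynomial.C (F M))
    (Polynomial.X_pow_sub_C_ne_zero (by omega) _) (by simp [sq_eq])
  rw [Polynomial.natDegree_X_pow_sub_C] at h1
  exact_mod_cast h1

lemma ord_pole {P : Place K} (h : M.x ∉ P.O) : P.ord M.x ≤ -2 ∧ 2 * P.ord M.y = 3 * P.ord M.x := by
  have h0 : M.x ≠ 0 := by simpa using sub_ne M 0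
  have h1 : P.ord M.x < 0 := by
    rw [P.mem_iff_ord h0] at h
    omega
  have h2 : ∀ a, P.ord (M.x - algebraMap ℂ K a) = P.ord M.x := fun a =>
    (ord_eq_of_sub h0 (by
      rw [sub_sub_cancel_left]
      exact neg_mem (Ge_mono (by omega) (const_mem_Ge a)))).2
  have h3 := ord_sq P (y_ne M)
  rw [M.eq, Fin.prod_univ_three, P.ord_mul (mul_ne_zero (sub_ne M _) (sub_ne M _)) (sub_ne M _),
    P.ord_mul (sub_ne M _) (sub_ne M _), h2, h2, h2] at h3
  omega

lemma exists_O : ∃ O : Place K, O.ord M.x = -2 ∧ O.ord M.y = -3 ∧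
    ∀ P, P ≠ O → M.x ∈ P.O ∧ M.y ∈ P.O := by
  obtain ⟨t, ht⟩ := IsFF.ex (K := K)
  obtain ⟨_, _, _, -⟩ := exists_inst ht
  obtain ⟨O, hO⟩ : ∃ O : Place K, M.x ∉ O.O := by
    by_contra h
    push Not at h
    obtain ⟨c, hc⟩ := exists_const h
    exact sub_ne M c (sub_eq_zero.2 hc)
  have h1 := ord_pole M hO
  have h2 := degree_pol_le M
  have h3 := le_degree_of_nonneg (pol_nonneg M.x) O
  rw [pol_apply] at h3
  refine ⟨O, by omega, by omega, fun P hP => ?_⟩
  have h4 : M.x ∈ P.O := by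
    by_contra h
    have h5 := ord_pole M h
    have h6 := two_le_degree (pol_nonneg M.x) hP
    rw [pol_apply, pol_apply] at h6
    omega
  refine ⟨h4, ?_⟩
  have h5 := P.aeval_mem h4 (F M)
  rw [← sq_eq, P.mem_iff_ord (pow_ne_zero 2 (y_ne M)), ord_sq P (y_ne M)] at h5
  rw [P.mem_iff_ord (y_ne M)]
  omega

lemma ord_two_mul (P : Place K) : P.ord (2 * M.y) = P.ord M.y := by
  have h1 : (2 : K) = algebraMap ℂ K 2 := (map_ofNat _ 2).symm
  rw [h1, P.ord_mul (by simp) (y_ne M), ord_const (by simp), zero_add]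

lemma exists_delta : ∃ δ : Derivation ℂ K K, δ ≠ 0 ∧ δ M.x = 2 * M.y ∧
    δ M.y = Polynomial.aeval M.x (F M).derivative := by
  have : CharZero K := charZero_of_injective_algebraMap (algebraMap ℂ K).injective
  obtain ⟨D, hD⟩ := exists_der (K := K)
  have h1 := deriv_ne_zero hD M.tr
  have h2 : (2 : K) * M.y ≠ 0 := mul_ne_zero two_ne_zero (y_ne M)
  have h3 : ((2 * M.y / D M.x) • D) M.x = 2 * M.y := by
    rw [Derivation.smul_apply, smul_eq_mul, div_mul_cancel₀ _ h1]
  refine ⟨(2 * M.y / D M.x) • D, fun h => h2 (by rw [← h3, h]; rfl), h3, ?_⟩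
  have h4 := congrArg ((2 * M.y / D M.x) • D) (sq_eq M)
  rw [Derivation.map_aeval, h3, Derivation.leibniz_pow] at h4
  refine mul_left_cancel₀ h2 ?_
  simp only [smul_eq_mul, nsmul_eq_mul] at h4
  push_cast at h4
  linear_combination h4

include M in
lemma chi_nonneg : 0 ≤ chi K := by
  obtain ⟨O, h1, h2, h3⟩ := exists_O M
  have hx : M.x ∈ LL (single O 2) := mem_LL.2 fun P => by
    by_cases h : P = O
    · subst h; exact mem_Ge_of_le (by simp [h1])
    · simpa [h, mem_Ge_zero] using (h3 P h).1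
  have hy : M.y ∈ LL (single O 3) := mem_LL.2 fun P => by
    by_cases h : P = O
    · subst h; exact mem_Ge_of_le (by simp [h2])
    · simpa [h, mem_Ge_zero] using (h3 P h).2
  let n : ℕ := (chi K).natAbs
  have h4 := card_le_el (E := single O (2 * n + 2)) (linInd M (n + 2) n) (by
    rintro (i | j)
    · refine LL_mono ?_ (LL_pow hx i)
      rw [Finsupp.smul_single, Finsupp.single_le_single]
      have := i.2
      simp only [nsmul_eq_mul]
      omega
    · refine LL_mono ?_ (LL_mul (LL_pow hx j) hy)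
      rw [Finsupp.smul_single, ← Finsupp.single_add, Finsupp.single_le_single]
      have := j.2
      simp only [nsmul_eq_mul]
      omega)
  rw [el_eq (by rw [degree_single]; omega), degree_single] at h4
  simp only [Fintype.card_sum, Fintype.card_fin] at h4
  omega

lemma flat {δ : Derivation ℂ K K} (h0 : δ ≠ 0) (hx : δ M.x = 2 * M.y)
    (hy : δ M.y = Polynomial.aeval M.x (F M).derivative) :
    chi K = 0 ∧ ∀ P : Place K, P.ord (δ P.unif) = 0 := by
  obtain ⟨O, h1, h2, h3⟩ := exists_O M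
  obtain ⟨W, hW1, hW2⟩ := hur h0
  have h4 : 0 ≤ W := fun P => by
    change 0 ≤ W P
    have h5 := hW2 P
    by_cases h : P = O
    · subst h
      have h6 := ord_deriv h0 P (z := M.x) (by omega)
      rw [hx, ord_two_mul] at h6
      omega
    · by_contra h6
      obtain ⟨a, ha⟩ := P.exists_res (h3 P h).1
      obtain ⟨b, hb⟩ := P.exists_res (h3 P h).2
      rw [← mem_Ge_one] at ha hb
      have h7 : δ M.x ∈ Ge P 1 := Ge_mono (by omega) (der_mem_zero h0 (mem_Ge_zero.2 (h3 P h).1))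
      have h8 : δ M.y ∈ Ge P 1 := Ge_mono (by omega) (der_mem_zero h0 (mem_Ge_zero.2 (h3 P h).2))
      have h9 : M.y ∈ Ge P 1 := by
        have h10 : (2 : K) * M.y ≠ 0 := hx ▸ deriv_ne_zero h0 M.tr
        rw [hx, mem_Ge_iff h10, ord_two_mul] at h7
        exact mem_Ge_of_le h7
      have h10 := on_curve M ha hb
      rw [res_zero hb h9] at h10
      exact deriv_ne M (a := a) (by simpa using h10.symm) (res_zero (aeval_sub ha _) (hy ▸ h8))
  have h5 := chi_nonneg M
  have h6 := degree_nonneg h4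
  refine ⟨by omega, fun P => ?_⟩
  have h7 := le_degree_of_nonneg h4 P
  have h8 : 0 ≤ W P := h4 P
  have h9 := hW2 P
  omega

lemma exists_c (hK : NR K) : ∃ c : Crv K, c.ξ = ![M.x, M.y] ∧ c.d = 3 ∧
    ∀ q : Fin 2 → ℂ, eval q c.f = 0 ↔ q 1 ^ 2 = ∏ i, (q 0 - M.e i) := by
  obtain ⟨O, h1, h2, h3⟩ := exists_O M
  obtain ⟨c, hc⟩ := exists_crv hK (ξ := ![M.x, M.y]) (by
    rw [← M.top]
    congr 1
    simp [Set.pair_comm])
  have h0 : M.x ≠ 0 := by simpa using sub_ne M 0
  have h4 : c.H = single O 3 := Finsupp.ext fun P => by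
    rw [c.H_apply, hc]
    by_cases h : P = O
    · subst h; simp [h1, h2]
    · have h5 := (P.mem_iff_ord h0).1 (h3 P h).1
      have h6 := (P.mem_iff_ord (y_ne M)).1 (h3 P h).2
      simp [h, h5, h6]
  have h5 : c.f.totalDegree = 3 := by
    have := c.degree_H
    rw [h4, degree_single] at this
    omega
  let G : P2 := X 1 ^ 2 - ∏ i, (X 0 - C (M.e i))
  have hG : ∀ q : Fin 2 → ℂ, eval q G = q 1 ^ 2 - ∏ i, (q 0 - M.e i) := fun q => by simp [G]
  have hG0 : G ≠ 0 := fun h => by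
    have := hG ![M.e 0, 1]
    simp [h, Fin.prod_univ_three] at this
  have hG3 : G.totalDegree ≤ 3 := by
    refine (totalDegree_sub _ _).trans (max_le (by simp) ?_)
    refine (totalDegree_finsetProd _ _).trans ?_
    refine (Finset.sum_le_sum (g := fun _ => 1) fun i _ => ?_).trans (by simp)
    exact (totalDegree_sub _ _).trans (by simp)
  obtain ⟨h, hh⟩ := (c.ker G).1 (by simp [G, hc, M.eq])
  have hh0 : h ≠ 0 := fun e => hG0 (by rw [hh, e, mul_zero])
  have h6 : h.totalDegree = 0 := by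
    have := totalDegree_mul_of_isDomain c.prime.ne_zero hh0
    rw [← hh] at this
    omega
  rw [totalDegree_eq_zero_iff_eq_C] at h6
  refine ⟨c, hc, h5, fun q => ?_⟩
  have h7 : eval q h ≠ 0 := fun e => hh0 (by
    rw [h6, eval_C] at e
    rw [h6, e, C_0])
  rw [← sub_eq_zero, ← sub_eq_zero (a := q 1 ^ 2), ← hG, hh, map_mul, sub_zero, mul_eq_zero,
    or_iff_left h7]

end WEI

open WEI in
theorem stWEI : St_WEI := by
  intro K _ _ _ M
  obtain ⟨δ, h0, hx, hy⟩ := exists_delta M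
  obtain ⟨h1, h2⟩ := flat M h0 hx hy
  have hK : NR K := nr_of_chi h1.le
  obtain ⟨c, hc, hd, hf⟩ := exists_c M hK
  refine ⟨h1, ⟨δ, h0, hx, h2⟩, ⟨c, hc, hd, hf⟩, exists_O M, fun a b hab => ?_,
    fun P a b ha hb => ⟨fun h => ?_, fun h => ?_⟩⟩
  · have h3 : 1 ≤ mult ![a, b] c.f := (mem_pow_iff c.prime.ne_zero).1 (by
      rw [pow_one, mem_mi, hf]
      simpa using hab)
    have h4 := c.add_two_le hK ![a, b]
    have h5 := c.degree_D ![a, b]
    have h6 : ∀ P : Place K, (M.x - algebraMap ℂ K a ∈ Ge P 1 ∧ M.y - algebraMap ℂ K b ∈ Ge P 1) ↔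
        0 < c.D ![a, b] P := fun P => by
      have e0 := c.sub_ne 0 a
      have e1 := c.sub_ne 1 b
      rw [c.D_apply]
      rw [hc] at e0 e1 ⊢
      simp only [Matrix.cons_val_zero, Matrix.cons_val_one] at e0 e1 ⊢
      rw [mem_Ge_iff e0, mem_Ge_iff e1]
      omega
    obtain ⟨P, hP⟩ : ∃ P, 0 < c.D ![a, b] P := by
      by_contra h
      push Not at h
      have : c.D ![a, b] = 0 := Finsupp.ext fun P => le_antisymm (h P) (c.D_nonneg _ P)
      rw [this, map_zero] at h5
      omega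
    refine ⟨P, (h6 P).2 hP, fun Q hQ => ?_⟩
    by_contra h
    have h7 := two_le_degree (D := c.D ![a, b]) (fun R => c.D_nonneg _ R) h
    have h8 := (h6 Q).1 hQ
    omega
  · have h3 := (mem_Ge_iff (sub_ne M a)).1 ha
    have h4 := ord_deriv h0 P (z := M.x - algebraMap ℂ K a) (by omega)
    rw [map_sub, Derivation.map_algebraMap, sub_zero, hx, ord_two_mul, ord_eq_zero hb h, h2] at h4
    omega
  · have h3 := on_curve M ha hb
    subst h
    have h4 := (mem_Ge_iff (y_ne M)).1 (by simpa using hb)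
    have h5 := ord_deriv h0 P (z := M.y) (by omega)
    rw [hy, ord_eq_zero (aeval_sub ha _) (deriv_ne M (by simpa using h3.symm)), h2] at h5
    omega

end G1
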