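import Pool.Agent.Lib.G1.WM
import Pool.Agent.Lib.G1.WEI
import Pool.Agent.Lib.G1.RHL
import Pool.Agent.Lib.G1.GAL
import Pool.Agent.Lib.G1.PIC
import Pool.Agent.Lib.G1.PLACE2
import Pool.Agent.Lib.G1.MK
import Pool.Agent.Lib.G1.EXV
import Pool.Agent.Lib.G1.GR
import Pool.Agent.Lib.G1.GM
import Pool.Agent.Lib.G1.RED
import Pool.Agent.Lib.G1.DISC
import Pool.Agent.Lib.G1.NOT
import Pool.Agent.Lib.G1.PT
import Pool.Agent.Lib.G1.T1
import Pool.Agent.Lib.G1.T2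
import Pool.Agent.Lib.G1.T4
import Pool.Agent.Lib.G1.TAIL
import Pool.Agent.Lib.G1.POS
import Pool.Agent.Lib.G1.PROJ
import Pool.Agent.Lib.G1.CUB
import Pool.Agent.Lib.G1.DIM
import Pool.Agent.Lib.G1.ADJ
import Pool.Agent.Lib.G1.BEZ
import Pool.Agent.Lib.G1.G3
import Pool.Agent.Lib.G1.ENDB2
import Pool.Agent.Lib.G1.END
import Pool.Agent.Lib.G1.SET
import Pool.Agent.Lib.G1.M10
import Pool.Agent.Lib.G1.R10
import Pool.Agent.Lib.G1.FIN

namespace G1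

theorem main10 : St_M10 :=
  stM10 stWEI (stADJ stDIM) (stG3 (stADJ stDIM) stBEZ)
    (stSET stWM stWEI (stNRE stRHL) (stGAL stWEI stRHL) (stPIC stWEI) stPLACE (stEXV stMK stEMB)
      stGR (stGM stGR) (stRED stWEI (stGM stGR)))
    (stTAIL stPT (stT1 stDISC stPT) stT2 stT4 (stNOT stMK stEMB (stNRE stRHL) stDISC))
    (stPOS stDIM) stPROJ stCUB (stEND stENDB)

theorem main : St_FIN := stFIN stWM stWEI (stR10 stWEI main10)

end G1
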