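import Pool.Agent.Lib.G1.Blue

open Finsupp MvPolynomial IntermediateField Module
open Pool.Agent.Lib.MP_cc3443_ag Pool.Agent.Lib.MP_3c72fe_ag

noncomputable section

namespace G1.T1

section rd
variable {F K : Type} [Field F] [Field K] {R : Rd F K} {a a' : F} {b b' : K}

lemma sp_iff : R.Sp a b ↔ ∃ h : a ∈ R.O, R.ρ ⟨a, h⟩ = b :=
  ⟨fun h => ⟨h.1, by simpa [Rd.r, h.1] using h.2⟩, fun ⟨h, e⟩ => ⟨h, by simpa [Rd.r, h] using e⟩⟩

lemma sp_add (h : R.Sp a b) (h' : R.Sp a' b') : R.Sp (a + a') (b + b') := by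
  obtain ⟨k, rfl⟩ := sp_iff.1 h
  obtain ⟨k', rfl⟩ := sp_iff.1 h'
  exact sp_iff.2 ⟨add_mem k k', map_add R.ρ ⟨a, k⟩ ⟨a', k'⟩⟩

lemma sp_mul (h : R.Sp a b) (h' : R.Sp a' b') : R.Sp (a * a') (b * b') := by
  obtain ⟨k, rfl⟩ := sp_iff.1 h
  obtain ⟨k', rfl⟩ := sp_iff.1 h'
  exact sp_iff.2 ⟨mul_mem k k', map_mul R.ρ ⟨a, k⟩ ⟨a', k'⟩⟩

lemma sp_neg (h : R.Sp a b) : R.Sp (-a) (-b) := by
  obtain ⟨k, rfl⟩ := sp_iff.1 h
  exact sp_iff.2 ⟨neg_mem k, map_neg R.ρ ⟨a, k⟩⟩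

lemma sp_sub (h : R.Sp a b) (h' : R.Sp a' b') : R.Sp (a - a') (b - b') := by
  simpa [sub_eq_add_neg] using sp_add h (sp_neg h')

lemma sp_one : R.Sp 1 1 := sp_iff.2 ⟨one_mem _, map_one R.ρ⟩

lemma sp_zero : R.Sp 0 0 := sp_iff.2 ⟨zero_mem _, map_zero R.ρ⟩

lemma sp_pow (h : R.Sp a b) (n : ℕ) : R.Sp (a ^ n) (b ^ n) := by
  induction n with
  | zero => simpa using sp_one
  | succ n ih => simpa [pow_succ] using sp_mul ih h

lemma sp_mprod {ι : Type} {S : Multiset ι} {f : ι → F} {g : ι → K}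
    (h : ∀ i ∈ S, R.Sp (f i) (g i)) : R.Sp (S.map f).prod (S.map g).prod := by
  induction S using Multiset.induction_on with
  | empty => simpa using sp_one
  | cons i S ih =>
    simpa using sp_mul (h i (by simp)) (ih fun j hj => h j (by simp [hj]))

lemma sp_sum {ι : Type} {S : Finset ι} {f : ι → F} {g : ι → K}
    (h : ∀ i ∈ S, R.Sp (f i) (g i)) : R.Sp (∑ i ∈ S, f i) (∑ i ∈ S, g i) := by
  classical
  induction S using Finset.induction_on with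
  | empty => simpa using sp_zero
  | insert i S hi ih =>
    rw [Finset.sum_insert hi, Finset.sum_insert hi]
    exact sp_add (h i (by simp)) (ih fun j hj => h j (by simp [hj]))

lemma sp_uniq (h : R.Sp a b) (h' : R.Sp a b') : b = b' := h.2.symm.trans h'.2

lemma sp_inv (h : R.Sp a b) (hb : b ≠ 0) : R.Sp a⁻¹ b⁻¹ := by
  obtain ⟨k, rfl⟩ := sp_iff.1 h
  have h1 := R.unit ⟨a, k⟩ hb
  have h0 : a ≠ 0 := by
    rintro rfl
    exact hb (map_zero R.ρ)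
  refine sp_iff.2 ⟨h1, eq_inv_of_mul_eq_one_left ?_⟩
  rw [← map_mul, ← map_one R.ρ]
  exact congrArg R.ρ (Subtype.ext (inv_mul_cancel₀ h0))

lemma sp_ne (h : R.Sp a b) (hb : b ≠ 0) : a ≠ 0 := by
  rintro rfl
  exact hb (sp_uniq h sp_zero)

lemma sp_lift (R : Rd F K) (b : K) : ∃ a, R.Sp a b := by
  obtain ⟨a, rfl⟩ := R.surj b
  exact ⟨a, sp_iff.2 ⟨a.2, rfl⟩⟩

lemma sp_self (h : a ∈ R.O) : R.Sp a (R.r a) := ⟨h, rfl⟩

lemma mem_of_mul {u p q : F} {pb qb : K} (h : u * p = q) (hp : R.Sp p pb) (hq : R.Sp q qb)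
    (h0 : pb ≠ 0) : u ∈ R.O := by
  have := (sp_mul hq (sp_inv hp h0)).1
  rwa [← h, mul_inv_cancel_right₀ (sp_ne hp h0)] at this

lemma exists_min (R : Rd F K) {ι : Type} [Fintype ι] [Nonempty ι] {c : ι → F} (h : ∀ i, c i ≠ 0) :
    ∃ j, ∀ i, c i / c j ∈ R.O := by
  obtain ⟨j, -, hj⟩ := Finset.exists_max_image Finset.univ (fun i => R.O.valuation (c i))
    Finset.univ_nonempty
  refine ⟨j, fun i => ?_⟩
  rw [← R.O.valuation_le_one_iff, map_div₀,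
    div_le_one₀ (by simpa [pos_iff_ne_zero] using h j)]
  exact hj i (Finset.mem_univ _)

end rd

/-- Product of linear polynomials. -/
def PP {ι : Type} (S : Multiset ι) (α β : ι → ℂ) : Polynomial ℂ :=
  (S.map fun P => Polynomial.C (α P) - Polynomial.C (β P) * Polynomial.X).prod

section pp
variable {ι : Type} {S : Multiset ι} {α β : ι → ℂ}

lemma eval_PP (y : ℂ) : (PP S α β).eval y = (S.map fun P => α P - β P * y).prod := by
  simp [PP, Polynomial.eval_multiset_prod]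

lemma natDegree_PP : (PP S α β).natDegree ≤ S.card := by
  unfold PP
  induction S using Multiset.induction_on with
  | empty => simp
  | cons i S ih =>
    rw [Multiset.map_cons, Multiset.prod_cons, Multiset.card_cons, add_comm]
    refine Polynomial.natDegree_mul_le.trans (add_le_add ?_ ih)
    compute_degree

lemma PP_ne (h : ∀ P ∈ S, ¬ (α P = 0 ∧ β P = 0)) : PP S α β ≠ 0 := by
  refine Multiset.prod_ne_zero fun h0 => ?_
  obtain ⟨P, hP, e⟩ := Multiset.mem_map.1 h0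
  have h1 := congrArg (Polynomial.coeff · 0) e
  have h2 := congrArg (Polynomial.coeff · 1) e
  simp [Polynomial.coeff_C] at h1 h2
  exact h P hP ⟨h1, h2⟩

lemma exists_ne (h : ∀ P ∈ S, ¬ (α P = 0 ∧ β P = 0)) (c : ℂ) :
    ∃ y, y ≠ c ∧ (S.map fun P => α P - β P * y).prod ≠ 0 := by
  obtain ⟨y, hy⟩ := ((Polynomial.finite_setOfPred_isRoot (PP_ne h)).insert c).infinite_compl.nonempty
  simp only [Set.mem_compl_iff, Set.mem_insert_iff, not_or] at hy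
  exact ⟨y, hy.1, by rw [← eval_PP]; exact hy.2⟩

end pp

/-- Value of a linear form. -/
def dot (a x : Fin 3 → ℂ) : ℂ := a 0 * x 0 + a 1 * x 1 + a 2 * x 2

/-- Linear forms whose reduction is an affine line. -/
def Adm (v : Rd ℂ ℂ) (a ab : Fin 3 → ℂ) : Prop := (∀ j, v.Sp (a j) (ab j)) ∧ (ab 0 ≠ 0 ∨ ab 1 ≠ 0)

lemma sp_dot {v : Rd ℂ ℂ} {a ab x xb : Fin 3 → ℂ} (h : ∀ j, v.Sp (a j) (ab j))
    (h' : ∀ j, v.Sp (x j) (xb j)) : v.Sp (dot a x) (dot ab xb) :=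
  sp_add (sp_add (sp_mul (h 0) (h' 0)) (sp_mul (h 1) (h' 1))) (sp_mul (h 2) (h' 2))

lemma adm_vert {v : Rd ℂ ℂ} {A Ab : ℂ} (h : v.Sp A Ab) : Adm v ![1, 0, -A] ![1, 0, -Ab] :=
  ⟨fun j => by fin_cases j; exacts [sp_one, sp_zero, sp_neg h], Or.inl (by simp)⟩

lemma adm_line {v : Rd ℂ ℂ} {t a tb ab : ℂ} (ht : v.Sp t tb) (ha : v.Sp a ab) :
    Adm v ![-t, 1, -a] ![-tb, 1, -ab] :=
  ⟨fun j => by fin_cases j; exacts [sp_neg ht, sp_one, sp_neg ha], Or.inr (by simp)⟩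

/-- The zeros of linear forms in a residue disc, with their reciprocity law. -/
structure Core (ι : Type) (v : Rd ℂ ℂ) where
  d : ℕ
  w : Fin 2 → ℂ
  xh : ι → Fin 3 → ℂ
  xb : ι → Fin 3 → ℂ
  γ : ι → ℂ
  Z : (Fin 3 → ℂ) → Multiset ι
  ζ : (Fin 3 → ℂ) → ℕ
  lam : (Fin 3 → ℂ) → ℂ
  sp : ∀ P j, v.Sp (xh P j) (xb P j)
  xb_ne : ∀ P, xb P ≠ 0
  γ_ne : ∀ P, γ P ≠ 0
  zero : ∀ a ab, Adm v a ab → ∀ P ∈ Z a, dot a (xh P) = 0
  card : ∀ a ab, Adm v a ab → (Z a).card = d + ζ ab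
  lam_ne : ∀ a ab, Adm v a ab → lam ab ≠ 0
  gen : ∀ ab, dot ab ![w 0, w 1, 1] ≠ 0 → ζ ab = 0 ∧ lam ab = dot ab ![w 0, w 1, 1]
  recip : ∀ a ab a' ab' l l', Adm v a ab → Adm v a' ab' → v.Sp l (lam ab) → v.Sp l' (lam ab') →
    ∃ μ, v.Sp μ 1 ∧ ((Z a).map fun P => γ P * dot a' (xh P)).prod * l ^ (Z a').card =
      (-1) ^ ((Z a).card * (Z a').card) * ((Z a').map fun P => γ P * dot a (xh P)).prod *
        l' ^ (Z a).card * μ

namespace Core
variable {ι : Type} {v : Rd ℂ ℂ} (T : Core ι v)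

/-- Product of the scaling factors. -/
def cc (a : Fin 3 → ℂ) : ℂ := ((T.Z a).map T.γ).prod

/-- Reduced product of values. -/
def pb (a b : Fin 3 → ℂ) : ℂ := ((T.Z a).map fun P => dot b (T.xb P)).prod

lemma cc_ne (a : Fin 3 → ℂ) : T.cc a ≠ 0 := Multiset.prod_ne_zero fun h => by
  obtain ⟨P, -, e⟩ := Multiset.mem_map.1 h
  exact T.γ_ne P e

lemma zero_b {a ab : Fin 3 → ℂ} (h : Adm v a ab) {P : ι} (hP : P ∈ T.Z a) :
    dot ab (T.xb P) = 0 :=
  sp_uniq (sp_dot h.1 (T.sp P)) (by rw [T.zero a ab h P hP]; exact sp_zero)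

lemma rr {a ab a' ab' : Fin 3 → ℂ} {g k' : ℂ} (h : Adm v a ab) (h' : Adm v a' ab')
    (hk : v.Sp (T.cc a' / g) k') : ∃ p q, T.cc a / g * p = q ∧
      v.Sp p (T.pb a ab' * T.lam ab ^ (T.Z a').card) ∧
      v.Sp q ((-1) ^ ((T.Z a).card * (T.Z a').card) * k' * T.pb a' ab *
        T.lam ab' ^ (T.Z a).card) := by
  obtain ⟨l, hl⟩ := sp_lift v (T.lam ab)
  obtain ⟨l', hl'⟩ := sp_lift v (T.lam ab')
  obtain ⟨μ, hμ, e⟩ := T.recip a ab a' ab' l l' h h' hl hl'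
  refine ⟨((T.Z a).map fun P => dot a' (T.xh P)).prod * l ^ (T.Z a').card,
    (-1) ^ ((T.Z a).card * (T.Z a').card) * (T.cc a' / g) *
      ((T.Z a').map fun P => dot a (T.xh P)).prod * l' ^ (T.Z a).card * μ, ?_,
    sp_mul (sp_mprod fun P _ => sp_dot h'.1 (T.sp P)) (sp_pow hl _), ?_⟩
  · rw [Multiset.prod_map_mul, Multiset.prod_map_mul] at e
    unfold cc
    linear_combination g⁻¹ * e
  · simpa [pb] using sp_mul (sp_mul (sp_mul (sp_mul (sp_pow (sp_neg sp_one) _) hk)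
      (sp_mprod fun P _ => sp_dot h.1 (T.sp P))) (sp_pow hl' _)) hμ

lemma rr_mem {a ab a' ab' : Fin 3 → ℂ} {g k' : ℂ} (h : Adm v a ab) (h' : Adm v a' ab')
    (hk : v.Sp (T.cc a' / g) k') (h0 : T.pb a ab' ≠ 0) : T.cc a / g ∈ v.O := by
  obtain ⟨p, q, e, hp, hq⟩ := T.rr h h' hk
  exact mem_of_mul e hp hq (mul_ne_zero h0 (pow_ne_zero _ (T.lam_ne a ab h)))

lemma rr_eq {a ab a' ab' : Fin 3 → ℂ} {g k k' : ℂ} (h : Adm v a ab) (h' : Adm v a' ab')
    (hk : v.Sp (T.cc a / g) k) (hk' : v.Sp (T.cc a' / g) k') :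
    k * (T.pb a ab' * T.lam ab ^ (T.Z a').card) =
      (-1) ^ ((T.Z a).card * (T.Z a').card) * k' * T.pb a' ab * T.lam ab' ^ (T.Z a).card := by
  obtain ⟨p, q, e, hp, hq⟩ := T.rr h h' hk'
  exact sp_uniq (e ▸ sp_mul hk hp) hq

lemma ne_vert {A Ab : ℂ} (h : v.Sp A Ab) :
    ∀ P ∈ T.Z ![1, 0, -A], ¬ (T.xb P 1 = 0 ∧ T.xb P 2 = 0) := fun P hP e => by
  have := T.zero_b (adm_vert h) hP
  simp [dot, e.2] at this
  exact T.xb_ne P (by ext j; fin_cases j; exacts [this, e.1, e.2])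

lemma ne_line {t a tb ab : ℂ} (ht : v.Sp t tb) (ha : v.Sp a ab) :
    ∀ P ∈ T.Z ![-t, 1, -a], ¬ (T.xb P 0 = 0 ∧ T.xb P 2 = 0) := fun P hP e => by
  have := T.zero_b (adm_line ht ha) hP
  simp [dot, e.1, e.2] at this
  exact T.xb_ne P (by ext j; fin_cases j; exacts [e.1, this, e.2])

lemma gen_vert {Ab : ℂ} (h : Ab ≠ T.w 0) :
    T.ζ ![1, 0, -Ab] = 0 ∧ T.lam ![1, 0, -Ab] = T.w 0 - Ab := by
  have e : dot ![1, 0, -Ab] ![T.w 0, T.w 1, 1] = T.w 0 - Ab := by simp [dot]; ring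
  exact e ▸ T.gen _ (by rw [e]; exact sub_ne_zero.2 h.symm)

lemma gen_line {tb ab : ℂ} (h : T.w 1 - tb * T.w 0 - ab ≠ 0) :
    T.ζ ![-tb, 1, -ab] = 0 ∧ T.lam ![-tb, 1, -ab] = T.w 1 - tb * T.w 0 - ab := by
  have e : dot ![-tb, 1, -ab] ![T.w 0, T.w 1, 1] = T.w 1 - tb * T.w 0 - ab := by simp [dot]; ring
  exact e ▸ T.gen _ (by rw [e]; exact h)

lemma pb_vert (a : Fin 3 → ℂ) (Ab : ℂ) :
    T.pb a ![1, 0, -Ab] = ((T.Z a).map fun P => T.xb P 0 - T.xb P 2 * Ab).prod := by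
  unfold pb
  congr 2
  ext P
  simp [dot]; ring

lemma pb_line {A Ab : ℂ} (h : v.Sp A Ab) (tb ab : ℂ) : T.pb ![1, 0, -A] ![-tb, 1, -ab] =
    ((T.Z ![1, 0, -A]).map fun P => T.xb P 1 - T.xb P 2 * (tb * Ab + ab)).prod := by
  unfold pb
  refine congrArg _ (Multiset.map_congr rfl fun P hP => ?_)
  have := T.zero_b (adm_vert h) hP
  simp [dot] at this ⊢
  linear_combination (-tb) * this

lemma exists_vert : ∃ (r : P2) (g : ℂ), r ≠ 0 ∧ g ≠ 0 ∧ ∀ A Ab, v.Sp A Ab → Ab ≠ T.w 0 →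
    ∃ k, v.Sp (T.cc ![1, 0, -A] / g) k ∧ ∀ y, eval ![Ab, y] r =
      (-1) ^ (T.d * T.d) * k * ((T.Z ![1, 0, -A]).map fun P => T.xb P 1 - T.xb P 2 * y).prod *
        (T.w 0 - Ab) ^ T.d := by
  classical
  let bb : Fin (T.d + 1) → ℂ := fun j => T.w 1 + ((j : ℕ) + 1 : ℕ)
  have hinj : Function.Injective bb := fun i j e => by
    have : ((i : ℕ) + 1 : ℕ) = ((j : ℕ) + 1 : ℕ) := by exact_mod_cast add_left_cancel e
    exact Fin.ext (by omega)
  have hw : ∀ j, T.w 1 - 0 * T.w 0 - bb j ≠ 0 := fun j e => by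
    have : (((j : ℕ) + 1 : ℕ) : ℂ) = 0 := by linear_combination -e
    exact Nat.cast_ne_zero.2 (Nat.succ_ne_zero _) this
  choose b hb using fun j => sp_lift v (bb j)
  have had := fun j => adm_line (sp_zero (R := v)) (hb j)
  obtain ⟨j0, hj0⟩ := exists_min v (c := fun j => T.cc ![-0, 1, -b j]) fun j => T.cc_ne _
  set g := T.cc ![-0, 1, -b j0] with hg
  let q : Fin (T.d + 1) → Polynomial ℂ := fun j =>
    Polynomial.C (v.r (T.cc ![-0, 1, -b j] / g) * (T.w 1 - 0 * T.w 0 - bb j) ^ T.d) *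
      PP (T.Z ![-0, 1, -b j]) (T.xb · 0) (T.xb · 2)
  let r : P2 := ∑ j, Polynomial.aeval (X 0) (q j) *
    Polynomial.aeval (X 1) (Lagrange.basis Finset.univ bb j)
  have hr : ∀ x y, eval ![x, y] r =
      (Lagrange.interpolate Finset.univ bb fun j => (q j).eval x).eval y := fun x y => by
    have h1 : ∀ (p : Polynomial ℂ) (k : Fin 2), eval ![x, y] (Polynomial.aeval (X k : P2) p) =
        p.eval (![x, y] k) := fun p k => by
      rw [← coe_aeval_eq_eval, RingHom.coe_coe, ← Polynomial.aeval_algHom_apply]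
      simp
    simp [r, h1, Polynomial.eval_finsetSum]
  refine ⟨r, g, fun h0 => ?_, T.cc_ne _, fun A Ab hA hAw => ?_⟩
  · obtain ⟨x, -, hx⟩ := exists_ne (T.ne_line sp_zero (hb j0)) 0
    have h1 := hr x (bb j0)
    rw [Lagrange.eval_interpolate_at_node _ hinj.injOn (Finset.mem_univ _), h0, map_zero] at h1
    have h2 : v.r (T.cc ![-0, 1, -b j0] / g) = 1 := by
      rw [← hg, div_self (T.cc_ne _)]; exact sp_one.2
    simp only [q, h2, Polynomial.eval_mul, Polynomial.eval_C, eval_PP, one_mul] at h1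
    exact mul_ne_zero (pow_ne_zero _ (hw j0)) hx h1.symm
  · have hv := adm_vert hA
    have hc : (T.Z ![1, 0, -A]).card = T.d := by rw [T.card _ _ hv, (T.gen_vert hAw).1, add_zero]
    have hc' : ∀ j, (T.Z ![-0, 1, -b j]).card = T.d := fun j => by
      rw [T.card _ _ (had j), (T.gen_line (hw j)).1, add_zero]
    obtain ⟨j, hj⟩ : ∃ j, T.pb ![1, 0, -A] ![-0, 1, -bb j] ≠ 0 := by
      by_contra h
      push Not at h
      refine PP_ne (T.ne_vert hA) (Polynomial.eq_zero_of_natDegree_lt_card_of_eval_eq_zero _ hinj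
        (fun j => ?_) (natDegree_PP.trans_lt (by simp [hc])))
      have := h j
      rw [T.pb_line hA, zero_mul, zero_add] at this
      rw [eval_PP, this]
    have hm := T.rr_mem hv (had j) (sp_self (hj0 j)) hj
    refine ⟨_, sp_self hm, fun y => ?_⟩
    let p : Polynomial ℂ := Polynomial.C ((-1) ^ (T.d * T.d) * v.r (T.cc ![1, 0, -A] / g) *
      (T.w 0 - Ab) ^ T.d) * PP (T.Z ![1, 0, -A]) (T.xb · 1) (T.xb · 2)
    have hp : p = Lagrange.interpolate Finset.univ bb fun j => (q j).eval Ab := by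
      refine Lagrange.eq_interpolate_of_eval_eq _ hinj.injOn ?_ fun j _ => ?_
      · refine Polynomial.degree_le_natDegree.trans_lt ?_
        have := (Polynomial.natDegree_C_mul_le _ _).trans (natDegree_PP.trans hc.le) (a := p.natDegree)
        rw [Finset.card_univ, Fintype.card_fin]
        exact_mod_cast Nat.lt_succ_of_le this
      · have := T.rr_eq (had j) hv (sp_self (hj0 j)) (sp_self hm)
        rw [hc, hc', T.pb_vert, T.pb_line hA, (T.gen_line (hw j)).2, (T.gen_vert hAw).2] at this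
        simp only [p, q, Polynomial.eval_mul, Polynomial.eval_C, eval_PP]
        simp only [zero_mul, zero_add] at this ⊢
        linear_combination -this
    rw [hr, ← hp]
    simp only [p, Polynomial.eval_mul, Polynomial.eval_C, eval_PP]
    ring

lemma eval_onL (t a x : ℂ) (r : P2) : (onL t a r).eval x = eval ![x, t * x + a] r := by
  induction r using MvPolynomial.induction_on with
  | C c => simp [onL]
  | add p q hp hq => simp [hp, hq]
  | mul_X p k hp =>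
    rw [map_mul, map_mul, Polynomial.eval_mul, hp]
    fin_cases k <;> simp [onL]

theorem main : ∃ (r : P2) (g : ℂ), r ≠ 0 ∧ g ≠ 0 ∧ ∀ t a tb ab, v.Sp t tb → v.Sp a ab →
    ∃ k, v.Sp (T.cc ![-t, 1, -a] / g) k ∧
      Polynomial.C ((-1) ^ (T.ζ ![-tb, 1, -ab] * T.d) * k * T.lam ![-tb, 1, -ab] ^ T.d) *
        PP (T.Z ![-t, 1, -a]) (T.xb · 0) (T.xb · 2) =
      onL tb ab r * (Polynomial.C (T.w 0) - Polynomial.X) ^ T.ζ ![-tb, 1, -ab] := by
  obtain ⟨r, g, hr, hg, h⟩ := T.exists_vert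
  refine ⟨r, g, hr, hg, fun t a tb ab ht ha => ?_⟩
  have hl := adm_line ht ha
  have hm : T.cc ![-t, 1, -a] / g ∈ v.O := by
    obtain ⟨Ab, h1, h2⟩ := exists_ne (T.ne_line ht ha) (T.w 0)
    obtain ⟨A, hA⟩ := sp_lift v Ab
    obtain ⟨k, hk, -⟩ := h A Ab hA h1
    exact T.rr_mem hl (adm_vert hA) hk (by rwa [T.pb_vert])
  refine ⟨_, sp_self hm, Polynomial.eq_of_infinite_eval_eq _ _
    ((Set.finite_singleton (T.w 0)).infinite_compl.mono fun Ab h1 => ?_)⟩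
  obtain ⟨A, hA⟩ := sp_lift v Ab
  obtain ⟨k, hk, e⟩ := h A Ab hA h1
  have hv := adm_vert hA
  have := T.rr_eq hl hv (sp_self hm) hk
  rw [T.card _ _ hv, T.card _ _ hl, (T.gen_vert h1).1, add_zero, T.pb_vert, T.pb_line hA,
    (T.gen_vert h1).2] at this
  simp only [Set.mem_ofPred_eq, Polynomial.eval_mul, Polynomial.eval_C, eval_PP, eval_onL, e,
    Polynomial.eval_pow, Polynomial.eval_sub, Polynomial.eval_X]
  have h2 : ((-1 : ℂ) ^ (T.ζ ![-tb, 1, -ab] * T.d)) ^ 2 = 1 := by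
    rw [← pow_mul, mul_comm, pow_mul]; simp
  rw [add_mul, pow_add, pow_add] at this
  linear_combination (-1 : ℂ) ^ (T.ζ ![-tb, 1, -ab] * T.d) * this + ((-1) ^ (T.d * T.d) * k *
    ((T.Z ![1, 0, -A]).map fun P => T.xb P 1 - T.xb P 2 * (tb * Ab + ab)).prod *
    (T.w 0 - Ab) ^ T.d * (T.w 0 - Ab) ^ T.ζ ![-tb, 1, -ab]) * h2

end Core

end G1.T1
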