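import Pool.Agent.Lib.G1.Blue

/-! Block T2: degree and multiplicity are detected on general lines. -/

open MvPolynomial
open Pool.Agent.Lib.MP_cc3443_ag Pool.Agent.Lib.MP_3c72fe_ag

noncomputable section

namespace G1

namespace T2

lemma zero_of_finite {c : Polynomial ℂ} {S : Set ℂ} (hS : S.Finite)
    (h : ∀ t, t ∉ S → c.eval t = 0) : c = 0 :=
  Polynomial.eq_zero_of_infinite_isRoot c (hS.infinite_compl.mono fun t ht => h t ht)

lemma key (q : Fin 2 → ℂ) (t : ℂ) (r : P2) :
    (onL t (q 1 - t * q 0) r).comp (Polynomial.X + Polynomial.C (q 0)) =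
      (io q r).map (Polynomial.evalRingHom t) := by
  induction r using MvPolynomial.induction_on with
  | C a => simp [io, tr, io0, onL]
  | add a b ha hb => rw [map_add, map_add, Polynomial.add_comp, Polynomial.map_add, ha, hb]
  | mul_X a i ha =>
    rw [map_mul, map_mul, Polynomial.mul_comp, Polynomial.map_mul, ha]
    refine congrArg (_ * ·) ?_
    fin_cases i
    · simp [io, tr, io0, onL]
    · simp [io, tr, io0, onL]
      ring

/-- A polynomial in two variables as a polynomial in the first one. -/
def jj : P2 →ₐ[ℂ] Polynomial (Polynomial ℂ) := aeval ![Polynomial.X, Polynomial.C Polynomial.X]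

lemma key' (a : ℂ) (r : P2) : onL 0 a r = (jj r).map (Polynomial.evalRingHom a) := by
  induction r using MvPolynomial.induction_on with
  | C a => simp [jj, onL]
  | add a b ha hb => rw [map_add, map_add, Polynomial.map_add, ha, hb]
  | mul_X a i ha =>
    rw [map_mul, map_mul, Polynomial.map_mul, ha]
    refine congrArg (_ * ·) ?_
    fin_cases i <;> simp [jj, onL]

lemma jj_inv (r : P2) :
    (jj r).eval₂ (Polynomial.aeval (X 1 : P2)).toRingHom (X 0) = r := by
  induction r using MvPolynomial.induction_on with
  | C a => simp [jj]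
  | add a b ha hb => rw [map_add, Polynomial.eval₂_add, ha, hb]
  | mul_X a i ha =>
    rw [map_mul, Polynomial.eval₂_mul, ha]
    refine congrArg (_ * ·) ?_
    fin_cases i <;> simp [jj]

end T2

open T2 in
theorem stT2 : St_T2 := by
  intro r
  refine ⟨fun d h => ?_, fun q n h => ?_, fun hr => ?_⟩
  · rw [← natDegree_io 0 r, Polynomial.natDegree_le_iff_coeff_eq_zero]
    intro n hn
    refine zero_of_finite h fun t ht => ?_
    have h1 := key 0 t r
    simp only [Pi.zero_apply, mul_zero, sub_zero, map_zero, add_zero, Polynomial.comp_X] at h1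
    have h2 : (onL t 0 r).natDegree ≤ d := not_not.1 ht
    have h3 := Polynomial.coeff_eq_zero_of_natDegree_lt (h2.trans_lt hn)
    rwa [h1, Polynomial.coeff_map] at h3
  · by_cases hr : r = 0
    · rw [hr]
      exact zero_mem _
    rw [mem_pow_iff hr]
    refine Polynomial.le_natTrailingDegree (io_ne_zero q hr) fun k hk => ?_
    refine zero_of_finite h fun t ht => ?_
    obtain ⟨u, hu⟩ : (Polynomial.X - Polynomial.C (q 0)) ^ n ∣ onL t (q 1 - t * q 0) r :=
      not_not.1 ht
    have h1 := key q t r
    rw [hu, Polynomial.mul_comp, Polynomial.pow_comp, Polynomial.sub_comp, Polynomial.X_comp,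
      Polynomial.C_comp, add_sub_cancel_right] at h1
    have h2 := Polynomial.X_pow_dvd_iff.1 ⟨_, h1.symm⟩ k hk
    rwa [Polynomial.coeff_map] at h2
  · have h1 : jj r ≠ 0 := fun h => hr (by rw [← jj_inv r, h, Polynomial.eval₂_zero])
    have h2 := Polynomial.leadingCoeff_ne_zero.2 h1
    refine (Polynomial.finite_setOfPred_isRoot h2).subset fun a ha => ?_
    have h3 : onL 0 a r = 0 := ha
    have h4 := congrArg (fun p => p.coeff (jj r).natDegree) (key' a r)
    simp only [h3, Polynomial.coeff_zero, Polynomial.coeff_map] at h4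
    exact h4.symm

end G1
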