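import Pool.Agent.Lib.G1.Blue

open Finsupp MvPolynomial IntermediateField Module
open Pool.Agent.Lib.MP_cc3443_ag Pool.Agent.Lib.MP_3c72fe_ag

noncomputable section

namespace G1

namespace TAILp

section rd
variable {F K : Type} [Field F] [Field K] {R : Rd F K} {a a' : F} {b b' : K}

lemma sp_iff : R.Sp a b ↔ ∃ h : a ∈ R.O, R.ρ ⟨a, h⟩ = b := by
  unfold Rd.Sp Rd.r
  exact ⟨fun ⟨h, e⟩ => ⟨h, by rwa [dif_pos h] at e⟩, fun ⟨h, e⟩ => ⟨h, by rwa [dif_pos h]⟩⟩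

lemma sp_sub (h : R.Sp a b) (h' : R.Sp a' b') : R.Sp (a - a') (b - b') := by
  obtain ⟨h1, rfl⟩ := sp_iff.1 h
  obtain ⟨h2, rfl⟩ := sp_iff.1 h'
  exact sp_iff.2 ⟨sub_mem h1 h2, by rw [← map_sub]; rfl⟩

lemma sp_mul (h : R.Sp a b) (h' : R.Sp a' b') : R.Sp (a * a') (b * b') := by
  obtain ⟨h1, rfl⟩ := sp_iff.1 h
  obtain ⟨h2, rfl⟩ := sp_iff.1 h'
  exact sp_iff.2 ⟨mul_mem h1 h2, by rw [← map_mul]; rfl⟩

lemma sp_zero : R.Sp 0 0 := sp_iff.2 ⟨zero_mem _, map_zero _⟩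

lemma sp_lift (R : Rd F K) (b : K) : ∃ a, R.Sp a b := by
  obtain ⟨a, h⟩ := R.surj b
  exact ⟨a, sp_iff.2 ⟨a.2, h⟩⟩

lemma sp_ne (h : R.Sp a b) (hb : b ≠ 0) : a ≠ 0 := by
  rintro rfl
  exact hb (h.2.symm.trans sp_zero.2)

end rd

lemma count_ms {α : Type} [DecidableEq α] (E : α →₀ ℤ) (a : α) : (ms E).count a = (E a).toNat := by
  simp [ms]

lemma card_ms {α : Type} {E : α →₀ ℤ} (h : 0 ≤ E) : ((ms E).card : ℤ) = degree E := by
  rw [ms, card_toMultiset, sum_mapRange_index (by simp), Finsupp.sum, Nat.cast_sum]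
  exact Finset.sum_congr rfl fun a _ => Int.toNat_of_nonneg (h a)

section
variable {F K : Type} [Field F] [Algebra ℂ F] [IsFF F] [Field K] [Algebra ℂ K] [IsFF K]
  {m : Mod F K} {z : Place K} {A B : Place F →₀ ℤ} {P : Place F}

lemma mem_Z : P ∈ m.Z z A ↔ m.sp P = z ∧ 0 < A P := by
  classical
  rw [← Multiset.count_pos, Mod.Z, count_ms, filter_apply]
  split_ifs with h <;> simp [h]

lemma Z_mono (h : A ≤ B) : m.Z z A ≤ m.Z z B := by
  classical
  refine Multiset.le_iff_count.2 fun P => ?_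
  simp only [Mod.Z, count_ms, filter_apply]
  split_ifs
  exacts [Int.toNat_le_toNat (h P), le_rfl]

lemma card_Z (h : 0 ≤ A) : ((m.Z z A).card : ℤ) = A.mapDomain m.sp z := by
  classical
  rw [Mod.Z, card_ms (fun P => by rw [filter_apply]; split_ifs; exacts [h P, le_rfl]),
    mapDomain, Finsupp.sum_apply, Finsupp.sum, degree_apply, support_filter, Finset.sum_filter]
  refine Finset.sum_congr rfl fun P _ => ?_
  rw [filter_apply, single_apply]
  split_ifs <;> rfl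

lemma card_div {g : F} {u : K} {η : ℂ} (hg : m.R.Sp (η • g) u) (hu : u ≠ 0) (n : ℕ)
    (h : 0 ≤ divF g + (n : ℤ) • A) (hA : 0 ≤ A) :
    ((m.Z z (divF g + (n : ℤ) • A)).card : ℤ) = z.ord u + n * (m.Z z A).card := by
  have h0 := sp_ne hg hu
  have h1 := m.red _ ⟨hg.1, hg.2 ▸ hu⟩
  have h2 : divF (η • g) = divF g := by
    ext P
    rw [divF_apply, Algebra.smul_def, P.ord_mul ((_root_.map_ne_zero _).2 (left_ne_zero_of_smul h0))
      (right_ne_zero_of_smul h0), ord_const (left_ne_zero_of_smul h0), zero_add, divF_apply]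
  rw [card_Z h, card_Z hA, mapDomain_add, mapDomain_smul, ← h2, ← h1, hg.2]
  rfl

lemma ev_of {g : F} {a : ℂ} (h : g - algebraMap ℂ F a ∈ Ge P 1) : g ∈ P.O ∧ ev P g = a := by
  have h1 : g ∈ P.O := by
    simpa using add_mem (mem_Ge_zero.1 (Ge_mono zero_le_one h)) (P.const a)
  refine ⟨h1, ?_⟩
  rw [ev, Rd.r, dif_pos (show g ∈ (rd P).O from h1)]
  exact P.res_unique (mem_Ge_one.1 ((exists_ev P).choose_spec ⟨g, h1⟩)) (mem_Ge_one.1 h)

variable (c : Crv F)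

omit [IsFF F] in
lemma line_ne (t a : ℂ) : c.ξ 1 - t • c.ξ 0 - algebraMap ℂ F a ≠ 0 := fun h => by
  have := (c.lin_eq_zero (a := -t) (b := 1) (e := -a) (by
    rw [← h, neg_smul, one_smul, map_neg]; ring)).2.1
  simp at this

omit [IsFF F] in
lemma line_eq (t : ℂ) (q : Fin 2 → ℂ) : c.ξ 1 - t • c.ξ 0 - algebraMap ℂ F (q 1 - t * q 0) =
    (c.ξ 1 - algebraMap ℂ F (q 1)) - t • (c.ξ 0 - algebraMap ℂ F (q 0)) := by
  simp only [Algebra.smul_def, map_sub, map_mul]; ring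

lemma D_le_line (t : ℂ) (q : Fin 2 → ℂ) :
    c.D q ≤ divF (c.ξ 1 - t • c.ξ 0 - algebraMap ℂ F (q 1 - t * q 0)) + c.H := fun P => by
  have h := (mem_Ge_iff (line_ne c t (q 1 - t * q 0))).1 (line_eq c t q ▸
    sub_mem (c.sub_mem_Ge q P 1) (Submodule.smul_mem _ t (c.sub_mem_Ge q P 0)))
  rw [Finsupp.add_apply, divF_apply]
  omega

lemma line_nonneg (t a : ℂ) : 0 ≤ divF (c.ξ 1 - t • c.ξ 0 - algebraMap ℂ F a) + c.H := by
  simpa using (show (0 : Place F →₀ ℤ) ≤ _ from c.D_nonneg _).trans (D_le_line c t ![0, a])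

/-- All but one of the lines through a point are transversal. -/
lemma fin_tan (q : Fin 2 → ℂ) (P : Place F) : {t : ℂ | c.D q P - c.H P <
    P.ord (c.ξ 1 - t • c.ξ 0 - algebraMap ℂ F (q 1 - t * q 0))}.Subsingleton := by
  intro t ht t' ht'
  by_contra hne
  have h1 := line_eq c t q ▸ mem_Ge_of_le (Int.add_one_le_of_lt ht)
  have h2 := line_eq c t' q ▸ mem_Ge_of_le (Int.add_one_le_of_lt ht')
  have h3 := Submodule.smul_mem _ (t' - t)⁻¹ (sub_mem h1 h2)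
  rw [sub_sub_sub_cancel_left, ← sub_smul, inv_smul_smul₀ (sub_ne_zero.2 (Ne.symm hne))] at h3
  have h4 := add_mem h1 (Submodule.smul_mem _ t h3)
  rw [sub_add_cancel, mem_Ge_iff (c.sub_ne _ _)] at h4
  rw [mem_Ge_iff (c.sub_ne _ _)] at h3
  have := c.min_ord q P
  omega

lemma exists_centre {P : Place F} (h : c.H P = 0) : ∃ w, 0 < c.D w P := by
  have h1 : ∀ k, ∃ a, c.ξ k - algebraMap ℂ F a ∈ Ge P 1 := fun k => by
    obtain ⟨a, ha⟩ := P.exists_res (mem_Ge_zero.1 (by simpa [h] using c.mem_Ge_H P k))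
    exact ⟨a, mem_Ge_one.2 ha⟩
  choose w hw using h1
  have h2 := (mem_Ge_iff (c.sub_ne _ _)).1 (hw 0)
  have h3 := (mem_Ge_iff (c.sub_ne _ _)).1 (hw 1)
  exact ⟨w, by rw [c.D_apply]; omega⟩

lemma centre {P : Place F} {w : Fin 2 → ℂ} (h : 0 < c.D w P) (k : Fin 2) :
    c.ξ k - algebraMap ℂ F (w k) ∈ Ge P 1 :=
  Ge_mono (by have := c.H_eq_zero h; omega) (c.sub_mem_Ge w P k)

/-- Almost all horizontal lines meet the affine curve. -/
lemma fin_miss : {a : ℂ | ∀ b, eval ![b, a] c.f ≠ 0}.Finite := by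
  choose Q hQ using exists_place_over (c.transc 1)
  refine Set.Finite.of_finite_image ((finite_poles (c.ξ 0)).subset ?_) (f := Q) ?_
  · rintro _ ⟨a, ha, rfl⟩ h0
    obtain ⟨b, hb⟩ := (Q a).exists_res h0
    have h2 := (mem_Ge_iff (c.sub_ne _ _)).1 (mem_Ge_one.2 hb)
    have h3 := (mem_Ge_iff (c.sub_ne _ _)).1 (mem_Ge_one.2 (hQ a))
    refine ha b (c.eval_eq_zero (P := Q a) ?_ (by simp [c.ev_f]))
    rw [c.D_apply]
    simp only [Matrix.cons_val_zero, Matrix.cons_val_one]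
    omega
  · intro a _ a' _ e
    exact (Q a).res_unique (hQ a) (e ▸ hQ a')

lemma D_le_ev {g : P2} {e : ℕ} {q : Fin 2 → ℂ} (h0 : aeval c.ξ g ≠ 0) (hg : g.totalDegree ≤ e)
    (hq : eval q g = 0) : c.D q ≤ divF (aeval c.ξ g) + (e : ℤ) • c.H := by
  have h := nonneg_of_mem (c.ev_mem_LL (p := fun _ : Unit => q) (n := fun _ => 1)
    (Function.injective_of_subsingleton _) hg fun _ => by simpa using mem_mi.2 hq) h0
  intro P
  have := h P
  simp [Crv.cls] at this ⊢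
  omega

end

end TAILp

end G1
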