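import Pool.Agent.Lib.G1.Blue

/-! Block WM: existence of Weierstrass models. -/

open IntermediateField
open Pool.Agent.Lib.MP_cc3443_ag Pool.Agent.Lib.MP_3c72fe_ag

noncomputable section

namespace G1

namespace WMx

open WeierstrassCurve WeierstrassCurve.Affine

/-- A model with prescribed roots. -/
lemma model (W : WeierstrassCurve ℂ) (e : Fin 3 → ℂ) (he : Function.Injective e)
    (h2 : W.b₂ = 4 * -(e 0 + e 1 + e 2)) (h4 : 2 * W.b₄ = 4 * (e 0 * e 1 + e 0 * e 2 + e 1 * e 2))
    (h6 : W.b₆ = 4 * -(e 0 * e 1 * e 2)) : ∃ M : WM W.toAffine.FunctionField, M.e = e := by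
  let A := W.toAffine.CoordinateRing
  let K := W.toAffine.FunctionField
  let ι : A →ₐ[ℂ] K := IsScalarTower.toAlgHom ℂ A K
  let φ : Polynomial ℂ →ₐ[ℂ] K := ι.comp (IsScalarTower.toAlgHom ℂ (Polynomial ℂ) A)
  have hι : Function.Injective ι := IsFractionRing.injective A K
  have hφ : Function.Injective φ := hι.comp (FaithfulSMul.algebraMap_injective (Polynomial ℂ) A)
  let x : K := φ Polynomial.X
  let y : K := ι (AdjoinRoot.root W.toAffine.polynomial)
  have hx : ∀ p : Polynomial ℂ, Polynomial.aeval x p = φ p := fun p => by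
    rw [Polynomial.aeval_algHom_apply, Polynomial.aeval_X_left_apply]
  have hrel : y ^ 2 + (algebraMap ℂ K W.a₁ * x + algebraMap ℂ K W.a₃) * y =
      x ^ 3 + algebraMap ℂ K W.a₂ * x ^ 2 + algebraMap ℂ K W.a₄ * x + algebraMap ℂ K W.a₆ := by
    have h0 := congrArg ι (AdjoinRoot.aeval_eq (f := W.toAffine.polynomial) W.toAffine.polynomial)
    rw [AdjoinRoot.mk_self, map_zero] at h0
    have h1 : ∀ p : Polynomial ℂ, ι (algebraMap (Polynomial ℂ) A p) = Polynomial.aeval x p :=
      fun p => (hx p).symm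
    conv_lhs at h0 => enter [2, 2]; rw [Affine.polynomial]
    simp only [map_sub, map_add, map_mul, map_pow, Polynomial.aeval_X, Polynomial.aeval_C, h1]
      at h0
    exact sub_eq_zero.1 h0
  have h20 : (2 : K) ≠ 0 := by
    rw [← map_ofNat (algebraMap ℂ K) 2]
    exact (map_ne_zero _).2 two_ne_zero
  have k2 := congrArg (algebraMap ℂ K) h2
  have k4 := congrArg (algebraMap ℂ K) h4
  have k6 := congrArg (algebraMap ℂ K) h6
  simp only [b₂, b₄, b₆, map_add, map_mul, map_pow, map_neg, map_ofNat] at k2 k4 k6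
  refine ⟨⟨x, y + (algebraMap ℂ K W.a₁ * x + algebraMap ℂ K W.a₃) / 2, e, he, ?_, ?_, ?_⟩, rfl⟩
  · rw [Fin.prod_univ_three]
    field_simp
    linear_combination 4 * hrel + x ^ 2 * k2 + x * k4 + k6
  · refine transcendental_iff_injective.2 fun p q h => hφ ?_
    rw [← hx, ← hx]
    exact h
  · set S := IntermediateField.adjoin ℂ
      {x, y + (algebraMap ℂ K W.a₁ * x + algebraMap ℂ K W.a₃) / 2} with hS
    have hxS : x ∈ S := subset_adjoin _ _ (by simp)
    have hyS : y ∈ S := by
      have h1 : y + (algebraMap ℂ K W.a₁ * x + algebraMap ℂ K W.a₃) / 2 ∈ S :=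
        subset_adjoin _ _ (by simp)
      have h3 : (algebraMap ℂ K W.a₁ * x + algebraMap ℂ K W.a₃) / 2 ∈ S :=
        div_mem (add_mem (mul_mem (S.algebraMap_mem _) hxS) (S.algebraMap_mem _))
          (by exact_mod_cast S.natCast_mem 2)
      simpa using sub_mem h1 h3
    have hp : ∀ p : Polynomial ℂ, φ p ∈ S := fun p => by
      rw [← hx]
      exact (Algebra.adjoin_le (S := S.toSubalgebra) (Set.singleton_subset_iff.2 hxS))
        (Polynomial.aeval_mem_adjoin_singleton ℂ x)
    have hA : ∀ a : A, ι a ∈ S := fun a => by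
      obtain ⟨p, q, rfl⟩ := CoordinateRing.exists_smul_basis_eq a
      rw [Algebra.smul_def, Algebra.smul_def, mul_one, map_add, map_mul]
      exact add_mem (hp p) (mul_mem (hp q) hyS)
    rw [eq_top_iff]
    intro z _
    obtain ⟨a, b, -, rfl⟩ := IsFractionRing.div_surjective A z
    exact div_mem (hA a) (hA b)

lemma isFF {K : Type} [Field K] [Algebra ℂ K] (M : WM K) : IsFF K := by
  have ht := M.tr
  set t := M.x with ht'
  have h3 : IsIntegral ℂ⟮t⟯ M.y := by
    refine IsIntegral.of_pow two_pos ?_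
    rw [M.eq]
    have : ∏ i, (M.x - algebraMap ℂ K (M.e i)) ∈ ℂ⟮t⟯ :=
      prod_mem fun i _ => sub_mem (mem_adjoin_simple_self ℂ t) (IntermediateField.algebraMap_mem _ _)
    exact isIntegral_algebraMap (x := (⟨_, this⟩ : ℂ⟮t⟯))
  have h4 : ℂ⟮t⟯⟮M.y⟯ = ⊤ := by
    rw [← restrictScalars_eq_top_iff (K := ℂ), adjoin_simple_adjoin_simple]
    exact M.top
  have : FiniteDimensional ℂ⟮t⟯ K := by
    have := adjoin.finiteDimensional h3
    rw [h4] at this
    exact Module.Finite.equiv (topEquiv (F := ℂ⟮t⟯) (E := K)).toLinearEquiv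
  let e := RatFunc.algEquivOfTranscendental t ht
  let _ : Algebra (RatFunc ℂ) K := ((algebraMap ℂ⟮t⟯ K).comp e.toRingEquiv.toRingHom).toAlgebra
  have : IsScalarTower ℂ (RatFunc ℂ) K := IsScalarTower.of_algebraMap_eq fun c => by
    change _ = algebraMap ℂ⟮t⟯ K (e (algebraMap ℂ _ c))
    rw [e.commutes]; rfl
  have : FiniteDimensional (RatFunc ℂ) K :=
    Module.Finite.of_equiv_equiv e.symm.toRingEquiv (RingEquiv.refl K) (RingHom.ext fun a => by
      change algebraMap ℂ⟮t⟯ K (e (e.symm a)) = _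
      rw [e.apply_symm_apply]; rfl)
  infer_instance

end WMx

theorem stWM : St_WM := by
  refine ⟨fun W hW => ?_, ?_, fun K _ _ M => WMx.isFF M⟩
  · have ha : W.twoTorsionPolynomial.a ≠ 0 := by
      change (4 : ℂ) ≠ 0
      norm_num
    obtain ⟨x, y, z, h3⟩ := (Cubic.splits_iff_roots_eq_three (φ := RingHom.id ℂ) ha).1
      (IsAlgClosed.splits _)
    obtain ⟨h1, h2, h4⟩ := (Cubic.discr_ne_zero_iff_roots_ne ha h3).1
      (W.twoTorsionPolynomial_discr_ne_zero_of_isElliptic (isUnit_iff_ne_zero.2 two_ne_zero))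
    obtain ⟨M, -⟩ := WMx.model W ![x, y, z]
      (by
        intro i j h
        fin_cases i <;> fin_cases j <;> simp_all [eq_comm])
      (Cubic.b_eq_three_roots ha h3) (Cubic.c_eq_three_roots ha h3) (Cubic.d_eq_three_roots ha h3)
    exact ⟨M⟩
  · obtain ⟨M, hM⟩ := WMx.model ⟨0, 0, 0, -1, 0⟩ ![0, 1, -1]
      (by
        intro i j h
        fin_cases i <;> fin_cases j <;> simp_all <;> norm_num at h)
      (by simp [WeierstrassCurve.b₂]) (by simp [WeierstrassCurve.b₄]; norm_num)
      (by simp [WeierstrassCurve.b₆])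
    exact ⟨_, _, _, M, hM⟩

end G1
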